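import Pool.Agent.Mg.Fd20a68.Gf90942

section

/-! Pairing the vertices along a spanning forest. -/

set_option autoImplicit false
set_option linter.unusedSectionVars false
set_option linter.unusedVariables false
open Finset
open scoped Classical

namespace Pool.Agent.MP_d20a68_co.Poly

variable {V : Type} [Fintype V]

/-- The property of a pairing inside a set closed under the parent map. -/
def GoodPair (par : V → V) (U : Finset V) (π : V → V) : Prop :=
  (∀ u, π (π u) = u) ∧ (∀ u, u ∉ U → π u = u) ∧ (∀ u ∈ U, π u ∈ U) ∧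
    ∀ u ∈ U, (π u = u → par u = u) ∧
      (π u = u ∨ π u = par u ∨ u = par (π u) ∨ par u = par (π u))

lemma goodPair_step (par : V → V) (U : Finset V) (u v : V) (hu : u ∈ U) (hv : v ∈ U)
    (huv : u ≠ v) (h : v = par u ∨ par u = par v) (π : V → V)
    (hπ : GoodPair par ((U.erase u).erase v) π) :
    GoodPair par U fun x => if x = u then v else if x = v then u else π x := by
  obtain ⟨h1, h2, h3, h4⟩ := hπ
  have hu' : π u = u := h2 u (by simp)
  have hv' : π v = v := h2 v (by simp)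
  have n1 : ∀ x, x ≠ u → π x ≠ u := fun x hx e => hx (by rw [← h1 x, e, hu'])
  have n2 : ∀ x, x ≠ v → π x ≠ v := fun x hx e => hx (by rw [← h1 x, e, hv'])
  refine ⟨fun x => ?_, fun x hx => ?_, fun x hx => ?_, fun x hx => ?_⟩
  · by_cases e1 : x = u
    · subst e1
      simp [huv.symm]
    · by_cases e2 : x = v
      · subst e2
        simp [e1]
      · simp [e1, e2, n1 x e1, n2 x e2, h1]
  · have e1 : x ≠ u := fun e => hx (e ▸ hu)
    have e2 : x ≠ v := fun e => hx (e ▸ hv)
    simp only [e1, e2, if_false]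
    exact h2 x fun h => hx (mem_of_mem_erase (mem_of_mem_erase h))
  · by_cases e1 : x = u
    · simp [e1, hv]
    · by_cases e2 : x = v
      · subst e2
        simp [e1, hu]
      · simp only [e1, e2, if_false]
        exact mem_of_mem_erase (mem_of_mem_erase (h3 x (by simp [e1, e2, hx])))
  · by_cases e1 : x = u
    · subst e1
      simp only [if_true]
      refine ⟨fun e => absurd e.symm huv, ?_⟩
      rcases h with h | h
      · exact Or.inr (Or.inl h)
      · exact Or.inr (Or.inr (Or.inr h))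
    · by_cases e2 : x = v
      · subst e2
        simp only [e1, if_false, if_true]
        refine ⟨fun e => absurd e huv, ?_⟩
        rcases h with h | h
        · exact Or.inr (Or.inr (Or.inl h))
        · exact Or.inr (Or.inr (Or.inr h.symm))
      · simp only [e1, e2, if_false]
        exact h4 x (by simp [e1, e2, hx])

lemma exists_goodPair (par : V → V) (rk : V → ℕ)
    (hrk : ∀ v, par v = v ∨ rk v = rk (par v) + 1) (n : ℕ) :
    ∀ U : Finset V, U.card = n → (∀ u ∈ U, par u ∈ U) → ∃ π, GoodPair par U π := by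
  induction n using Nat.strong_induction_on with
  | _ n ih =>
    intro U hU hcl
    by_cases hall : ∀ u ∈ U, par u = u
    · exact ⟨id, fun _ => rfl, fun _ _ => rfl, fun _ h => h,
        fun u hu => ⟨fun _ => hall u hu, Or.inl rfl⟩⟩
    · push Not at hall
      obtain ⟨u0, hu0, hp0⟩ := hall
      obtain ⟨u, hu, hmax⟩ := exists_max_image (U.filter fun w => par w ≠ w) rk
        ⟨u0, mem_filter.2 ⟨hu0, hp0⟩⟩
      obtain ⟨huU, hup⟩ := mem_filter.1 hu
      have hru : rk u = rk (par u) + 1 := (hrk u).resolve_left hup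
      have key : ∀ w ∈ U, ∀ z, rk z = rk u → w ≠ z → par w ≠ z := by
        intro w hw z hz hwz e
        have hw' : par w ≠ w := fun e' => hwz (e'.symm.trans e)
        have a1 := hmax w (mem_filter.2 ⟨hw, hw'⟩)
        have a2 := (hrk w).resolve_left hw'
        rw [e] at a2
        omega
      have fin : ∀ v ∈ U, u ≠ v → (v = par u ∨ par u = par v) →
          (∀ w ∈ U, w ≠ u → w ≠ v → par w ≠ v) → ∃ π, GoodPair par U π := by
        intro v hv huv h hc
        have hlt : ((U.erase u).erase v).card < n := by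
          rw [← hU]
          exact lt_of_le_of_lt card_erase_le (card_erase_lt_of_mem huU)
        obtain ⟨π, hπ⟩ := ih _ hlt ((U.erase u).erase v) rfl fun w hw => by
          simp only [mem_erase] at hw ⊢
          exact ⟨hc w hw.2.2 hw.2.1 hw.1, key w hw.2.2 u rfl hw.2.1, hcl w hw.2.2⟩
        exact ⟨_, goodPair_step par U u v huU hv huv h π hπ⟩
      by_cases hs : ∃ v ∈ U, v ≠ u ∧ par v ≠ v ∧ par v = par u
      · obtain ⟨v, hv, hvu, hvp, hve⟩ := hs
        have hrv : rk v = rk u := by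
          have := (hrk v).resolve_left hvp
          rw [hve] at this
          omega
        exact fin v hv hvu.symm (Or.inr hve.symm) fun w hw _ hwv => key w hw v hrv hwv
      · refine fin (par u) (hcl u huU) hup.symm (Or.inl rfl) fun w hw hwu hwp e => ?_
        exact hs ⟨w, hw, hwu, fun e' => hwp (e'.symm.trans e), e⟩

lemma exists_forest_pair (H : SimpleGraph V) :
    ∃ (par rho : V → V) (rk : V → ℕ), (∀ v, par v = v ∨ rk v = rk (par v) + 1) ∧
      (∀ v, par v ≠ v → H.Adj v (par v)) ∧ (∀ v, par v = v → rho v = v) ∧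
      ∀ u v, H.Adj u v → rho u = rho v := by
  let rho : V → V := fun v => (H.connectedComponentMk v).out
  have hadj : ∀ u v, H.Adj u v → rho u = rho v := fun u v h => by
    simp only [rho, SimpleGraph.ConnectedComponent.connectedComponentMk_eq_of_adj h]
  have hreach : ∀ v, H.Reachable v (rho v) := fun v =>
    SimpleGraph.ConnectedComponent.exact (Quot.out_eq (H.connectedComponentMk v)).symm
  have hex : ∀ v, ∃ p, (p = v ∧ rho v = v) ∨
      (H.Adj v p ∧ H.dist v (rho v) = H.dist p (rho p) + 1) := by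
    intro v
    by_cases e : rho v = v
    · exact ⟨v, Or.inl ⟨rfl, e⟩⟩
    · obtain ⟨w, hw⟩ := (hreach v).exists_walk_length_eq_dist
      obtain ⟨p, hp, w', rfl⟩ := w.exists_eq_cons_of_ne (Ne.symm e)
      refine ⟨p, Or.inr ⟨hp, ?_⟩⟩
      rw [← hadj v p hp]
      have a1 := SimpleGraph.dist_le w'
      have a2 := hp.reachable.dist_triangle_left (rho v)
      rw [SimpleGraph.dist_eq_one_iff_adj.2 hp] at a2
      simp only [SimpleGraph.Walk.length_cons] at hw
      omega
  choose par hpar using hex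
  refine ⟨par, rho, fun v => H.dist v (rho v), fun v => ?_, fun v hv => ?_, fun v hv => ?_, hadj⟩
  · rcases hpar v with h | h
    · exact Or.inl h.1
    · exact Or.inr h.2
  · rcases hpar v with h | h
    · exact absurd h.1 hv
    · exact h.1
  · rcases hpar v with h | h
    · exact h.2
    · exact absurd hv h.1.ne'

theorem pair : PairStmt := by
  intro V _ H c hc
  obtain ⟨par, rho, rk, h1, h2, h3, h4⟩ := exists_forest_pair H
  obtain ⟨π, p1, -, -, p4⟩ := exists_goodPair par rk h1 _ univ rfl fun u _ => mem_univ _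
  refine ⟨π, p1, fun a => ?_⟩
  have h5 : ∀ v, rho (par v) = rho v := fun v => by
    by_cases e : par v = v
    · rw [e]
    · exact (h4 _ _ (h2 v e)).symm
  set A : Finset V := univ.filter fun x => a x ≠ a (par x) with hA
  have hAc : A.card ≤ cut H a := by
    refine card_le_card_of_injOn (fun x => (x, par x)) (fun x hx => ?_) fun x _ y _ e =>
      congrArg Prod.fst e
    have hx' : a x ≠ a (par x) := (mem_filter.1 hx).2
    exact mem_coe.2 (mem_filter.2 ⟨mem_univ _, h2 x fun e => hx' (by rw [e]), hx'⟩)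
  set B : Finset V := univ.filter fun u =>
    rho u = u ∧ a u ≠ 0 ∧ ∀ x, rho x = u → a x = a (par x) with hB
  have hsub : sepS π a ⊆ ((A ∪ A.image π) ∪ A.image rho) ∪ B := by
    intro u hu
    have memA : ∀ x, a x ≠ a (par x) → x ∈ A := fun x hx => mem_filter.2 ⟨mem_univ _, hx⟩
    have im : π u ∈ A → u ∈ A.image π := fun h => mem_image.2 ⟨_, h, p1 u⟩
    simp only [mem_union]
    obtain ⟨q1, q2⟩ := p4 u (mem_univ _)
    rcases (mem_filter.1 hu).2 with h | h
    · refine Or.inl (Or.inl ?_)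
      rcases q2 with e | e | e | e
      · exact absurd (by rw [e]) h
      · exact Or.inl (memA u (by rw [← e]; exact h))
      · exact Or.inr (im (memA _ (by rw [← e]; exact h.symm)))
      · by_cases e' : a u = a (par u)
        · exact Or.inr (im (memA _ (by rw [← e, ← e']; exact h.symm)))
        · exact Or.inl (memA u e')
    · have r := h3 u (q1 h.1)
      by_cases e : ∀ x, rho x = u → a x = a (par x)
      · exact Or.inr (mem_filter.2 ⟨mem_univ _, r, h.2, e⟩)
      · push Not at e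
        obtain ⟨x, hx, hx'⟩ := e
        exact Or.inl (Or.inr (mem_image.2 ⟨x, memA x hx', hx⟩))
  have hconst : ∀ u ∈ B, ∀ n, ∀ x, rk x = n → rho x = u → a x = a u := by
    intro u hu n
    obtain ⟨-, -, -, b3⟩ := mem_filter.1 hu
    induction n using Nat.strong_induction_on with
    | _ n ih =>
      intro x hx hr
      rcases h1 x with e | e
      · rw [← hr, h3 x e]
      · rw [b3 x hr]
        exact ih (rk (par x)) (by omega) _ rfl ((h5 x).trans hr)
  have hBc : c * B.card ≤ (univ.filter fun u => a u ≠ 0).card := by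
    have e1 : (univ.filter fun x => rho x ∈ B).card =
        ∑ u ∈ B, ((univ.filter fun x => rho x ∈ B).filter fun x => rho x = u).card :=
      card_eq_sum_card_fiberwise fun x hx => (mem_filter.1 hx).2
    have e2 : c * B.card ≤ (univ.filter fun x => rho x ∈ B).card := by
      rw [e1, mul_comm, ← smul_eq_mul]
      refine card_nsmul_le_sum _ _ _ fun u hu => hc _ ⟨u, ?_⟩ fun x hx y hxy => ?_
      · have := (mem_filter.1 hu).2.1
        simp only [mem_filter, mem_univ, true_and]
        exact ⟨by rw [this]; exact hu, this⟩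
      · simp only [mem_filter, mem_univ, true_and] at hx ⊢
        rw [← h4 x y hxy]
        exact hx
    refine e2.trans (card_le_card fun x hx => mem_filter.2 ⟨mem_univ _, ?_⟩)
    have hx' := (mem_filter.1 hx).2
    rw [hconst _ hx' _ x rfl rfl]
    exact (mem_filter.1 hx').2.2.1
  have hcard : (sepS π a).card ≤ 3 * A.card + B.card := by
    have t1 := card_le_card hsub
    have t2 := card_union_le ((A ∪ A.image π) ∪ A.image rho) B
    have t3 := card_union_le (A ∪ A.image π) (A.image rho)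
    have t4 := card_union_le A (A.image π)
    have t5 : (A.image π).card ≤ A.card := card_image_le
    have t6 : (A.image rho).card ≤ A.card := card_image_le
    omega
  calc c * (sepS π a).card ≤ c * (3 * cut H a + B.card) :=
        Nat.mul_le_mul_left _ (by omega)
    _ = 3 * c * cut H a + c * B.card := by ring
    _ ≤ _ := by omega

end Pool.Agent.MP_d20a68_co.Poly

end

section

/-! A sparse subgraph with large components that samples the boundaries. -/

set_option autoImplicit false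
set_option linter.unusedSectionVars false
set_option linter.unusedVariables false
open Finset
open scoped Classical

namespace Pool.Agent.MP_d20a68_co.Poly

variable {V : Type} [Fintype V] {G : SimpleGraph V} {D L : ℕ}

/-- The ordered edges on which `a` changes. -/
noncomputable def chgB (G : SimpleGraph V) (a : V → ℕ) : Finset (V × V) :=
  univ.filter fun e => G.Adj e.1 e.2 ∧ a e.1 ≠ a e.2

/-- The ordered edges leaving `C`. -/
noncomputable def outB (G : SimpleGraph V) (C : Finset V) : Finset (V × V) :=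
  univ.filter fun e => G.Adj e.1 e.2 ∧ e.1 ∈ C ∧ e.2 ∉ C

lemma mem_chgB {a : V → ℕ} {e : V × V} : e ∈ chgB G a ↔ G.Adj e.1 e.2 ∧ a e.1 ≠ a e.2 := by
  simp [chgB]

lemma mem_outB {C : Finset V} {e : V × V} :
    e ∈ outB G C ↔ G.Adj e.1 e.2 ∧ e.1 ∈ C ∧ e.2 ∉ C := by simp [outB]

lemma card_chgB (T : Finset (V × Bool)) : (chgB G (wt T)).card ≤ 2 * (bd G T).card := by
  calc _ ≤ ((bd G T).image (fun e => (e.1.1, e.2.1)) ∪
        (bd G T).image (fun e => (e.2.1, e.1.1))).card := card_le_card fun e he => by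
          obtain ⟨h1, h2⟩ := mem_chgB.1 he
          by_contra hn
          rw [mem_union, not_or] at hn
          have a : ∀ s, (e.1, s) ∈ T → (e.2, !s) ∈ T := fun s h => by
            by_contra h'
            exact hn.1 (mem_image.2 ⟨((e.1, s), (e.2, !s)), mem_bd.2 ⟨h, h', h1, by simp⟩, rfl⟩)
          have b : ∀ s, (e.2, s) ∈ T → (e.1, !s) ∈ T := fun s h => by
            by_contra h'
            exact hn.2 (mem_image.2 ⟨((e.2, s), (e.1, !s)),
              mem_bd.2 ⟨h, h', h1.symm, by simp⟩, rfl⟩)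
          have c1 : (e.1, true) ∈ T ↔ (e.2, false) ∈ T := ⟨a true, b false⟩
          have c2 : (e.1, false) ∈ T ↔ (e.2, true) ∈ T := ⟨a false, b true⟩
          apply h2
          unfold wt
          simp only [c1, c2]
          exact add_comm _ _
    _ ≤ _ := (card_union_le _ _).trans (Nat.add_le_add card_image_le card_image_le)
    _ = _ := (two_mul _).symm

lemma card_outB (hD : ∀ v, dg G v = D) (C : Finset V) (hC : C.card ≤ D / 2) :
    C.card * D ≤ 2 * (outB G C).card := by
  have h1 : ∀ u ∈ C, D ≤ 2 * ((outB G C).filter fun e => e.1 = u).card := fun u hu => by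
    have h2 : (nb G u).card ≤ C.card + ((outB G C).filter fun e => e.1 = u).card := by
      refine le_trans (card_le_card fun v hv => ?_) ((card_union_le C
        (((outB G C).filter fun e => e.1 = u).image Prod.snd)).trans
        (Nat.add_le_add_left card_image_le _))
      by_cases h : v ∈ C
      · exact mem_union_left _ h
      · exact mem_union_right _ (mem_image.2 ⟨(u, v), mem_filter.2
          ⟨mem_outB.2 ⟨mem_nb.1 hv, hu, h⟩, rfl⟩, rfl⟩)
    have := hD u
    unfold dg at this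
    omega
  have h3 : (outB G C).card = ∑ u ∈ C, ((outB G C).filter fun e => e.1 = u).card :=
    card_eq_sum_card_fiberwise fun e he => mem_coe.2 (mem_outB.1 (mem_coe.1 he)).2.1
  rw [h3, mul_sum, ← smul_eq_mul, ← sum_const]
  exact sum_le_sum h1

/-- The variables near a lift. -/
def NearB (G : SimpleGraph V) (z : V × Bool) (e : V × V) : Prop := G.Adj e.1 e.2 ∧ Adj2 G z.1 e.1

lemma cut_eqB (H : SimpleGraph V) (a : V → ℕ) : cut H a = (chgB H a).card := rfl

theorem sparse (h1 : ClusterStmt) (h2 : SelStmt) : SparseStmt := by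
  intro V _ G D L hP hD
  have hD0 := hP.pos
  have hD0' : (0 : ℝ) < D := by exact_mod_cast hD0
  have hD' : ∀ v, dg G v ≤ D := fun v => (hD v).le
  have ht : 176 * L ≤ D := by
    have a := hP.big
    have b : L ≤ L ^ 4 := Nat.le_self_pow (by norm_num) L
    omega
  have : Nonempty (Fin D) := ⟨⟨0, hD0⟩⟩
  obtain ⟨ω, hω⟩ := h1 (V × Bool) (V × V) (Fin D) (Rel G) (NearB G)
    (fun φ ω => (2 * ((176 * L : ℕ) : ℝ) * (chgB G (wt (hat G φ))).card / D + 44 * L * φ.card ≤
        (((chgB G (wt (hat G φ))).filter fun i => (ω i).val < 176 * L).card : ℝ)) ∨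
      ((φ.image Prod.fst).card ≤ D / 2 ∧ ∀ i ∈ outB G (φ.image Prod.fst), ¬ (ω i).val < 176 * L))
    (2 ^ (3 * L + 4)) (two_le_M L) (fun z w h => h.symm)
    (fun z => (card_rel hD' z).trans hP.cube)
    (fun z => by
      calc _ ≤ ((univ.filter fun u => Adj2 G z.1 u).biUnion fun u =>
            (nb G u).image fun v => (u, v)).card := card_le_card fun e he => by
              obtain ⟨a, b⟩ := (mem_filter.1 he).2
              exact mem_biUnion.2 ⟨e.1, mem_filter.2 ⟨mem_univ _, b⟩,
                mem_image.2 ⟨e.2, mem_nb.2 a, rfl⟩⟩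
        _ ≤ _ := card_biUnion_le_card_mul _ _ D fun u _ => card_image_le.trans (hD' u)
        _ ≤ (D + 1) ^ 2 * D := Nat.mul_le_mul_right _ (card_adj2 hD' z.1)
        _ ≤ 2 * (D + 1) ^ 3 := by nlinarith [Nat.zero_le ((D + 1) ^ 2)]
        _ ≤ _ := hP.cube)
    (fun e => by
      refine (card_lift (fun v => Adj2 G e.1 v) (fun z => NearB G z e)
        fun z h => h.2.symm).trans ?_
      have := card_adj2 hD' e.1
      have := hP.sq
      omega)
    (fun φ _ => by
      refine Dep.or (fun ω ω' h hω => hω.trans_eq ?_) fun ω ω' h hω => ⟨hω.1, fun i hi => ?_⟩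
      · congr 2
        refine filter_congr fun e he => ?_
        obtain ⟨a, b⟩ := mem_chgB.1 he
        rw [h e ?_]
        by_cases c : wt (hat G φ) e.1 = 0
        · obtain ⟨s, hs⟩ := wt_ne_zero.1 (fun h => b (c.trans h.symm) : wt (hat G φ) e.2 ≠ 0)
          obtain ⟨w, w1, w2⟩ := mem_hat.1 hs
          exact ⟨w, w1, a, e.2, Or.inr w2.1.symm, Or.inr a.symm⟩
        · obtain ⟨s, hs⟩ := wt_ne_zero.1 c
          obtain ⟨w, w1, w2⟩ := mem_hat.1 hs
          exact ⟨w, w1, a, Adj0.adj2 (Or.inr w2.1.symm)⟩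
      · obtain ⟨a, b, c⟩ := mem_outB.1 hi
        obtain ⟨z, z1, z2⟩ := mem_image.1 b
        rw [← h i ⟨z, z1, a, Adj0.adj2 (Or.inl z2)⟩]
        exact hω.2 i hi)
    (fun φ hφ => by
      have hj : 1 ≤ φ.card := card_pos.2 hφ.1
      refine (pr_or_le _ _).trans (le_trans ?_ (four_exp_le hP.one hj))
      have a := (h2 (V × V) D (176 * L) hD0 ht (chgB G (wt (hat G φ)))).2 (44 * L * φ.card)
      have b : pr (fun ω : V × V → Fin D => (φ.image Prod.fst).card ≤ D / 2 ∧
          ∀ i ∈ outB G (φ.image Prod.fst), ¬ (ω i).val < 176 * L) ≤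
          Real.exp (-(44 * (L : ℝ) * φ.card)) := by
        by_cases hC : (φ.image Prod.fst).card ≤ D / 2
        · refine (pr_mono fun ω h => h.2).trans
            (((h2 (V × V) D (176 * L) hD0 ht _).1).trans (Real.exp_le_exp.2 ?_))
          have c1 := card_outB hD _ hC
          have c2 : φ.card ≤ 2 * (φ.image Prod.fst).card := by
            refine card_le_mul_card_image φ 2 fun v _ => ?_
            refine le_trans (card_le_card (t := {(v, true), (v, false)}) fun z hz => ?_) card_le_two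
            obtain ⟨u, s⟩ := z
            have : u = v := (mem_filter.1 hz).2
            cases s <;> simp [this]
          have c3 : φ.card * D ≤ 4 * (outB G (φ.image Prod.fst)).card := by nlinarith
          have c4 : (φ.card : ℝ) * D ≤ 4 * (outB G (φ.image Prod.fst)).card := by exact_mod_cast c3
          rw [neg_le_neg_iff, le_div_iff₀ hD0']
          push_cast
          nlinarith [Nat.cast_nonneg (α := ℝ) L]
        · rw [pr_false fun ω h => hC h.1]
          exact (Real.exp_pos _).le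
      linarith [Real.exp_pos (-(44 * (L : ℝ) * φ.card))])
  let H : SimpleGraph V :=
    { Adj := fun u v => G.Adj u v ∧ ((ω (u, v)).val < 176 * L ∨ (ω (v, u)).val < 176 * L)
      symm := ⟨fun _ _ h => ⟨h.1.symm, h.2.symm⟩⟩
      loopless := ⟨fun _ h => h.1.ne rfl⟩ }
  refine ⟨H, fun C hC hcl => ?_, fun φ hφ => ?_⟩
  · by_contra hn
    have key := conn_induction (Rel G) (fun φ => (φ.image Prod.fst).card ≤ D / 2 →
      (∀ u ∈ φ.image Prod.fst, ∀ v, H.Adj u v → v ∈ φ.image Prod.fst) → φ = ∅)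
      (fun _ _ => rfl) (fun φ hφ a b => (hω φ hφ (Or.inr ⟨a, fun i hi hs => by
        obtain ⟨c, d, e⟩ := mem_outB.1 hi
        exact e (b _ d _ ⟨c, Or.inl hs⟩)⟩)).elim)
      (fun φ ψ χ a _ b _ c d _ e f => by
        have hsub : φ ⊆ χ := fun z hz => (a z).2 (Or.inl hz)
        refine absurd (d ((card_le_card (image_subset_image hsub)).trans e) fun u hu v huv => ?_)
          b.ne_empty
        obtain ⟨w, w1, w2⟩ := mem_image.1 (f u (image_subset_image hsub hu) v huv)
        obtain ⟨z, z1, z2⟩ := mem_image.1 hu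
        rcases (a w).1 w1 with w3 | w3
        · exact mem_image.2 ⟨w, w3, w2⟩
        · exact (c z z1 w w3 (rel_of_adj2 (Adj0.adj2 (Or.inr (by rw [z2, w2]; exact huv.1))))).elim)
      (C.image fun v => (v, true))
    have e : (C.image fun v => (v, true)).image Prod.fst = C := by
      rw [image_image]
      exact image_id
    rw [e] at key
    exact (hC.image _).ne_empty (key (by omega) hcl)
  · have a := not_le.1 fun h => hω φ hφ (Or.inl h)
    have b : cut H (wt (hat G φ)) ≤
        2 * ((chgB G (wt (hat G φ))).filter fun i => (ω i).val < 176 * L).card := by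
      rw [two_mul, cut_eqB]
      refine le_trans (card_le_card fun e he => ?_) ((card_union_le
        ((chgB G (wt (hat G φ))).filter fun i => (ω i).val < 176 * L)
        (((chgB G (wt (hat G φ))).filter fun i => (ω i).val < 176 * L).image Prod.swap)).trans
        (Nat.add_le_add_left card_image_le _))
      obtain ⟨⟨c, d⟩, f⟩ := mem_chgB.1 he
      rcases d with d | d
      · exact mem_union_left _ (mem_filter.2 ⟨mem_chgB.2 ⟨c, f⟩, d⟩)
      · exact mem_union_right _ (mem_image.2 ⟨e.swap,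
          mem_filter.2 ⟨mem_chgB.2 ⟨c.symm, f.symm⟩, d⟩, rfl⟩)
    have b' : (cut H (wt (hat G φ)) : ℝ) ≤
        2 * ((chgB G (wt (hat G φ))).filter fun i => (ω i).val < 176 * L).card := by
      exact_mod_cast b
    have c : ((chgB G (wt (hat G φ))).card : ℝ) ≤ 2 * (bd G (hat G φ)).card := by
      exact_mod_cast card_chgB (hat G φ)
    have d : 2 * ((176 * L : ℕ) : ℝ) * (chgB G (wt (hat G φ))).card / D ≤
        704 * L * (bd G (hat G φ)).card / D := by
      refine div_le_div_of_nonneg_right ?_ hD0'.le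
      push_cast
      nlinarith [Nat.cast_nonneg (α := ℝ) L]
    have e : (1408 : ℝ) * L * (bd G (hat G φ)).card / D =
        2 * (704 * L * (bd G (hat G φ)).card / D) := by ring
    rw [e]
    linarith

end Pool.Agent.MP_d20a68_co.Poly

end

section

/-! The basic identity for the signed degrees and the bounded differences. -/

set_option autoImplicit false
set_option linter.unusedSectionVars false
set_option linter.unusedVariables false
set_option linter.unnecessarySeqFocus false
open Finset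
open scoped Classical

namespace Pool.Agent.MP_d20a68_co.Poly

variable {V : Type} [Fintype V] {G : SimpleGraph V} {D : ℕ}

lemma hv_eq_p7 (hD : ∀ v, dg G v = D) (σ : V → Bool) (z : V × Bool) (hz : σ z.1 = z.2) :
    hv G σ z.1 = D * sg z.2 -
      2 * ∑ w : V × Bool, if AdjT G z w ∧ σ w.1 = w.2 then sg z.2 else 0 := by
  have h1 : (D : ℝ) * sg z.2 = ∑ u : V, if G.Adj z.1 u then sg z.2 else 0 := by
    rw [← sum_filter, sum_const, nsmul_eq_mul, ← hD z.1]
    rfl
  have h2 : hv G σ z.1 = ∑ u : V, if G.Adj z.1 u then sg (σ u) else 0 := by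
    rw [← sum_filter]
    rfl
  rw [h1, h2, Fintype.sum_prod_type, mul_sum, ← sum_sub_distrib]
  refine sum_congr rfl fun u _ => ?_
  rw [Fintype.sum_bool]
  unfold AdjT
  by_cases ha : G.Adj z.1 u
  · obtain ⟨v, s⟩ := z
    cases s <;> cases hu : σ u <;> simp [ha, sg] <;> norm_num
  · simp [ha]

theorem hsId : HsStmt := by
  intro V _ G D hD σ T
  unfold hs
  rw [sum_congr rfl fun z hz => hv_eq_p7 hD σ z (mem_filter.1 hz).2, sum_sub_distrib, ← mul_sum,
    ← mul_sum]
  congr 2
  let f : (V × Bool) × (V × Bool) → ℝ := fun e =>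
    if e.1 ∈ T ∧ e.2 ∈ T ∧ AdjT G e.1 e.2 ∧ σ e.1.1 = e.1.2 ∧ σ e.2.1 = e.2.2 then sg e.1.2 else 0
  have hf : ∑ e, f e = 0 := by
    have h1 : ∑ e, f (Prod.swap e) = ∑ e, f e := Equiv.sum_comp (Equiv.prodComm _ _) f
    have h2 : ∀ e, f (Prod.swap e) = - f e := by
      intro e
      simp only [f, Prod.fst_swap, Prod.snd_swap]
      by_cases h : e.1 ∈ T ∧ e.2 ∈ T ∧ AdjT G e.1 e.2 ∧ σ e.1.1 = e.1.2 ∧ σ e.2.1 = e.2.2
      · rw [if_pos h, if_pos ⟨h.2.1, h.1, h.2.2.1.symm, h.2.2.2.2, h.2.2.2.1⟩,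
          sg_of_ne h.2.2.1.2.symm]
      · rw [if_neg h, if_neg fun h' => h ⟨h'.2.1, h'.1, h'.2.2.1.symm, h'.2.2.2.2, h'.2.2.2.1⟩,
          neg_zero]
    simp only [h2, sum_neg_distrib] at h1
    linarith
  have h3 : ∑ e ∈ bs G σ T, sg e.1.2 = ∑ e, if e ∈ bs G σ T then sg e.1.2 else 0 := by
    rw [← sum_filter]
    congr 1
    ext e
    simp only [mem_filter, mem_univ, true_and]
  have h4 : (∑ z ∈ T.filter (fun z => σ z.1 = z.2),
      ∑ w : V × Bool, if AdjT G z w ∧ σ w.1 = w.2 then sg z.2 else 0) =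
      ∑ z, if z ∈ T ∧ σ z.1 = z.2 then
        ∑ w : V × Bool, (if AdjT G z w ∧ σ w.1 = w.2 then sg z.2 else 0) else 0 := by
    rw [← sum_filter]
    congr 1
    ext e
    simp only [mem_filter, mem_univ, true_and]
  have h5 : (∑ e, if e ∈ bs G σ T then sg e.1.2 else 0) =
      ∑ e, (f e + if e ∈ bs G σ T then sg e.1.2 else 0) := by
    rw [sum_add_distrib, hf, zero_add]
  rw [h4, h3, h5,
    Fintype.sum_prod_type (f := fun e => f e + if e ∈ bs G σ T then sg e.1.2 else 0)]
  refine sum_congr rfl fun z _ => ?_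
  by_cases hz : z ∈ T ∧ σ z.1 = z.2
  · rw [if_pos hz]
    refine sum_congr rfl fun w _ => ?_
    simp only [f, mem_bs]
    by_cases h1 : AdjT G z w <;> by_cases h2 : σ w.1 = w.2 <;> by_cases h5 : w ∈ T <;>
      simp [h1, h2, h5, hz.1, hz.2]
  · rw [if_neg hz]
    refine (sum_eq_zero fun w _ => ?_).symm
    simp only [f, mem_bs]
    rw [if_neg fun h => hz ⟨h.1, h.2.2.2.1⟩, if_neg fun h => hz ⟨h.1.1, h.2.1⟩, add_zero]

/-- The number of leaving edges at a lift. -/
noncomputable def gamP7 (G : SimpleGraph V) (T : Finset (V × Bool)) (z : V × Bool) : ℝ :=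
  ∑ e ∈ bd G T, ((if e.1 = z then 1 else 0) + (if e.2 = z then 1 else 0))

lemma gam_nonneg_p7 (T : Finset (V × Bool)) (z : V × Bool) : 0 ≤ gamP7 G T z :=
  sum_nonneg fun e _ => by split_ifs <;> norm_num

lemma gam_le_p7 (hD : ∀ v, dg G v = D) (T : Finset (V × Bool)) (z : V × Bool) :
    gamP7 G T z ≤ D := by
  unfold gamP7
  rw [sum_add_distrib, sum_boole, sum_boole, ← hD z.1, ← card_adjT z]
  by_cases hz : z ∈ T
  · have h1 : (bd G T).filter (fun e => e.2 = z) = ∅ :=
      filter_eq_empty_iff.2 fun e he h => (mem_bd.1 he).2.1 (h ▸ hz)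
    rw [h1, card_empty, Nat.cast_zero, add_zero, Nat.cast_le]
    refine card_le_card_of_injOn (fun e => e.2) (fun e he => ?_) fun e he e' he' h => ?_
    · obtain ⟨a, b⟩ := mem_filter.1 (mem_coe.1 he)
      exact mem_coe.2 (mem_filter.2 ⟨mem_univ _, b ▸ (mem_bd.1 a).2.2⟩)
    · exact Prod.ext ((mem_filter.1 (mem_coe.1 he)).2.trans
        (mem_filter.1 (mem_coe.1 he')).2.symm) h
  · have h1 : (bd G T).filter (fun e => e.1 = z) = ∅ :=
      filter_eq_empty_iff.2 fun e he h => hz (h ▸ (mem_bd.1 he).1)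
    rw [h1, card_empty, Nat.cast_zero, zero_add, Nat.cast_le]
    refine card_le_card_of_injOn (fun e => e.1) (fun e he => ?_) fun e he e' he' h => ?_
    · obtain ⟨a, b⟩ := mem_filter.1 (mem_coe.1 he)
      exact mem_coe.2 (mem_filter.2 ⟨mem_univ _, b ▸ (mem_bd.1 a).2.2.symm⟩)
    · exact Prod.ext h ((mem_filter.1 (mem_coe.1 he)).2.trans
        (mem_filter.1 (mem_coe.1 he')).2.symm)

lemma sum_gam_p7 (T : Finset (V × Bool)) : ∑ z, gamP7 G T z = 2 * (bd G T).card := by
  unfold gamP7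
  rw [sum_comm, sum_congr rfl (g := fun _ => (2 : ℝ)) fun e _ => ?_, sum_const, nsmul_eq_mul,
    mul_comm]
  rw [sum_add_distrib]
  simp only [sum_ite_eq, mem_univ, if_true]
  norm_num

/-- The number of leaving edges at a vertex. -/
noncomputable def betP7 (G : SimpleGraph V) (T : Finset (V × Bool)) (v : V) : ℝ :=
  gamP7 G T (v, true) + gamP7 G T (v, false)

lemma sum_bet_p7 (T : Finset (V × Bool)) : ∑ v, betP7 G T v = 2 * (bd G T).card := by
  rw [← sum_gam_p7, Fintype.sum_prod_type]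
  exact sum_congr rfl fun v _ => by rw [Fintype.sum_bool]; rfl

/-- The number of ends of an edge over a vertex. -/
noncomputable def indP7 (e : (V × Bool) × (V × Bool)) (v : V) : ℝ :=
  ((if e.1 = (v, true) then 1 else 0) + (if e.2 = (v, true) then 1 else 0)) +
    ((if e.1 = (v, false) then 1 else 0) + (if e.2 = (v, false) then 1 else 0))

lemma ind_nonneg_p7 (e : (V × Bool) × (V × Bool)) (v : V) : 0 ≤ indP7 e v := by
  unfold indP7; split_ifs <;> norm_num

lemma one_le_ind_p7 (e : (V × Bool) × (V × Bool)) (v : V) (h : e.1.1 = v ∨ e.2.1 = v) :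
    1 ≤ indP7 e v := by
  obtain ⟨⟨a, s⟩, ⟨b, t⟩⟩ := e
  unfold indP7
  rcases h with h | h <;> simp only at h <;> subst h <;> cases s <;> cases t <;> simp <;>
    split_ifs <;> norm_num

lemma bet_eq_p7 (T : Finset (V × Bool)) (v : V) : betP7 G T v = ∑ e ∈ bd G T, indP7 e v := by
  unfold betP7 gamP7 indP7
  rw [← sum_add_distrib]

lemma sel_sub_p7 (T : Finset (V × Bool)) (σ σ' : V → Bool) :
    ∑ z ∈ T.filter (fun z => σ z.1 = z.2), sg z.2 - ∑ z ∈ T.filter (fun z => σ' z.1 = z.2), sg z.2 =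
      ∑ v, (wt T v : ℝ) * ((sg (σ v) - sg (σ' v)) / 2) := by
  have h : ∀ τ : V → Bool, ∑ z ∈ T.filter (fun z => τ z.1 = z.2), sg z.2 =
      ∑ z : V × Bool, if z ∈ T ∧ τ z.1 = z.2 then sg z.2 else 0 := by
    intro τ
    rw [← sum_filter]
    congr 1
    ext e
    simp only [mem_filter, mem_univ, true_and]
  rw [h, h, ← sum_sub_distrib, Fintype.sum_prod_type]
  refine sum_congr rfl fun v _ => ?_
  rw [Fintype.sum_bool]
  unfold wt
  by_cases h1 : (v, true) ∈ T <;> by_cases h2 : (v, false) ∈ T <;> cases h3 : σ v <;>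
    cases h4 : σ' v <;> simp [h1, h2, sg] <;> norm_num

lemma sel_lip_p7 {π : V → V} (hπ : ∀ u, π (π u) = u) (T : Finset (V × Bool)) (i : V)
    (ε ε' : V → Bool) (h : ∀ v, v ≠ i → v ≠ π i → sig π ε v = sig π ε' v) :
    |∑ v, (wt T v : ℝ) * ((sg (sig π ε v) - sg (sig π ε' v)) / 2)| ≤
      2 * (if i ∈ sepS π (wt T) then 1 else 0) := by
  have ha : |(sg (sig π ε i) - sg (sig π ε' i)) / 2| ≤ 1 := by
    cases sig π ε i <;> cases sig π ε' i <;> simp [sg] <;> norm_num
  have hw : ∀ v, (0 : ℝ) ≤ wt T v ∧ (wt T v : ℝ) ≤ 2 := fun v =>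
    ⟨Nat.cast_nonneg _, by exact_mod_cast wt_le T v⟩
  by_cases hi : π i = i
  · rw [sum_eq_single i (fun v _ hv => by rw [h v hv (by rwa [hi]), sub_self, zero_div, mul_zero])
      (fun h => absurd (mem_univ _) h), abs_mul, abs_of_nonneg (hw i).1]
    split_ifs with hs
    · nlinarith [hw i, abs_nonneg ((sg (sig π ε i) - sg (sig π ε' i)) / 2)]
    · have : wt T i = 0 := by
        by_contra hn
        exact hs (mem_sepS.2 (Or.inr ⟨hi, hn⟩))
      rw [this]; simp
  · rw [← sum_subset (subset_univ {i, π i}) (fun v _ hv => by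
      rw [mem_insert, mem_singleton, not_or] at hv
      rw [h v hv.1 hv.2, sub_self, zero_div, mul_zero]), sum_pair (Ne.symm hi), sig_pi hπ ε hi,
      sig_pi hπ ε' hi, sg_not, sg_not]
    have he : (wt T i : ℝ) * ((sg (sig π ε i) - sg (sig π ε' i)) / 2) +
        (wt T (π i) : ℝ) * ((-sg (sig π ε i) - -sg (sig π ε' i)) / 2) =
        ((wt T i : ℝ) - wt T (π i)) * ((sg (sig π ε i) - sg (sig π ε' i)) / 2) := by ring
    rw [he, abs_mul]
    split_ifs with hs
    · have : |(wt T i : ℝ) - wt T (π i)| ≤ 2 := by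
        rw [abs_le]; constructor <;> linarith [hw i, hw (π i)]
      nlinarith [abs_nonneg ((sg (sig π ε i) - sg (sig π ε' i)) / 2),
        abs_nonneg ((wt T i : ℝ) - wt T (π i))]
    · have : wt T i = wt T (π i) := by
        by_contra hn
        exact hs (mem_sepS.2 (Or.inl hn))
      rw [this]; simp

lemma bs_sum_p7 (σ : V → Bool) (T : Finset (V × Bool)) (κ θ : ℝ) :
    κ * (2 * ∑ e ∈ bs G σ T, sg e.1.2) + θ * (bs G σ T).card =
      ∑ e ∈ bd G T, if σ e.1.1 = e.1.2 ∧ σ e.2.1 = e.2.2 then 2 * κ * sg e.1.2 + θ else 0 := by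
  rw [← sum_filter, sum_add_distrib, sum_const, nsmul_eq_mul, ← mul_sum]
  unfold bs
  ring

theorem lip : LipStmt := by
  intro V _ G D hD π hπ T κ θ hκ h0 h1
  refine ⟨fun i => 2 * D * (if i ∈ sepS π (wt T) then 1 else 0) +
    3 * (betP7 G T i + betP7 G T (π i)), fun i ε ε' hε => ?_, ?_⟩
  · have hσ : ∀ v, v ≠ i → v ≠ π i → sig π ε v = sig π ε' v := by
      intro v a b
      refine sig_congr (hε _ fun h => ?_)
      rcases rep_eq π v with c | c <;> rw [c] at h
      · exact a h
      · exact b (by rw [← h, hπ])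
    have e1 := sel_lip_p7 hπ T i ε ε' hσ
    rw [← sel_sub_p7] at e1
    have e2 : |(∑ e ∈ bd G T, if sig π ε e.1.1 = e.1.2 ∧ sig π ε e.2.1 = e.2.2 then
          2 * κ * sg e.1.2 + θ else 0) -
        ∑ e ∈ bd G T, if sig π ε' e.1.1 = e.1.2 ∧ sig π ε' e.2.1 = e.2.2 then
          2 * κ * sg e.1.2 + θ else 0| ≤ 3 * (betP7 G T i + betP7 G T (π i)) := by
      rw [← sum_sub_distrib, bet_eq_p7, bet_eq_p7, ← sum_add_distrib, mul_sum]
      refine (abs_sum_le_sum_abs _ _).trans (sum_le_sum fun e _ => ?_)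
      have n1 := ind_nonneg_p7 e i
      have n2 := ind_nonneg_p7 e (π i)
      by_cases ht : (e.1.1 = i ∨ e.2.1 = i) ∨ (e.1.1 = π i ∨ e.2.1 = π i)
      · have h3 : 1 ≤ indP7 e i + indP7 e (π i) := by
          rcases ht with ht | ht
          · linarith [one_le_ind_p7 e i ht]
          · linarith [one_le_ind_p7 e (π i) ht]
        have h4 : |2 * κ * sg e.1.2 + θ| ≤ 3 := by
          refine (abs_add_le _ _).trans ?_
          rw [abs_mul, abs_mul, abs_sg, abs_of_nonneg h0, abs_two]
          linarith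
        split_ifs
        · rw [sub_self, abs_zero]; linarith
        · rw [sub_zero]; linarith
        · rw [zero_sub, abs_neg]; linarith
        · rw [sub_self, abs_zero]; linarith
      · simp only [not_or] at ht
        rw [hσ _ ht.1.1 ht.2.1, hσ _ ht.1.2 ht.2.2, sub_self, abs_zero]
        linarith
    rw [← bs_sum_p7, ← bs_sum_p7] at e2
    rw [hsId V G D hD, hsId V G D hD]
    set A := ∑ z ∈ T.filter (fun z => sig π ε z.1 = z.2), sg z.2
    set A' := ∑ z ∈ T.filter (fun z => sig π ε' z.1 = z.2), sg z.2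
    set B := ∑ e ∈ bs G (sig π ε) T, sg e.1.2
    set B' := ∑ e ∈ bs G (sig π ε') T, sg e.1.2
    set n : ℝ := ((bs G (sig π ε) T).card : ℝ)
    set n' : ℝ := ((bs G (sig π ε') T).card : ℝ)
    have he : κ * (D * A - 2 * B) - θ * n - (κ * (D * A' - 2 * B') - θ * n') =
        κ * D * (A - A') - (κ * (2 * B) + θ * n - (κ * (2 * B') + θ * n')) := by ring
    rw [he]
    refine (abs_sub _ _).trans (add_le_add ?_ e2)
    rw [abs_mul, abs_mul, Nat.abs_cast]
    have hD0 : (0 : ℝ) ≤ D := Nat.cast_nonneg _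
    calc |κ| * D * |A - A'| ≤ 1 * D * (2 * (if i ∈ sepS π (wt T) then 1 else 0)) :=
          mul_le_mul (mul_le_mul_of_nonneg_right hκ hD0) e1 (abs_nonneg _) (by positivity)
      _ = _ := by ring
  · have hD0 : (0 : ℝ) ≤ D := Nat.cast_nonneg _
    have hb : ∀ v, 0 ≤ betP7 G T v ∧ betP7 G T v ≤ 2 * D := fun v =>
      ⟨add_nonneg (gam_nonneg_p7 _ _) (gam_nonneg_p7 _ _), by
        unfold betP7; linarith [gam_le_p7 hD T (v, true), gam_le_p7 hD T (v, false)]⟩
    have h2 : ∑ i, betP7 G T (π i) = ∑ i, betP7 G T i :=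
      Equiv.sum_comp (Function.Involutive.toPerm π hπ) (betP7 G T)
    calc _ ≤ ∑ i, (8 * (D : ℝ) ^ 2 * (if i ∈ sepS π (wt T) then 1 else 0) +
          72 * D * (betP7 G T i + betP7 G T (π i))) := by
          refine sum_le_sum fun i _ => ?_
          have a := hb i
          have b := hb (π i)
          beta_reduce
          set x := betP7 G T i + betP7 G T (π i)
          have hx : x ^ 2 ≤ 4 * D * x := by nlinarith
          split_ifs
          · nlinarith [sq_nonneg (2 * (D : ℝ) - 3 * x)]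
          · nlinarith
      _ = 8 * (D : ℝ) ^ 2 * (sepS π (wt T)).card + 288 * D * (bd G T).card := by
          rw [sum_add_distrib, ← mul_sum, ← mul_sum, sum_add_distrib, h2, sum_bet_p7, sum_boole]
          have : univ.filter (fun i => i ∈ sepS π (wt T)) = sepS π (wt T) := by
            ext i; simp only [mem_filter, mem_univ, true_and]
          rw [this]
          ring
      _ ≤ _ := by
          have : (0 : ℝ) ≤ D * (bd G T).card := by positivity
          nlinarith

end Pool.Agent.MP_d20a68_co.Poly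

end

section

/-! The means of the main random variables and the choice of the sides. -/

set_option autoImplicit false
set_option linter.unusedSectionVars false
set_option linter.unusedVariables false
open Finset
open scoped Classical

namespace Pool.Agent.MP_d20a68_co.Poly

variable {V : Type} [Fintype V] {G : SimpleGraph V} {D L : ℕ} {π : V → V}

lemma flip_invol_p8 (r : V) (ε : V → Bool) :
    Function.update (Function.update ε r (!ε r)) r (!(Function.update ε r (!ε r)) r) = ε := by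
  funext i
  by_cases h : i = r
  · subst h; simp
  · simp [Function.update_of_ne h]

lemma mean_sg_p8 (π : V → V) (u : V) : mean (fun ε : V → Bool => sg (sig π ε u)) = 0 := by
  refine mean_eq_zero_of_anti (fun ε => Function.update ε (rep π u) (!ε (rep π u)))
    (flip_invol_p8 _) _ fun ε => ?_
  rw [sig_flip (ε := ε) (by simp), sg_not]

lemma mean_sg_sg_p8 {u v : V} (h : rep π u ≠ rep π v) :
    mean (fun ε : V → Bool => sg (sig π ε u) * sg (sig π ε v)) = 0 := by
  refine mean_eq_zero_of_anti (fun ε => Function.update ε (rep π u) (!ε (rep π u)))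
    (flip_invol_p8 _) _ fun ε => ?_
  rw [sig_flip (ε := ε) (by simp), sg_not,
    sig_congr (ε' := ε) (v := v) (by rw [Function.update_of_ne h.symm]), neg_mul]

lemma mean_hv_p8 (π : V → V) (v : V) : mean (fun ε : V → Bool => hv G (sig π ε) v) = 0 := by
  unfold hv
  rw [mean_sum]
  exact sum_eq_zero fun u _ => mean_sg_p8 π u

lemma mean_term_p8 (hπ : ∀ u, π (π u) = u) (v : V) (s : Bool) :
    |mean (fun ε : V → Bool => if sig π ε v = s then hv G (sig π ε) v else 0)| ≤ 1 := by
  have h1 : (fun ε : V → Bool => if sig π ε v = s then hv G (sig π ε) v else 0) =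
      fun ε => (1 / 2) * hv G (sig π ε) v +
        (sg s / 2) * ∑ u ∈ nb G v, sg (sig π ε u) * sg (sig π ε v) := by
    funext ε
    rw [← sum_mul]
    change _ = _ + _ * (hv G (sig π ε) v * _)
    cases s <;> cases sig π ε v <;> simp [sg] <;> ring
  rw [h1, mean_add, mean_mul, mean_mul, mean_hv_p8, mul_zero, zero_add, mean_sum, abs_mul, abs_div,
    abs_sg, abs_two]
  have h2 : |∑ u ∈ nb G v, mean fun ε : V → Bool => sg (sig π ε u) * sg (sig π ε v)| ≤ 1 := by
    refine (abs_sum_le_sum_abs _ _).trans ?_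
    refine (sum_le_sum (g := fun u => if u = π v then (1 : ℝ) else 0) fun u hu => ?_).trans ?_
    · split_ifs with h
      · exact mean_abs_le fun ε => by rw [abs_mul, abs_sg, abs_sg, one_mul]
      · rw [mean_sg_sg_p8, abs_zero]
        intro h'
        rcases eq_of_rep_eq hπ h' with a | a
        · exact (mem_nb.1 hu).ne a.symm
        · exact h a
    · rw [sum_ite_eq']
      split_ifs <;> norm_num
  linarith

lemma mean_edge_p8 (hπ : ∀ u, π (π u) = u) {u v : V} {s t : Bool} (h : G.Adj u v) (hst : s ≠ t) :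
    1 / 4 ≤ mean fun ε : V → Bool => if sig π ε u = s ∧ sig π ε v = t then (1 : ℝ) else 0 := by
  have h1 : (fun ε : V → Bool => if sig π ε u = s ∧ sig π ε v = t then (1 : ℝ) else 0) =
      fun ε => (1 / 4 + (sg s / 4) * sg (sig π ε u)) + ((sg t / 4) * sg (sig π ε v) +
        (-1 / 4) * (sg (sig π ε u) * sg (sig π ε v))) := by
    funext ε
    cases s <;> cases t <;> cases sig π ε u <;> cases sig π ε v <;> simp [sg] at hst ⊢ <;> norm_num
  rw [h1, mean_add, mean_add, mean_add, mean_mul, mean_mul, mean_mul, mean_sg_p8, mean_sg_p8,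
    mean_const]
  have h2 : mean (fun ε : V → Bool => sg (sig π ε u) * sg (sig π ε v)) ≤ 0 := by
    by_cases h' : rep π u = rep π v
    · rcases eq_of_rep_eq hπ h' with a | a
      · exact absurd a h.ne
      · rw [← mean_const (ι := V) (Ω := Bool) 0]
        refine mean_mono fun ε => ?_
        rw [a, sig_pi hπ ε (a ▸ h.ne), sg_not, neg_mul, sg_mul_self]
        norm_num
    · exact (mean_sg_sg_p8 h').le
  linarith

theorem meanS : MeanStmt := by
  intro V _ G π hπ
  refine ⟨fun v => mean_hv_p8 π v, fun T => ⟨?_, ?_⟩⟩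
  · unfold hs
    simp only [sum_filter]
    rw [mean_sum]
    refine (abs_sum_le_sum_abs _ _).trans ?_
    refine (sum_le_card_nsmul _ _ 1 fun z _ => mean_term_p8 hπ z.1 z.2).trans (by simp)
  · unfold bs
    simp only [card_filter]
    push_cast
    rw [mean_sum]
    refine le_trans (le_of_eq ?_) (card_nsmul_le_sum _ _ (1 / 4) fun e he =>
      mean_edge_p8 hπ (mem_bd.1 he).2.2.1 (mem_bd.1 he).2.2.2)
    rw [nsmul_eq_mul]; ring

lemma hv_congr_p8 {σ σ' : V → Bool} {v : V} (h : ∀ u, G.Adj v u → σ u = σ' u) :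
    hv G σ v = hv G σ' v :=
  sum_congr rfl fun u hu => by rw [h u (mem_nb.1 hu)]

lemma hs_congr_p8 {σ σ' : V → Bool} {φ : Finset (V × Bool)}
    (h : ∀ w ∈ φ, ∀ u, Adj2 G w.1 u → σ u = σ' u) :
    hs G σ (hat G φ) = hs G σ' (hat G φ) := by
  unfold hs
  rw [sum_filter, sum_filter]
  refine sum_congr rfl fun z hz => ?_
  obtain ⟨w, hw, a⟩ := mem_hat.1 hz
  rw [h w hw z.1 (Adj0.adj2 (Or.inr a.1.symm)),
    hv_congr_p8 fun u hu => h w hw u ⟨z.1, Or.inr a.1.symm, Or.inr hu⟩]

lemma bs_congr_p8 {σ σ' : V → Bool} {φ : Finset (V × Bool)}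
    (h : ∀ w ∈ φ, ∀ u, Adj2 G w.1 u → σ u = σ' u) :
    bs G σ (hat G φ) = bs G σ' (hat G φ) := by
  unfold bs
  refine filter_congr fun e he => ?_
  obtain ⟨h1, -, h2⟩ := mem_bd.1 he
  obtain ⟨w, hw, a⟩ := mem_hat.1 h1
  rw [h w hw e.1.1 (Adj0.adj2 (Or.inr a.1.symm)),
    h w hw e.2.1 ⟨e.1.1, Or.inr a.1.symm, Or.inr h2.1⟩]

lemma eq_of_rep_p8 (hπ : ∀ u, π (π u) = u) {u i : V} (h : rep π u = i) : u = i ∨ u = π i := by
  rcases rep_eq π u with a | a
  · exact Or.inl (a.symm.trans h)
  · exact Or.inr (by rw [← h, a, hπ])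

lemma tail_hv_p8 (h2 : McDStmt) (hP : Par D L) (hD : ∀ v, dg G v = D) (hπ : ∀ u, π (π u) = u)
    (v : V) {κ : ℝ} (hκ : |κ| ≤ 1) :
    pr (fun ε : V → Bool => (D : ℝ) / (13 * L) ≤ κ * hv G (sig π ε) v) ≤
      Real.exp (-(44 * (L : ℝ) * (1 : ℕ))) := by
  have hD0 : (0 : ℝ) < D := by exact_mod_cast hP.pos
  have hL : (1 : ℝ) ≤ L := by exact_mod_cast hP.one
  have hbig : (10 : ℝ) ^ 8 * L ^ 4 ≤ D := by exact_mod_cast hP.big
  have key := h2 V (fun ε => κ * hv G (sig π ε) v)
    (fun i => if i ∈ (nb G v).image (rep π) then 4 else 0) (16 * D) (D / (13 * L))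
    (by positivity) (by positivity) ?_ ?_
  · rw [mean_mul, mean_hv_p8, mul_zero] at key
    simp only [zero_add] at key
    refine key.trans (Real.exp_le_exp.2 (neg_le_neg ?_))
    rw [le_div_iff₀ (by positivity), div_pow, ← mul_div_assoc, le_div_iff₀ (by positivity)]
    have h1 : (L : ℝ) ^ 3 ≤ L ^ 4 := pow_le_pow_right₀ hL (by norm_num)
    have h3 : (0 : ℝ) ≤ L ^ 3 := by positivity
    push_cast
    nlinarith
  · intro i ε ε' h
    rw [← mul_sub, abs_mul]
    refine (mul_le_of_le_one_left (abs_nonneg _) hκ).trans ?_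
    unfold hv
    rw [← sum_sub_distrib]
    refine (abs_sum_le_sum_abs _ _).trans ?_
    have h0 : ∀ u, rep π u ≠ i → |sg (sig π ε u) - sg (sig π ε' u)| = 0 := fun u hu => by
      rw [sig_congr (h _ hu), sub_self, abs_zero]
    split_ifs with hi
    · refine (sum_le_sum (g := fun u => (if u = i then (2 : ℝ) else 0) +
        if u = π i then 2 else 0) fun u _ => ?_).trans ?_
      · by_cases hu : rep π u = i
        · have h3 : |sg (sig π ε u) - sg (sig π ε' u)| ≤ 2 :=
            (abs_sub _ _).trans (by rw [abs_sg, abs_sg]; norm_num)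
          refine h3.trans ?_
          rcases eq_of_rep_p8 hπ hu with a | a
          · rw [if_pos a]; split_ifs <;> norm_num
          · rw [if_pos a]; split_ifs <;> norm_num
        · rw [h0 u hu]; split_ifs <;> norm_num
      · rw [sum_add_distrib, sum_ite_eq', sum_ite_eq']
        split_ifs <;> norm_num
    · exact le_of_eq (sum_eq_zero fun u hu => h0 u fun a => hi (mem_image.2 ⟨u, hu, a⟩))
  · have h1 : ∀ i, (if i ∈ (nb G v).image (rep π) then (4 : ℝ) else 0) ^ 2 =
        if i ∈ (nb G v).image (rep π) then 16 else 0 := fun i => by split_ifs <;> norm_num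
    simp only [h1]
    rw [sum_ite_mem, univ_inter, sum_const, nsmul_eq_mul, mul_comm]
    have h3 : ((nb G v).image (rep π)).card ≤ D := card_image_le.trans (hD v).le
    have h4 : (((nb G v).image (rep π)).card : ℝ) ≤ D := by exact_mod_cast h3
    linarith

lemma num_p8 {L D E j : ℝ} (hL : 1 ≤ L) (hD : 0 < D) (hE : 0 ≤ E) (hj : 0 ≤ j) :
    44 * L * j * (35000 * L * (D * E + D ^ 2 * j)) ≤
      2 * ((3 * 10 ^ 7 * L ^ 3 - 1) * D * j + 1 / (13 * L) * E / 4) ^ 2 := by
  have hL3 : 1 ≤ L ^ 3 := one_le_pow₀ hL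
  have hL2 : L ^ 2 ≤ L ^ 3 := pow_le_pow_right₀ hL (by norm_num)
  have hL2' : 1 ≤ L ^ 2 := one_le_pow₀ hL
  set A := 3 * 10 ^ 7 * L ^ 3 - 1 with hA
  set θ := 1 / (13 * L) with hθ
  have hθ0 : 0 ≤ θ := by positivity
  have h1 : 1540000 * L ^ 2 ≤ A * θ := by
    rw [hθ, mul_one_div, le_div_iff₀ (by positivity)]
    nlinarith
  have h2 : 1540000 * L ^ 2 ≤ 2 * A ^ 2 := by
    have : 1540000 * L ^ 2 ≤ A := by linarith
    nlinarith
  have h3 : 0 ≤ D * E * j := by positivity
  have h4 : 0 ≤ D ^ 2 * j ^ 2 := by positivity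
  have h5 := mul_le_mul_of_nonneg_right h1 h3
  have h6 := mul_le_mul_of_nonneg_right h2 h4
  nlinarith [sq_nonneg (θ * E)]

lemma tail_hs_p8 (h2 : McDStmt) (h3 : LipStmt) (h4 : MeanStmt) (hP : Par D L)
    (hD : ∀ v, dg G v = D) (hπ : ∀ u, π (π u) = u) {φ : Finset (V × Bool)} (hφ : φ.Nonempty)
    (hsep : ((sepS π (wt (hat G φ))).card : ℝ) ≤
      4224 * L * (bd G (hat G φ)).card / D + 266 * L * φ.card) {κ : ℝ} (hκ : |κ| ≤ 1) :
    pr (fun ε : V → Bool => 3 * 10 ^ 7 * (L : ℝ) ^ 3 * D * φ.card ≤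
      κ * hs G (sig π ε) (hat G φ) - 1 / (13 * L) * (bs G (sig π ε) (hat G φ)).card) ≤
      Real.exp (-(44 * (L : ℝ) * φ.card)) := by
  have hD0 : (0 : ℝ) < D := by exact_mod_cast hP.pos
  have hL : (1 : ℝ) ≤ L := by exact_mod_cast hP.one
  have hj : (1 : ℝ) ≤ φ.card := by exact_mod_cast hφ.card_pos
  have hL3 : (1 : ℝ) ≤ L ^ 3 := one_le_pow₀ hL
  have hθ : (0 : ℝ) ≤ 1 / (13 * L) := by positivity
  obtain ⟨c, hc1, hc2⟩ := h3 V G D hD π hπ (hat G φ) κ (1 / (13 * L)) hκ hθ
    (by rw [div_le_one (by positivity)]; linarith)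
  obtain ⟨m1, m2⟩ := (h4 V G π hπ).2 (hat G φ)
  have hT : ((hat G φ).card : ℝ) ≤ D * φ.card := by
    exact_mod_cast card_hat (fun v => (hD v).le) φ
  set E : ℝ := ((bd G (hat G φ)).card : ℝ) with hE
  set j : ℝ := (φ.card : ℝ)
  have hE0 : 0 ≤ E := Nat.cast_nonneg _
  have hQ : (0 : ℝ) < 35000 * L * (D * E + D ^ 2 * j) := by positivity
  have key := h2 V _ c (35000 * L * (D * E + D ^ 2 * j))
    ((3 * 10 ^ 7 * L ^ 3 - 1) * D * j + 1 / (13 * L) * E / 4) hQ
    (add_nonneg (mul_nonneg (mul_nonneg (by linarith) hD0.le) (by linarith)) (by positivity))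
    hc1 (hc2.trans ?_)
  · refine ((pr_mono fun ε h => le_trans ?_ h).trans key).trans
      (Real.exp_le_exp.2 (neg_le_neg ?_))
    · rw [mean_sub, mean_mul, mean_mul]
      have a1 : κ * mean (fun ε : V → Bool => hs G (sig π ε) (hat G φ)) ≤ D * j := by
        refine (le_abs_self _).trans ?_
        rw [abs_mul]
        exact (mul_le_of_le_one_left (abs_nonneg _) hκ).trans (m1.trans hT)
      have a2 := mul_le_mul_of_nonneg_left m2 hθ
      linarith
    · rw [le_div_iff₀ hQ]
      exact num_p8 hL hD0 hE0 (by linarith)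
  · have a1 := mul_le_mul_of_nonneg_left hsep (show (0 : ℝ) ≤ 8 * D ^ 2 by positivity)
    have a2 : 8 * (D : ℝ) ^ 2 * (4224 * L * E / D + 266 * L * j) =
        33792 * (L * (D * E)) + 2128 * (L * (D ^ 2 * j)) := by
      field_simp; ring
    have a3 : (D : ℝ) * E ≤ L * (D * E) := le_mul_of_one_le_left (by positivity) hL
    have a4 : (0 : ℝ) ≤ L * (D ^ 2 * j) := by positivity
    have a5 : (0 : ℝ) ≤ D * E := by positivity
    nlinarith

/-- The coordinates that are seen from a lift. -/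
def NearP8 (G : SimpleGraph V) (π : V → V) (z : V × Bool) (i : V) : Prop :=
  ∃ u, Adj2 G z.1 u ∧ rep π u = i

theorem sign (h1 : ClusterStmt) (h2 : McDStmt) (h3 : LipStmt) (h4 : MeanStmt) : SignStmt := by
  intro V _ G D L hP hD π hπ hsep
  have hD' : ∀ v, dg G v ≤ D := fun v => (hD v).le
  have hsing : ∀ (φ : Finset (V × Bool)) (κ : ℝ), |κ| ≤ 1 →
      pr (fun ε : V → Bool => ∃ z, φ = {z} ∧ (D : ℝ) / (13 * L) ≤ κ * hv G (sig π ε) z.1) ≤
        Real.exp (-(44 * (L : ℝ) * φ.card)) := by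
    intro φ κ hκ
    by_cases h : ∃ z, φ = {z}
    · obtain ⟨z, rfl⟩ := h
      rw [card_singleton]
      refine (pr_mono ?_).trans (tail_hv_p8 h2 hP hD hπ z.1 hκ)
      rintro ε ⟨w, hw, h⟩
      rwa [singleton_injective hw]
    · rw [pr_false fun ε ⟨z, hz, _⟩ => h ⟨z, hz⟩]
      exact (Real.exp_pos _).le
  obtain ⟨ε, hε⟩ := h1 (V × Bool) V Bool (Rel G) (NearP8 G π)
    (fun φ ε =>
      ((3 * 10 ^ 7 * (L : ℝ) ^ 3 * D * φ.card ≤
        1 * hs G (sig π ε) (hat G φ) - 1 / (13 * L) * (bs G (sig π ε) (hat G φ)).card) ∨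
      (3 * 10 ^ 7 * (L : ℝ) ^ 3 * D * φ.card ≤
        -1 * hs G (sig π ε) (hat G φ) - 1 / (13 * L) * (bs G (sig π ε) (hat G φ)).card)) ∨
      ((∃ z, φ = {z} ∧ (D : ℝ) / (13 * L) ≤ 1 * hv G (sig π ε) z.1) ∨
      (∃ z, φ = {z} ∧ (D : ℝ) / (13 * L) ≤ -1 * hv G (sig π ε) z.1)))
    (2 ^ (3 * L + 4)) (two_le_M L) (fun z w h => h.symm)
    (fun z => (card_rel hD' z).trans hP.cube)
    (fun z => by
      refine le_trans ?_ hP.sq
      calc _ ≤ ((univ.filter fun u => Adj2 G z.1 u).image (rep π)).card :=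
            card_le_card fun i hi => by
              obtain ⟨u, a, b⟩ := (mem_filter.1 hi).2
              exact mem_image.2 ⟨u, mem_filter.2 ⟨mem_univ _, a⟩, b⟩
        _ ≤ (D + 1) ^ 2 := card_image_le.trans (card_adj2 hD' z.1)
        _ ≤ _ := by omega)
    (fun i => by
      refine le_trans ?_ hP.sq
      refine (card_lift (fun v => Adj2 G i v ∨ Adj2 G (π i) v) _ ?_).trans ?_
      · rintro z ⟨u, a, b⟩
        rcases eq_of_rep_p8 hπ b with c | c
        · exact Or.inl (c ▸ a.symm)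
        · exact Or.inr (c ▸ a.symm)
      · have a1 := card_adj2 hD' i
        have a2 := card_adj2 hD' (π i)
        have a3 : (univ.filter fun v => Adj2 G i v ∨ Adj2 G (π i) v).card ≤
            (univ.filter fun v => Adj2 G i v).card +
              (univ.filter fun v => Adj2 G (π i) v).card := by
          refine le_trans (card_le_card fun v hv => ?_) (card_union_le _ _)
          rw [mem_union, mem_filter, mem_filter]
          exact (mem_filter.1 hv).2.imp (fun h => ⟨mem_univ _, h⟩) fun h => ⟨mem_univ _, h⟩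
        omega)
    (fun φ _ ε ε' h hb => by
      have h' : ∀ w ∈ φ, ∀ u, Adj2 G w.1 u → sig π ε u = sig π ε' u :=
        fun w hw u hu => sig_congr (h _ ⟨w, hw, u, hu, rfl⟩)
      have h'' : ∀ z, φ = {z} → hv G (sig π ε) z.1 = hv G (sig π ε') z.1 := fun z hz =>
        hv_congr_p8 fun u hu => h' z (hz ▸ mem_singleton_self z) u (Adj0.adj2 (Or.inr hu))
      beta_reduce at hb ⊢
      rw [← hs_congr_p8 h', ← bs_congr_p8 h']
      refine hb.imp_right fun hb => hb.imp ?_ ?_ <;>
        exact fun ⟨z, hz, a⟩ => ⟨z, hz, by rwa [← h'' z hz]⟩)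
    (fun φ hφ => by
      refine le_trans ?_ (four_exp_le hP.one hφ.1.card_pos)
      refine (pr_or_le _ _).trans ((add_le_add (pr_or_le _ _) (pr_or_le _ _)).trans ?_)
      have a1 := tail_hs_p8 h2 h3 h4 hP hD hπ hφ.1 (hsep φ hφ) (κ := 1) (by norm_num)
      have a2 := tail_hs_p8 h2 h3 h4 hP hD hπ hφ.1 (hsep φ hφ) (κ := -1) (by norm_num)
      have a3 := hsing φ 1 (by norm_num)
      have a4 := hsing φ (-1) (by norm_num)
      linarith)
  refine ⟨sig π ε, fun v => ?_, fun φ hφ => ?_⟩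
  · have h := hε {(v, true)} (conn_singleton _ _)
    simp only [not_or] at h
    have a1 := not_le.1 fun a => h.2.1 ⟨(v, true), rfl, a⟩
    have a2 := not_le.1 fun a => h.2.2 ⟨(v, true), rfl, a⟩
    rw [abs_le]
    constructor <;> linarith
  · have h := hε φ hφ
    simp only [not_or] at h
    have a1 := not_le.1 h.1.1
    have a2 := not_le.1 h.1.2
    rw [abs_le, div_eq_mul_one_div, mul_comm ((bs G (sig π ε) (hat G φ)).card : ℝ)]
    constructor <;> linarith

end Pool.Agent.MP_d20a68_co.Poly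

end

section

/-! From fingerprints to all sets. -/

set_option autoImplicit false
set_option linter.unusedSectionVars false
set_option linter.unusedVariables false
open Finset
open scoped Classical

namespace Pool.Agent.MP_d20a68_co.Poly

/-- A derandomised random subset. -/
lemma sample_fp {U : Type} (p γ : ℝ) (hp0 : 0 ≤ p) (hp1 : p ≤ 1) (c : U → ℝ) (N : U → Finset U)
    (S : Finset U) : ∀ X : Finset U, ∃ φ ⊆ S,
      ∑ z ∈ φ, c z + γ * (X.filter fun z => ∀ w ∈ N z, w ∉ φ).card ≤
        p * ∑ z ∈ S, c z + γ * ∑ z ∈ X, (1 - p) ^ (S.filter fun w => w ∈ N z).card := by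
  induction S using Finset.induction_on with
  | empty =>
    intro X
    refine ⟨∅, subset_rfl, ?_⟩
    simp
  | insert a S ha ih =>
    intro X
    obtain ⟨φ₁, a1, a2⟩ := ih (X.filter fun z => a ∉ N z)
    obtain ⟨φ₂, b1, b2⟩ := ih X
    have e1 : (X.filter fun z => ∀ w ∈ N z, w ∉ insert a φ₁) =
        (X.filter fun z => a ∉ N z).filter fun z => ∀ w ∈ N z, w ∉ φ₁ := by
      ext z
      simp only [mem_filter, mem_insert, not_or]
      exact ⟨fun h => ⟨⟨h.1, fun h' => (h.2 a h').1 rfl⟩, fun w hw => (h.2 w hw).2⟩,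
        fun h => ⟨h.1.1, fun w hw => ⟨fun e => h.1.2 (e ▸ hw), h.2 w hw⟩⟩⟩
    have e2 : ∑ z ∈ X, (1 - p) ^ ((insert a S).filter fun w => w ∈ N z).card =
        p * ∑ z ∈ X.filter (fun z => a ∉ N z), (1 - p) ^ (S.filter fun w => w ∈ N z).card +
          (1 - p) * ∑ z ∈ X, (1 - p) ^ (S.filter fun w => w ∈ N z).card := by
      rw [sum_filter, mul_sum, mul_sum, ← sum_add_distrib]
      refine sum_congr rfl fun z _ => ?_
      rw [filter_insert]
      by_cases h : a ∈ N z
      · rw [if_pos h, if_neg (not_not.2 h), card_insert_of_notMem fun h' => ha (mem_filter.1 h').1,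
          pow_succ]
        ring
      · rw [if_neg h, if_pos h]
        ring
    rw [e2, sum_insert ha]
    by_contra hn
    have c1 := not_le.1 fun h => hn ⟨insert a φ₁, insert_subset_insert a a1, h⟩
    have c2 := not_le.1 fun h => hn ⟨φ₂, b1.trans (subset_insert _ _), h⟩
    rw [e1, sum_insert fun h => ha (a1 h)] at c1
    rcases hp0.eq_or_lt with rfl | hp
    · simp only [zero_mul, zero_add, sub_zero, one_mul] at c2 b2
      linarith
    · have d1 := mul_lt_mul_of_pos_left (c1.trans_le ((add_assoc _ _ _).trans_le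
        (add_le_add_right a2 (c a)))) hp
      have d2 := mul_le_mul_of_nonneg_left (c2.le.trans b2) (sub_nonneg.2 hp1)
      linarith

lemma sample_fp' {U : Type} (p γ : ℝ) (hp0 : 0 ≤ p) (hp1 : p ≤ 1) (c : U → ℝ) (N : U → Finset U)
    (S : Finset U) (hN : ∀ z, N z ⊆ S) (X : Finset U) : ∃ φ ⊆ S, ∃ u : Finset U,
      (∀ z, z ∈ u ↔ z ∈ X ∧ ∀ w ∈ N z, w ∉ φ) ∧ ∑ z ∈ φ, c z + γ * u.card ≤
        p * ∑ z ∈ S, c z + γ * ∑ z ∈ X, (1 - p) ^ (N z).card := by
  obtain ⟨φ, a1, a2⟩ := sample_fp p γ hp0 hp1 c N S X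
  refine ⟨φ, a1, X.filter fun z => ∀ w ∈ N z, w ∉ φ, fun z => mem_filter, a2.trans_eq ?_⟩
  have e : ∀ z, (S.filter fun w => w ∈ N z) = N z := fun z => by
    ext w
    rw [mem_filter]
    exact ⟨And.right, fun h => ⟨hN z h, h⟩⟩
  simp only [e]

variable {V : Type} [Fintype V] {G : SimpleGraph V} {D L : ℕ}

lemma all_fp (σ : V → Bool) (θ K : ℝ) (hθ : 0 ≤ θ)
    (h : ∀ φ, Conn (Rel G) φ → |hs G σ (hat G φ)| ≤ θ * (bs G σ (hat G φ)).card + K * φ.card)
    (φ : Finset (V × Bool)) :
    |hs G σ (hat G φ)| ≤ θ * (bs G σ (hat G φ)).card + K * φ.card := by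
  refine conn_induction (Rel G)
    (fun φ => |hs G σ (hat G φ)| ≤ θ * (bs G σ (hat G φ)).card + K * φ.card) ?_ h ?_ φ
  · have : hat G ∅ = ∅ := by ext z; simp
    simp only [this, hs, filter_empty, sum_empty, abs_zero, card_empty, Nat.cast_zero, mul_zero,
      add_zero]
    positivity
  intro φ ψ χ h1 h2 _ _ h3 h4 h5
  have far : ∀ z ∈ hat G φ, ∀ w ∈ hat G ψ, ¬ Adj0 G z.1 w.1 := fun z hz w hw hzw => by
    obtain ⟨x, x1, x2⟩ := mem_hat.1 hz
    obtain ⟨y, y1, y2⟩ := mem_hat.1 hw
    exact h3 x x1 y y1 ⟨w.1, ⟨z.1, Or.inr x2.1.symm, hzw⟩, Or.inr y2.1⟩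
  have hd : Disjoint (hat G φ) (hat G ψ) := disjoint_left.2 fun z a b => far z a z b (Adj0.refl _)
  have hu : hat G χ = hat G φ ∪ hat G ψ := by
    ext z
    simp only [mem_hat, mem_union, h1]
    exact ⟨fun ⟨w, a, b⟩ => a.imp (fun a => ⟨w, a, b⟩) fun a => ⟨w, a, b⟩,
      fun h => h.elim (fun ⟨w, a, b⟩ => ⟨w, Or.inl a, b⟩) fun ⟨w, a, b⟩ => ⟨w, Or.inr a, b⟩⟩
  have e1 : hs G σ (hat G χ) = hs G σ (hat G φ) + hs G σ (hat G ψ) := by
    unfold hs
    rw [hu, filter_union, sum_union (disjoint_filter_filter hd)]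
  have e2 : (bs G σ (hat G φ)).card + (bs G σ (hat G ψ)).card ≤ (bs G σ (hat G χ)).card := by
    rw [← card_union_of_disjoint (disjoint_left.2 fun e a b =>
      disjoint_left.1 hd (mem_bs.1 a).1.1 (mem_bs.1 b).1.1)]
    refine card_le_card fun e he => ?_
    rw [hu, mem_bs, mem_union, mem_union]
    rcases mem_union.1 he with he | he <;> obtain ⟨⟨a, b, c⟩, d⟩ := mem_bs.1 he
    · exact ⟨⟨Or.inl a, fun h => h.elim b fun h => far _ a _ h (Or.inr c.1), c⟩, d⟩
    · exact ⟨⟨Or.inr a, fun h => h.elim (fun h => far _ h _ a (Or.inr c.1.symm)) b, c⟩, d⟩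
  have e3 : χ.card = φ.card + ψ.card := by
    rw [← card_union_of_disjoint h2]
    congr 1
    ext z
    rw [h1, mem_union]
  have e4 : ((bs G σ (hat G φ)).card : ℝ) + (bs G σ (hat G ψ)).card ≤ (bs G σ (hat G χ)).card := by
    exact_mod_cast e2
  have e5 := mul_le_mul_of_nonneg_left e4 hθ
  have e6 := abs_add_le (hs G σ (hat G φ)) (hs G σ (hat G ψ))
  rw [e1, e3]
  push_cast
  linarith

/-- The number of selected neighbours. -/
lemma sel_nb_fp (σ : V → Bool) (z : V × Bool) :
    sg z.2 * hv G σ z.1 =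
      dg G z.1 - 2 * (univ.filter fun w : V × Bool => AdjT G z w ∧ σ w.1 = w.2).card := by
  have e1 : (univ.filter fun w : V × Bool => AdjT G z w ∧ σ w.1 = w.2).card =
      ((nb G z.1).filter fun u => ¬ σ u = z.2).card := by
    refine card_nbij' (fun w => w.1) (fun u => (u, σ u)) ?_ ?_ ?_ ?_
    · intro w hw
      obtain ⟨⟨a, b⟩, c⟩ := (mem_filter.1 (mem_coe.1 hw)).2
      exact mem_coe.2 (mem_filter.2 ⟨mem_nb.2 a, fun h => b (h.symm.trans c)⟩)
    · intro u hu
      obtain ⟨a, b⟩ := mem_filter.1 (mem_coe.1 hu)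
      exact mem_coe.2 (mem_filter.2 ⟨mem_univ _, ⟨mem_nb.1 a, fun h => b h.symm⟩, rfl⟩)
    · intro w hw
      have c := (mem_filter.1 (mem_coe.1 hw)).2.2
      simp only [c]
    · intro u _
      rfl
  rw [e1, hv, dg, ← card_filter_add_card_filter_not (s := nb G z.1) fun u => σ u = z.2,
    ← sum_filter_add_sum_filter_not (nb G z.1) fun u => σ u = z.2,
    sum_congr rfl fun u hu => congrArg sg (mem_filter.1 hu).2,
    sum_congr rfl fun u hu => sg_of_ne (mem_filter.1 hu).2]
  simp only [sum_const, nsmul_eq_mul]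
  have := sg_mul_self z.2
  push_cast
  linear_combination (((nb G z.1).filter fun u => σ u = z.2).card -
    (((nb G z.1).filter fun u => ¬ σ u = z.2).card : ℝ)) * this

lemma hs_close_fp (σ : V → Bool) (η : ℝ) (hη : ∀ v, |hv G σ v| ≤ η) (S T : Finset (V × Bool))
    (hS : ∀ z ∈ S, σ z.1 = z.2) :
    |hs G σ S| ≤ |hs G σ T| + η * ((S \ T).card + ((T.filter fun z => σ z.1 = z.2) \ S).card) := by
  set T' := T.filter fun z => σ z.1 = z.2 with hT'
  have e0 : S \ T' = S \ T := by
    ext z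
    simp only [mem_sdiff, hT', mem_filter]
    exact ⟨fun h => ⟨h.1, fun h' => h.2 ⟨h', hS z h.1⟩⟩, fun h => ⟨h.1, fun h' => h.2 h'.1⟩⟩
  have e1 : hs G σ S - hs G σ T = ∑ z ∈ S \ T, hv G σ z.1 - ∑ z ∈ T' \ S, hv G σ z.1 := by
    unfold hs
    rw [filter_true_of_mem hS, ← hT', ← e0, sum_sdiff_sub_sum_sdiff]
  have e2 : ∀ X : Finset (V × Bool), |∑ z ∈ X, hv G σ z.1| ≤ η * X.card := fun X => by
    refine (abs_sum_le_sum_abs _ _).trans ((sum_le_card_nsmul _ _ η fun z _ => hη _).trans_eq ?_)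
    rw [nsmul_eq_mul, mul_comm]
  have e3 := abs_le.1 (e2 (S \ T))
  have e4 := abs_le.1 (e2 (T' \ S))
  have e5 := le_abs_self (hs G σ T)
  have e6 := neg_abs_le (hs G σ T)
  rw [abs_le]
  constructor <;> linarith [e3.1, e3.2, e4.1, e4.2]

lemma bs_close_fp (hD : ∀ v, dg G v = D) (σ : V → Bool) (S T : Finset (V × Bool)) :
    (bs G σ T).card ≤ (bs G σ S).card +
      D * ((S \ T).card + ((T.filter fun z => σ z.1 = z.2) \ S).card) := by
  set T' := T.filter fun z => σ z.1 = z.2 with hT'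
  have e1 : bs G σ T ⊆ bs G σ S ∪
      (((S \ T).biUnion fun w => (univ.filter fun z => AdjT G w z).image fun z => (z, w)) ∪
        ((T' \ S).biUnion fun z => (univ.filter fun w => AdjT G z w).image fun w => (z, w))) := by
    intro e he
    obtain ⟨⟨a, b, c⟩, d⟩ := mem_bs.1 he
    by_cases h1 : e.1 ∈ S
    · by_cases h2 : e.2 ∈ S
      · exact mem_union_right _ (mem_union_left _ (mem_biUnion.2 ⟨e.2, mem_sdiff.2 ⟨h2, b⟩,
          mem_image.2 ⟨e.1, mem_filter.2 ⟨mem_univ _, c.symm⟩, rfl⟩⟩))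
      · exact mem_union_left _ (mem_bs.2 ⟨⟨h1, h2, c⟩, d⟩)
    · exact mem_union_right _ (mem_union_right _ (mem_biUnion.2 ⟨e.1,
        mem_sdiff.2 ⟨mem_filter.2 ⟨a, d.1⟩, h1⟩,
        mem_image.2 ⟨e.2, mem_filter.2 ⟨mem_univ _, c⟩, rfl⟩⟩))
  refine (card_le_card e1).trans ((card_union_le _ _).trans (Nat.add_le_add_left
    ((card_union_le _ _).trans ?_) _))
  rw [mul_add, mul_comm D, mul_comm D]
  exact Nat.add_le_add
    (card_biUnion_le_card_mul _ _ D fun w _ => card_image_le.trans ((card_adjT w).trans (hD _)).le)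
    (card_biUnion_le_card_mul _ _ D fun w _ => card_image_le.trans ((card_adjT w).trans (hD _)).le)

theorem finger : FingerStmt := by
  intro V _ G D L hP hD σ h1 h2 S hS
  have hD0 : (0 : ℝ) < D := by exact_mod_cast hP.pos
  have hL1 : (1 : ℝ) ≤ L := by exact_mod_cast hP.one
  have hbig : (10 : ℝ) ^ 8 * L ^ 4 ≤ D := by exact_mod_cast hP.big
  have hL4 : (L : ℝ) ≤ L ^ 4 := le_self_pow₀ hL1 (by norm_num)
  set θ : ℝ := 1 / (13 * L) with hθ
  have hθ0 : 0 < θ := by positivity
  have hθL : θ * L = 1 / 13 := by rw [hθ]; field_simp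
  have hθ1 : θ ≤ 1 / 13 := by nlinarith
  set K : ℝ := 3 * 10 ^ 7 * (L : ℝ) ^ 3 with hK
  have h3 := all_fp (G := G) σ θ (K * D) hθ0.le fun φ hφ => by
    refine (h2 φ hφ).trans_eq ?_
    rw [hθ]; ring
  have h4 : ∀ v, |hv G σ v| ≤ θ * D := fun v => (h1 v).trans_eq (by rw [hθ]; ring)
  set b : V × Bool → ℕ := fun z => ((bs G σ S).filter fun e => e.1 = z).card with hb
  have hbs : ∑ z ∈ S, b z = (bs G σ S).card :=
    (card_eq_sum_card_fiberwise fun e he => mem_coe.2 (mem_bs.1 (mem_coe.1 he)).1.1).symm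
  set N : V × Bool → Finset (V × Bool) := fun z => S.filter fun w => AdjT G z w with hN
  set X := S.filter fun z => D ≤ 4 * (N z).card with hX
  have hp1 : 4 * (L : ℝ) / D ≤ 1 := by rw [div_le_one hD0]; linarith
  obtain ⟨φ, a1, u, hu, a3⟩ := sample_fp' (4 * L / D) (2 * θ * D) (by positivity) hp1
    (fun z => 2 * θ * D * b z + K * D) N S (fun z => filter_subset _ _) X
  set T := hat G φ with hT
  -- wrongly covered vertices
  have c1 : ((T.filter fun z => σ z.1 = z.2) \ S).card ≤ ∑ z ∈ φ, b z := by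
    calc _ ≤ (φ.biUnion fun z => ((bs G σ S).filter fun e => e.1 = z).image Prod.snd).card :=
          card_le_card fun w hw => by
            obtain ⟨d1, d2⟩ := mem_sdiff.1 hw
            obtain ⟨d3, d4⟩ := mem_filter.1 d1
            obtain ⟨z, d5, d6⟩ := mem_hat.1 d3
            exact mem_biUnion.2 ⟨z, d5, mem_image.2 ⟨(z, w), mem_filter.2
              ⟨mem_bs.2 ⟨⟨a1 d5, d2, d6.symm⟩, hS z (a1 d5), d4⟩, rfl⟩, rfl⟩⟩
      _ ≤ _ := card_biUnion_le.trans (sum_le_sum fun z _ => card_image_le)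
  -- vertices with few neighbours inside
  set Y := S.filter fun z => ¬ D ≤ 4 * (N z).card with hY
  have c2 : (D : ℝ) * Y.card ≤ 8 * (bs G σ S).card := by
    have d1 : ∀ z ∈ Y, (D : ℝ) ≤ 8 * b z := fun z hz => by
      obtain ⟨d2, d3⟩ := mem_filter.1 hz
      have d4 := sel_nb_fp (G := G) σ z
      have d5 : (univ.filter fun w : V × Bool => AdjT G z w ∧ σ w.1 = w.2).card ≤
          (N z).card + b z := by
        refine le_trans (card_le_card fun w hw => ?_) ((card_union_le (N z)
          (((bs G σ S).filter fun e => e.1 = z).image Prod.snd)).trans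
          (Nat.add_le_add_left card_image_le _))
        obtain ⟨d6, d7⟩ := (mem_filter.1 hw).2
        by_cases h : w ∈ S
        · exact mem_union_left _ (mem_filter.2 ⟨h, d6⟩)
        · exact mem_union_right _ (mem_image.2 ⟨(z, w), mem_filter.2
            ⟨mem_bs.2 ⟨⟨d2, h, d6⟩, hS z d2, d7⟩, rfl⟩, rfl⟩)
      have d6 : ((univ.filter fun w : V × Bool => AdjT G z w ∧ σ w.1 = w.2).card : ℝ) ≤
          (N z).card + b z := by exact_mod_cast d5
      have d7 : (4 : ℝ) * (N z).card ≤ D := by exact_mod_cast (not_le.1 d3).le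
      have d8 : sg z.2 * hv G σ z.1 ≤ θ * D := by
        refine (le_abs_self _).trans ?_
        rw [abs_mul, abs_sg, one_mul]
        exact h4 _
      have d9 : θ * D ≤ 1 / 13 * D := mul_le_mul_of_nonneg_right hθ1 hD0.le
      rw [hD] at d4
      linarith
    calc (D : ℝ) * Y.card = ∑ z ∈ Y, (D : ℝ) := by rw [sum_const, nsmul_eq_mul, mul_comm]
      _ ≤ ∑ z ∈ Y, (8 : ℝ) * b z := sum_le_sum d1
      _ ≤ ∑ z ∈ S, (8 : ℝ) * b z :=
          sum_le_sum_of_subset_of_nonneg (filter_subset _ _) fun _ _ _ => by positivity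
      _ = _ := by rw [← mul_sum, ← hbs]; push_cast; rfl
  have c3 : (S \ T).card ≤ u.card + Y.card := by
    refine le_trans (card_le_card fun z hz => ?_) (card_union_le _ _)
    obtain ⟨d1, d2⟩ := mem_sdiff.1 hz
    by_cases h : D ≤ 4 * (N z).card
    · exact mem_union_left _ ((hu z).2 ⟨mem_filter.2 ⟨d1, h⟩,
        fun w hw hw' => d2 (mem_hat.2 ⟨w, hw', (mem_filter.1 hw).2⟩)⟩)
    · exact mem_union_right _ (mem_filter.2 ⟨d1, h⟩)
  -- the expectation
  have c4 : (D : ℝ) * ∑ z ∈ X, (1 - 4 * (L : ℝ) / D) ^ (N z).card ≤ S.card := by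
    have d1 : ∀ z ∈ X, (D : ℝ) * (1 - 4 * (L : ℝ) / D) ^ (N z).card ≤ 1 :=
      fun z hz => by
        have d3 : (D : ℝ) ≤ 4 * (N z).card := by exact_mod_cast (mem_filter.1 hz).2
        have d4 : (1 - 4 * (L : ℝ) / D) ^ (N z).card ≤ Real.exp (-(4 * L / D)) ^ (N z).card :=
          pow_le_pow_left₀ (sub_nonneg.2 hp1) (by linarith [Real.add_one_le_exp (-(4 * L / D))]) _
        have d5 : Real.exp (-(4 * L / D)) ^ (N z).card ≤ Real.exp (-L) := by
          rw [← Real.exp_nat_mul]
          refine Real.exp_le_exp.2 ?_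
          have : (L : ℝ) ≤ (N z).card * (4 * L / D) := by
            rw [← mul_div_assoc, le_div_iff₀ hD0]
            nlinarith
          linarith
        have d6 : (D : ℝ) ≤ Real.exp L := by
          have d7 : (D : ℝ) ≤ 2 ^ L := by exact_mod_cast hP.pow
          refine d7.trans ?_
          rw [← mul_one (L : ℝ), Real.exp_nat_mul]
          exact pow_le_pow_left₀ (by norm_num) (by linarith [Real.add_one_le_exp (1 : ℝ)]) _
        calc _ ≤ Real.exp L * Real.exp (-L) :=
              mul_le_mul d6 (d4.trans d5) (pow_nonneg (sub_nonneg.2 hp1) _) (Real.exp_pos _).le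
          _ = 1 := by rw [← Real.exp_add, add_neg_cancel, Real.exp_zero]
    rw [mul_sum]
    refine (sum_le_card_nsmul _ _ 1 d1).trans ?_
    rw [nsmul_eq_mul, mul_one]
    exact_mod_cast card_le_card (filter_subset _ _)
  have c5 : ∑ z ∈ φ, (2 * θ * D * b z + K * D) =
      2 * θ * D * (∑ z ∈ φ, b z : ℕ) + K * D * φ.card := by
    rw [sum_add_distrib, ← mul_sum, sum_const, nsmul_eq_mul]
    push_cast
    ring
  have c6 : 4 * (L : ℝ) / D * ∑ z ∈ S, (2 * θ * D * b z + K * D) =
      8 * (θ * L) * (bs G σ S).card + 4 * K * L * S.card := by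
    rw [sum_add_distrib, ← mul_sum, sum_const, nsmul_eq_mul, ← hbs]
    push_cast
    field_simp
    ring
  rw [c5, c6, hθL] at a3
  have c7 := hs_close_fp σ _ h4 S T hS
  have c8 : ((bs G σ T).card : ℝ) ≤ (bs G σ S).card +
      D * ((S \ T).card + ((T.filter fun z => σ z.1 = z.2) \ S).card) := by
    exact_mod_cast bs_close_fp hD σ S T
  have c9 := h3 φ
  rw [← hT] at c9
  have c10 : (((S \ T).card : ℝ) + ((T.filter fun z => σ z.1 = z.2) \ S).card) ≤
      u.card + Y.card + (∑ z ∈ φ, b z : ℕ) := by exact_mod_cast Nat.add_le_add c3 c1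
  set m : ℝ := ((S \ T).card : ℝ) + ((T.filter fun z => σ z.1 = z.2) \ S).card with hm
  have c11 := mul_le_mul_of_nonneg_left c8 hθ0.le
  have c12 := mul_le_mul_of_nonneg_left c10 (show 0 ≤ 2 * θ * D by positivity)
  have c13 := mul_le_mul_of_nonneg_left c2 (show 0 ≤ 2 * θ by positivity)
  have c14 := mul_le_mul_of_nonneg_left c4 (show 0 ≤ 2 * θ by positivity)
  have c15 : θ * (bs G σ S).card ≤ 1 / 13 * (bs G σ S).card :=
    mul_le_mul_of_nonneg_right hθ1 (Nat.cast_nonneg _)
  have c16 : θ * S.card ≤ 1 / 13 * S.card := mul_le_mul_of_nonneg_right hθ1 (Nat.cast_nonneg _)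
  have c17 : (S.card : ℝ) ≤ (L : ℝ) ^ 4 * S.card :=
    le_mul_of_one_le_left (Nat.cast_nonneg _) (hL1.trans hL4)
  have c18 : 4 * K * L * S.card = 12 * 10 ^ 7 * ((L : ℝ) ^ 4 * S.card) := by rw [hK]; ring
  have c19 : (0 : ℝ) ≤ (bs G σ S).card := Nat.cast_nonneg _
  have c20 : (0 : ℝ) ≤ S.card := Nat.cast_nonneg _
  rw [c18] at a3
  linarith

end Pool.Agent.MP_d20a68_co.Poly

end
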