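import Pool.Agent.Mg.Fd20a68.Ga959ab

section

/-! Definitions and interface for the halving lemma with polylogarithmic loss. -/

set_option autoImplicit false
set_option linter.unusedSectionVars false
set_option linter.unusedVariables false
open Finset
open scoped Classical

namespace Pool.Agent.MP_d20a68_co.Poly

section Prob

variable {ι Ω : Type} [Fintype ι] [Fintype Ω]

/-- The average of a function over the product space. -/
noncomputable def mean (f : (ι → Ω) → ℝ) : ℝ := (∑ ω, f ω) / Fintype.card (ι → Ω)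

/-- The probability of an event in the product space. -/
noncomputable def pr (P : (ι → Ω) → Prop) : ℝ := mean fun ω => if P ω then 1 else 0

/-- The event depends only on the coordinates in `S`. -/
def Dep (S : Set ι) (P : (ι → Ω) → Prop) : Prop :=
  ∀ ω ω', (∀ i ∈ S, ω i = ω' i) → P ω → P ω'

end Prob

/-- A nonempty finite set that is connected for the relation `R`. -/
def Conn {U : Type} (R : U → U → Prop) (φ : Finset U) : Prop :=
  φ.Nonempty ∧ ∀ ψ ⊆ φ, ψ.Nonempty → ψ ≠ φ → ∃ z ∈ ψ, ∃ w ∈ φ, w ∉ ψ ∧ R z w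

variable {V : Type} [Fintype V]

/-- The sign of a boolean. -/
def sg (b : Bool) : ℝ := if b then 1 else -1

/-- Equal or adjacent. -/
def Adj0 (G : SimpleGraph V) (u v : V) : Prop := u = v ∨ G.Adj u v

/-- At distance at most two. -/
def Adj2 (G : SimpleGraph V) (u v : V) : Prop := ∃ x, Adj0 G u x ∧ Adj0 G x v

/-- At distance at most three, on the double cover, ignoring the sides. -/
def Rel (G : SimpleGraph V) (z w : V × Bool) : Prop := ∃ x, Adj2 G z.1 x ∧ Adj0 G x w.1

/-- Adjacency in the bipartite double cover. -/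
def AdjT (G : SimpleGraph V) (z w : V × Bool) : Prop := G.Adj z.1 w.1 ∧ z.2 ≠ w.2

/-- The neighbourhood of a set in the double cover. -/
noncomputable def hat (G : SimpleGraph V) (φ : Finset (V × Bool)) : Finset (V × Bool) :=
  univ.filter fun z => ∃ w ∈ φ, AdjT G z w

/-- The edges of the double cover leaving a set. -/
noncomputable def bd (G : SimpleGraph V) (T : Finset (V × Bool)) :
    Finset ((V × Bool) × (V × Bool)) :=
  univ.filter fun e => e.1 ∈ T ∧ e.2 ∉ T ∧ AdjT G e.1 e.2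

/-- The number of lifts of a vertex in a set. -/
noncomputable def wt (T : Finset (V × Bool)) (v : V) : ℕ :=
  (if (v, true) ∈ T then 1 else 0) + (if (v, false) ∈ T then 1 else 0)

/-- The signed degree. -/
noncomputable def hv (G : SimpleGraph V) (σ : V → Bool) (v : V) : ℝ := ∑ u ∈ nb G v, sg (σ u)

/-- The sum of the signed degrees over the selected lifts in a set. -/
noncomputable def hs (G : SimpleGraph V) (σ : V → Bool) (T : Finset (V × Bool)) : ℝ :=
  ∑ z ∈ T.filter (fun z => σ z.1 = z.2), hv G σ z.1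

/-- The leaving edges both of whose ends are selected. -/
noncomputable def bs (G : SimpleGraph V) (σ : V → Bool) (T : Finset (V × Bool)) :
    Finset ((V × Bool) × (V × Bool)) :=
  (bd G T).filter fun e => σ e.1.1 = e.1.2 ∧ σ e.2.1 = e.2.2

/-- The ordered edges of `H` on which `a` changes. -/
noncomputable def cut (H : SimpleGraph V) (a : V → ℕ) : ℕ :=
  (univ.filter fun e : V × V => H.Adj e.1 e.2 ∧ a e.1 ≠ a e.2).card

/-- The vertices separated from their partner by `a`, and the unpaired vertices in the support. -/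
noncomputable def sepS (π : V → V) (a : V → ℕ) : Finset V :=
  univ.filter fun u => a u ≠ a (π u) ∨ (π u = u ∧ a u ≠ 0)

/-- A fixed numbering of the vertices. -/
noncomputable def idx (v : V) : ℕ := (Fintype.equivFin V v).val

/-- The representative of a pair. -/
noncomputable def rep (π : V → V) (v : V) : V := if idx v ≤ idx (π v) then v else π v

/-- The sides given by one bit for each pair. -/
noncomputable def sig (π : V → V) (ε : V → Bool) (v : V) : Bool :=
  if idx v ≤ idx (π v) then ε v else !ε (π v)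

/-- The number of edges from `X` to the outside of `Y`. -/
noncomputable def eout (B : SimpleGraph V) (X Y : Finset V) : ℕ :=
  ∑ x ∈ X, (univ.filter fun y => B.Adj x y ∧ y ∉ Y).card

/-- The range of the parameters. -/
structure Par (D L : ℕ) : Prop where
  one : 1 ≤ L
  pow : D ≤ 2 ^ L
  big : 10 ^ 8 * L ^ 4 ≤ D

/-! ### Interface -/

/-- The local lemma for events indexed by connected sets. -/
def ClusterStmt : Prop :=
  ∀ (U ι Ω : Type) [Fintype U] [Fintype ι] [Fintype Ω] [Nonempty Ω] (R : U → U → Prop)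
    (near : U → ι → Prop) (Bad : Finset U → (ι → Ω) → Prop) (M : ℕ), 2 ≤ M →
    (∀ z w, R z w → R w z) → (∀ z, (univ.filter fun w => R z w).card ≤ M) →
    (∀ z, (univ.filter fun i => near z i).card ≤ M) →
    (∀ i, (univ.filter fun z => near z i).card ≤ M) →
    (∀ φ, Conn R φ → Dep {i | ∃ z ∈ φ, near z i} (Bad φ)) →
    (∀ φ, Conn R φ → pr (Bad φ) ≤ (1 / (M : ℝ) ^ 6) ^ φ.card) →
    ∃ ω, ∀ φ, Conn R φ → ¬ Bad φ ω

/-- Tails of the number of selected coordinates. -/
def SelStmt : Prop :=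
  ∀ (ι : Type) [Fintype ι] (D t : ℕ), 0 < D → t ≤ D → ∀ N : Finset ι,
    pr (fun ω : ι → Fin D => ∀ i ∈ N, ¬ (ω i).val < t) ≤ Real.exp (-((t : ℝ) * N.card / D)) ∧
    ∀ T : ℝ, pr (fun ω : ι → Fin D =>
      2 * (t : ℝ) * N.card / D + T ≤ ((N.filter fun i => (ω i).val < t).card : ℝ)) ≤ Real.exp (-T)

/-- The bounded differences inequality on the cube. -/
def McDStmt : Prop :=
  ∀ (ι : Type) [Fintype ι] (f : (ι → Bool) → ℝ) (c : ι → ℝ) (Q t : ℝ), 0 < Q → 0 ≤ t →
    (∀ i ω ω', (∀ j, j ≠ i → ω j = ω' j) → |f ω - f ω'| ≤ c i) → ∑ i, c i ^ 2 ≤ Q →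
    pr (fun ω => mean f + t ≤ f ω) ≤ Real.exp (-(2 * t ^ 2 / Q))

/-- Pairing the vertices along a spanning forest. -/
def PairStmt : Prop :=
  ∀ (V : Type) [Fintype V] (H : SimpleGraph V) (c : ℕ),
    (∀ C : Finset V, C.Nonempty → (∀ u ∈ C, ∀ v, H.Adj u v → v ∈ C) → c ≤ C.card) →
    ∃ π : V → V, (∀ u, π (π u) = u) ∧ ∀ a : V → ℕ,
      c * (sepS π a).card ≤ 3 * c * cut H a + (univ.filter fun u => a u ≠ 0).card

/-- Degree constrained subgraphs of bipartite graphs. -/
def FactorStmt : Prop :=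
  ∀ (V : Type) [Fintype V] (B : SimpleGraph V) (σ : V → Bool) (g d : ℕ), Cross B σ → g ≤ d →
    (∀ (s : Bool) (X Y : Finset V), (∀ x ∈ X, σ x = s) → (∀ y ∈ Y, σ y ≠ s) →
      g * X.card ≤ d * Y.card + eout B X Y) →
    ∃ F ≤ B, ∀ v, g ≤ dg F v ∧ dg F v ≤ d

/-- A sparse subgraph with large components that samples the boundaries. -/
def SparseStmt : Prop :=
  ∀ (V : Type) [Fintype V] (G : SimpleGraph V) (D L : ℕ), Par D L → (∀ v, dg G v = D) →
    ∃ H : SimpleGraph V,
      (∀ C : Finset V, C.Nonempty → (∀ u ∈ C, ∀ v, H.Adj u v → v ∈ C) → D / 2 + 1 ≤ C.card) ∧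
      ∀ φ, Conn (Rel G) φ → (cut H (wt (hat G φ)) : ℝ) ≤
        1408 * L * (bd G (hat G φ)).card / D + 88 * L * φ.card

/-- The basic identity for the sum of the signed degrees. -/
def HsStmt : Prop :=
  ∀ (V : Type) [Fintype V] (G : SimpleGraph V) (D : ℕ), (∀ v, dg G v = D) →
    ∀ (σ : V → Bool) (T : Finset (V × Bool)),
      hs G σ T = D * ∑ z ∈ T.filter (fun z => σ z.1 = z.2), sg z.2 -
        2 * ∑ e ∈ bs G σ T, sg e.1.2

/-- Bounded differences for the main random variables. -/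
def LipStmt : Prop :=
  ∀ (V : Type) [Fintype V] (G : SimpleGraph V) (D : ℕ), (∀ v, dg G v = D) →
    ∀ π : V → V, (∀ u, π (π u) = u) → ∀ (T : Finset (V × Bool)) (κ θ : ℝ), |κ| ≤ 1 → 0 ≤ θ →
      θ ≤ 1 → ∃ c : V → ℝ,
        (∀ i (ε ε' : V → Bool), (∀ j, j ≠ i → ε j = ε' j) →
          |(κ * hs G (sig π ε) T - θ * (bs G (sig π ε) T).card) -
            (κ * hs G (sig π ε') T - θ * (bs G (sig π ε') T).card)| ≤ c i) ∧
        ∑ i, c i ^ 2 ≤ 8 * (D : ℝ) ^ 2 * (sepS π (wt T)).card + 300 * D * (bd G T).card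

/-- The means of the main random variables. -/
def MeanStmt : Prop :=
  ∀ (V : Type) [Fintype V] (G : SimpleGraph V) (π : V → V), (∀ u, π (π u) = u) →
    (∀ v, mean (fun ε : V → Bool => hv G (sig π ε) v) = 0) ∧
    ∀ T : Finset (V × Bool), |mean (fun ε : V → Bool => hs G (sig π ε) T)| ≤ T.card ∧
      ((bd G T).card : ℝ) / 4 ≤ mean (fun ε : V → Bool => ((bs G (sig π ε) T).card : ℝ))

/-- The choice of the sides. -/
def SignStmt : Prop :=
  ∀ (V : Type) [Fintype V] (G : SimpleGraph V) (D L : ℕ), Par D L → (∀ v, dg G v = D) →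
    ∀ π : V → V, (∀ u, π (π u) = u) →
      (∀ φ, Conn (Rel G) φ → ((sepS π (wt (hat G φ))).card : ℝ) ≤
        4224 * L * (bd G (hat G φ)).card / D + 266 * L * φ.card) →
      ∃ σ : V → Bool, (∀ v, |hv G σ v| ≤ D / (13 * L)) ∧
        ∀ φ, Conn (Rel G) φ → |hs G σ (hat G φ)| ≤
          (bs G σ (hat G φ)).card / (13 * L) + 3 * 10 ^ 7 * (L : ℝ) ^ 3 * D * φ.card

/-- From fingerprints to all sets. -/
def FingerStmt : Prop :=
  ∀ (V : Type) [Fintype V] (G : SimpleGraph V) (D L : ℕ), Par D L → (∀ v, dg G v = D) →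
    ∀ σ : V → Bool, (∀ v, |hv G σ v| ≤ D / (13 * L)) →
      (∀ φ, Conn (Rel G) φ → |hs G σ (hat G φ)| ≤
        (bs G σ (hat G φ)).card / (13 * L) + 3 * 10 ^ 7 * (L : ℝ) ^ 3 * D * φ.card) →
      ∀ S : Finset (V × Bool), (∀ z ∈ S, σ z.1 = z.2) →
        |hs G σ S| ≤ 2 * (bs G σ S).card + 13 * 10 ^ 7 * (L : ℝ) ^ 4 * S.card

/-- The halving lemma for regular graphs. -/
def HalfRegStmt : Prop :=
  ∀ (V : Type) [Fintype V] (G : SimpleGraph V) (D L d : ℕ), Par D L → (∀ v, dg G v = D) →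
    4 * d ≤ D → ∃ F ≤ G, ∃ σ : V → Bool, Cross F σ ∧
      ∀ v, dg F v ≤ d ∧ d ≤ dg F v + 10 ^ 8 * L ^ 4

/-- The final statement. -/
def PolyStmt : Prop :=
  ∃ C : ℕ, ∀ (V : Type) [Fintype V] (G : SimpleGraph V) (Δ s : ℕ), (∀ v, dg G v ≤ Δ) →
    ∀ (q : ℕ) (p : Fin q → ℕ), (∀ i, p i ≤ s) →
      Δ + C * (s + (Nat.log 2 Δ + 1) ^ 5) ≤ ∑ i, p i →
      ∀ (cl : ℕ → Fin q) (L : G.edgeSet → Finset ℕ),
        (∀ e i, p i ≤ ((L e).filter (fun x => cl x = i)).card) → ColL G cl L G univ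

end Pool.Agent.MP_d20a68_co.Poly

end

section

/-! Basic facts on averages, connected sets and neighbourhoods. -/

set_option autoImplicit false
set_option linter.unusedSectionVars false
set_option linter.unusedVariables false
open Finset
open scoped Classical

namespace Pool.Agent.MP_d20a68_co.Poly

section Prob

variable {ι Ω : Type} [Fintype ι] [Fintype Ω]

lemma card_pos' [Nonempty Ω] : (0 : ℝ) < Fintype.card (ι → Ω) := by
  exact_mod_cast Fintype.card_pos

lemma mean_mono {f g : (ι → Ω) → ℝ} (h : ∀ ω, f ω ≤ g ω) : mean f ≤ mean g :=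
  div_le_div_of_nonneg_right (sum_le_sum fun ω _ => h ω) (Nat.cast_nonneg _)

lemma mean_nonneg {f : (ι → Ω) → ℝ} (h : ∀ ω, 0 ≤ f ω) : 0 ≤ mean f :=
  div_nonneg (sum_nonneg fun ω _ => h ω) (Nat.cast_nonneg _)

lemma mean_add (f g : (ι → Ω) → ℝ) : mean (fun ω => f ω + g ω) = mean f + mean g := by
  unfold mean; rw [sum_add_distrib, add_div]

lemma mean_sub (f g : (ι → Ω) → ℝ) : mean (fun ω => f ω - g ω) = mean f - mean g := by
  unfold mean; rw [sum_sub_distrib, sub_div]

lemma mean_mul (c : ℝ) (f : (ι → Ω) → ℝ) : mean (fun ω => c * f ω) = c * mean f := by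
  unfold mean; rw [← mul_sum, mul_div_assoc]

lemma mean_neg (f : (ι → Ω) → ℝ) : mean (fun ω => - f ω) = - mean f := by
  unfold mean; rw [sum_neg_distrib, neg_div]

lemma mean_const [Nonempty Ω] (c : ℝ) : mean (fun _ : ι → Ω => c) = c := by
  unfold mean
  rw [sum_const, card_univ, nsmul_eq_mul, mul_div_cancel_left₀ _ card_pos'.ne']

lemma mean_sum {α : Type} (s : Finset α) (f : α → (ι → Ω) → ℝ) :
    mean (fun ω => ∑ a ∈ s, f a ω) = ∑ a ∈ s, mean (f a) := by
  unfold mean; rw [sum_comm, sum_div]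

lemma mean_abs_le [Nonempty Ω] {f : (ι → Ω) → ℝ} {c : ℝ} (h : ∀ ω, |f ω| ≤ c) : |mean f| ≤ c := by
  rw [abs_le]
  constructor
  · rw [← mean_const (ι := ι) (Ω := Ω) (-c)]
    exact mean_mono fun ω => (abs_le.1 (h ω)).1
  · rw [← mean_const (ι := ι) (Ω := Ω) c]
    exact mean_mono fun ω => (abs_le.1 (h ω)).2

/-- Averages are invariant under involutions. -/
lemma mean_invol (τ : (ι → Ω) → (ι → Ω)) (hτ : ∀ ω, τ (τ ω) = ω) (f : (ι → Ω) → ℝ) :
    mean (fun ω => f (τ ω)) = mean f := by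
  unfold mean
  congr 1
  exact Equiv.sum_comp (Function.Involutive.toPerm τ hτ) f

lemma mean_eq_zero_of_anti (τ : (ι → Ω) → (ι → Ω)) (hτ : ∀ ω, τ (τ ω) = ω) (f : (ι → Ω) → ℝ)
    (h : ∀ ω, f (τ ω) = - f ω) : mean f = 0 := by
  have h1 := mean_invol τ hτ f
  simp only [h] at h1
  rw [mean_neg] at h1
  linarith

lemma pr_nonneg (P : (ι → Ω) → Prop) : 0 ≤ pr P :=
  mean_nonneg fun ω => by split_ifs <;> norm_num

lemma pr_mono {P Q : (ι → Ω) → Prop} (h : ∀ ω, P ω → Q ω) : pr P ≤ pr Q :=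
  mean_mono fun ω => by
    by_cases hP : P ω
    · rw [if_pos hP, if_pos (h ω hP)]
    · rw [if_neg hP]; split_ifs <;> norm_num

lemma pr_or_le (P Q : (ι → Ω) → Prop) : pr (fun ω => P ω ∨ Q ω) ≤ pr P + pr Q := by
  unfold pr
  rw [← mean_add]
  refine mean_mono fun ω => ?_
  by_cases hP : P ω <;> by_cases hQ : Q ω <;> simp [hP, hQ]

lemma pr_false {P : (ι → Ω) → Prop} (h : ∀ ω, ¬ P ω) : pr P = 0 := by
  unfold pr mean
  simp [h]

lemma pr_true [Nonempty Ω] {P : (ι → Ω) → Prop} (h : ∀ ω, P ω) : pr P = 1 := by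
  unfold pr
  simp only [h, if_true]
  exact mean_const 1

lemma pr_split (P Q : (ι → Ω) → Prop) :
    pr P = pr (fun ω => Q ω ∧ P ω) + pr (fun ω => ¬ Q ω ∧ P ω) := by
  unfold pr
  rw [← mean_add]
  congr 1
  funext ω
  by_cases hP : P ω <;> by_cases hQ : Q ω <;> simp [hP, hQ]

lemma exists_of_pr_pos {P : (ι → Ω) → Prop} (h : 0 < pr P) : ∃ ω, P ω := by
  by_contra hn
  rw [pr_false (not_exists.1 hn)] at h
  exact lt_irrefl _ h

/-- The exponential Markov inequality. -/
lemma pr_le_exp (f : (ι → Ω) → ℝ) (l a : ℝ) (hl : 0 ≤ l) :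
    pr (fun ω => a ≤ f ω) ≤ Real.exp (-(l * a)) * mean fun ω => Real.exp (l * f ω) := by
  unfold pr
  rw [← mean_mul]
  refine mean_mono fun ω => ?_
  rw [← Real.exp_add]
  split_ifs with h
  · exact Real.one_le_exp (by nlinarith)
  · exact (Real.exp_pos _).le

lemma Dep.or {S : Set ι} {P Q : (ι → Ω) → Prop} (hP : Dep S P) (hQ : Dep S Q) :
    Dep S fun ω => P ω ∨ Q ω :=
  fun ω ω' h hω => hω.elim (fun h1 => Or.inl (hP ω ω' h h1)) fun h1 => Or.inr (hQ ω ω' h h1)

lemma Dep.not {S : Set ι} {P : (ι → Ω) → Prop} (hP : Dep S P) : Dep S fun ω => ¬ P ω :=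
  fun ω ω' h hω h' => hω (hP ω' ω (fun i hi => (h i hi).symm) h')

lemma Dep.mono {S S' : Set ι} {P : (ι → Ω) → Prop} (hP : Dep S P) (h : S ⊆ S') : Dep S' P :=
  fun ω ω' e hω => hP ω ω' (fun i hi => e i (h hi)) hω

end Prob

/-! ### Connected sets -/

lemma conn_singleton {U : Type} (R : U → U → Prop) (z : U) : Conn R {z} :=
  ⟨singleton_nonempty z, fun ψ h1 h2 h3 => absurd (h2.subset_singleton_iff.1 h1) h3⟩

/-- Induction over the splitting of a set into connected parts. -/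
lemma conn_induction {U : Type} (R : U → U → Prop) (P : Finset U → Prop) (h0 : P ∅)
    (h1 : ∀ φ, Conn R φ → P φ)
    (h2 : ∀ φ ψ χ : Finset U, (∀ z, z ∈ χ ↔ z ∈ φ ∨ z ∈ ψ) → Disjoint φ ψ → φ.Nonempty →
      ψ.Nonempty → (∀ z ∈ φ, ∀ w ∈ ψ, ¬ R z w) → P φ → P ψ → P χ) (χ : Finset U) : P χ := by
  induction χ using Finset.strongInduction with
  | H χ ih =>
    rcases χ.eq_empty_or_nonempty with rfl | hne
    · exact h0
    by_cases hc : Conn R χ
    · exact h1 χ hc
    have : ∃ φ ⊆ χ, φ.Nonempty ∧ φ ≠ χ ∧ ∀ z ∈ φ, ∀ w ∈ χ, w ∉ φ → ¬ R z w := by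
      by_contra hn
      refine hc ⟨hne, fun ψ a b c => ?_⟩
      by_contra hn'
      exact hn ⟨ψ, a, b, c, fun z hz w hw hw' hR => hn' ⟨z, hz, w, hw, hw', hR⟩⟩
    obtain ⟨φ, a, b, c, d⟩ := this
    have hss : φ ⊂ χ := Finset.ssubset_iff_subset_ne.2 ⟨a, c⟩
    refine h2 φ (χ \ φ) χ (fun z => ?_) disjoint_sdiff b (sdiff_nonempty.2 hss.2)
      (fun z hz w hw => d z hz w (mem_sdiff.1 hw).1 (mem_sdiff.1 hw).2) (ih φ hss)
      (ih _ (sdiff_ssubset a b))
    rw [mem_sdiff]
    exact ⟨fun h => (em (z ∈ φ)).imp_right fun h' => ⟨h, h'⟩, fun h => h.elim (fun h => a h) And.left⟩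

/-! ### Neighbourhoods -/

variable {V : Type} [Fintype V] {G : SimpleGraph V} {D L : ℕ}

lemma sg_true : sg true = 1 := rfl
lemma sg_false : sg false = -1 := rfl
lemma sg_not (b : Bool) : sg (!b) = - sg b := by cases b <;> simp [sg]
lemma abs_sg (b : Bool) : |sg b| = 1 := by cases b <;> simp [sg]
lemma sg_mul_self (b : Bool) : sg b * sg b = 1 := by cases b <;> simp [sg]
lemma sg_of_ne {a b : Bool} (h : a ≠ b) : sg a = - sg b := by
  cases a <;> cases b <;> simp_all [sg]

lemma Adj0.refl (u : V) : Adj0 G u u := Or.inl rfl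
lemma Adj0.symm {u v : V} (h : Adj0 G u v) : Adj0 G v u := h.imp Eq.symm fun h => h.symm
lemma Adj0.adj2 {u v : V} (h : Adj0 G u v) : Adj2 G u v := ⟨u, Adj0.refl u, h⟩
lemma Adj2.symm {u v : V} (h : Adj2 G u v) : Adj2 G v u :=
  let ⟨x, a, b⟩ := h; ⟨x, b.symm, a.symm⟩
lemma Rel.symm {z w : V × Bool} (h : Rel G z w) : Rel G w z :=
  let ⟨x, ⟨y, a, b⟩, c⟩ := h; ⟨y, ⟨x, c.symm, b.symm⟩, a.symm⟩
lemma AdjT.symm {z w : V × Bool} (h : AdjT G z w) : AdjT G w z := ⟨h.1.symm, h.2.symm⟩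
lemma rel_of_adj2 {z w : V × Bool} (h : Adj2 G z.1 w.1) : Rel G z w := ⟨w.1, h, Adj0.refl _⟩

@[simp] lemma mem_hat {φ : Finset (V × Bool)} {z : V × Bool} :
    z ∈ hat G φ ↔ ∃ w ∈ φ, AdjT G z w := by simp [hat]

@[simp] lemma mem_bd {T : Finset (V × Bool)} {e : (V × Bool) × (V × Bool)} :
    e ∈ bd G T ↔ e.1 ∈ T ∧ e.2 ∉ T ∧ AdjT G e.1 e.2 := by simp [bd]

@[simp] lemma mem_bs {σ : V → Bool} {T : Finset (V × Bool)} {e : (V × Bool) × (V × Bool)} :
    e ∈ bs G σ T ↔ (e.1 ∈ T ∧ e.2 ∉ T ∧ AdjT G e.1 e.2) ∧ σ e.1.1 = e.1.2 ∧ σ e.2.1 = e.2.2 := by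
  simp [bs]

@[simp] lemma mem_sepS {π : V → V} {a : V → ℕ} {u : V} :
    u ∈ sepS π a ↔ a u ≠ a (π u) ∨ (π u = u ∧ a u ≠ 0) := by simp [sepS]

lemma wt_le (T : Finset (V × Bool)) (v : V) : wt T v ≤ 2 := by
  unfold wt; split_ifs <;> omega

lemma wt_ne_zero {T : Finset (V × Bool)} {v : V} : wt T v ≠ 0 ↔ ∃ s, (v, s) ∈ T := by
  unfold wt
  by_cases h1 : (v, true) ∈ T <;> by_cases h2 : (v, false) ∈ T <;> simp [h1, h2]

lemma card_adj0 (hD : ∀ v, dg G v ≤ D) (u : V) : (univ.filter fun v => Adj0 G u v).card ≤ D + 1 := by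
  refine le_trans (card_le_card fun v hv => ?_) ((card_insert_le u (nb G u)).trans
    (Nat.succ_le_succ (hD u)))
  rw [mem_insert, mem_nb]
  exact (mem_filter.1 hv).2.imp_left Eq.symm

lemma card_adj2 (hD : ∀ v, dg G v ≤ D) (u : V) :
    (univ.filter fun v => Adj2 G u v).card ≤ (D + 1) ^ 2 := by
  calc _ ≤ ((univ.filter fun x => Adj0 G u x).biUnion fun x =>
        univ.filter fun v => Adj0 G x v).card := card_le_card fun v hv => by
          obtain ⟨x, a, b⟩ := (mem_filter.1 hv).2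
          exact mem_biUnion.2 ⟨x, mem_filter.2 ⟨mem_univ _, a⟩, mem_filter.2 ⟨mem_univ _, b⟩⟩
    _ ≤ _ := card_biUnion_le_card_mul _ _ (D + 1) fun x _ => card_adj0 hD x
    _ ≤ _ := by rw [sq]; exact Nat.mul_le_mul_right _ (card_adj0 hD u)

/-- Lifting a bound to the double cover. -/
lemma card_lift (P : V → Prop) (Q : V × Bool → Prop) [DecidablePred P] [DecidablePred Q]
    (h : ∀ z, Q z → P z.1) :
    (univ.filter Q).card ≤ 2 * (univ.filter P).card := by
  calc _ ≤ ((univ.filter P) ×ˢ (univ : Finset Bool)).card := card_le_card fun z hz =>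
        mem_product.2 ⟨mem_filter.2 ⟨mem_univ _, h z (mem_filter.1 hz).2⟩, mem_univ _⟩
    _ = _ := by rw [card_product, card_univ, Fintype.card_bool, mul_comm]

lemma card_rel (hD : ∀ v, dg G v ≤ D) (z : V × Bool) :
    (univ.filter fun w => Rel G z w).card ≤ 2 * (D + 1) ^ 3 := by
  refine (card_lift (fun v => ∃ x, Adj2 G z.1 x ∧ Adj0 G x v) (fun w => Rel G z w)
    fun w h => h).trans (Nat.mul_le_mul_left _ ?_)
  calc _ ≤ ((univ.filter fun x => Adj2 G z.1 x).biUnion fun x =>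
        univ.filter fun v => Adj0 G x v).card := card_le_card fun v hv => by
          obtain ⟨x, a, b⟩ := (mem_filter.1 hv).2
          exact mem_biUnion.2 ⟨x, mem_filter.2 ⟨mem_univ _, a⟩, mem_filter.2 ⟨mem_univ _, b⟩⟩
    _ ≤ _ := card_biUnion_le_card_mul _ _ (D + 1) fun x _ => card_adj0 hD x
    _ ≤ _ := by rw [pow_succ]; exact Nat.mul_le_mul_right _ (card_adj2 hD z.1)

lemma card_adjT (z : V × Bool) : (univ.filter fun w => AdjT G z w).card = dg G z.1 := by
  unfold dg
  refine card_nbij' (fun w => w.1) (fun u => (u, !z.2)) ?_ ?_ ?_ ?_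
  · intro w hw
    exact mem_coe.2 (mem_nb.2 (mem_filter.1 (mem_coe.1 hw)).2.1)
  · intro u hu
    exact mem_coe.2 (mem_filter.2 ⟨mem_univ _, mem_nb.1 (mem_coe.1 hu), by simp⟩)
  · intro w hw
    have h := (mem_filter.1 (mem_coe.1 hw)).2.2
    obtain ⟨u, s⟩ := w
    obtain ⟨v, t⟩ := z
    cases s <;> cases t <;> simp_all
  · intro u _
    rfl

lemma card_hat (hD : ∀ v, dg G v ≤ D) (φ : Finset (V × Bool)) : (hat G φ).card ≤ D * φ.card := by
  calc _ ≤ (φ.biUnion fun w => univ.filter fun z => AdjT G w z).card := card_le_card fun z hz => by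
        obtain ⟨w, a, b⟩ := mem_hat.1 hz
        exact mem_biUnion.2 ⟨w, a, mem_filter.2 ⟨mem_univ _, b.symm⟩⟩
    _ ≤ _ := card_biUnion_le_card_mul _ _ D fun w _ => (card_adjT w).trans_le (hD _)
    _ = _ := mul_comm _ _

lemma card_supp_wt (T : Finset (V × Bool)) : (univ.filter fun u => wt T u ≠ 0).card ≤ T.card :=
  le_trans (card_le_card fun u hu => by
    obtain ⟨s, hs⟩ := wt_ne_zero.1 (mem_filter.1 hu).2
    exact mem_image.2 ⟨_, hs, rfl⟩) (card_image_le (s := T) (f := Prod.fst))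

/-! ### Pairs -/

lemma idx_inj {u v : V} (h : idx u = idx v) : u = v :=
  (Fintype.equivFin V).injective (Fin.ext h)

variable {π : V → V}

lemma rep_eq (π : V → V) (v : V) : rep π v = v ∨ rep π v = π v := by
  unfold rep; split_ifs <;> simp

lemma rep_pi (hπ : ∀ u, π (π u) = u) (v : V) : rep π (π v) = rep π v := by
  unfold rep
  rw [hπ]
  split_ifs with h1 h2 h2
  · exact idx_inj (le_antisymm h1 h2)
  · rfl
  · rfl
  · omega

lemma eq_of_rep_eq (hπ : ∀ u, π (π u) = u) {u v : V} (h : rep π u = rep π v) :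
    u = v ∨ u = π v := by
  rcases rep_eq π u with a | a <;> rcases rep_eq π v with b | b <;> rw [a, b] at h
  · exact Or.inl h
  · exact Or.inr h
  · exact Or.inr (by rw [← h, hπ])
  · exact Or.inl (by rw [← hπ u, h, hπ])

lemma sig_congr {ε ε' : V → Bool} {v : V} (h : ε (rep π v) = ε' (rep π v)) :
    sig π ε v = sig π ε' v := by
  unfold sig
  unfold rep at h
  split_ifs at h ⊢ with h1 <;> rw [h]

lemma sig_flip {ε ε' : V → Bool} {v : V} (h : ε' (rep π v) = !ε (rep π v)) :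
    sig π ε' v = !sig π ε v := by
  unfold sig
  unfold rep at h
  split_ifs at h ⊢ with h1 <;> rw [h]

lemma sig_pi (hπ : ∀ u, π (π u) = u) (ε : V → Bool) {v : V} (h : π v ≠ v) :
    sig π ε (π v) = !sig π ε v := by
  unfold sig
  rw [hπ]
  split_ifs with h1 h2 h2
  · exact absurd (idx_inj (le_antisymm h1 h2)) h
  · simp
  · rfl
  · omega

/-! ### Numerical facts -/

lemma Par.pos (h : Par D L) : 0 < D := by
  have h1 := h.big
  have h2 : 0 < L ^ 4 := pow_pos h.one 4
  omega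

lemma Par.cube (h : Par D L) : 2 * (D + 1) ^ 3 ≤ 2 ^ (3 * L + 4) := by
  have h1 : D + 1 ≤ 2 ^ (L + 1) := by
    have := h.pow
    have h2 : 0 < 2 ^ L := by positivity
    rw [pow_succ]; omega
  calc 2 * (D + 1) ^ 3 ≤ 2 * (2 ^ (L + 1)) ^ 3 := Nat.mul_le_mul_left _ (Nat.pow_le_pow_left h1 3)
    _ = 2 ^ (3 * L + 4) := by ring

lemma Par.sq (h : Par D L) : 4 * (D + 1) ^ 2 ≤ 2 ^ (3 * L + 4) := by
  refine le_trans ?_ h.cube
  have := h.pos
  nlinarith [Nat.zero_le ((D + 1) ^ 2)]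

lemma two_le_M (L : ℕ) : 2 ≤ 2 ^ (3 * L + 4) :=
  le_trans (by norm_num) (Nat.pow_le_pow_right (by norm_num) (show 1 ≤ 3 * L + 4 by omega))

lemma four_exp_le {L j : ℕ} (hL : 1 ≤ L) (hj : 1 ≤ j) :
    4 * Real.exp (-(44 * (L : ℝ) * j)) ≤ (1 / ((2 ^ (3 * L + 4) : ℕ) : ℝ) ^ 6) ^ j := by
  have h1 : Real.exp (-1) ≤ 1 / 2 := by
    rw [Real.exp_neg, ← one_div]
    exact one_div_le_one_div_of_le (by norm_num) (by linarith [Real.add_one_le_exp (1 : ℝ)])
  have h2 : Real.exp (-(44 * (L : ℝ) * j)) ≤ (1 / 2) ^ (44 * L * j) := by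
    rw [show -(44 * (L : ℝ) * j) = ((44 * L * j : ℕ) : ℝ) * (-1) by push_cast; ring,
      Real.exp_nat_mul]
    exact pow_le_pow_left₀ (Real.exp_pos _).le h1 _
  have h3 : (1 / ((2 ^ (3 * L + 4) : ℕ) : ℝ) ^ 6) ^ j = (1 / 2) ^ ((3 * L + 4) * 6 * j) := by
    push_cast
    rw [← pow_mul, one_div_pow, one_div_pow, ← pow_mul]
  rw [h3]
  have h4 : (3 * L + 4) * 6 * j + 2 ≤ 44 * L * j := by nlinarith
  calc 4 * Real.exp (-(44 * (L : ℝ) * j)) ≤ 4 * (1 / 2) ^ (44 * L * j) := by linarith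
    _ ≤ 4 * (1 / 2) ^ ((3 * L + 4) * 6 * j + 2) := by
        have := pow_le_pow_of_le_one (show (0 : ℝ) ≤ 1 / 2 by norm_num) (by norm_num) h4
        linarith
    _ = _ := by rw [pow_add]; ring

end Pool.Agent.MP_d20a68_co.Poly

end

section

/-! The local lemma for events indexed by connected sets. -/

set_option autoImplicit false
set_option linter.unusedSectionVars false
set_option linter.unusedVariables false
open Finset
open scoped Classical

namespace Pool.Agent.MP_d20a68_co.Poly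

section Prob

variable {ι Ω : Type} [Fintype ι] [Fintype Ω] [Nonempty Ω]

lemma indep_P1 {S S' : Set ι} (hS : Disjoint S S') {A B : (ι → Ω) → Prop} (hA : Dep S A)
    (hB : Dep S' B) : pr (fun ω => A ω ∧ B ω) = pr A * pr B := by
  let τ : (ι → Ω) × (ι → Ω) → (ι → Ω) × (ι → Ω) := fun q =>
    (fun i => if i ∈ S then q.1 i else q.2 i, fun i => if i ∈ S then q.2 i else q.1 i)
  have hτ : Function.Involutive τ := fun q => by
    ext i <;> by_cases hi : i ∈ S <;> simp [τ, hi]
  have h := Equiv.sum_comp hτ.toPerm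
    (fun q => (if A q.1 then (1 : ℝ) else 0) * (if B q.2 then 1 else 0))
  have h2 : ∀ q, (if A (τ q).1 then (1 : ℝ) else 0) * (if B (τ q).2 then 1 else 0) =
      if A q.1 ∧ B q.1 then (1 : ℝ) else 0 := fun q => by
    have e1 : ∀ i ∈ S, (τ q).1 i = q.1 i := fun i hi => if_pos hi
    have e2 : ∀ i ∈ S', (τ q).2 i = q.1 i := fun i hi =>
      if_neg fun h => Set.disjoint_left.1 hS h hi
    have a1 : A (τ q).1 ↔ A q.1 := ⟨hA _ _ e1, hA _ _ fun i hi => (e1 i hi).symm⟩
    have a2 : B (τ q).2 ↔ B q.1 := ⟨hB _ _ e2, hB _ _ fun i hi => (e2 i hi).symm⟩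
    by_cases p1 : A q.1 <;> by_cases p2 : B q.1 <;> simp [a1, a2, p1, p2]
  replace h := (sum_congr rfl fun q _ => (h2 q).symm).trans h
  rw [Fintype.sum_prod_type, Fintype.sum_prod_type] at h
  have hN := (card_pos' (ι := ι) (Ω := Ω)).ne'
  unfold pr mean
  rw [div_mul_div_comm, sum_mul_sum, ← h]
  rw [sum_comm, ← mul_div_mul_left _ _ hN]
  congr 1
  rw [← nsmul_eq_mul, ← card_univ, ← sum_const]
  exact sum_congr rfl fun _ _ => sum_congr rfl fun ω _ => by by_cases p : A ω ∧ B ω <;> simp [p]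

lemma lll_P1 {η : Type} (A : Finset η) (E : η → (ι → Ω) → Prop) (S : η → Set ι) (x : η → ℝ)
    (hdep : ∀ a ∈ A, Dep (S a) (E a)) (hx0 : ∀ a ∈ A, 0 ≤ x a) (hx1 : ∀ a ∈ A, x a < 1)
    (hp : ∀ a ∈ A, pr (E a) ≤ x a * ∏ b ∈ A.filter (fun b => ¬ Disjoint (S a) (S b)), (1 - x b)) :
    ∃ ω, ∀ a ∈ A, ¬ E a ω := by
  have step : ∀ (X : Finset η) (b : η), pr (fun ω => E b ω ∧ ∀ g ∈ X, ¬ E g ω) ≤
      x b * pr (fun ω => ∀ g ∈ X, ¬ E g ω) →
      (1 - x b) * pr (fun ω => ∀ g ∈ X, ¬ E g ω) ≤ pr (fun ω => ∀ g ∈ insert b X, ¬ E g ω) := by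
    intro X b h
    have h1 := pr_split (fun ω => ∀ g ∈ X, ¬ E g ω) (E b)
    have h2 : pr (fun ω => ¬ E b ω ∧ ∀ g ∈ X, ¬ E g ω) ≤
        pr (fun ω => ∀ g ∈ insert b X, ¬ E g ω) := pr_mono fun ω hω g hg => by
      rcases mem_insert.1 hg with rfl | hg
      · exact hω.1
      · exact hω.2 g hg
    linarith
  have key : ∀ X : Finset η, X ⊆ A → ∀ a ∈ A, pr (fun ω => E a ω ∧ ∀ g ∈ X, ¬ E g ω) ≤
      x a * pr (fun ω => ∀ g ∈ X, ¬ E g ω) := by
    intro X
    induction X using Finset.strongInduction with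
    | H X ih =>
      intro hX a ha
      set X1 := X.filter fun g => ¬ Disjoint (S a) (S g) with hX1
      set X2 := X.filter fun g => Disjoint (S a) (S g) with hX2
      have inner : ∀ Y : Finset η, Y ⊆ X1 → (∏ b ∈ Y, (1 - x b)) *
          pr (fun ω => ∀ g ∈ X2, ¬ E g ω) ≤ pr (fun ω => ∀ g ∈ Y ∪ X2, ¬ E g ω) := by
        intro Y
        induction Y using Finset.induction_on with
        | empty => intro _; rw [prod_empty, one_mul, empty_union]
        | insert b Y hb ihY =>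
          intro hY
          have hb1 := mem_filter.1 (hY (mem_insert_self _ _))
          have hY' : Y ⊆ X1 := (subset_insert _ _).trans hY
          have hsub : Y ∪ X2 ⊆ X :=
            union_subset (hY'.trans (filter_subset _ _)) (filter_subset _ _)
          have hss : Y ∪ X2 ⊂ X := (ssubset_iff_of_subset hsub).2 ⟨b, hb1.1, fun h =>
            (mem_union.1 h).elim hb fun h => hb1.2 (mem_filter.1 h).2⟩
          rw [prod_insert hb, insert_union, mul_assoc]
          exact (mul_le_mul_of_nonneg_left (ihY hY') (sub_nonneg.2 (hx1 b (hX hb1.1)).le)).trans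
            (step _ b (ih _ hss (hsub.trans hX) b (hX hb1.1)))
      have h1 : pr (fun ω => E a ω ∧ ∀ g ∈ X2, ¬ E g ω) =
          pr (E a) * pr (fun ω => ∀ g ∈ X2, ¬ E g ω) := by
        refine indep_P1 (S := S a) (S' := {i | ∃ g ∈ X2, i ∈ S g}) ?_ (hdep a ha) ?_
        · exact Set.disjoint_left.2 fun i hi ⟨g, hg, hi'⟩ =>
            Set.disjoint_left.1 (mem_filter.1 hg).2 hi hi'
        · exact fun ω ω' e hω g hg =>
            (hdep g (hX (mem_filter.1 hg).1)).not ω ω' (fun i hi => e i ⟨g, hg, hi⟩) (hω g hg)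
      have h2 : ∏ b ∈ A.filter (fun b => ¬ Disjoint (S a) (S b)), (1 - x b) ≤
          ∏ b ∈ X1, (1 - x b) :=
        prod_le_prod_of_subset_of_le_one (filter_subset_filter _ hX)
          (fun b hb => sub_nonneg.2 (hx1 b (mem_filter.1 hb).1).le)
          fun b hb _ => sub_le_self _ (hx0 b (mem_filter.1 hb).1)
      have h3 := inner X1 Subset.rfl
      have h4 : pr (fun ω => ∀ g ∈ X1 ∪ X2, ¬ E g ω) ≤ pr (fun ω => ∀ g ∈ X, ¬ E g ω) :=
        pr_mono fun ω hω g hg => hω g (mem_union.2 ((em (Disjoint (S a) (S g))).symm.imp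
          (fun h => mem_filter.2 ⟨hg, h⟩) fun h => mem_filter.2 ⟨hg, h⟩))
      calc _ ≤ pr (fun ω => E a ω ∧ ∀ g ∈ X2, ¬ E g ω) :=
            pr_mono fun ω hω => ⟨hω.1, fun g hg => hω.2 g (mem_filter.1 hg).1⟩
        _ ≤ (x a * ∏ b ∈ X1, (1 - x b)) * pr (fun ω => ∀ g ∈ X2, ¬ E g ω) := by
            rw [h1]
            exact mul_le_mul_of_nonneg_right
              ((hp a ha).trans (mul_le_mul_of_nonneg_left h2 (hx0 a ha))) (pr_nonneg _)
        _ ≤ _ := by
            rw [mul_assoc]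
            exact mul_le_mul_of_nonneg_left (h3.trans h4) (hx0 a ha)
  have pos : ∀ X : Finset η, X ⊆ A → 0 < pr (fun ω => ∀ g ∈ X, ¬ E g ω) := by
    intro X
    induction X using Finset.induction_on with
    | empty =>
      intro _
      rw [pr_true fun ω g hg => absurd hg (notMem_empty g)]
      exact one_pos
    | insert b X _ ih =>
      intro hX
      have hb := hX (mem_insert_self _ _)
      have hX' := (subset_insert _ _).trans hX
      exact (mul_pos (sub_pos.2 (hx1 b hb)) (ih hX')).trans_le (step X b (key X hX' b hb))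
  exact exists_of_pr_pos (pos A Subset.rfl)

end Prob

section Count

variable {U : Type} [Fintype U] {R : U → U → Prop} {M : ℕ}

/-- The vertex sets of the walks with a given length and start. -/
noncomputable def walksP1 (R : U → U → Prop) : ℕ → U → Finset (Finset U)
  | 0, z => {{z}}
  | n + 1, z => (univ.filter fun w => R z w).biUnion fun w => (walksP1 R n w).image (insert z)

lemma mem_walks_P1 {n : ℕ} {z : U} {ψ : Finset U} :
    ψ ∈ walksP1 R (n + 1) z ↔ ∃ w, R z w ∧ ∃ χ ∈ walksP1 R n w, insert z χ = ψ := by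
  simp only [walksP1, mem_biUnion, mem_filter, mem_univ, true_and, mem_image]

lemma card_walks_P1 (hM : ∀ z, (univ.filter fun w => R z w).card ≤ M) (n : ℕ) :
    ∀ z, (walksP1 R n z).card ≤ M ^ n := by
  induction n with
  | zero => intro z; simp [walksP1]
  | succ n ih =>
    intro z
    rw [walksP1, pow_succ']
    exact (card_biUnion_le_card_mul _ _ (M ^ n) fun w _ => card_image_le.trans (ih w)).trans
      (Nat.mul_le_mul_right _ (hM z))

lemma start_walks_P1 {n : ℕ} {z : U} {ψ : Finset U} (h : ψ ∈ walksP1 R n z) : z ∈ ψ := by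
  cases n with
  | zero => rw [mem_singleton.1 h]; exact mem_singleton_self z
  | succ n =>
    obtain ⟨w, _, χ, _, rfl⟩ := mem_walks_P1.1 h
    exact mem_insert_self _ _

lemma ext_walks_P1 (hR : ∀ z w, R z w → R w z) {u w : U} (huw : R u w) (n : ℕ) :
    ∀ z ψ, ψ ∈ walksP1 R n z → u ∈ ψ → insert w ψ ∈ walksP1 R (n + 2) z := by
  have base : ∀ n ψ, ψ ∈ walksP1 R n u → insert w ψ ∈ walksP1 R (n + 2) u := fun n ψ h =>
    mem_walks_P1.2 ⟨w, huw, insert w ψ, mem_walks_P1.2 ⟨u, hR _ _ huw, ψ, h, rfl⟩,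
      insert_eq_of_mem (mem_insert_of_mem (start_walks_P1 h))⟩
  induction n with
  | zero =>
    intro z ψ h hu
    have e : u = z := by rw [mem_singleton.1 h] at hu; exact mem_singleton.1 hu
    subst e
    exact base _ _ h
  | succ n ih =>
    intro z ψ h hu
    by_cases e : u = z
    · subst e
      exact base _ _ h
    obtain ⟨v, hv, χ, hχ, rfl⟩ := mem_walks_P1.1 h
    exact mem_walks_P1.2 ⟨v, hv, insert w χ, ih v χ hχ ((mem_insert.1 hu).resolve_left e),
      insert_comm _ _ _⟩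

lemma conn_walks_P1 (hR : ∀ z w, R z w → R w z) {φ : Finset U} (hφ : Conn R φ) {z : U}
    (hz : z ∈ φ) : φ ∈ walksP1 R (2 * (φ.card - 1)) z := by
  have grow : ∀ k, k < φ.card → ∃ ψ ⊆ φ, ψ.card = k + 1 ∧ ψ ∈ walksP1 R (2 * k) z := by
    intro k
    induction k with
    | zero => exact fun _ => ⟨{z}, singleton_subset_iff.2 hz, card_singleton z, mem_singleton_self _⟩
    | succ k ih =>
      intro hk
      obtain ⟨ψ, h1, h2, h3⟩ := ih (by omega)
      obtain ⟨u, hu, w, hw, hw', huw⟩ := hφ.2 ψ h1 (card_pos.1 (by omega))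
        fun e => by rw [e] at h2; omega
      exact ⟨insert w ψ, insert_subset hw h1, by rw [card_insert_of_notMem hw', h2],
        ext_walks_P1 hR huw _ z ψ h3 hu⟩
  have hpos : 0 < φ.card := card_pos.2 hφ.1
  obtain ⟨ψ, h1, h2, h3⟩ := grow (φ.card - 1) (by omega)
  rwa [eq_of_subset_of_card_le h1 (by omega)] at h3

lemma sum_conn_P1 (hR : ∀ z w, R z w → R w z) (hM : ∀ z, (univ.filter fun w => R z w).card ≤ M)
    {y : ℝ} (hy : 0 ≤ y) (hy' : (M : ℝ) ^ 2 * y ≤ 1 / 2) (z : U) (C : Finset (Finset U))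
    (hC : ∀ φ ∈ C, Conn R φ ∧ z ∈ φ) : ∑ φ ∈ C, y ^ φ.card ≤ 2 * y := by
  rw [← sum_fiberwise_of_maps_to (t := range (Fintype.card U)) (g := fun φ => φ.card - 1)
    fun φ hφ => mem_range.2 (by
      have h1 : 0 < φ.card := card_pos.2 (hC φ hφ).1.1
      have h2 := card_le_univ φ
      omega)]
  calc _ ≤ ∑ k ∈ range (Fintype.card U), (1 / 2 : ℝ) ^ k * y := sum_le_sum fun k _ => by
        have h1 : (C.filter fun φ => φ.card - 1 = k).card ≤ M ^ (2 * k) :=
          le_trans (card_le_card fun φ hφ => by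
            obtain ⟨a, b⟩ := mem_filter.1 hφ
            exact b ▸ conn_walks_P1 hR (hC φ a).1 (hC φ a).2) (card_walks_P1 hM (2 * k) z)
        have h2 : ((C.filter fun φ => φ.card - 1 = k).card : ℝ) ≤ ((M : ℝ) ^ 2) ^ k := by
          rw [← pow_mul]; exact_mod_cast h1
        calc _ ≤ (C.filter fun φ => φ.card - 1 = k).card • y ^ (k + 1) :=
              sum_le_card_nsmul _ _ _ fun φ hφ => by
                obtain ⟨a, b⟩ := mem_filter.1 hφ
                have h1 : 0 < φ.card := card_pos.2 (hC φ a).1.1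
                rw [show φ.card = k + 1 by omega]
          _ ≤ ((M : ℝ) ^ 2) ^ k * y ^ (k + 1) := by
              rw [nsmul_eq_mul]
              exact mul_le_mul_of_nonneg_right h2 (pow_nonneg hy _)
          _ = ((M : ℝ) ^ 2 * y) ^ k * y := by rw [mul_pow, pow_succ y, mul_assoc]
          _ ≤ _ := mul_le_mul_of_nonneg_right (pow_le_pow_left₀ (by positivity) hy' k) hy
    _ ≤ _ := by
        rw [← sum_mul]
        exact mul_le_mul_of_nonneg_right (sum_geometric_two_le _) hy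

end Count

lemma exp_le_P1 {x : ℝ} (h0 : 0 ≤ x) (h1 : x ≤ 1 / 2) : Real.exp (-(2 * x)) ≤ 1 - x := by
  have h := Real.add_one_le_exp (2 * x)
  rw [Real.exp_neg, inv_le_iff_one_le_mul₀ (Real.exp_pos _)]
  nlinarith [mul_le_mul_of_nonneg_left h (show 0 ≤ 1 - x by linarith)]

theorem cluster : ClusterStmt := by
  intro U ι Ω _ _ _ _ R near Bad M hM hR h1 h2 h3 hdep hp
  have hM' : (2 : ℝ) ≤ M := by exact_mod_cast hM
  have hM0 : (0 : ℝ) < M := by linarith
  set y : ℝ := 1 / (M : ℝ) ^ 5 with hy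
  have hy0 : 0 ≤ y := by positivity
  have hM3 : (8 : ℝ) ≤ (M : ℝ) ^ 3 := by
    have := pow_le_pow_left₀ (by norm_num) hM' 3
    linarith
  have hy2 : (M : ℝ) ^ 2 * y ≤ 1 / 8 := by
    rw [show (M : ℝ) ^ 2 * y = 1 / (M : ℝ) ^ 3 by rw [hy]; field_simp]
    exact one_div_le_one_div_of_le (by norm_num) hM3
  have hy1 : y ≤ 1 / 2 := by nlinarith [mul_le_mul_of_nonneg_right (show 1 ≤ (M : ℝ) ^ 2 by nlinarith) hy0]
  have hx : ∀ φ : Finset U, Conn R φ → y ^ φ.card ≤ 1 / 2 := fun φ hφ =>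
    (pow_le_of_le_one hy0 (by linarith) (card_pos.2 hφ.1).ne').trans hy1
  obtain ⟨ω, hω⟩ := lll_P1 (univ.filter fun φ : Finset U => Conn R φ) Bad
    (fun φ => {i | ∃ z ∈ φ, near z i}) (fun φ => y ^ φ.card)
    (fun φ hφ => hdep φ (mem_filter.1 hφ).2) (fun φ _ => pow_nonneg hy0 _)
    (fun φ hφ => by have := hx φ (mem_filter.1 hφ).2; linarith) (by
      intro φ hφ
      set C := (univ.filter fun φ : Finset U => Conn R φ).filter fun ψ =>
        ¬ Disjoint {i | ∃ z ∈ φ, near z i} {i | ∃ z ∈ ψ, near z i} with hC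
      set B := φ.biUnion fun z => (univ.filter fun i => near z i).biUnion fun i =>
        univ.filter fun w => near w i with hB
      have hCc : ∀ ψ ∈ C, Conn R ψ := fun ψ hψ => (mem_filter.1 (mem_filter.1 hψ).1).2
      have hBc : B.card ≤ φ.card * (M * M) :=
        card_biUnion_le_card_mul _ _ _ fun z _ =>
          (card_biUnion_le_card_mul _ _ M fun i _ => h3 i).trans (Nat.mul_le_mul_right _ (h2 z))
      have hBc' : (B.card : ℝ) ≤ φ.card * (M * M) := by exact_mod_cast hBc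
      have hs : ∑ ψ ∈ C, y ^ ψ.card ≤ φ.card / 4 :=
        calc _ ≤ ∑ ψ ∈ C, ∑ w ∈ B, if w ∈ ψ then y ^ ψ.card else 0 := sum_le_sum fun ψ hψ => by
              obtain ⟨i, ⟨z, hz, hzi⟩, w, hw, hwi⟩ := Set.not_disjoint_iff.1 (mem_filter.1 hψ).2
              have hwB : w ∈ B := mem_biUnion.2 ⟨z, hz, mem_biUnion.2
                ⟨i, mem_filter.2 ⟨mem_univ _, hzi⟩, mem_filter.2 ⟨mem_univ _, hwi⟩⟩⟩
              have := single_le_sum (f := fun w => if w ∈ ψ then y ^ ψ.card else 0)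
                (fun v _ => by split_ifs <;> positivity) hwB
              rwa [if_pos hw] at this
          _ = ∑ w ∈ B, ∑ ψ ∈ C.filter (fun ψ => w ∈ ψ), y ^ ψ.card := by
              rw [sum_comm]
              exact sum_congr rfl fun w _ => (sum_filter _ _).symm
          _ ≤ B.card • (2 * y) := sum_le_card_nsmul _ _ _ fun w _ =>
              sum_conn_P1 hR h1 hy0 (by linarith) w _
                fun ψ hψ => ⟨hCc ψ (mem_filter.1 hψ).1, (mem_filter.1 hψ).2⟩
          _ ≤ φ.card * (M * M) * (2 * y) := by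
              rw [nsmul_eq_mul]
              exact mul_le_mul_of_nonneg_right hBc' (by positivity)
          _ = 2 * φ.card * ((M : ℝ) ^ 2 * y) := by ring
          _ ≤ 2 * φ.card * (1 / 8) := mul_le_mul_of_nonneg_left hy2 (by positivity)
          _ = _ := by ring
      have hprod : (1 / (M : ℝ)) ^ φ.card ≤ ∏ ψ ∈ C, (1 - y ^ ψ.card) :=
        calc _ ≤ (Real.exp (-(1 / 2))) ^ φ.card := by
              refine pow_le_pow_left₀ (by positivity) ?_ _
              have := Real.add_one_le_exp (-(1 / 2))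
              have := one_div_le_one_div_of_le (by norm_num) hM'
              linarith
          _ ≤ Real.exp (∑ ψ ∈ C, -(2 * y ^ ψ.card)) := by
              rw [← Real.exp_nat_mul, sum_neg_distrib, ← mul_sum]
              exact Real.exp_le_exp.2 (by linarith)
          _ ≤ _ := by
              rw [Real.exp_sum]
              exact prod_le_prod (fun ψ _ => (Real.exp_pos _).le)
                fun ψ hψ => exp_le_P1 (pow_nonneg hy0 _) (hx ψ (hCc ψ hψ))
      refine (hp φ (mem_filter.1 hφ).2).trans (le_trans (le_of_eq ?_)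
        (mul_le_mul_of_nonneg_left hprod (pow_nonneg hy0 _)))
      rw [← mul_pow, hy]
      congr 1
      field_simp)
  exact ⟨ω, fun φ hφ => hω φ (mem_filter.2 ⟨mem_univ _, hφ⟩)⟩

end Pool.Agent.MP_d20a68_co.Poly

end

section

/-! Tail bounds: the number of selected coordinates, and bounded differences on the cube. -/

set_option autoImplicit false
set_option linter.unusedSectionVars false
set_option linter.unusedVariables false
open Finset
open scoped Classical

namespace Pool.Agent.MP_d20a68_co.Poly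

lemma mean_prod_p2 {ι Ω : Type} [Fintype ι] [Fintype Ω] [Nonempty Ω] (N : Finset ι) (g : Ω → ℝ) :
    mean (fun ω : ι → Ω => ∏ i ∈ N, g (ω i)) = ((∑ a, g a) / Fintype.card Ω) ^ N.card := by
  have hc : (0 : ℝ) < Fintype.card Ω := by exact_mod_cast Fintype.card_pos
  have h1 : ∀ ω : ι → Ω, ∏ i ∈ N, g (ω i) = ∏ i, (if i ∈ N then g (ω i) else 1) := fun ω => by
    rw [prod_ite_mem, univ_inter]
  have h2 := Finset.prod_univ_sum (fun _ : ι => (univ : Finset Ω))
    (fun i a => if i ∈ N then g a else (1 : ℝ))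
  rw [Fintype.piFinset_univ] at h2
  have h3 : (Fintype.card (ι → Ω) : ℝ) = ∏ _i : ι, (Fintype.card Ω : ℝ) := by
    rw [Fintype.card_fun, prod_const, card_univ]; push_cast; rfl
  unfold mean
  simp only [h1]
  rw [← h2, h3, ← prod_div_distrib, ← prod_const, ← univ_inter N, ← prod_ite_mem, univ_inter]
  refine prod_congr rfl fun i _ => ?_
  split_ifs with hi
  · rfl
  · rw [sum_const, card_univ, nsmul_eq_mul, mul_one, div_self hc.ne']

lemma sum_fin_p2 {D t : ℕ} (h : t ≤ D) (x y : ℝ) :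
    ∑ a : Fin D, (if a.val < t then x else y) = D * y + t * (x - y) := by
  rw [Fin.sum_univ_eq_sum_range (fun a => if a < t then x else y) D]
  have h1 : ∀ a ∈ range D, (if a < t then x else y) = y + (if a < t then x - y else 0) :=
    fun a _ => by split_ifs <;> ring
  have h2 : (range D).filter (fun a => a < t) = range t := by
    ext a; simp only [mem_filter, mem_range]; omega
  rw [sum_congr rfl h1, sum_add_distrib, ← sum_filter, h2, sum_const, sum_const, card_range,
    card_range, nsmul_eq_mul, nsmul_eq_mul]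

lemma pow_le_exp_p2 {x y : ℝ} (n : ℕ) (h0 : 0 ≤ 1 + x) (h : x ≤ y) :
    (1 + x) ^ n ≤ Real.exp (y * n) := by
  rw [mul_comm, Real.exp_nat_mul]
  refine pow_le_pow_left₀ h0 ?_ n
  have := Real.add_one_le_exp y
  linarith

theorem sel : SelStmt := by
  intro ι _ D t hD ht N
  have : Nonempty (Fin D) := ⟨⟨0, hD⟩⟩
  have hD' : (0 : ℝ) < D := by exact_mod_cast hD
  have ht' : (t : ℝ) ≤ D := by exact_mod_cast ht
  have ht0 : (0 : ℝ) ≤ t / D := by positivity
  have ht1 : (t : ℝ) / D ≤ 1 := (div_le_one hD').2 ht'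
  refine ⟨?_, fun T => ?_⟩
  · have h1 := mean_prod_p2 N (fun a : Fin D => if a.val < t then (0 : ℝ) else 1)
    rw [sum_fin_p2 ht, Fintype.card_fin] at h1
    have h2 : ((D : ℝ) * 1 + t * (0 - 1)) / D = 1 + -(t / D) := by field_simp; ring
    rw [h2] at h1
    have h3 : -((t : ℝ) * N.card / D) = -(t / D) * N.card := by ring
    rw [h3]
    refine le_trans ?_ (pow_le_exp_p2 N.card (x := -((t : ℝ) / D)) (by linarith) le_rfl)
    rw [← h1]
    unfold pr
    refine mean_mono fun ω => ?_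
    by_cases hω : ∀ i ∈ N, ¬ (ω i).val < t
    · rw [if_pos hω]
      exact le_of_eq (prod_eq_one fun i hi => if_neg (hω i hi)).symm
    · rw [if_neg hω]
      exact prod_nonneg fun i _ => by split_ifs <;> norm_num
  · have h0 := pr_le_exp (fun ω : ι → Fin D => ((N.filter fun i => (ω i).val < t).card : ℝ)) 1
      (2 * (t : ℝ) * N.card / D + T) zero_le_one
    refine h0.trans ?_
    have h1 := mean_prod_p2 N (fun a : Fin D => if a.val < t then Real.exp 1 else 1)
    rw [sum_fin_p2 ht, Fintype.card_fin] at h1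
    have h2 : ((D : ℝ) * 1 + t * (Real.exp 1 - 1)) / D = 1 + (Real.exp 1 - 1) * (t / D) := by
      field_simp
    rw [h2] at h1
    have h3 : (fun ω : ι → Fin D =>
        Real.exp (1 * ((N.filter fun i => (ω i).val < t).card : ℝ))) =
        fun ω => ∏ i ∈ N, (if (ω i).val < t then Real.exp 1 else 1) := by
      funext ω
      rw [prod_ite, prod_const_one, mul_one, prod_const, mul_comm, Real.exp_nat_mul]
    rw [h3, h1]
    have he1 : Real.exp 1 ≤ 3 := by have := Real.exp_one_lt_d9; linarith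
    have he0 : 1 ≤ Real.exp 1 := Real.one_le_exp zero_le_one
    have h4 := pow_le_exp_p2 N.card (x := (Real.exp 1 - 1) * ((t : ℝ) / D)) (y := 2 * (t / D))
      (by nlinarith) (by nlinarith)
    refine (mul_le_mul_of_nonneg_left h4 (Real.exp_pos _).le).trans (le_of_eq ?_)
    rw [← Real.exp_add]
    congr 1
    ring

section Cube

variable {ι : Type} [Fintype ι]

lemma mean_pair_p2 (i : ι) (F : (ι → Bool) → ℝ) :
    mean F = mean fun ω => (F (Function.update ω i true) + F (Function.update ω i false)) / 2 := by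
  have hτ : ∀ ω : ι → Bool, Function.update (Function.update ω i (!ω i)) i
      (!(Function.update ω i (!ω i)) i) = ω := fun ω => by simp
  have h1 := mean_invol (fun ω : ι → Bool => Function.update ω i (!ω i)) hτ F
  have h2 : (fun ω : ι → Bool =>
      (F (Function.update ω i true) + F (Function.update ω i false)) / 2) =
      fun ω => (1 / 2) * (F ω + F (Function.update ω i (!ω i))) := by
    funext ω
    cases hω : ω i
    · have : Function.update ω i false = ω := by rw [← hω]; simp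
      rw [this, Bool.not_false]; ring
    · have : Function.update ω i true = ω := by rw [← hω]; simp
      rw [this, Bool.not_true]; ring
  rw [h2, mean_mul, mean_add, h1]
  ring

lemma exp_pair_p2 {a b c l : ℝ} (h : |a - b| ≤ c) :
    (Real.exp (l * a) + Real.exp (l * b)) / 2 ≤
      Real.exp (l ^ 2 * c ^ 2 / 8) * Real.exp (l * ((a + b) / 2)) := by
  have h1 : (Real.exp (l * a) + Real.exp (l * b)) / 2 =
      Real.cosh (l * (a - b) / 2) * Real.exp (l * ((a + b) / 2)) := by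
    rw [Real.cosh_eq, div_mul_eq_mul_div, add_mul, ← Real.exp_add, ← Real.exp_add]
    congr 3 <;> ring
  rw [h1]
  refine mul_le_mul_of_nonneg_right ((Real.cosh_le_exp_half_sq _).trans ?_) (Real.exp_pos _).le
  have h2 : (a - b) ^ 2 ≤ c ^ 2 := by
    rw [← sq_abs (a - b)]; exact pow_le_pow_left₀ (abs_nonneg _) h 2
  have h3 := mul_le_mul_of_nonneg_left h2 (sq_nonneg l)
  refine Real.exp_le_exp.2 ?_
  nlinarith

lemma mgf_p2 (c : ι → ℝ) (l : ℝ) (s : Finset ι) : ∀ f : (ι → Bool) → ℝ,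
    (∀ ω ω', (∀ j ∈ s, ω j = ω' j) → f ω = f ω') →
    (∀ i ω ω', (∀ j, j ≠ i → ω j = ω' j) → |f ω - f ω'| ≤ c i) →
    mean (fun ω => Real.exp (l * f ω)) ≤
      Real.exp (l * mean f + l ^ 2 * (∑ i ∈ s, c i ^ 2) / 8) := by
  induction s using Finset.induction_on with
  | empty =>
    intro f hd _
    have h1 : f = fun _ => f (fun _ => true) := funext fun ω => hd _ _ fun j hj => by simp at hj
    rw [h1, mean_const, mean_const]
    simp
  | insert i s hi ih =>
    intro f hd hc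
    have h1 := ih (fun ω => (f (Function.update ω i true) + f (Function.update ω i false)) / 2)
      (fun ω ω' h => by
        have key : ∀ b, f (Function.update ω i b) = f (Function.update ω' i b) := fun b =>
          hd _ _ fun j hj => by
            by_cases hji : j = i
            · subst hji; simp
            · rw [Function.update_of_ne hji, Function.update_of_ne hji]
              exact h j ((mem_insert.1 hj).resolve_left hji)
        rw [key, key])
      (fun k ω ω' h => by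
        have key : ∀ b, |f (Function.update ω i b) - f (Function.update ω' i b)| ≤ c k := fun b =>
          hc k _ _ fun j hj => by
            by_cases hji : j = i
            · subst hji; simp
            · rw [Function.update_of_ne hji, Function.update_of_ne hji]
              exact h j hj
        have h1 := abs_le.1 (key true)
        have h2 := abs_le.1 (key false)
        rw [abs_le]
        constructor <;> linarith [h1.1, h1.2, h2.1, h2.2])
    rw [← mean_pair_p2 i f] at h1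
    rw [mean_pair_p2 i, sum_insert hi]
    refine (mean_mono fun ω => exp_pair_p2 (c := c i) (hc i _ _ fun j hj => by
      rw [Function.update_of_ne hj, Function.update_of_ne hj])).trans ?_
    rw [mean_mul]
    refine (mul_le_mul_of_nonneg_left h1 (Real.exp_pos _).le).trans (le_of_eq ?_)
    rw [← Real.exp_add]
    congr 1
    ring

end Cube

theorem mcd : McDStmt := by
  intro ι _ f c Q t hQ ht hc hs
  have hl : 0 ≤ 4 * t / Q := by positivity
  refine (pr_le_exp f (4 * t / Q) (mean f + t) hl).trans ?_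
  have h1 := mgf_p2 c (4 * t / Q) univ f
    (fun ω ω' h => by rw [show ω = ω' from funext fun j => h j (mem_univ j)]) hc
  refine (mul_le_mul_of_nonneg_left h1 (Real.exp_pos _).le).trans ?_
  rw [← Real.exp_add]
  refine Real.exp_le_exp.2 ?_
  have h2 := mul_le_mul_of_nonneg_left hs (sq_nonneg (4 * t / Q))
  have h3 : (4 * t / Q) ^ 2 * Q = 8 * (2 * t ^ 2 / Q) := by field_simp; ring
  have h4 : 4 * t / Q * t = 2 * (2 * t ^ 2 / Q) := by field_simp; ring
  nlinarith

end Pool.Agent.MP_d20a68_co.Poly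

end

section

/-! Degree constrained subgraphs of bipartite graphs. -/

set_option autoImplicit false
set_option linter.unusedSectionVars false
set_option linter.unusedVariables false
open Finset
open scoped Classical

namespace Pool.Agent.MP_d20a68_co.Poly

variable {V : Type} [Fintype V]

lemma dg_edge_P4 {a b : V} (h : a ≠ b) (v : V) :
    dg (SimpleGraph.edge a b) v = (if v = a then 1 else 0) + (if v = b then 1 else 0) := by
  unfold dg
  by_cases h1 : v = a
  · subst h1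
    rw [if_pos rfl, if_neg h, show nb (SimpleGraph.edge v b) v = {b} from ?_, card_singleton]
    ext w
    rw [mem_nb, SimpleGraph.edge_adj, mem_singleton]
    exact ⟨fun hw => hw.1.elim (fun e => e.2) fun e => absurd e.1 h,
      fun hw => ⟨Or.inl ⟨rfl, hw⟩, hw ▸ h⟩⟩
  by_cases h2 : v = b
  · subst h2
    rw [if_neg h1, if_pos rfl, show nb (SimpleGraph.edge a v) v = {a} from ?_, card_singleton]
    ext w
    rw [mem_nb, SimpleGraph.edge_adj, mem_singleton]
    exact ⟨fun hw => hw.1.elim (fun e => absurd e.1 h1) fun e => e.2,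
      fun hw => ⟨Or.inr ⟨rfl, hw⟩, hw ▸ h1⟩⟩
  · rw [if_neg h1, if_neg h2, show nb (SimpleGraph.edge a b) v = ∅ from ?_, card_empty]
    ext w
    rw [mem_nb, SimpleGraph.edge_adj]
    exact ⟨fun hw => hw.1.elim (fun e => absurd e.1 h1) fun e => absurd e.1 h2,
      fun hw => absurd hw (notMem_empty _)⟩

lemma edge_le_P4 {H : SimpleGraph V} {a b : V} (h : H.Adj a b) : SimpleGraph.edge a b ≤ H := by
  intro u v huv
  rcases (SimpleGraph.edge_adj ..).1 huv with ⟨⟨rfl, rfl⟩ | ⟨rfl, rfl⟩, -⟩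
  exacts [h, h.symm]

/-- The two graphs differ only in edges between `X` and `Y`. -/
def AgrP4 (F F' : SimpleGraph V) (X Y : Finset V) : Prop :=
  ∀ u v, ¬ ((u ∈ X ∧ v ∈ Y) ∨ (u ∈ Y ∧ v ∈ X)) → (F'.Adj u v ↔ F.Adj u v)

lemma AgrP4.mono {F F' : SimpleGraph V} {X Y X' Y' : Finset V} (h : AgrP4 F F' X Y) (hX : X ⊆ X')
    (hY : Y ⊆ Y') : AgrP4 F F' X' Y' := fun u v huv =>
  h u v fun e => huv (e.imp (fun e => ⟨hX e.1, hY e.2⟩) fun e => ⟨hY e.1, hX e.2⟩)

/-- The sets reached by alternating walks from `x`. -/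
structure GoodP4 (B F : SimpleGraph V) (σ : V → Bool) (x : V) (X Y : Finset V) : Prop where
  mem : x ∈ X
  sX : ∀ u ∈ X, σ u = σ x
  sY : ∀ y ∈ Y, σ y ≠ σ x
  fX : ∀ u ∈ X, ∃ F' ≤ B, AgrP4 F F' X Y ∧
    ∀ v, dg F' v + (if v = u then 1 else 0) = dg F v + (if v = x then 1 else 0)
  fY : ∀ y ∈ Y, ∃ F' ≤ B, AgrP4 F F' X Y ∧
    ∀ v, dg F' v = dg F v + (if v = x then 1 else 0) + (if v = y then 1 else 0)

lemma GoodP4.addY {B F : SimpleGraph V} {σ : V → Bool} {x : V} {X Y : Finset V}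
    (h : GoodP4 B F σ x X Y) (hσ : Cross B σ) {u y : V} (hu : u ∈ X) (hy : y ∉ Y)
    (hB : B.Adj u y) (hF : ¬ F.Adj u y) : GoodP4 B F σ x X (insert y Y) := by
  refine ⟨h.mem, h.sX, fun z hz => ?_, fun z hz => ?_, fun z hz => ?_⟩
  · rcases mem_insert.1 hz with rfl | hz
    · rw [← h.sX u hu]; exact (hσ _ _ hB).symm
    · exact h.sY z hz
  · obtain ⟨F', a1, a2, a3⟩ := h.fX z hz
    exact ⟨F', a1, a2.mono subset_rfl (subset_insert _ _), a3⟩
  rcases mem_insert.1 hz with rfl | hz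
  · obtain ⟨F', a1, a2, a3⟩ := h.fX u hu
    have hn : ¬ F'.Adj u z := fun e => hF ((a2 u z fun e' =>
      e'.elim (fun e' => hy e'.2) fun e' => h.sY u e'.1 (h.sX u hu)).1 e)
    refine ⟨F' ⊔ SimpleGraph.edge u z, sup_le a1 (edge_le_P4 hB), fun a b hab => ?_, fun v => ?_⟩
    · rw [← a2.mono subset_rfl (subset_insert z Y) a b hab, SimpleGraph.sup_adj]
      refine ⟨fun e => e.elim id fun e => absurd ?_ hab, Or.inl⟩
      rcases (SimpleGraph.edge_adj ..).1 e with ⟨⟨rfl, rfl⟩ | ⟨rfl, rfl⟩, -⟩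
      exacts [Or.inl ⟨hu, mem_insert_self _ _⟩, Or.inr ⟨mem_insert_self _ _, hu⟩]
    · rw [dg_sup, dg_edge_P4 hB.ne, ← add_assoc, a3]
      intro a b e1 e2
      rcases (SimpleGraph.edge_adj ..).1 e2 with ⟨⟨rfl, rfl⟩ | ⟨rfl, rfl⟩, -⟩
      exacts [hn e1, hn e1.symm]
  · obtain ⟨F', a1, a2, a3⟩ := h.fY z hz
    exact ⟨F', a1, a2.mono subset_rfl (subset_insert _ _), a3⟩

lemma GoodP4.addX {B F : SimpleGraph V} {σ : V → Bool} {x : V} {X Y : Finset V}
    (h : GoodP4 B F σ x X Y) (hσ : Cross B σ) (hFB : F ≤ B) {u y : V} (hu : u ∉ X) (hy : y ∈ Y)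
    (hF : F.Adj y u) : GoodP4 B F σ x (insert u X) Y := by
  refine ⟨mem_insert_of_mem h.mem, fun z hz => ?_, h.sY, fun z hz => ?_, fun z hz => ?_⟩
  · rcases mem_insert.1 hz with rfl | hz
    · have a1 := hσ _ _ (hFB hF)
      have a2 := h.sY y hy
      revert a1 a2
      cases σ y <;> cases σ z <;> cases σ x <;> simp
    · exact h.sX z hz
  · rcases mem_insert.1 hz with rfl | hz
    · obtain ⟨F', a1, a2, a3⟩ := h.fY y hy
      have hn : F'.Adj y z := (a2 y z fun e' =>
        e'.elim (fun e' => h.sY y hy (h.sX y e'.1)) fun e' => hu e'.2).2 hF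
      refine ⟨F' \ SimpleGraph.edge y z, sdiff_le.trans a1, fun a b hab => ?_, fun v => ?_⟩
      · rw [← a2.mono (subset_insert z X) subset_rfl a b hab, SimpleGraph.sdiff_adj]
        refine ⟨fun e => e.1, fun e => ⟨e, fun e' => hab ?_⟩⟩
        rcases (SimpleGraph.edge_adj ..).1 e' with ⟨⟨rfl, rfl⟩ | ⟨rfl, rfl⟩, -⟩
        exacts [Or.inr ⟨hy, mem_insert_self _ _⟩, Or.inl ⟨mem_insert_self _ _, hy⟩]
      · have a4 := dg_sdiff (edge_le_P4 hn) v
        rw [dg_edge_P4 hn.ne, a3] at a4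
        omega
    · obtain ⟨F', a1, a2, a3⟩ := h.fX z hz
      exact ⟨F', a1, a2.mono (subset_insert _ _) subset_rfl, a3⟩
  · obtain ⟨F', a1, a2, a3⟩ := h.fY z hz
    exact ⟨F', a1, a2.mono (subset_insert _ _) subset_rfl, a3⟩

theorem factor : FactorStmt := by
  intro V _ B σ g d hσ hgd hall
  obtain ⟨F, ⟨hFB, hFd⟩, hmin⟩ := (measure fun F : SimpleGraph V => ∑ v, (g - dg F v)).wf.has_min
    {F | F ≤ B ∧ ∀ v, dg F v ≤ d} ⟨⊥, bot_le, fun v => by rw [dg_bot]; exact Nat.zero_le _⟩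
  refine ⟨F, hFB, fun x => ⟨not_lt.1 fun hx => ?_, hFd x⟩⟩
  have key : ∀ F' ≤ B, (∀ v, dg F' v ≤ d) → (∀ v, g - dg F' v ≤ g - dg F v) →
      dg F x < dg F' x → False := fun F' a1 a2 a3 a4 =>
    hmin F' ⟨a1, a2⟩ (sum_lt_sum (fun v _ => a3 v) ⟨x, mem_univ _, by omega⟩)
  obtain ⟨⟨X, Y⟩, hp, hmax⟩ := exists_max_image
    (univ.filter fun p : Finset V × Finset V => GoodP4 B F σ x p.1 p.2)
    (fun p => p.1.card + p.2.card) ⟨({x}, ∅), mem_filter.2 ⟨mem_univ _, mem_singleton_self _,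
      fun u hu => by rw [mem_singleton.1 hu], fun y hy => absurd hy (notMem_empty _),
      fun u hu => ⟨F, hFB, fun _ _ _ => Iff.rfl, fun v => by rw [mem_singleton.1 hu]⟩,
      fun y hy => absurd hy (notMem_empty _)⟩⟩
  have h : GoodP4 B F σ x X Y := (mem_filter.1 hp).2
  have c1 : ∀ u ∈ X, ∀ y, y ∉ Y → B.Adj u y → F.Adj u y := fun u hu y hy hB => by
    by_contra hF
    have := hmax (X, insert y Y) (mem_filter.2 ⟨mem_univ _, h.addY hσ hu hy hB hF⟩)
    simp only [card_insert_of_notMem hy] at this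
    omega
  have c2 : ∀ y ∈ Y, ∀ u, F.Adj y u → u ∈ X := fun y hy u hF => by
    by_contra hu
    have := hmax (insert u X, Y) (mem_filter.2 ⟨mem_univ _, h.addX hσ hFB hu hy hF⟩)
    simp only [card_insert_of_notMem hu] at this
    omega
  have c3 : ∀ y ∈ Y, d ≤ dg F y := fun y hy => not_lt.1 fun hlt => by
    obtain ⟨F', a1, -, a3⟩ := h.fY y hy
    have hne : x ≠ y := fun e => h.sY y hy (by rw [e])
    refine key F' a1 (fun v => ?_) (fun v => ?_) ?_
    · have := hFd v
      rw [a3]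
      split_ifs with e1 e2 e2
      · exact absurd (e1.symm.trans e2) hne
      · subst e1; omega
      · subst e2; omega
      · omega
    · rw [a3]; omega
    · rw [a3, if_pos rfl]; omega
  have c4 : ∀ u ∈ X, dg F u ≤ g := fun u hu => not_lt.1 fun hlt => by
    obtain ⟨F', a1, -, a3⟩ := h.fX u hu
    have hne : x ≠ u := fun e => by rw [← e] at hlt; omega
    refine key F' a1 (fun v => ?_) (fun v => ?_) ?_
    · have a4 := hFd v
      have a5 := a3 v
      split_ifs at a5 with e1 e2 e2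
      · omega
      · omega
      · subst e2; omega
      · omega
    · have a5 := a3 v
      split_ifs at a5 with e1 e2 e2
      · omega
      · subst e1; omega
      · omega
      · omega
    · have a5 := a3 x
      rw [if_neg hne, if_pos rfl] at a5
      omega
  have c5 : ∑ u ∈ X, dg F u < g * X.card := by
    rw [mul_comm, ← smul_eq_mul, ← sum_const]
    exact sum_lt_sum c4 ⟨x, h.mem, hx⟩
  have c6 : d * Y.card ≤ ∑ u ∈ X, (Y.filter (F.Adj u)).card := by
    rw [sum_card_comm, mul_comm, ← smul_eq_mul, ← sum_const]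
    refine sum_le_sum fun y hy => (c3 y hy).trans (card_le_card fun u hu => ?_)
    exact mem_filter.2 ⟨c2 y hy u (mem_nb.1 hu), mem_nb.1 hu⟩
  have c7 : ∑ u ∈ X, (Y.filter (F.Adj u)).card + eout B X Y ≤ ∑ u ∈ X, dg F u := by
    unfold eout
    rw [← sum_add_distrib]
    refine sum_le_sum fun u hu => ?_
    rw [← card_union_of_disjoint (disjoint_left.2 fun y h1 h2 =>
      (mem_filter.1 h2).2.2 (mem_filter.1 h1).1)]
    refine card_le_card fun y hy => mem_nb.2 ?_
    rcases mem_union.1 hy with e | e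
    · exact (mem_filter.1 e).2
    · exact c1 u hu y (mem_filter.1 e).2.2 (mem_filter.1 e).2.1
  have := hall (σ x) X Y h.sX h.sY
  omega

end Pool.Agent.MP_d20a68_co.Poly

end

section

/-! Regularisation, list colouring for bounded degree, and the iteration of the halving lemma. -/

set_option autoImplicit false
set_option linter.unusedSectionVars false
set_option linter.unusedVariables false
open Finset
open scoped Classical

namespace Pool.Agent.MP_d20a68_co.Poly

/-- Two copies of a graph, with the two copies of each vertex of small degree joined. -/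
def dblP5 {V : Type} [Fintype V] (G : SimpleGraph V) (D : ℕ) : SimpleGraph (V × Bool) where
  Adj z w := (G.Adj z.1 w.1 ∧ z.2 = w.2) ∨ (z.1 = w.1 ∧ z.2 ≠ w.2 ∧ dg G z.1 < D)
  symm := ⟨fun z w h => by
    rcases h with ⟨h1, h2⟩ | ⟨h1, h2, h3⟩
    · exact Or.inl ⟨h1.symm, h2.symm⟩
    · exact Or.inr ⟨h1.symm, h2.symm, h1 ▸ h3⟩⟩
  loopless := ⟨fun z h => by
    rcases h with ⟨h1, -⟩ | ⟨-, h2, -⟩
    · exact h1.ne rfl
    · exact h2 rfl⟩

lemma dg_dblP5 {V : Type} [Fintype V] (G : SimpleGraph V) (D : ℕ) (z : V × Bool) :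
    dg (dblP5 G D) z = dg G z.1 + if dg G z.1 < D then 1 else 0 := by
  obtain ⟨v, b⟩ := z
  have hi : Function.Injective fun w : V => (w, b) := fun _ _ h => (Prod.mk.inj h).1
  by_cases h : dg G v < D
  · have e : nb (dblP5 G D) (v, b) = insert (v, !b) ((nb G v).image fun w => (w, b)) := by
      ext ⟨w, c⟩
      simp only [mem_nb, dblP5, mem_insert, mem_image, Prod.mk.injEq, h, and_true]
      constructor
      · rintro (⟨h1, h2⟩ | ⟨h1, h2⟩)
        · exact Or.inr ⟨w, h1, rfl, h2⟩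
        · exact Or.inl ⟨h1.symm, by cases b <;> cases c <;> simp_all⟩
      · rintro (⟨h1, h2⟩ | ⟨x, h1, rfl, h2⟩)
        · exact Or.inr ⟨h1.symm, by cases b <;> simp_all⟩
        · exact Or.inl ⟨h1, h2⟩
    rw [if_pos h, dg, e, card_insert_of_notMem (by cases b <;> simp),
      card_image_of_injective _ hi]
    rfl
  · have e : nb (dblP5 G D) (v, b) = (nb G v).image fun w => (w, b) := by
      ext ⟨w, c⟩
      simp only [mem_nb, dblP5, mem_image, Prod.mk.injEq, h, and_false, or_false]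
      constructor
      · rintro ⟨h1, h2⟩
        exact ⟨w, h1, rfl, h2⟩
      · rintro ⟨x, h1, rfl, h2⟩
        exact ⟨h1, h2⟩
    rw [if_neg h, dg, e, card_image_of_injective _ hi]
    rfl

/-- Every graph of maximum degree at most `D` is contained in a `D`-regular graph. -/
lemma regP5 (D k : ℕ) : ∀ (V : Type) [Fintype V] (G : SimpleGraph V), (∀ v, dg G v ≤ D) →
    (∀ v, D ≤ dg G v + k) → ∃ (W : Type) (_ : Fintype W) (G' : SimpleGraph W) (ι : V → W),
      Function.Injective ι ∧ (∀ u v, G.Adj u v → G'.Adj (ι u) (ι v)) ∧ (∀ w, dg G' w = D) ∧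
      ∀ σ, Cross G σ → ∃ σ', Cross G' σ' := by
  induction k with
  | zero =>
    intro V _ G h1 h2
    exact ⟨V, inferInstance, G, id, Function.injective_id, fun _ _ h => h,
      fun w => le_antisymm (h1 w) (h2 w), fun σ h => ⟨σ, h⟩⟩
  | succ k ih =>
    intro V _ G h1 h2
    obtain ⟨W, iW, G', ι, a1, a2, a3, a4⟩ := ih (V × Bool) (dblP5 G D) (fun z => by
      rw [dg_dblP5]
      have := h1 z.1
      split_ifs <;> omega) (fun z => by
      rw [dg_dblP5]
      have := h2 z.1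
      split_ifs <;> omega)
    refine ⟨W, iW, G', fun v => ι (v, true), fun u v h => (Prod.mk.inj (a1 h)).1,
      fun u v h => a2 _ _ (Or.inl ⟨h, rfl⟩), a3, fun σ hσ => a4 (fun z => xor (σ z.1) z.2) ?_⟩
    rintro ⟨u, b⟩ ⟨v, c⟩ (⟨e1, e2⟩ | ⟨e1, e2, -⟩)
    · have := hσ u v e1
      simp only at e2 ⊢
      subst e2
      cases b <;> simpa using this
    · simp only at e1 e2 ⊢
      subst e1
      cases b <;> cases c <;> simp_all

variable {V : Type} [Fintype V]

lemma dg_leP5 {W : Type} [Fintype W] {A : SimpleGraph V} {B : SimpleGraph W} {ι : V → W}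
    (hι : Function.Injective ι) (h : ∀ u v, A.Adj u v → B.Adj (ι u) (ι v)) (v : V) :
    dg A v ≤ dg B (ι v) :=
  card_le_card_of_injOn ι (fun w hw => mem_coe.2 (mem_nb.2 (h v w (mem_nb.1 (mem_coe.1 hw)))))
    hι.injOn

lemma konigP5 (D : ℕ) (H : SimpleGraph V) (σ : V → Bool) (hσ : Cross H σ)
    (hD : ∀ v, dg H v ≤ D) : ∃ φ, PC H φ ∧ ∀ u v, H.Adj u v → φ u v < D := by
  obtain ⟨W, iW, G', ι, a1, a2, a3, a4⟩ := regP5 D D V H hD fun v => Nat.le_add_left _ _
  obtain ⟨σ', hσ'⟩ := a4 σ hσ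
  obtain ⟨φ, p1, p2⟩ := konig D G' σ' hσ' a3
  exact ⟨fun u v => φ (ι u) (ι v), ⟨fun u v h => p1.symm _ _ (a2 u v h),
    fun u v w h h' hne => p1.ne _ _ _ (a2 u v h) (a2 u w h') fun e => hne (a1 e)⟩,
    fun u v h => p2 _ _ (a2 u v h)⟩

/-- Galvin's theorem for bipartite graphs of bounded degree. -/
lemma galvinP5 (D : ℕ) (H : SimpleGraph V) (σ : V → Bool) (hσ : Cross H σ)
    (hD : ∀ v, dg H v ≤ D) (L : V → V → Finset ℕ) (hs : ∀ u v, H.Adj u v → L u v = L v u)
    (hL : ∀ u v, H.Adj u v → D ≤ (L u v).card) :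
    ∃ f, PC H f ∧ ∀ u v, H.Adj u v → f u v ∈ L u v := by
  obtain ⟨φ, p1, p2⟩ := konigP5 D H σ hσ hD
  obtain ⟨g, g1, g2⟩ := galvin_abs Prod.fst Prod.snd (fun e : V × V => φ e.1 e.2)
    (univ.filter fun e : V × V => σ e.1 = true ∧ H.Adj e.1 e.2) D
    (fun e he e' he' hne h => by
      obtain ⟨x, y⟩ := e
      obtain ⟨x', y'⟩ := e'
      simp only [mem_filter, mem_univ, true_and] at he he' h
      rcases h with rfl | rfl
      · exact p1.ne x y y' he.2 he'.2 fun h => hne (by rw [h])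
      · simp only
        rw [p1.symm x y he.2, p1.symm x' y he'.2]
        exact p1.ne y x x' he.2.symm he'.2.symm fun h => hne (by rw [h]))
    (fun e he => p2 _ _ (mem_filter.1 he).2.2) (fun e => L e.1 e.2)
    (fun e he => hL _ _ (mem_filter.1 he).2.2)
  simp only [mem_filter, mem_univ, true_and] at g1 g2
  refine ⟨fun u v => if σ u = true then g (u, v) else g (v, u), ⟨fun u v h => ?_,
    fun u v w h h' hne => ?_⟩, fun u v h => ?_⟩
  · have := hσ u v h
    cases hu : σ u <;> cases hv : σ v <;> simp_all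
  · by_cases hu : σ u = true
    · simp only [if_pos hu]
      exact g2 (u, v) ⟨hu, h⟩ (u, w) ⟨hu, h'⟩ (by simp [hne]) (Or.inl rfl)
    · simp only [if_neg hu]
      have h1 := hσ u v h
      have h2 := hσ u w h'
      exact g2 (v, u) ⟨by simp_all, h.symm⟩ (w, u) ⟨by simp_all, h'.symm⟩ (by simp [hne])
        (Or.inr rfl)
  · by_cases hu : σ u = true
    · simp only [if_pos hu]
      exact g1 (u, v) ⟨hu, h⟩
    · simp only [if_neg hu]
      have h1 := hσ u v h
      rw [hs u v h]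
      exact g1 (v, u) ⟨by simp_all, h.symm⟩

/-- The halving lemma for graphs of bounded degree. -/
lemma halfP5 (h : HalfRegStmt) (G : SimpleGraph V) {D L d : ℕ} (hP : Par D L)
    (hD : ∀ v, dg G v ≤ D) (hd : 4 * d ≤ D) : ∃ F ≤ G, ∃ σ : V → Bool, Cross F σ ∧
      ∀ v, dg F v ≤ d ∧ dg (G \ F) v + d ≤ D + 10 ^ 8 * L ^ 4 := by
  obtain ⟨W, iW, G', ι, a1, a2, a3, -⟩ := regP5 D D V G hD fun v => Nat.le_add_left _ _
  obtain ⟨F, hF, σ, hσ, hdg⟩ := h W G' D L d hP a3 hd
  refine ⟨G ⊓ F.comap ι, inf_le_left, fun v => σ (ι v), fun u v huv => hσ _ _ huv.2,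
    fun v => ⟨(dg_leP5 (A := G ⊓ F.comap ι) (B := F) a1 (fun u v huv => huv.2) v).trans
      (hdg _).1, ?_⟩⟩
  have h1 : dg (G \ (G ⊓ F.comap ι)) v ≤ dg (G' \ F) (ι v) :=
    dg_leP5 (A := G \ (G ⊓ F.comap ι)) (B := G' \ F) a1
      (fun u v huv => ⟨a2 u v huv.1, fun h' => huv.2 ⟨huv.1, h'⟩⟩) v
  have h2 := dg_sdiff hF (ι v)
  have h3 := (hdg (ι v)).2
  rw [a3] at h2
  omega

/-- Greedy list colouring. -/
lemma greedy_absP5 {E : Type} (conf : E → E → Prop) [∀ e, DecidablePred (conf e)]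
    (hc : ∀ e e', conf e e' → conf e' e)
    (L : E → Finset ℕ) (S : Finset E) (hL : ∀ e ∈ S, (S.filter (conf e)).card < (L e).card) :
    ∃ f : E → ℕ, (∀ e ∈ S, f e ∈ L e) ∧
      ∀ e ∈ S, ∀ e' ∈ S, e ≠ e' → conf e e' → f e ≠ f e' := by
  induction S using Finset.induction_on with
  | empty => exact ⟨fun _ => 0, by simp, by simp⟩
  | insert a S ha ih =>
    have hm : ∀ e, (S.filter (conf e)).card ≤ ((insert a S).filter (conf e)).card := fun e =>
      card_le_card (filter_subset_filter _ (subset_insert _ _))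
    obtain ⟨f, f1, f2⟩ := ih fun e he => (hm e).trans_lt (hL e (mem_insert_of_mem he))
    obtain ⟨x, hx, hx'⟩ := exists_mem_notMem_of_card_lt_card
      (s := (S.filter (conf a)).image f) (t := L a)
      (card_image_le.trans_lt ((hm a).trans_lt (hL a (mem_insert_self _ _))))
    have hne : ∀ e ∈ S, e ≠ a := fun e he h => ha (h ▸ he)
    have key : ∀ e ∈ S, conf a e → x ≠ f e := fun e he h e' =>
      hx' (mem_image.2 ⟨e, mem_filter.2 ⟨he, h⟩, e'.symm⟩)
    refine ⟨fun e => if e = a then x else f e, fun e he => ?_, fun e he e' he' hn h => ?_⟩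
    · rcases mem_insert.1 he with rfl | he
      · simpa using hx
      · simp only [if_neg (hne e he)]; exact f1 e he
    · rcases mem_insert.1 he with h1 | h1 <;> rcases mem_insert.1 he' with h2 | h2
      · exact absurd (h1.trans h2.symm) hn
      · simp only [if_pos h1, if_neg (hne e' h2)]
        exact key e' h2 (h1 ▸ h)
      · simp only [if_pos h2, if_neg (hne e h1)]
        exact (key e h1 (h2 ▸ hc _ _ h)).symm
      · simp only [if_neg (hne e h1), if_neg (hne e' h2)]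
        exact f2 e h1 e' h2 hn h

lemma greedyP5 (D : ℕ) (H : SimpleGraph V) (hD : ∀ v, dg H v ≤ D) (L : V → V → Finset ℕ)
    (hs : ∀ u v, L u v = L v u) (hL : ∀ u v, H.Adj u v → 2 * D < (L u v).card) :
    ∃ f, PC H f ∧ ∀ u v, H.Adj u v → f u v ∈ L u v := by
  obtain ⟨g, g1, g2⟩ := greedy_absP5 (fun e e' : Sym2 V => ∃ v, v ∈ e ∧ v ∈ e')
    (fun e e' ⟨v, h1, h2⟩ => ⟨v, h2, h1⟩) (Sym2.lift ⟨L, hs⟩)
    (univ.filter fun e => e ∈ H.edgeSet) (fun e he => by
      induction e using Sym2.ind with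
      | h u v =>
        have huv : H.Adj u v := (mem_filter.1 he).2
        rw [Sym2.lift_mk]
        refine lt_of_le_of_lt ?_ (hL u v huv)
        refine le_trans (card_le_card (t := (nb H u).image (fun w => s(u, w)) ∪
          (nb H v).image (fun w => s(v, w))) fun e he => ?_) ?_
        · obtain ⟨h1, x, h2, h3⟩ := mem_filter.1 he
          obtain ⟨y, rfl⟩ := Sym2.mem_iff_exists.1 h3
          have h4 : H.Adj x y := (mem_filter.1 h1).2
          rcases Sym2.mem_iff.1 h2 with rfl | rfl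
          · exact mem_union_left _ (mem_image.2 ⟨y, mem_nb.2 h4, rfl⟩)
          · exact mem_union_right _ (mem_image.2 ⟨y, mem_nb.2 h4, rfl⟩)
        · have e1 : ((nb H u).image fun w => s(u, w)).card ≤ D := card_image_le.trans (hD u)
          have e2 : ((nb H v).image fun w => s(v, w)).card ≤ D := card_image_le.trans (hD v)
          exact (card_union_le _ _).trans (by omega))
  have hm : ∀ u v, H.Adj u v → s(u, v) ∈ univ.filter fun e => e ∈ H.edgeSet := fun u v h =>
    mem_filter.2 ⟨mem_univ _, h⟩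
  refine ⟨fun u v => g s(u, v), ⟨fun u v _ => by rw [Sym2.eq_swap], fun u v w h h' hne => ?_⟩,
    fun u v h => g1 _ (hm u v h)⟩
  exact g2 _ (hm u v h) _ (hm u w h') (fun e => hne (Sym2.congr_right.1 e))
    ⟨u, Sym2.mem_mk_left _ _, Sym2.mem_mk_left _ _⟩

lemma card_lstP5 (G : SimpleGraph V) {q : ℕ} (p : Fin q → ℕ) (c : ℕ → Fin q)
    (L : G.edgeSet → Finset ℕ) (hL : ∀ e i, p i ≤ ((L e).filter (fun x => c x = i)).card)
    (I : Finset (Fin q)) {u v : V} (h : G.Adj u v) :
    ∑ i ∈ I, p i ≤ ((lst G L u v).filter fun x => c x ∈ I).card := by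
  rw [card_eq_sum_card_fiberwise (f := c) (s := (lst G L u v).filter fun x => c x ∈ I)
    (t := I) fun x hx => (mem_filter.1 hx).2]
  refine sum_le_sum fun i hi => (hL ⟨s(u, v), h⟩ i).trans (card_le_card fun x hx => ?_)
  rw [mem_filter] at hx
  simp only [mem_filter, lst, dif_pos h]
  exact ⟨⟨hx.1, hx.2 ▸ hi⟩, hx.2⟩

lemma iterP5 (h : HalfRegStmt) (G : SimpleGraph V) {q s K l : ℕ} (p : Fin q → ℕ)
    (hp : ∀ i, p i ≤ s) (c : ℕ → Fin q) (L : G.edgeSet → Finset ℕ)
    (hL : ∀ e i, p i ≤ ((L e).filter (fun x => c x = i)).card) (hK : 1 ≤ K)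
    (hl : l = 10 ^ 8 * K ^ 4) (t : ℕ) :
    ∀ H ≤ G, ∀ D : ℕ, (∀ v, dg H v ≤ D) → D ≤ 2 ^ K → 7 ^ t * D ≤ 8 ^ t * (16 * (l + s + 1)) →
      ∀ J : Finset (Fin q), D + t * l + 16 * (l + s + 1) + 1 ≤ ∑ i ∈ J, p i → ColL G c L H J := by
  have small : ∀ H ≤ G, ∀ D : ℕ, (∀ v, dg H v ≤ D) → ∀ J : Finset (Fin q),
      2 * D < ∑ i ∈ J, p i → ColL G c L H J := by
    intro H hH D hD J hJ
    obtain ⟨f, f1, f2⟩ := greedyP5 D H hD (fun u v => (lst G L u v).filter fun x => c x ∈ J)
      (fun u v => by rw [lst_symm]) fun u v huv => hJ.trans_le (card_lstP5 G p c L hL J (hH huv))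
    exact ⟨f, f1, fun u v huv => mem_filter.1 (f2 u v huv)⟩
  induction t with
  | zero =>
    intro H hH D hD _ h2 J hJ
    exact small H hH D hD J (by omega)
  | succ t ih =>
    intro H hH D hD h1 h2 J hJ
    by_cases hs : D ≤ 16 * (l + s + 1)
    · exact small H hH D hD J (by omega)
    obtain ⟨I, hI, i1, i2⟩ := exists_group p s hp J (D / 4 - s) (by omega)
    obtain ⟨F, hF, σ, hσ, hd⟩ := halfP5 h H (D := D) (L := K) (d := ∑ i ∈ I, p i)
      ⟨hK, h1, by omega⟩ hD (by omega)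
    rw [← hl] at hd
    have hsum := sum_sdiff (f := p) hI
    rw [Nat.succ_mul] at hJ
    have h8 : 8 * (D - ∑ i ∈ I, p i + l) ≤ 7 * D := by omega
    have c1 : ColL G c L F I := by
      obtain ⟨f, f1, f2⟩ := galvinP5 _ F σ hσ (fun v => (hd v).1)
        (fun u v => (lst G L u v).filter fun x => c x ∈ I) (fun u v _ => by rw [lst_symm])
        fun u v huv => card_lstP5 G p c L hL I (hH (hF huv))
      exact ⟨f, f1, fun u v huv => mem_filter.1 (f2 u v huv)⟩
    have c2 : ColL G c L (H \ F) (J \ I) := by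
      refine ih (H \ F) (sdiff_le.trans hH) (D - ∑ i ∈ I, p i + l) (fun v => ?_) (by omega) ?_
        (J \ I) (by omega)
      · have := (hd v).2
        omega
      · refine Nat.le_of_mul_le_mul_left ?_ (show 0 < 8 by norm_num)
        calc 8 * (7 ^ t * (D - ∑ i ∈ I, p i + l)) = 7 ^ t * (8 * (D - ∑ i ∈ I, p i + l)) := by ring
          _ ≤ 7 ^ t * (7 * D) := Nat.mul_le_mul_left _ h8
          _ = 7 ^ (t + 1) * D := by ring
          _ ≤ _ := h2
          _ = _ := by ring
    have := (sys_colL G p c L hL).sup _ _ _ _ disjoint_sdiff c1 c2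
    rwa [sup_sdiff_cancel_right hF, union_sdiff_of_subset hI] at this

theorem polyOf (h : HalfRegStmt) : PolyStmt := by
  refine ⟨10 ^ 10, fun V _ G Δ s hΔ q p hp hsum cl L hL => ?_⟩
  obtain ⟨K, hK⟩ : ∃ K, K = Nat.log 2 Δ + 1 := ⟨_, rfl⟩
  have h1 : Δ < 2 ^ K := hK ▸ Nat.lt_pow_succ_log_self (by norm_num) Δ
  have h2 : 1 ≤ K := by omega
  rw [← hK] at hsum
  refine iterP5 h G p hp cl L hL h2 rfl (6 * K) G le_rfl Δ hΔ h1.le ?_ univ (le_trans ?_ hsum)
  · calc 7 ^ (6 * K) * Δ ≤ 7 ^ (6 * K) * 2 ^ K := Nat.mul_le_mul_left _ h1.le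
      _ = (7 ^ 6 * 2) ^ K := by rw [mul_pow, pow_mul]
      _ ≤ (8 ^ 6) ^ K := Nat.pow_le_pow_left (by norm_num) _
      _ = 8 ^ (6 * K) * 1 := by rw [pow_mul, mul_one]
      _ ≤ _ := Nat.mul_le_mul_left _ (by omega)
  · have e1 : K ^ 4 ≤ K ^ 5 := Nat.pow_le_pow_right h2 (by norm_num)
    have e2 : 1 ≤ K ^ 5 := Nat.one_le_pow _ _ h2
    have e3 : 6 * K * (10 ^ 8 * K ^ 4) = 6 * 10 ^ 8 * K ^ 5 := by ring
    rw [e3]
    omega

end Pool.Agent.MP_d20a68_co.Poly

end

section

/-! The halving lemma for regular graphs, from its parts. -/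

set_option autoImplicit false
set_option linter.unusedSectionVars false
set_option linter.unusedVariables false
open Finset
open scoped Classical

namespace Pool.Agent.MP_d20a68_co.Poly

variable {V : Type} [Fintype V]

/-- The selected lifts of a set of vertices. -/
noncomputable def lift (σ : V → Bool) (X : Finset V) : Finset (V × Bool) :=
  X.image fun v => (v, σ v)

lemma mem_lift {σ : V → Bool} {X : Finset V} {z : V × Bool} :
    z ∈ lift σ X ↔ z.1 ∈ X ∧ σ z.1 = z.2 := by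
  unfold lift
  rw [mem_image]
  constructor
  · rintro ⟨v, hv, rfl⟩
    exact ⟨hv, rfl⟩
  · rintro ⟨h1, h2⟩
    exact ⟨z.1, h1, by rw [h2]⟩

lemma sum_lift (σ : V → Bool) (X : Finset V) (f : V × Bool → ℝ) :
    ∑ z ∈ lift σ X, f z = ∑ v ∈ X, f (v, σ v) :=
  sum_image fun u _ v _ h => congrArg Prod.fst h

lemma card_bs_side (G : SimpleGraph V) (σ : V → Bool) (s : Bool) (X Y : Finset V)
    (hX : ∀ x ∈ X, σ x = s) (hY : ∀ y ∈ Y, σ y ≠ s) :
    ((bs G σ (lift σ (X ∪ Y))).filter fun e => e.1.2 = s).card = eout (crossG G σ) X Y := by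
  unfold eout
  rw [← card_sigma]
  refine card_nbij' (fun e => ⟨e.1.1, e.2.1⟩) (fun e => ((e.1, σ e.1), (e.2, σ e.2))) ?_ ?_ ?_ ?_
  · rintro ⟨⟨u, a⟩, ⟨v, b⟩⟩ he
    simp only [coe_filter, Set.mem_ofPred_eq, mem_bs, mem_lift, mem_union, AdjT] at he
    obtain ⟨⟨⟨⟨h1, h2⟩, h3, h4, h5⟩, -, h6⟩, h7⟩ := he
    simp only [mem_coe, mem_sigma, mem_filter, mem_univ, true_and]
    refine ⟨h1.resolve_right fun h => hY u h (h2.trans h7), ⟨h4, by rw [h2, h6]; exact h5⟩,
      fun h => h3 ⟨Or.inr h, h6⟩⟩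
  · rintro ⟨u, v⟩ he
    simp only [mem_coe, mem_sigma, mem_filter, mem_univ, true_and] at he
    obtain ⟨h1, ⟨h2, h3⟩, h4⟩ := he
    simp only [coe_filter, Set.mem_ofPred_eq, mem_bs, mem_lift, mem_union, AdjT, and_true]
    exact ⟨⟨Or.inl h1, fun h => h.elim (fun h => h3 ((hX u h1).trans (hX v h).symm)) h4, h2, h3⟩,
      hX u h1⟩
  · rintro ⟨⟨u, a⟩, ⟨v, b⟩⟩ he
    simp only [coe_filter, Set.mem_ofPred_eq, mem_bs] at he
    obtain ⟨⟨-, h1, h2⟩, -⟩ := he
    simp only [h1, h2]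
  · rintro ⟨u, v⟩ _
    rfl

/-- The key inequality in terms of vertex sets. -/
lemma key_sets (h5 : HsStmt) (G : SimpleGraph V) (D : ℕ) (hD : ∀ v, dg G v = D) (σ : V → Bool)
    (l : ℝ) (h : ∀ S : Finset (V × Bool), (∀ z ∈ S, σ z.1 = z.2) →
      |hs G σ S| ≤ 2 * (bs G σ S).card + l * S.card)
    (s : Bool) (X Y : Finset V) (hX : ∀ x ∈ X, σ x = s) (hY : ∀ y ∈ Y, σ y ≠ s) :
    (D : ℝ) * (X.card - Y.card) ≤ l * (X.card + Y.card) + 4 * eout (crossG G σ) X Y := by
  have hd : Disjoint X Y := disjoint_left.2 fun v a b => hY v b (hX v a)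
  set S := lift σ (X ∪ Y) with hS
  have hsel : ∀ z ∈ S, σ z.1 = z.2 := fun z hz => (mem_lift.1 hz).2
  have h1 := h S hsel
  have h2 := h5 V G D hD σ S
  rw [filter_true_of_mem hsel] at h2
  have h3 : ∑ z ∈ S, sg z.2 = sg s * (X.card - Y.card) := by
    rw [hS, sum_lift, sum_union hd, sum_congr rfl fun x hx => congrArg sg (hX x hx),
      sum_congr rfl fun y hy => sg_of_ne (hY y hy)]
    simp only [sum_const, nsmul_eq_mul]
    ring
  have h4 : (S.card : ℝ) = X.card + Y.card := by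
    have := sum_lift σ (X ∪ Y) fun _ => 1
    simp only [sum_const, nsmul_eq_mul, mul_one] at this
    rw [hS, this, card_union_of_disjoint hd]
    push_cast
    rfl
  have h6 := card_bs_side G σ s X Y hX hY
  rw [← hS] at h6
  set e2 := ((bs G σ S).filter fun e => ¬ e.1.2 = s).card with he2
  have h7 : ((bs G σ S).card : ℝ) = eout (crossG G σ) X Y + e2 := by
    rw [← h6, he2, ← card_filter_add_card_filter_not (s := bs G σ S) fun e => e.1.2 = s]
    push_cast
    rfl
  have h8 : ∑ e ∈ bs G σ S, sg e.1.2 = sg s * (eout (crossG G σ) X Y - e2) := by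
    rw [← sum_filter_add_sum_filter_not (bs G σ S) fun e => e.1.2 = s,
      sum_congr rfl fun e he => congrArg sg (mem_filter.1 he).2,
      sum_congr rfl fun e he => sg_of_ne (mem_filter.1 he).2]
    simp only [sum_const, nsmul_eq_mul]
    rw [h6, ← he2]
    ring
  rw [h3, h8] at h2
  have h9 : hs G σ S = sg s * (D * (X.card - Y.card) - 2 * (eout (crossG G σ) X Y - e2)) := by
    rw [h2]; ring
  rw [h9, abs_mul, abs_sg, one_mul, h7, h4] at h1
  have := (abs_le.1 h1).2
  linarith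

theorem halfReg (h1 : SparseStmt) (h2 : PairStmt) (h3 : SignStmt) (h4 : FingerStmt) (h5 : HsStmt)
    (h6 : FactorStmt) : HalfRegStmt := by
  intro V _ G D L d hP hD hd
  obtain ⟨H, a1, a2⟩ := h1 V G D L hP hD
  obtain ⟨π, b1, b2⟩ := h2 V H _ a1
  have hD0 : (0 : ℝ) < D := by exact_mod_cast hP.pos
  have hL1 : (1 : ℝ) ≤ L := by exact_mod_cast hP.one
  obtain ⟨σ, c1, c2⟩ := h3 V G D L hP hD π b1 fun φ hφ => by
    have e1 := a2 φ hφ
    have e2 := b2 (wt (hat G φ))
    have e3 := (card_supp_wt (hat G φ)).trans (card_hat (fun v => (hD v).le) φ)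
    have e4 : D * φ.card ≤ (D / 2 + 1) * (2 * φ.card) := by
      rw [← mul_assoc]
      exact Nat.mul_le_mul_right _ (by omega)
    have e5 : (D / 2 + 1) * (sepS π (wt (hat G φ))).card ≤
        (D / 2 + 1) * (3 * cut H (wt (hat G φ)) + 2 * φ.card) := by
      rw [mul_add, ← mul_assoc, mul_comm (D / 2 + 1) 3]
      omega
    have e6 := Nat.le_of_mul_le_mul_left e5 (Nat.succ_pos _)
    have e7 : ((sepS π (wt (hat G φ))).card : ℝ) ≤ 3 * cut H (wt (hat G φ)) + 2 * φ.card := by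
      exact_mod_cast e6
    have e8 : (φ.card : ℝ) ≤ L * φ.card := le_mul_of_one_le_left (Nat.cast_nonneg _) hL1
    have e9 : (4224 : ℝ) * L * (bd G (hat G φ)).card / D =
        3 * (1408 * L * (bd G (hat G φ)).card / D) := by ring
    rw [e9]
    linarith
  have c3 := h4 V G D L hP hD σ c1 c2
  obtain ⟨F, f1, f2⟩ := h6 V (crossG G σ) σ (d - 10 ^ 8 * L ^ 4) d (fun u v h => h.2)
    (Nat.sub_le _ _) fun s X Y hX hY => by
      have e1 := key_sets h5 G D hD σ _ c3 s X Y hX hY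
      rcases le_or_gt X.card Y.card with hXY | hXY
      · exact le_trans (Nat.mul_le_mul (Nat.sub_le _ _) hXY) (Nat.le_add_right _ _)
      rcases le_or_gt d (10 ^ 8 * L ^ 4) with hl | hl
      · rw [Nat.sub_eq_zero_of_le hl, zero_mul]
        exact Nat.zero_le _
      have e2 : (Y.card : ℝ) ≤ X.card := by exact_mod_cast hXY.le
      have e3 : (4 : ℝ) * d ≤ D := by exact_mod_cast hd
      have e4 : (4 : ℝ) * d * (X.card - Y.card) ≤ D * (X.card - Y.card) :=
        mul_le_mul_of_nonneg_right e3 (by linarith)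
      have e5 : (0 : ℝ) ≤ (L : ℝ) ^ 4 := by positivity
      have e6 : (L : ℝ) ^ 4 * Y.card ≤ (L : ℝ) ^ 4 * X.card := mul_le_mul_of_nonneg_left e2 e5
      have e7 : (0 : ℝ) ≤ (L : ℝ) ^ 4 * X.card := by positivity
      have e8 : (((d - 10 ^ 8 * L ^ 4 : ℕ) : ℝ)) * X.card ≤
          d * Y.card + eout (crossG G σ) X Y := by
        rw [Nat.cast_sub hl.le]
        push_cast
        nlinarith
      exact_mod_cast e8
  refine ⟨F, fun u v h => (f1 h).1, σ, fun u v h => (f1 h).2, fun v => ⟨(f2 v).2, ?_⟩⟩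
  have := (f2 v).1
  omega

end Pool.Agent.MP_d20a68_co.Poly

end
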