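import Pool.Agent.Mg.Fd20a68.Ga54f30
import Pool.Agent.Mg.Fd20a68.Gf90942

/-! Matchings and the levels covering the edges inside the four classes. -/

set_option autoImplicit false
set_option linter.unusedSectionVars false
set_option linter.unusedVariables false
open Finset
open scoped Classical

namespace Pool.Agent.MP_d20a68_co.Poly

variable {V : Type} [Fintype V]

lemma ext_auxX7 (M : SimpleGraph V) (hM : ∀ u v w, M.Adj u v → M.Adj u w → w = v) (S : Finset V) :
    Even S.card → (∀ x ∈ S, ∀ y, M.Adj x y → y ∈ S) →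
    ∃ π : V → V, ∀ v ∈ S, π v ∈ S ∧ π (π v) = v ∧ π v ≠ v ∧ ∀ w, M.Adj v w → π v = w := by
  induction S using Finset.strongInduction with
  | H S ih =>
    intro he hc
    rcases S.eq_empty_or_nonempty with rfl | hne
    · exact ⟨id, fun v hv => absurd hv (notMem_empty v)⟩
    have : ∃ u ∈ S, ∃ v ∈ S, u ≠ v ∧ (∀ w, M.Adj u w → w = v) ∧ ∀ w, M.Adj v w → w = u := by
      by_cases h : ∃ u ∈ S, ∃ v, M.Adj u v
      · obtain ⟨u, hu, v, huv⟩ := h
        exact ⟨u, hu, v, hc u hu v huv, huv.ne, fun w => hM u v w huv, fun w => hM v u w huv.symm⟩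
      · have h1 : 0 < S.card := card_pos.2 hne
        obtain ⟨u, hu, v, hv, huv⟩ := one_lt_card.1 (show 1 < S.card by
          obtain ⟨k, hk⟩ := he
          omega)
        exact ⟨u, hu, v, hv, huv, fun w hw => absurd ⟨u, hu, w, hw⟩ h,
          fun w hw => absurd ⟨v, hv, w, hw⟩ h⟩
    obtain ⟨u, hu, v, hv, huv, h1, h2⟩ := this
    have hv' : v ∈ S.erase u := mem_erase.2 ⟨huv.symm, hv⟩
    obtain ⟨π, hπ⟩ := ih ((S.erase u).erase v) ((erase_subset _ _).trans_ssubset (erase_ssubset hu))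
      (by
        have e1 := card_erase_add_one hu
        have e2 := card_erase_add_one hv'
        obtain ⟨k, hk⟩ := he
        exact ⟨k - 1, by omega⟩)
      (fun x hx y hxy => by
        simp only [mem_erase] at hx ⊢
        exact ⟨fun e => hx.2.1 (h2 x (e ▸ hxy.symm)), fun e => hx.1 (h1 x (e ▸ hxy.symm)),
          hc x hx.2.2 y hxy⟩)
    refine ⟨fun x => if x = u then v else if x = v then u else π x, fun x hx => ?_⟩
    by_cases e1 : x = u
    · subst e1
      simp only [if_true, if_neg huv.symm]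
      exact ⟨hv, trivial, huv.symm, fun w hw => (h1 w hw).symm⟩
    by_cases e2 : x = v
    · subst e2
      simp only [if_true, if_neg e1]
      exact ⟨hu, trivial, huv, fun w hw => (h2 w hw).symm⟩
    obtain ⟨a, b, c, d⟩ := hπ x (mem_erase.2 ⟨e2, mem_erase.2 ⟨e1, hx⟩⟩)
    simp only [mem_erase] at a
    simp only [if_neg e1, if_neg e2, if_neg a.1, if_neg a.2.1]
    exact ⟨a.2.2, b, c, d⟩

theorem ext : ExtStmt := by
  intro V _ M he hM
  obtain ⟨π, hπ⟩ := ext_auxX7 M (fun u v w h1 h2 =>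
    card_le_one.1 (hM u) w (mem_nb.2 h2) v (mem_nb.2 h1)) univ he fun _ _ _ _ => mem_univ _
  exact ⟨π, ⟨fun v => (hπ v (mem_univ v)).2.1, fun v => (hπ v (mem_univ v)).2.2.1⟩,
    fun u v => (hπ u (mem_univ u)).2.2.2 v⟩

/-- `W` can be covered by `k` levels. -/
def GoodX7 (B : SimpleGraph V) {q : ℕ} (p : Fin q → ℕ) (Col : SimpleGraph V → Finset (Fin q) → Prop)
    (T R : ℕ) (W : SimpleGraph V) (k : ℕ) : Prop :=
  ∀ (U : SimpleGraph V) (J : Finset (Fin q)), (∀ v, dg U v + k * T ≤ R) →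
    (∀ v, dg W v + k * T ≤ ∑ i ∈ J, p i) →
    ∃ F ≤ B \ U, ∃ I ⊆ J, Col (W ⊔ F) I ∧ (∀ v, dg W v + dg F v = ∑ i ∈ I, p i) ∧
      ∀ v, dg F v ≤ k * T

variable {G B : SimpleGraph V} {q : ℕ} {p : Fin q → ℕ}
  {Col : SimpleGraph V → Finset (Fin q) → Prop}

lemma good_botX7 (hS : Sys G p Col) (T R : ℕ) : GoodX7 B p Col T R ⊥ 0 := fun U J _ _ =>
  ⟨⊥, bot_le, ∅, empty_subset _, hS.bip _ (by simp) _ (fun _ => true) (fun u v h => by simp at h)
    fun v => by simp [dg_bot], fun v => by simp [dg_bot], fun v => by simp [dg_bot]⟩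

lemma good_monoX7 {T R k k' : ℕ} {W : SimpleGraph V} (h : GoodX7 B p Col T R W k) (hk : k ≤ k') :
    GoodX7 B p Col T R W k' := fun U J hU hJ => by
  have e := Nat.mul_le_mul_right T hk
  obtain ⟨F, f1, I, f2, f3, f4, f5⟩ := h U J (fun v => by have := hU v; omega)
    fun v => by have := hJ v; omega
  exact ⟨F, f1, I, f2, f3, f4, fun v => (f5 v).trans e⟩

lemma good_stepX7 [Nonempty V] (h1 : FillStmt) (hS : Sys G p Col) (hB : B ≤ G)
    {s e N Γ' R k : ℕ} (hp : ∀ i, p i ≤ s) (hN : 0 < N) (hΓ : (N + 1) * e + s + R ≤ Γ')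
    {W W₀ : SimpleGraph V} (hW : W ≤ G) (hWB : ∀ u v, W.Adj u v → ¬ B.Adj u v) (h0 : W₀ ≤ W)
    {τ : V → Bool} (hc : Cross W₀ τ) (hb : (side τ true).card = (side τ false).card)
    (hE : Exp B univ τ N Γ') (hsp : ∀ u v, dg W₀ u ≤ dg W₀ v + e)
    (ih : GoodX7 B p Col ((N + 1) * e + s) R (W \ W₀) k) :
    GoodX7 B p Col ((N + 1) * e + s) R W (k + 1) := by
  intro U J hU hJ
  have hT0 : (N + 1) * e = N * e + e := by ring
  set T₀ := (N + 1) * e + s with hT₀
  have hT : (k + 1) * T₀ = k * T₀ + T₀ := by ring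
  obtain ⟨w, hw⟩ := exists_lo (dg W₀) e hsp
  have hdg := dg_sdiff h0
  obtain ⟨I₁, i1, i2, i3⟩ := exists_group p s hp J (dg W₀ w + (N + 1) * e) (by
    have := hJ w; have := hdg w; omega)
  have hside : ∀ b, ∑ v ∈ side τ b, (∑ i ∈ I₁, p i - dg W₀ v) + ∑ v ∈ side τ b, dg W₀ v =
      (side τ b).card * ∑ i ∈ I₁, p i := fun b => by
    rw [← sum_add_distrib, ← smul_eq_mul, ← sum_const]
    exact sum_congr rfl fun v _ => by have := hw v; omega
  obtain ⟨F₁, f1, f2⟩ := h1 V B U univ τ N Γ' R (∑ i ∈ I₁, p i - dg W₀ w - e)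
    (∑ i ∈ I₁, p i - dg W₀ w) (fun v => ∑ i ∈ I₁, p i - dg W₀ v) hE hb hN
    (fun v => by have := hU v; omega) (fun v _ => by have := hw v; omega) (by
      obtain ⟨d, hd⟩ : ∃ d, ∑ i ∈ I₁, p i - dg W₀ w - e = d := ⟨_, rfl⟩
      have h2 : ∑ i ∈ I₁, p i - dg W₀ w = d + e := by omega
      have h3 : N * e ≤ d := by omega
      rw [hd, h2, mul_add, add_mul, one_mul]
      omega) (by omega) (by
      have e1 := hside true
      have e2 := hside false
      have e3 := sum_dg_eq W₀ _ _ hc.tf hc.ft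
      rw [hb] at e1
      rw [cls_univ, cls_univ]
      omega)
  have f4 : ∀ v, dg W₀ v + dg F₁ v = ∑ i ∈ I₁, p i ∧ dg F₁ v ≤ T₀ := fun v => by
    have h1 := f2 v
    rw [if_pos (mem_univ v)] at h1
    have := hw v
    omega
  have f1' : F₁ ≤ B \ U := fun u v h => ⟨(f1 h).1.1, (f1 h).2⟩
  have hsum : ∑ i ∈ J \ I₁, p i + ∑ i ∈ I₁, p i = ∑ i ∈ J, p i := sum_sdiff i1
  obtain ⟨F₂, g1, I₂, j1, g2, g3, g4⟩ := ih (U ⊔ F₁) (J \ I₁)
    (fun v => by have := dg_sup_le U F₁ v; have := hU v; have := f4 v; omega)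
    (fun v => by have := hJ v; have := hdg v; have := f4 v; omega)
  have hd : Disjoint I₁ I₂ := disjoint_left.2 fun i h1 h2 => (mem_sdiff.1 (j1 h2)).2 h1
  have hF : ∀ v, dg (F₁ ⊔ F₂) v = dg F₁ v + dg F₂ v :=
    dg_sup fun u v h1 h2 => (g1 h2).2 (Or.inr h1)
  refine ⟨F₁ ⊔ F₂, sup_le f1' (g1.trans (sdiff_le_sdiff_left le_sup_left)), I₁ ∪ I₂,
    union_subset i1 (j1.trans sdiff_subset), ?_, fun v => ?_, fun v => ?_⟩
  · have c1 : Col (W₀ ⊔ F₁) I₁ := by
      refine hS.bip _ (sup_le (h0.trans hW) (f1'.trans (sdiff_le.trans hB))) _ τ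
        (Cross.sup hc fun u v h => (f1 h).1.2.2.2) fun v => ?_
      rw [dg_sup fun u v h1 h2 => hWB u v (h0 h1) (f1' h2).1]
      exact (f4 v).1
    have := hS.sup _ _ _ _ hd c1 g2
    rwa [sup_sup_sup_comm, sup_sdiff_cancel_right h0] at this
  · rw [hF, sum_union hd]
    have := hdg v; have := f4 v; have := g3 v
    omega
  · rw [hF]
    have := f4 v; have := g4 v
    omega

/-- The edges of one colour. -/
def colX7 (W : SimpleGraph V) (f : V → V → ℕ) (c : ℕ) : SimpleGraph V where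
  Adj u v := W.Adj u v ∧ f u v = c ∧ f v u = c
  symm := ⟨fun _ _ h => ⟨h.1.symm, h.2.2, h.2.1⟩⟩
  loopless := ⟨fun _ h => h.1.ne rfl⟩

lemma sdiff_crossX7 (W : SimpleGraph V) (σ : V → Bool) : W \ crossG W σ = sameG W σ := by
  ext u v
  simp only [SimpleGraph.sdiff_adj, crossG, sameG]
  tauto

theorem phase (h1 : FillStmt) (h2 : ExtStmt) : PhaseStmt := by
  intro V _ _ G q p Col D L η N Γ' s σ₀ σ₁ hS hp hsum hD he hn hx
  have hin : inG G σ₀ σ₁ ≤ G := fun u v h => h.1
  have hR : Rb L η N s + ((N + 1) * (2 * η) + s) ≤ Γ' := by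
    have h3 := hn.fill
    rw [mul_add] at h3
    omega
  have step := fun (W W₀ : SimpleGraph V) (hW : W ≤ inG G σ₀ σ₁) (h0 : W₀ ≤ W) (τ : V → Bool)
    (k : ℕ) => good_stepX7 (B := G \ inG G σ₀ σ₁) (e := 2 * η) (R := Rb L η N s) (k := k) h1 hS
      sdiff_le hp hn.pos (by omega : _ ≤ Γ') (hW.trans hin) (fun u v h h' => h'.2 (hW h)) h0 (τ := τ)
  have hη := hn.eta1
  have p2 : ∀ (f : V → V → ℕ) (c : ℕ) (W : SimpleGraph V), W ≤ inG G σ₀ σ₁ → PC W f →
      (∀ u v, W.Adj u v → f u v < c) →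
      GoodX7 (G \ inG G σ₀ σ₁) p Col ((N + 1) * (2 * η) + s) (Rb L η N s) W c := by
    intro f c
    induction c with
    | zero =>
      intro W _ _ h
      have : W = ⊥ := by
        ext u v
        exact ⟨fun h' => absurd (h u v h') (Nat.not_lt_zero _), fun h => h.elim⟩
      rw [this]
      exact good_botX7 hS _ _
    | succ c ih =>
      intro W hW hf h
      have hM : ∀ v, dg (colX7 W f c) v ≤ 1 := fun v => card_le_one.2 fun a ha b hb => by
        have ha := mem_nb.1 ha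
        have hb := mem_nb.1 hb
        by_contra hab
        exact hf.ne v a b ha.1 hb.1 hab (ha.2.1.trans hb.2.1.symm)
      obtain ⟨π, hπ, hπ'⟩ := h2 V (colX7 W f c) he hM
      obtain ⟨τ, t1, -, t3⟩ := hx.step ⊥ bot_le π hπ
      refine step W (colX7 W f c) hW (fun u v h => h.1) τ c (fun u v huv => ?_)
        (bal_of_flip hπ.1 t1) t3 (fun u v => by have := hM u; omega)
        (ih _ (sdiff_le.trans hW) ⟨fun u v h => hf.symm u v h.1,
          fun u v w h h' => hf.ne u v w h.1 h'.1⟩ fun u v huv => ?_)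
      · rw [← hπ' u v huv, t1]
        cases τ u <;> simp
      · have h3 := h u v huv.1
        have h4 : f u v ≠ c := fun e => huv.2 ⟨huv.1, e, (hf.symm u v huv.1).symm.trans e⟩
        omega
  obtain ⟨π, hπ, -⟩ := h2 V ⊥ he fun v => by rw [dg_bot]; exact zero_le_one
  have p1 : ∀ (t : ℕ) (W : SimpleGraph V), W ≤ inG G σ₀ σ₁ → (∀ u v, dg W u ≤ dg W v + 2 * η) →
      (∀ v, (dg W v : ℝ) < 400 * L + (4 / 3) ^ t) →
      GoodX7 (G \ inG G σ₀ σ₁) p Col ((N + 1) * (2 * η) + s) (Rb L η N s) W (800 * L + 1 + t) := by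
    intro t
    induction t with
    | zero =>
      intro W hW _ h
      obtain ⟨f, f1, f2⟩ := greedyP5 (400 * L) W (fun v => by
        have h3 : dg W v < 400 * L + 1 := by
          have := h v
          rw [pow_zero] at this
          exact_mod_cast this
        omega) (fun _ _ => range (800 * L + 1)) (fun _ _ => rfl)
        fun _ _ _ => by rw [card_range]; omega
      exact p2 f _ W hW f1 fun u v huv => mem_range.1 (f2 u v huv)
    | succ t ih =>
      intro W hW hsp h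
      obtain ⟨τ, t1, t2, t3⟩ := hx.step W (hW.trans hin) π hπ
      have hh : Halves W τ η := fun u b =>
        (t2 u).le ((dg_mono (hW.trans hin) u).trans_eq (hD u)) hn.eta b
      refine step W (crossG W τ) hW (fun u v h => h.1) τ _ (fun u v h => h.2)
        (bal_of_flip hπ.1 t1) t3
        (fun u v => by have := hh.cross u; have := hh.cross v; have := hsp u v; omega) ?_
      rw [sdiff_crossX7]
      refine ih _ (fun u v h => hW h.1)
        (fun u v => by have := hh.same u; have := hh.same v; have := hsp u v; omega) fun v => ?_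
      have h3 := (t2 v).shrink (τ v)
      rw [← nb_same] at h3
      have h4 : (4 : ℝ) * dg (sameG W τ) v ≤ 3 * dg W v + 400 * L := by exact_mod_cast h3
      have h5 := h v
      rw [pow_succ] at h5
      linarith
  have hdeg : ∀ v, 4 * dg (inG G σ₀ σ₁) v ≤ D + 3 * η ∧ D ≤ 4 * dg (inG G σ₀ σ₁) v + 3 * η := by
    intro v
    have e : nb (inG G σ₀ σ₁) v = (nb G v).filter fun u => σ₀ u = σ₀ v ∧ σ₁ u = σ₁ v := by
      ext u
      simp only [mem_nb, mem_filter, inG]
      exact and_congr_right fun _ => and_congr eq_comm eq_comm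
    rw [dg, e]
    exact hx.deg v _ _
  have hL := hn.one
  have hg := good_monoX7 (p1 (3 * L) _ le_rfl
    (fun u v => by have := hdeg u; have := hdeg v; omega) fun v => by
      have h3 : (dg (inG G σ₀ σ₁) v : ℝ) ≤ 2 ^ L := by
        exact_mod_cast ((dg_mono hin v).trans_eq (hD v)).trans hn.pow
      have h4 : (2 : ℝ) ^ L ≤ (4 / 3) ^ (3 * L) := by
        rw [pow_mul]
        exact pow_le_pow_left₀ (by norm_num) (by norm_num) L
      have h5 : (1 : ℝ) ≤ L := by exact_mod_cast hL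
      linarith) (show _ ≤ 804 * L by omega)
  obtain ⟨F, f1, I, -, f2, f3, f4⟩ := hg ⊥ univ (fun v => by rw [dg_bot, zero_add]; exact le_rfl)
    fun v => by
      have h3 := (hdeg v).1
      have h4 := hn.room
      rw [hsum]
      change _ + Rb L η N s ≤ D
      omega
  exact ⟨F, f1.trans sdiff_le, I, f2, f3, f4⟩

end Pool.Agent.MP_d20a68_co.Poly
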