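import Mathlib

section

/-! Galvin's theorem for regular bipartite graphs. -/

set_option autoImplicit false
set_option linter.unusedSectionVars false
set_option linter.unusedVariables false
open Finset
open scoped Classical

namespace Pool.Agent.MP_d20a68_co

/-- Stable matchings exist. -/
lemma exists_kernel {E A B : Type} (a : E → A) (b : E → B) (φ : E → ℕ) (S : Finset E)
    (hφ : ∀ e ∈ S, ∀ e' ∈ S, e ≠ e' → (a e = a e' ∨ b e = b e') → φ e ≠ φ e') :
    ∃ K ⊆ S, (∀ e ∈ K, ∀ e' ∈ K, e ≠ e' → ¬ (a e = a e' ∨ b e = b e')) ∧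
      ∀ e ∈ S, e ∉ K → ∃ e' ∈ K, (a e = a e' ∧ φ e' < φ e) ∨ (b e = b e' ∧ φ e < φ e') := by
  induction S using Finset.strongInduction with
  | H S ih =>
    let U := S.filter fun e => ∀ e' ∈ S, a e = a e' → φ e ≤ φ e'
    by_cases hU : ∃ e₁ ∈ U, ∃ e₂ ∈ U, b e₁ = b e₂ ∧ φ e₁ < φ e₂
    · obtain ⟨e₁, h1, e₂, h2, hb, hlt⟩ := hU
      rw [mem_filter] at h1 h2
      obtain ⟨K, hK, k1, k2⟩ := ih (S.erase e₁) (erase_ssubset h1.1)
        fun e he e' he' => hφ e (mem_of_mem_erase he) e' (mem_of_mem_erase he')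
      refine ⟨K, hK.trans (erase_subset _ _), k1, fun e he heK => ?_⟩
      by_cases h : e = e₁
      · subst h
        by_cases h2K : e₂ ∈ K
        · exact ⟨e₂, h2K, Or.inr ⟨hb, hlt⟩⟩
        · have hne : e₂ ≠ e := fun h => by rw [h] at hlt; exact lt_irrefl _ hlt
          obtain ⟨e', he', h | h⟩ := k2 e₂ (mem_erase.2 ⟨hne, h2.1⟩) h2K
          · exact absurd (h2.2 e' (mem_of_mem_erase (hK he')) h.1) (not_le.2 h.2)
          · exact ⟨e', he', Or.inr ⟨hb.trans h.1, hlt.trans h.2⟩⟩
      · exact k2 e (mem_erase.2 ⟨h, he⟩) heK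
    · refine ⟨U, filter_subset _ _, fun e he e' he' hne h => ?_, fun e he heU => ?_⟩
      · have h1 := mem_filter.1 he
        have h2 := mem_filter.1 he'
        have h3 := hφ e h1.1 e' h2.1 hne h
        rcases h with h | h
        · exact h3 (le_antisymm (h1.2 e' h2.1 h) (h2.2 e h1.1 h.symm))
        · rcases lt_or_gt_of_ne h3 with h4 | h4
          · exact hU ⟨e, he, e', he', h, h4⟩
          · exact hU ⟨e', he', e, he, h.symm, h4⟩
      · obtain ⟨e', he', hmin⟩ := exists_min_image (S.filter fun e' => a e = a e') φ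
          ⟨e, by simp [he]⟩
        rw [mem_filter] at he'
        have hU' : e' ∈ U := mem_filter.2 ⟨he'.1, fun x hx hax =>
          hmin x (mem_filter.2 ⟨hx, he'.2.trans hax⟩)⟩
        have hne : e ≠ e' := fun h => heU (h ▸ hU')
        refine ⟨e', hU', Or.inl ⟨he'.2, lt_of_le_of_ne (hmin e (by simp [he])) ?_⟩⟩
        exact (hφ e he e' he'.1 hne (Or.inl he'.2)).symm

/-- The kernel lemma for list colourings. -/
lemma kernel_colour {E : Type} (r conf : E → E → Prop) (S₀ : Finset E)
    (hK : ∀ S ⊆ S₀, ∃ K ⊆ S, (∀ e ∈ K, ∀ e' ∈ K, e ≠ e' → ¬ conf e e') ∧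
      ∀ e ∈ S, e ∉ K → ∃ e' ∈ K, r e e')
    (S : Finset E) (hS : S ⊆ S₀) (L : E → Finset ℕ)
    (hL : ∀ e ∈ S, (S.filter (r e)).card < (L e).card) :
    ∃ f : E → ℕ, (∀ e ∈ S, f e ∈ L e) ∧
      ∀ e ∈ S, ∀ e' ∈ S, e ≠ e' → conf e e' → f e ≠ f e' := by
  induction S using Finset.strongInduction generalizing L with
  | H S ih =>
    rcases S.eq_empty_or_nonempty with rfl | ⟨e₀, he₀⟩
    · exact ⟨fun _ => 0, by simp, by simp⟩
    obtain ⟨x, hx⟩ : (L e₀).Nonempty := card_pos.1 (lt_of_le_of_lt (Nat.zero_le _) (hL e₀ he₀))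
    obtain ⟨K, hKS, k1, k2⟩ := hK (S.filter fun e => x ∈ L e) ((filter_subset _ _).trans hS)
    have hKS' : K ⊆ S := hKS.trans (filter_subset _ _)
    have hKne : K.Nonempty := by
      by_cases h : e₀ ∈ K
      · exact ⟨e₀, h⟩
      · obtain ⟨e', he', -⟩ := k2 e₀ (mem_filter.2 ⟨he₀, hx⟩) h
        exact ⟨e', he'⟩
    obtain ⟨f, f1, f2⟩ := ih (S \ K) (sdiff_ssubset hKS' hKne) (sdiff_subset.trans hS)
      (fun e => (L e).erase x) (fun e he => by
        rw [mem_sdiff] at he
        have h1 := hL e he.1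
        by_cases hxe : x ∈ L e
        · obtain ⟨e', he', hr⟩ := k2 e (mem_filter.2 ⟨he.1, hxe⟩) he.2
          have h2 : ((S \ K).filter (r e)).card < (S.filter (r e)).card := by
            refine card_lt_card ⟨filter_subset_filter _ sdiff_subset, fun h => ?_⟩
            have := h (mem_filter.2 ⟨hKS' he', hr⟩)
            exact (mem_sdiff.1 (mem_filter.1 this).1).2 he'
          rw [card_erase_of_mem hxe]
          omega
        · rw [erase_eq_of_notMem hxe]
          exact lt_of_le_of_lt (card_le_card (filter_subset_filter _ sdiff_subset)) h1)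
    refine ⟨fun e => if e ∈ K then x else f e, fun e he => ?_, fun e he e' he' hne hc => ?_⟩
    · by_cases h : e ∈ K
      · simp only [if_pos h]; exact (mem_filter.1 (hKS h)).2
      · simp only [if_neg h]; exact mem_of_mem_erase (f1 e (mem_sdiff.2 ⟨he, h⟩))
    · by_cases h : e ∈ K <;> by_cases h' : e' ∈ K
      · exact absurd hc (k1 e h e' h' hne)
      · simp only [if_pos h, if_neg h']
        exact (ne_of_mem_erase (f1 e' (mem_sdiff.2 ⟨he', h'⟩))).symm
      · simp only [if_neg h, if_pos h']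
        exact ne_of_mem_erase (f1 e (mem_sdiff.2 ⟨he, h⟩))
      · simp only [if_neg h, if_neg h']
        exact f2 e (mem_sdiff.2 ⟨he, h⟩) e' (mem_sdiff.2 ⟨he', h'⟩) hne hc

/-- Galvin's theorem for a bipartite multigraph with a given proper edge colouring. -/
lemma galvin_abs {E A B : Type} (a : E → A) (b : E → B) (φ : E → ℕ) (S : Finset E) (D : ℕ)
    (hφ : ∀ e ∈ S, ∀ e' ∈ S, e ≠ e' → (a e = a e' ∨ b e = b e') → φ e ≠ φ e')
    (hD : ∀ e ∈ S, φ e < D) (L : E → Finset ℕ) (hL : ∀ e ∈ S, D ≤ (L e).card) :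
    ∃ f : E → ℕ, (∀ e ∈ S, f e ∈ L e) ∧
      ∀ e ∈ S, ∀ e' ∈ S, e ≠ e' → (a e = a e' ∨ b e = b e') → f e ≠ f e' := by
  refine kernel_colour (fun e e' => (a e = a e' ∧ φ e' < φ e) ∨ (b e = b e' ∧ φ e < φ e'))
    (fun e e' => a e = a e' ∨ b e = b e') S (fun T hT => exists_kernel a b φ T
      fun e he e' he' => hφ e (hT he) e' (hT he')) S subset_rfl L fun e he => ?_
  refine lt_of_lt_of_le ?_ (hL e he)
  have h1 : (S.filter fun e' => (a e = a e' ∧ φ e' < φ e) ∨ (b e = b e' ∧ φ e < φ e')).card ≤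
      ((range D).erase (φ e)).card := by
    refine card_le_card_of_injOn φ (fun x hx => ?_) (fun x hx y hy hxy => ?_)
    · rw [coe_filter] at hx
      obtain ⟨h1, h2⟩ := hx
      simp only [coe_erase, coe_range, Set.mem_sdiff, Set.mem_Iio, Set.mem_singleton_iff]
      exact ⟨hD x h1, by rcases h2 with h | h <;> omega⟩
    · rw [coe_filter] at hx hy
      by_contra hne
      rcases hx.2 with h | h <;> rcases hy.2 with h' | h'
      · exact hφ x hx.1 y hy.1 hne (Or.inl (h.1.symm.trans h'.1)) hxy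
      · omega
      · omega
      · exact hφ x hx.1 y hy.1 hne (Or.inr (h.1.symm.trans h'.1)) hxy
  rw [card_erase_of_mem (mem_range.2 (hD e he)), card_range] at h1
  have := hD e he
  refine lt_of_le_of_lt (le_of_eq_of_le (by congr) h1) (by omega)

variable {V : Type} [Fintype V]

/-- The neighbourhood of a vertex. -/
noncomputable def nb (H : SimpleGraph V) (v : V) : Finset V := univ.filter (H.Adj v)

/-- The degree of a vertex. -/
noncomputable def dg (H : SimpleGraph V) (v : V) : ℕ := (nb H v).card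

@[simp] lemma mem_nb {H : SimpleGraph V} {v w : V} : w ∈ nb H v ↔ H.Adj v w := by simp [nb]

lemma dg_mono {H H' : SimpleGraph V} (h : H ≤ H') (v : V) : dg H v ≤ dg H' v :=
  card_le_card fun w hw => mem_nb.2 (h (mem_nb.1 hw))

lemma dg_sup {H H' : SimpleGraph V} (h : ∀ u v, H.Adj u v → ¬ H'.Adj u v) (v : V) :
    dg (H ⊔ H') v = dg H v + dg H' v := by
  unfold dg
  rw [← card_union_of_disjoint (disjoint_left.2 fun w h1 h2 => h v w (mem_nb.1 h1) (mem_nb.1 h2))]
  congr 1; ext w; simp

lemma dg_sup_le (H H' : SimpleGraph V) (v : V) : dg (H ⊔ H') v ≤ dg H v + dg H' v := by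
  unfold dg
  refine le_trans (le_of_eq ?_) (card_union_le _ _)
  congr 1; ext w; simp

lemma dg_sdiff {H H' : SimpleGraph V} (h : H' ≤ H) (v : V) :
    dg (H \ H') v + dg H' v = dg H v := by
  rw [← dg_sup (H := H \ H') (H' := H') fun u v h1 h2 => h1.2 h2, sdiff_sup_cancel h]

lemma dg_bot (v : V) : dg (⊥ : SimpleGraph V) v = 0 := by simp [dg, nb]

/-- All edges of `H` go between the two sides of `σ`. -/
def Cross (H : SimpleGraph V) (σ : V → Bool) : Prop := ∀ u v, H.Adj u v → σ u ≠ σ v

/-- Double counting of the edges between two sets. -/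
lemma sum_card_comm (H : SimpleGraph V) (P Q : Finset V) :
    ∑ x ∈ P, (Q.filter (H.Adj x)).card = ∑ y ∈ Q, (P.filter (H.Adj y)).card := by
  simp only [card_filter]
  rw [sum_comm]
  simp only [H.adj_comm]

lemma sum_dg_eq (H : SimpleGraph V) (P Q : Finset V) (h1 : ∀ x ∈ P, ∀ y, H.Adj x y → y ∈ Q)
    (h2 : ∀ y ∈ Q, ∀ x, H.Adj y x → x ∈ P) : ∑ x ∈ P, dg H x = ∑ y ∈ Q, dg H y := by
  have e1 : ∀ x ∈ P, dg H x = (Q.filter (H.Adj x)).card := fun x hx => by
    unfold dg; congr 1; ext y; simpa using h1 x hx y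
  have e2 : ∀ y ∈ Q, dg H y = (P.filter (H.Adj y)).card := fun y hy => by
    unfold dg; congr 1; ext x; simpa using h2 y hy x
  rw [sum_congr rfl e1, sum_congr rfl e2, sum_card_comm]

/-- A perfect matching between two sets from Hall's condition. -/
lemma exists_matching (B : SimpleGraph V) (P Q : Finset V) (hd : Disjoint P Q)
    (hc : P.card = Q.card)
    (hall : ∀ S ⊆ P, S.card ≤ (Q.filter fun y => ∃ x ∈ S, B.Adj x y).card) :
    ∃ M ≤ B, (∀ v, dg M v = if v ∈ P ∪ Q then 1 else 0) ∧
      ∀ u v, M.Adj u v → (u ∈ P ∧ v ∈ Q) ∨ (u ∈ Q ∧ v ∈ P) := by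
  obtain ⟨f, hf, hft⟩ := (Finset.all_card_le_biUnion_card_iff_exists_injective
    (fun x : P => Q.filter (B.Adj x))).1 fun s => by
      have := hall (s.image Subtype.val) (fun x hx => by
        obtain ⟨y, -, rfl⟩ := mem_image.1 hx
        exact y.2)
      rw [card_image_of_injective _ Subtype.val_injective] at this
      refine this.trans (card_le_card fun y hy => ?_)
      obtain ⟨h1, x, h2, h3⟩ := mem_filter.1 hy
      obtain ⟨x', h4, rfl⟩ := mem_image.1 h2
      exact mem_biUnion.2 ⟨x', h4, mem_filter.2 ⟨h1, h3⟩⟩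
  have hQ : ∀ x, f x ∈ Q := fun x => (mem_filter.1 (hft x)).1
  have hA : ∀ x : P, B.Adj x (f x) := fun x => (mem_filter.1 (hft x)).2
  have hsurj : ∀ y ∈ Q, ∃ x, f x = y := by
    have : univ.image f = Q := eq_of_subset_of_card_le (fun y hy => by
      obtain ⟨x, -, rfl⟩ := mem_image.1 hy
      exact hQ x) (by rw [card_image_of_injective _ hf]; simp [hc])
    intro y hy
    rw [← this] at hy
    simpa using hy
  let M : SimpleGraph V :=
    { Adj := fun u v => (∃ h : u ∈ P, f ⟨u, h⟩ = v) ∨ (∃ h : v ∈ P, f ⟨v, h⟩ = u)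
      symm := ⟨fun u v h => h.symm⟩
      loopless := ⟨fun u h => by
        rcases h with ⟨h, e⟩ | ⟨h, e⟩ <;> exact disjoint_left.1 hd h (e ▸ hQ _)⟩ }
  refine ⟨M, fun u v h => ?_, fun v => ?_, fun u v h => ?_⟩
  · rcases h with ⟨h, rfl⟩ | ⟨h, rfl⟩
    · exact hA ⟨u, h⟩
    · exact (hA ⟨v, h⟩).symm
  · by_cases hP : v ∈ P
    · rw [if_pos (mem_union_left _ hP)]
      refine card_eq_one.2 ⟨f ⟨v, hP⟩, ?_⟩
      ext w
      rw [mem_nb, mem_singleton]
      constructor
      · rintro (⟨h, rfl⟩ | ⟨h, e⟩)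
        · rfl
        · exact absurd (e ▸ hQ _) (disjoint_left.1 hd hP)
      · rintro rfl; exact Or.inl ⟨hP, rfl⟩
    by_cases hQ' : v ∈ Q
    · rw [if_pos (mem_union_right _ hQ')]
      obtain ⟨x, rfl⟩ := hsurj v hQ'
      refine card_eq_one.2 ⟨x, ?_⟩
      ext w
      rw [mem_nb, mem_singleton]
      constructor
      · rintro (⟨h, e⟩ | ⟨h, e⟩)
        · exact absurd h hP
        · exact congrArg Subtype.val (hf e)
      · rintro rfl; exact Or.inr ⟨x.2, rfl⟩
    · rw [if_neg (by simp [hP, hQ'])]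
      refine card_eq_zero.2 (eq_empty_of_forall_notMem fun w hw => ?_)
      rcases mem_nb.1 hw with ⟨h, e⟩ | ⟨h, e⟩
      · exact hP h
      · exact hQ' (e ▸ hQ _)
  · rcases h with ⟨h, rfl⟩ | ⟨h, rfl⟩
    · exact Or.inl ⟨h, hQ _⟩
    · exact Or.inr ⟨hQ _, h⟩

/-- `f` is a proper colouring of the edges of `H`. -/
structure PC (H : SimpleGraph V) (f : V → V → ℕ) : Prop where
  symm : ∀ u v, H.Adj u v → f u v = f v u
  ne : ∀ u v w, H.Adj u v → H.Adj u w → v ≠ w → f u v ≠ f u w

/-- The side of a bipartition. -/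
noncomputable def side (σ : V → Bool) (b : Bool) : Finset V := univ.filter fun v => σ v = b

@[simp] lemma mem_side {σ : V → Bool} {b : Bool} {v : V} : v ∈ side σ b ↔ σ v = b := by
  simp [side]

lemma side_disj (σ : V → Bool) : Disjoint (side σ true) (side σ false) :=
  disjoint_left.2 fun v h1 h2 => by simp_all

lemma Cross.tf {H : SimpleGraph V} {σ : V → Bool} (h : Cross H σ) :
    ∀ x ∈ side σ true, ∀ y, H.Adj x y → y ∈ side σ false := fun x hx y hxy => by
  have := h x y hxy
  simp_all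

lemma Cross.ft {H : SimpleGraph V} {σ : V → Bool} (h : Cross H σ) :
    ∀ x ∈ side σ false, ∀ y, H.Adj x y → y ∈ side σ true := fun x hx y hxy => by
  have := h x y hxy
  simp_all

/-- Regular bipartite graphs are class one. -/
lemma konig (D : ℕ) (H : SimpleGraph V) (σ : V → Bool) (hσ : Cross H σ) (hD : ∀ v, dg H v = D) :
    ∃ φ, PC H φ ∧ ∀ u v, H.Adj u v → φ u v < D := by
  induction D generalizing H with
  | zero =>
    have : ∀ u v, ¬ H.Adj u v := fun u v h => by
      have := card_eq_zero.1 (hD u)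
      exact notMem_empty v (this ▸ mem_nb.2 h)
    exact ⟨fun _ _ => 0, ⟨fun _ _ _ => rfl, fun u v _ h => absurd h (this u v)⟩,
      fun u v h => absurd h (this u v)⟩
  | succ D ih =>
    have hc : (side σ true).card = (side σ false).card := by
      have := sum_dg_eq H _ _ hσ.tf hσ.ft
      simp only [hD, sum_const, smul_eq_mul] at this
      exact Nat.eq_of_mul_eq_mul_right (Nat.succ_pos D) this
    obtain ⟨M, hM, m1, -⟩ := exists_matching H _ _ (side_disj σ) hc fun S hS => by
      set N := (side σ false).filter fun y => ∃ x ∈ S, H.Adj x y with hN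
      have e1 : ∑ x ∈ S, (N.filter (H.Adj x)).card = S.card * (D + 1) := by
        rw [← smul_eq_mul, ← sum_const]
        refine sum_congr rfl fun x hx => ?_
        rw [← hD x]
        unfold dg
        congr 1; ext y
        rw [mem_filter, mem_nb, hN, mem_filter]
        exact ⟨fun h => h.2, fun h => ⟨⟨hσ.tf x (hS hx) y h, x, hx, h⟩, h⟩⟩
      have e2 : ∑ y ∈ N, (S.filter (H.Adj y)).card ≤ N.card * (D + 1) := by
        rw [← smul_eq_mul, ← sum_const]
        refine sum_le_sum fun y _ => ?_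
        rw [← hD y]
        exact card_le_card fun x hx => mem_nb.2 (mem_filter.1 hx).2
      rw [← sum_card_comm, e1] at e2
      exact Nat.le_of_mul_le_mul_right e2 (Nat.succ_pos D)
    have m2 : ∀ v, dg M v = 1 := fun v => by
      rw [m1, if_pos]
      cases h : σ v <;> simp [h]
    obtain ⟨φ, p1, p2⟩ := ih (H \ M) (fun u v h => hσ u v h.1) fun v => by
      have := dg_sdiff hM v
      rw [hD, m2] at this
      omega
    refine ⟨fun u v => if M.Adj u v then D else φ u v, ⟨fun u v h => ?_, fun u v w h h' hne => ?_⟩,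
      fun u v h => ?_⟩
    · by_cases hm : M.Adj u v
      · simp only [if_pos hm, if_pos hm.symm]
      · simp only [if_neg hm, if_neg (fun h : M.Adj v u => hm h.symm)]
        exact p1.symm u v ⟨h, hm⟩
    · by_cases hm : M.Adj u v <;> by_cases hm' : M.Adj u w
      · exact absurd (card_le_one.1 (m2 u).le v (mem_nb.2 hm) w (mem_nb.2 hm')) hne
      · simp only [if_pos hm, if_neg hm']
        exact (p2 u w ⟨h', hm'⟩).ne'
      · simp only [if_neg hm, if_pos hm']
        exact (p2 u v ⟨h, hm⟩).ne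
      · simp only [if_neg hm, if_neg hm']
        exact p1.ne u v w ⟨h, hm⟩ ⟨h', hm'⟩ hne
    · by_cases hm : M.Adj u v
      · simp only [if_pos hm]; omega
      · simp only [if_neg hm]
        have := p2 u v ⟨h, hm⟩
        omega

/-- Galvin's theorem for regular bipartite graphs. -/
lemma galvin (D : ℕ) (H : SimpleGraph V) (σ : V → Bool) (hσ : Cross H σ) (hD : ∀ v, dg H v = D)
    (L : V → V → Finset ℕ) (hs : ∀ u v, H.Adj u v → L u v = L v u)
    (hL : ∀ u v, H.Adj u v → D ≤ (L u v).card) :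
    ∃ f, PC H f ∧ ∀ u v, H.Adj u v → f u v ∈ L u v := by
  obtain ⟨φ, p1, p2⟩ := konig D H σ hσ hD
  obtain ⟨g, g1, g2⟩ := galvin_abs Prod.fst Prod.snd (fun e : V × V => φ e.1 e.2)
    (univ.filter fun e : V × V => σ e.1 = true ∧ H.Adj e.1 e.2) D
    (fun e he e' he' hne h => by
      obtain ⟨x, y⟩ := e
      obtain ⟨x', y'⟩ := e'
      simp only [mem_filter, mem_univ, true_and] at he he' h
      rcases h with rfl | rfl
      · exact p1.ne x y y' he.2 he'.2 fun h => hne (by rw [h])
      · simp only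
        rw [p1.symm x y he.2, p1.symm x' y he'.2]
        exact p1.ne y x x' he.2.symm he'.2.symm fun h => hne (by rw [h]))
    (fun e he => p2 _ _ (mem_filter.1 he).2.2) (fun e => L e.1 e.2)
    (fun e he => hL _ _ (mem_filter.1 he).2.2)
  simp only [mem_filter, mem_univ, true_and] at g1 g2
  refine ⟨fun u v => if σ u = true then g (u, v) else g (v, u), ⟨fun u v h => ?_,
    fun u v w h h' hne => ?_⟩, fun u v h => ?_⟩
  · have := hσ u v h
    cases hu : σ u <;> cases hv : σ v <;> simp_all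
  · by_cases hu : σ u = true
    · simp only [if_pos hu]
      exact g2 (u, v) ⟨hu, h⟩ (u, w) ⟨hu, h'⟩ (by simp [hne]) (Or.inl rfl)
    · simp only [if_neg hu]
      have h1 := hσ u v h
      have h2 := hσ u w h'
      exact g2 (v, u) ⟨by simp_all, h.symm⟩ (w, u) ⟨by simp_all, h'.symm⟩ (by simp [hne])
        (Or.inr rfl)
  · by_cases hu : σ u = true
    · simp only [if_pos hu]
      exact g1 (u, v) ⟨hu, h⟩
    · simp only [if_neg hu]
      have h1 := hσ u v h
      rw [hs u v h]
      exact g1 (v, u) ⟨by simp_all, h.symm⟩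

end Pool.Agent.MP_d20a68_co

end

section

/-! Balanced bisections with small discrepancy. -/

set_option autoImplicit false
set_option linter.unusedSectionVars false
set_option linter.unusedVariables false
open Finset
open scoped Classical

namespace Pool.Agent.MP_d20a68_co

variable {V : Type}

/-- The sign of a side. -/
def sg (b : Bool) : ℝ := if b then 1 else -1

lemma sg_not (b : Bool) : sg (!b) = - sg b := by cases b <;> simp [sg]
lemma abs_sg (b : Bool) : |sg b| = 1 := by cases b <;> simp [sg]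

lemma cosh_pair (u d l : ℝ) (hd : |d| ≤ 1) :
    Real.cosh (l * (d + u)) + Real.cosh (l * (-d + u)) ≤
      2 * (Real.exp (l ^ 2 / 2) * Real.cosh (l * u)) := by
  have e1 : l * (d + u) = l * u + l * d := by ring
  have e2 : l * (-d + u) = l * u - l * d := by ring
  rw [e1, e2, Real.cosh_add, Real.cosh_sub]
  have h1 := Real.cosh_le_exp_half_sq (l * d)
  have h2 : Real.exp ((l * d) ^ 2 / 2) ≤ Real.exp (l ^ 2 / 2) := by
    refine Real.exp_le_exp.2 ?_
    have : d ^ 2 ≤ 1 := by rw [← sq_abs]; nlinarith [abs_nonneg d]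
    nlinarith [sq_nonneg l]
  have h3 := Real.cosh_pos (l * u)
  nlinarith

lemma exists_signs {ι β : Type} [Fintype ι] (A : ι → Finset V) (bl : V → β) (l : ℝ)
    (X : Finset V) (hX : Even X.card) :
    ∃ σ : V → Bool, ∑ v ∈ X, sg (σ v) = 0 ∧
      (∀ c, |∑ v ∈ X, if bl v = c then sg (σ v) else 0| ≤ 1) ∧
      ∑ i, Real.cosh (l * ∑ v ∈ X, if v ∈ A i then sg (σ v) else 0) ≤
        Fintype.card ι * Real.exp (l ^ 2 * X.card / 4) := by
  induction X using Finset.strongInduction with
  | H X ih =>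
    rcases X.eq_empty_or_nonempty with rfl | hne
    · exact ⟨fun _ => true, by simp, by simp, by simp⟩
    have h2 : 1 < X.card := by
      have := card_pos.2 hne
      obtain ⟨m, hm⟩ := hX
      omega
    obtain ⟨x, hx, y, hy, hxy, hb⟩ : ∃ x ∈ X, ∃ y ∈ X, x ≠ y ∧
        (bl x = bl y ∨ ∀ u ∈ X, ∀ v ∈ X, bl u = bl v → u = v) := by
      by_cases h : ∀ u ∈ X, ∀ v ∈ X, bl u = bl v → u = v
      · obtain ⟨x, hx, y, hy, hxy⟩ := one_lt_card.1 h2
        exact ⟨x, hx, y, hy, hxy, Or.inr h⟩
      · push Not at h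
        obtain ⟨x, hx, y, hy, h1, h2⟩ := h
        exact ⟨x, hx, y, hy, h2, Or.inl h1⟩
    set X' := (X.erase x).erase y with hX'
    have hyx : y ∈ X.erase x := mem_erase.2 ⟨hxy.symm, hy⟩
    have hc : X.card = X'.card + 2 := by
      rw [hX', card_erase_of_mem hyx, card_erase_of_mem hx]; omega
    obtain ⟨σ, s1, s2, s3⟩ := ih X' (Finset.ssubset_of_subset_of_ssubset (erase_subset _ _)
      (erase_ssubset hx)) (by rw [hc] at hX; simpa [parity_simps] using hX)
    let ex : Bool → V → Bool := fun b v => if v = x then b else if v = y then !b else σ v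
    have key : ∀ (b : Bool) (g : V → Bool → ℝ),
        ∑ v ∈ X, g v (ex b v) = g x b + g y (!b) + ∑ v ∈ X', g v (σ v) := by
      intro b g
      rw [← add_sum_erase X _ hx, ← add_sum_erase _ _ hyx, add_assoc]
      simp only [ex, if_true, if_neg hxy.symm]
      congr 2
      refine sum_congr rfl fun v hv => ?_
      rw [if_neg (ne_of_mem_erase (mem_of_mem_erase hv)), if_neg (ne_of_mem_erase hv)]
    have h3 : ∃ b, ∑ i, Real.cosh (l * ∑ v ∈ X, if v ∈ A i then sg (ex b v) else 0) ≤
        Real.exp (l ^ 2 / 2) *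
          ∑ i, Real.cosh (l * ∑ v ∈ X', if v ∈ A i then sg (σ v) else 0) := by
      by_contra hn
      push Not at hn
      have h4 := add_lt_add (hn true) (hn false)
      rw [← sum_add_distrib, ← two_mul, mul_sum, mul_sum] at h4
      refine absurd (sum_le_sum fun i _ => ?_) (not_le.2 h4)
      rw [key true (fun v b => if v ∈ A i then sg b else 0),
        key false (fun v b => if v ∈ A i then sg b else 0)]
      have := cosh_pair (∑ v ∈ X', if v ∈ A i then sg (σ v) else 0)
        ((if x ∈ A i then 1 else 0) - (if y ∈ A i then 1 else 0)) l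
        (by split_ifs <;> simp)
      have e1 : ((if x ∈ A i then sg true else 0) + if y ∈ A i then sg (!true) else 0) =
          (if x ∈ A i then 1 else 0) - (if y ∈ A i then 1 else 0) := by
        split_ifs <;> simp [sg]
      have e2 : ((if x ∈ A i then sg false else 0) + if y ∈ A i then sg (!false) else 0) =
          -((if x ∈ A i then 1 else 0) - (if y ∈ A i then 1 else 0)) := by
        split_ifs <;> simp [sg]
      rw [e1, e2]
      exact this
    obtain ⟨b, h3⟩ := h3
    refine ⟨ex b, ?_, fun c => ?_, h3.trans ?_⟩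
    · rw [key b (fun _ b => sg b), s1, sg_not]; ring
    · rcases hb with hb | hb
      · rw [key b (fun v b => if bl v = c then sg b else 0), ← hb, sg_not]
        have := s2 c
        split_ifs <;> simpa using this
      · refine (abs_sum_le_sum_abs _ _).trans ?_
        have e : ∀ v ∈ X, |if bl v = c then sg (ex b v) else 0| = if bl v = c then 1 else 0 :=
          fun v _ => by split_ifs <;> simp [abs_sg]
        rw [sum_congr rfl e, sum_boole]
        have : (X.filter fun v => bl v = c).card ≤ 1 := card_le_one.2 fun u hu v hv => by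
          rw [mem_filter] at hu hv
          exact hb u hu.1 v hv.1 (hu.2.trans hv.2.symm)
        exact_mod_cast this
    · refine (mul_le_mul_of_nonneg_left s3 (Real.exp_pos _).le).trans (le_of_eq ?_)
      rw [mul_left_comm, ← Real.exp_add, hc]
      congr 2
      push_cast
      ring

variable [Fintype V]

lemma sum_sg (σ : V → Bool) (S : Finset V) (b : Bool) :
    (∑ v, if v ∈ S then sg (σ v) else 0) =
      sg b * (2 * ((S.filter fun v => σ v = b).card : ℝ) - S.card) := by
  rw [← sum_filter, filter_mem_eq_inter, univ_inter, card_filter, card_eq_sum_ones S]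
  push_cast
  rw [mul_sum, ← sum_sub_distrib, mul_sum]
  refine sum_congr rfl fun v _ => ?_
  cases b <;> cases σ v <;> norm_num [sg]

lemma card_half (σ : V → Bool) (S : Finset V) (η : ℕ)
    (h : |∑ v, if v ∈ S then sg (σ v) else 0| ≤ η) (b : Bool) :
    2 * (S.filter fun v => σ v = b).card ≤ S.card + η ∧
      S.card ≤ 2 * (S.filter fun v => σ v = b).card + η := by
  rw [sum_sg σ S b, abs_mul, abs_sg, one_mul, abs_le] at h
  constructor
  · have : (2 * (S.filter fun v => σ v = b).card : ℝ) ≤ S.card + η := by linarith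
    exact_mod_cast this
  · have : (S.card : ℝ) ≤ 2 * (S.filter fun v => σ v = b).card + η := by linarith
    exact_mod_cast this

/-- A balanced bisection that halves every block exactly and every tracked set up to `η`. -/
lemma exists_split {ι β : Type} [Fintype ι] (A : ι → Finset V) (bl : V → β) (η : ℕ)
    (hn : Even (Fintype.card V))
    (hη : 2 * (Fintype.card ι : ℝ) ≤ Real.exp ((η : ℝ) ^ 2 / Fintype.card V)) :
    ∃ σ : V → Bool, (side σ true).card = (side σ false).card ∧
      (∀ c b, 2 * ((univ.filter fun v => bl v = c).filter fun v => σ v = b).card ≤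
        (univ.filter fun v => bl v = c).card + 1) ∧
      ∀ i b, 2 * ((A i).filter fun v => σ v = b).card ≤ (A i).card + η ∧
        (A i).card ≤ 2 * ((A i).filter fun v => σ v = b).card + η := by
  obtain ⟨σ, s1, s2, s3⟩ := exists_signs A bl (2 * η / Fintype.card V) univ hn
  refine ⟨σ, ?_, fun c b => ?_, fun i => card_half σ _ η ?_⟩
  · have h := card_half σ univ 0 (by simpa using s1)
    have h1 := h true
    have h2 := h false
    unfold side
    omega
  · refine (card_half σ _ 1 ?_ b).1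
    simpa using s2 c
  · by_contra hlt
    push Not at hlt
    set d := ∑ v, if v ∈ A i then sg (σ v) else 0 with hd
    have hV : 0 < Fintype.card V := by
      rw [Fintype.card_pos_iff]
      by_contra hV
      rw [not_nonempty_iff] at hV
      have : d = 0 := by simp [hd]
      rw [this, abs_zero] at hlt
      exact absurd hlt (not_lt.2 (Nat.cast_nonneg η))
    have hV' : (0 : ℝ) < Fintype.card V := by exact_mod_cast hV
    have h1 := single_le_sum (f := fun i => Real.cosh (2 * η / Fintype.card V *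
      ∑ v, if v ∈ A i then sg (σ v) else 0)) (fun _ _ => (Real.cosh_pos _).le) (mem_univ i)
    have h2 := h1.trans s3
    simp only [← hd, card_univ] at h2
    have e : (2 * (η : ℝ) / Fintype.card V) ^ 2 * Fintype.card V / 4 =
        (η : ℝ) ^ 2 / Fintype.card V := by field_simp; ring
    rw [e, ← Real.cosh_abs, Real.cosh_eq, abs_mul, abs_of_nonneg (by positivity)] at h2
    have h3 : 2 * ((η : ℝ) ^ 2 / Fintype.card V) ≤ 2 * η / Fintype.card V * |d| := by
      have := mul_le_mul_of_nonneg_left hlt.le (show (0 : ℝ) ≤ 2 * η / Fintype.card V by positivity)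
      refine le_trans (le_of_eq ?_) this
      ring
    have h4 := Real.exp_le_exp.2 h3
    rw [two_mul, Real.exp_add] at h4
    have h5 := Real.exp_pos (-(2 * (η : ℝ) / Fintype.card V * |d|))
    have h6 := Real.exp_pos ((η : ℝ) ^ 2 / Fintype.card V)
    nlinarith

end Pool.Agent.MP_d20a68_co

end

section

/-! Bipartite subgraphs with prescribed degrees. -/

set_option autoImplicit false
set_option linter.unusedSectionVars false
set_option linter.unusedVariables false
open Finset
open scoped Classical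

namespace Pool.Agent.MP_d20a68_co

variable {V : Type} [Fintype V]

/-- After deleting a graph of maximum degree `ρ`, bipartite holes have at most `L` vertices. -/
def Hole (B : SimpleGraph V) (P Q : Finset V) (L ρ : ℕ) : Prop :=
  ∀ U : SimpleGraph V, (∀ v, dg U v ≤ ρ) → ∀ S ⊆ P, ∀ T ⊆ Q, S.Nonempty → T.Nonempty →
    (∀ x ∈ S, ∀ y ∈ T, B.Adj x y → U.Adj x y) → S.card + T.card ≤ L

/-- All edges join `P` and `Q`. -/
def Btw (F : SimpleGraph V) (P Q : Finset V) : Prop :=
  ∀ u v, F.Adj u v → (u ∈ P ∧ v ∈ Q) ∨ (u ∈ Q ∧ v ∈ P)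

lemma choose_set (P : Finset V) (δ : V → ℕ) (T a : ℕ) (hδ : ∀ v ∈ P, δ v ≤ T + 1)
    (h1 : ∑ v ∈ P, δ v ≤ a * (T + 1)) (h2 : a * (T + 1) ≤ ∑ v ∈ P, δ v + T) :
    ∃ P' ⊆ P, P'.card = a ∧ (∀ v ∈ P', 1 ≤ δ v) ∧ ∀ v ∈ P, δ v = T + 1 → v ∈ P' := by
  have e1 : (P.filter fun v => δ v = T + 1).card * (T + 1) ≤ ∑ v ∈ P, δ v := by
    rw [← smul_eq_mul, ← sum_const]
    exact le_trans (sum_le_sum fun v hv => (mem_filter.1 hv).2.ge)
      (sum_le_sum_of_subset (filter_subset _ _))
  have e2 : ∑ v ∈ P, δ v ≤ (P.filter fun v => 1 ≤ δ v).card * (T + 1) := by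
    rw [← smul_eq_mul, ← sum_const, ← sum_filter_add_sum_filter_not P (fun v => 1 ≤ δ v),
      sum_eq_zero (s := P.filter fun v => ¬ 1 ≤ δ v) fun v hv => by
        have := (mem_filter.1 hv).2; omega, add_zero]
    exact sum_le_sum fun v hv => hδ v (mem_filter.1 hv).1
  obtain ⟨P', p1, p2, p3⟩ := exists_subsuperset_card_eq (s := P.filter fun v => δ v = T + 1)
    (t := P.filter fun v => 1 ≤ δ v) (n := a)
    (fun v hv => by rw [mem_filter] at hv ⊢; exact ⟨hv.1, by omega⟩)
    (Nat.le_of_mul_le_mul_right (e1.trans h1) (Nat.succ_pos T))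
    (by
      have : a * (T + 1) < ((P.filter fun v => 1 ≤ δ v).card + 1) * (T + 1) := by
        rw [add_mul]; omega
      have := Nat.lt_of_mul_lt_mul_right this
      omega)
  exact ⟨P', p2.trans (filter_subset _ _), p3, fun v hv => (mem_filter.1 (p2 hv)).2,
    fun v hv h => p1 (mem_filter.2 ⟨hv, h⟩)⟩

lemma sum_sub_ind (P P' R : Finset V) (δ : V → ℕ) (h : P' ⊆ P) (h1 : ∀ v ∈ P', 1 ≤ δ v)
    (hR : ∀ v ∈ P, v ∈ R ↔ v ∈ P') :
    ∑ v ∈ P, (δ v - if v ∈ R then 1 else 0) + P'.card = ∑ v ∈ P, δ v := by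
  have : P'.card = ∑ v ∈ P, if v ∈ R then 1 else 0 := by
    rw [← card_filter]
    congr 1; ext v
    rw [mem_filter]
    exact ⟨fun hv => ⟨h hv, (hR v (h hv)).2 hv⟩, fun hv => (hR v hv.1).1 hv.2⟩
  rw [this, ← sum_add_distrib]
  refine sum_congr rfl fun v hv => ?_
  split_ifs with hv'
  · have := h1 v ((hR v hv).1 hv'); omega
  · omega

lemma fill (B : SimpleGraph V) (P Q : Finset V) (hd : Disjoint P Q) (L ρ : ℕ)
    (hH : Hole B P Q L ρ) (T : ℕ) (U : SimpleGraph V) (hU : ∀ v, dg U v + T ≤ ρ) (δ : V → ℕ)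
    (hδ : ∀ v ∈ P ∪ Q, δ v ≤ T) (hs : ∑ v ∈ P, δ v = ∑ v ∈ Q, δ v)
    (hL : L * T ≤ ∑ v ∈ P, δ v) :
    ∃ F ≤ B \ U, (∀ v, dg F v = if v ∈ P ∪ Q then δ v else 0) ∧ Btw F P Q := by
  induction T generalizing U δ with
  | zero =>
    refine ⟨⊥, bot_le, fun v => ?_, fun u v h => h.elim⟩
    rw [dg_bot]
    split_ifs with h
    · have := hδ v h; omega
    · rfl
  | succ T ih =>
    obtain ⟨a, a1, a2⟩ : ∃ a, ∑ v ∈ P, δ v ≤ a * (T + 1) ∧ a * (T + 1) ≤ ∑ v ∈ P, δ v + T := by
      refine ⟨(∑ v ∈ P, δ v + T) / (T + 1), ?_, Nat.div_mul_le_self _ _⟩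
      have := Nat.lt_div_mul_add (a := ∑ v ∈ P, δ v + T) (Nat.succ_pos T)
      simp only [Nat.succ_eq_add_one] at this
      omega
    obtain ⟨P', p1, p2, p3, p4⟩ := choose_set P δ T a
      (fun v hv => hδ v (mem_union_left _ hv)) a1 a2
    obtain ⟨Q', q1, q2, q3, q4⟩ := choose_set Q δ T a
      (fun v hv => hδ v (mem_union_right _ hv)) (hs ▸ a1) (hs ▸ a2)
    have hLa : L ≤ a := Nat.le_of_mul_le_mul_right (hL.trans a1) (Nat.succ_pos T)
    obtain ⟨M, hM, m1, m2⟩ := exists_matching (B \ U) P' Q' (hd.mono p1 q1) (p2.trans q2.symm)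
      fun S hS => by
        rcases S.eq_empty_or_nonempty with rfl | hSne
        · simp
        suffices h : S.card ≤ (Q'.filter fun y => ∃ x ∈ S, (B \ U).Adj x y).card by convert h
        have hc := card_filter_add_card_filter_not (s := Q') fun y => ∃ x ∈ S, (B \ U).Adj x y
        rcases (Q'.filter fun y => ¬ ∃ x ∈ S, (B \ U).Adj x y).eq_empty_or_nonempty with h | h
        · have := card_le_card hS
          rw [h, card_empty] at hc
          omega
        · have := hH U (fun v => by have := hU v; omega) S (hS.trans p1) _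
            ((filter_subset _ _).trans q1) hSne h fun x hx y hy hB => by
              by_contra hn
              exact (mem_filter.1 hy).2 ⟨x, hx, hB, hn⟩
          omega
    have hP := sum_sub_ind P P' (P' ∪ Q') δ p1 p3 fun v hv => by
      rw [mem_union]
      exact ⟨fun h => h.elim id fun h => absurd (q1 h) (disjoint_left.1 hd hv), Or.inl⟩
    have hQ := sum_sub_ind Q Q' (P' ∪ Q') δ q1 q3 fun v hv => by
      rw [mem_union]
      exact ⟨fun h => h.elim (fun h => absurd hv (disjoint_left.1 hd (p1 h))) id, Or.inr⟩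
    obtain ⟨F, f1, f2, f3⟩ := ih (U ⊔ M) (fun v => by
        have h1 := dg_sup_le U M v
        have h2 := hU v
        have h3 := m1 v
        split_ifs at h3 <;> omega)
      (fun v => δ v - if v ∈ P' ∪ Q' then 1 else 0) (fun v hv => by
        have h1 := hδ v hv
        by_cases h : v ∈ P' ∪ Q'
        · simp only [if_pos h]; omega
        · simp only [if_neg h]
          have : δ v ≠ T + 1 := fun e => h (by
            rcases mem_union.1 hv with h' | h'
            · exact mem_union_left _ (p4 v h' e)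
            · exact mem_union_right _ (q4 v h' e))
          omega)
      (by omega) (by
        obtain ⟨r, hr⟩ := Nat.exists_eq_add_of_le hL
        have h1 : a * (T + 1) < (L + r + 1) * (T + 1) := by nlinarith
        have h2 := Nat.lt_of_mul_lt_mul_right h1
        have h3 : L * (T + 1) = L * T + L := by ring
        omega)
    refine ⟨M ⊔ F, sup_le hM (f1.trans (sdiff_le_sdiff_left le_sup_left)), fun v => ?_,
      fun u v h => ?_⟩
    · rw [dg_sup fun u v h1 h2 => (f1 h2).2 (Or.inr h1), m1, f2]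
      by_cases h : v ∈ P' ∪ Q'
      · have h' : v ∈ P ∪ Q := union_subset_union p1 q1 h
        have : 1 ≤ δ v := by
          rcases mem_union.1 h with h | h
          · exact p3 v h
          · exact q3 v h
        simp only [if_pos h, if_pos h']; omega
      · simp only [if_neg h]; split_ifs <;> omega
    · rcases h with h | h
      · exact (m2 u v h).imp (fun h => ⟨p1 h.1, q1 h.2⟩) fun h => ⟨q1 h.1, p1 h.2⟩
      · exact f3 u v h

/-- Topping up nearly equal degrees to a common value `D`. -/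
lemma topup (B : SimpleGraph V) (P Q : Finset V) (hd : Disjoint P Q) (hc : P.card = Q.card)
    (L ρ N : ℕ) (hH : Hole B P Q L ρ) (hN : 0 < N) (hL : N * L + P.card ≤ N * P.card)
    (U : SimpleGraph V) (T₀ : ℕ) (hU : ∀ v, dg U v + T₀ ≤ ρ) (e : V → ℕ) (lo s₀ D : ℕ)
    (he : ∀ v, lo ≤ e v ∧ e v ≤ lo + s₀) (h1 : lo + N * s₀ ≤ D) (h2 : D ≤ lo + T₀)
    (hs : ∑ v ∈ P, e v = ∑ v ∈ Q, e v) :
    ∃ F ≤ B \ U, (∀ v, dg F v = if v ∈ P ∪ Q then D - e v else 0) ∧ Btw F P Q := by
  have hs₀ : s₀ ≤ N * s₀ := Nat.le_mul_of_pos_left _ hN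
  have key : ∀ R : Finset V, ∑ v ∈ R, (D - e v) + ∑ v ∈ R, e v = R.card * D := fun R => by
    rw [← sum_add_distrib, ← smul_eq_mul, ← sum_const]
    exact sum_congr rfl fun v _ => by have := he v; omega
  refine fill B P Q hd L ρ hH (D - lo) U (fun v => by have := hU v; omega) (fun v => D - e v)
    (fun v _ => by have := he v; omega) ?_ ?_
  · have e1 := key P
    have e2 := key Q
    rw [hc] at e1
    omega
  · obtain ⟨r, hr⟩ : ∃ r, D - lo = s₀ + r := ⟨D - lo - s₀, by omega⟩
    have e1 : P.card * r ≤ ∑ v ∈ P, (D - e v) := by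
      rw [← smul_eq_mul, ← sum_const]
      exact sum_le_sum fun v _ => by have := he v; omega
    refine le_trans ?_ e1
    have e2 : N * s₀ ≤ s₀ + r := by omega
    rw [hr]
    refine Nat.le_of_mul_le_mul_left ?_ hN
    nlinarith

lemma exists_group {q : ℕ} (p : Fin q → ℕ) (s : ℕ) (hp : ∀ i, p i ≤ s) (J : Finset (Fin q))
    (a : ℕ) (ha : a ≤ ∑ i ∈ J, p i) : ∃ I ⊆ J, a ≤ ∑ i ∈ I, p i ∧ ∑ i ∈ I, p i ≤ a + s := by
  induction J using Finset.induction_on with
  | empty => exact ⟨∅, subset_rfl, ha, by simp⟩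
  | insert i J hi ih =>
    by_cases h : a ≤ ∑ i ∈ J, p i
    · obtain ⟨I, h1, h2⟩ := ih h
      exact ⟨I, h1.trans (subset_insert _ _), h2⟩
    · refine ⟨insert i J, subset_rfl, ha, ?_⟩
      rw [sum_insert hi]
      have := hp i
      omega

/-! ### Holes -/

lemma hole_basic {B U : SimpleGraph V} {ρ : ℕ} (hU : ∀ v, dg U v ≤ ρ) {S C : Finset V} {y : V}
    (hS : S ⊆ C) (h : ∀ x ∈ S, B.Adj y x → U.Adj y x) :
    S.card + (C.filter (B.Adj y)).card ≤ C.card + ρ := by
  have h1 : (S ∪ C.filter (B.Adj y)).card ≤ C.card :=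
    card_le_card (union_subset hS (filter_subset _ _))
  have h2 : (S ∩ C.filter (B.Adj y)).card ≤ dg U y := card_le_card fun x hx => by
    rw [mem_inter, mem_filter] at hx
    exact mem_nb.2 (h x hx.1 hx.2.2)
  have h3 := card_union_add_card_inter S (C.filter (B.Adj y))
  have := hU y
  omega

lemma hole_two {B : SimpleGraph V} {P Q : Finset V} {L ρ g : ℕ}
    (h1 : ∀ y ∈ Q, g ≤ (P.filter (B.Adj y)).card) (h2 : ∀ x ∈ P, g ≤ (Q.filter (B.Adj x)).card)
    (hL : P.card + Q.card + 2 * ρ ≤ L + 2 * g) : Hole B P Q L ρ := by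
  intro U hU S hS T hT ⟨x, hx⟩ ⟨y, hy⟩ h
  have e1 := hole_basic (B := B) hU hS (y := y) fun x hx hB => (h x hx y hy hB.symm).symm
  have e2 := hole_basic (B := B) hU hT (y := x) fun y hy hB => h x hx y hy hB
  have := h1 y (hT hy)
  have := h2 x (hS hx)
  omega

lemma hole_aux {B U : SimpleGraph V} {ρ g h z : ℕ} (hU : ∀ v, dg U v ≤ ρ)
    (cl : V → Bool × Bool) {P S T : Finset V} (hS : S ⊆ P)
    (hg : ∀ y c, c ≠ cl y → g ≤ ((P.filter fun v => cl v = c).filter (B.Adj y)).card)
    (hh : ∀ c, (P.filter fun v => cl v = c).card ≤ h) (hz : h + ρ ≤ z + g)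
    (hST : ∀ x ∈ S, ∀ y ∈ T, B.Adj y x → U.Adj y x) (y : V) (hy : y ∈ T) :
    S.card ≤ h + 3 * z ∧ ((∃ y' ∈ T, cl y' ≠ cl y) → S.card ≤ 4 * z) ∧
      ∀ c, (∀ x ∈ S, cl x = c) → S.card ≤ h := by
  have key : ∀ y ∈ T, ∀ c, c ≠ cl y → (S.filter fun v => cl v = c).card ≤ z := by
    intro y hy c hc
    have e1 := hole_basic (B := B) hU (filter_subset_filter (fun v => cl v = c) hS) (y := y)
      fun x hx => hST x (mem_filter.1 hx).1 y hy
    have := hg y c hc
    have := hh c
    omega
  have key2 : ∀ c, (S.filter fun v => cl v = c).card ≤ h := fun c =>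
    (card_le_card (filter_subset_filter _ hS)).trans (hh c)
  have hsum : S.card = ∑ c, (S.filter fun v => cl v = c).card :=
    card_eq_sum_card_fiberwise fun _ _ => mem_univ _
  have hrest : ∑ c ∈ univ.erase (cl y), (S.filter fun v => cl v = c).card ≤ 3 * z := by
    refine le_trans (sum_le_card_nsmul _ _ z fun c hc => key y hy c (ne_of_mem_erase hc)) ?_
    simp [card_erase_of_mem]
  rw [← add_sum_erase _ _ (mem_univ (cl y))] at hsum
  refine ⟨?_, fun ⟨y', hy', hne⟩ => ?_, fun c hc => ?_⟩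
  · have := key2 (cl y); omega
  · have := key y' hy' (cl y) hne.symm; omega
  · have := key2 c
    rwa [filter_true_of_mem hc] at this

lemma hole_four {B : SimpleGraph V} {P Q : Finset V} {L ρ g h z : ℕ} (cl : V → Bool × Bool)
    (hg : ∀ y c, c ≠ cl y → g ≤ ((P.filter fun v => cl v = c).filter (B.Adj y)).card)
    (hh : ∀ c, (P.filter fun v => cl v = c).card ≤ h)
    (hg' : ∀ y c, c ≠ cl y → g ≤ ((Q.filter fun v => cl v = c).filter (B.Adj y)).card)
    (hh' : ∀ c, (Q.filter fun v => cl v = c).card ≤ h) (hz : h + ρ ≤ z + g)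
    (h1 : 8 * z ≤ L) (h2 : 2 * h + 3 * z ≤ L) : Hole B P Q L ρ := by
  intro U hU S hS T hT ⟨x, hx⟩ ⟨y, hy⟩ hST
  obtain ⟨a1, a2, a3⟩ := hole_aux hU cl hS hg hh hz
    (fun x hx y hy hB => (hST x hx y hy hB.symm).symm) y hy
  obtain ⟨b1, b2, b3⟩ := hole_aux hU cl hT hg' hh' hz
    (fun y hy x hx hB => hST x hx y hy hB) x hx
  by_cases c1 : ∃ y' ∈ T, cl y' ≠ cl y
  · by_cases c2 : ∃ x' ∈ S, cl x' ≠ cl x
    · have := a2 c1; have := b2 c2; omega
    · push Not at c2
      have := a3 _ c2; omega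
  · push Not at c1
    have := b3 _ c1; omega

end Pool.Agent.MP_d20a68_co

end

section

/-! Decomposition of dense regular graphs into regular bipartite graphs. -/

set_option autoImplicit false
set_option linter.unusedSectionVars false
set_option linter.unusedVariables false
open Finset
open scoped Classical

namespace Pool.Agent.MP_d20a68_co

variable {V : Type} [Fintype V]

/-- The edges of `W` inside the sides of `σ`. -/
def sameG (W : SimpleGraph V) (σ : V → Bool) : SimpleGraph V where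
  Adj u v := W.Adj u v ∧ σ u = σ v
  symm := ⟨fun _ _ h => ⟨h.1.symm, h.2.symm⟩⟩
  loopless := ⟨fun _ h => h.1.ne rfl⟩

/-- The edges of `W` between the sides of `σ`. -/
def crossG (W : SimpleGraph V) (σ : V → Bool) : SimpleGraph V where
  Adj u v := W.Adj u v ∧ σ u ≠ σ v
  symm := ⟨fun _ _ h => ⟨h.1.symm, h.2.symm⟩⟩
  loopless := ⟨fun _ h => h.1.ne rfl⟩

lemma nb_same (W : SimpleGraph V) (σ : V → Bool) (u : V) :
    nb (sameG W σ) u = (nb W u).filter fun v => σ v = σ u := by
  ext v; simp [sameG, eq_comm]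

lemma nb_cross (W : SimpleGraph V) (σ : V → Bool) (u : V) :
    nb (crossG W σ) u = (nb W u).filter fun v => σ v = !σ u := by
  ext v
  simp only [mem_nb, crossG, mem_filter]
  cases σ u <;> cases σ v <;> simp

lemma cross_sup_same (W : SimpleGraph V) (σ : V → Bool) : crossG W σ ⊔ sameG W σ = W := by
  ext u v
  simp only [SimpleGraph.sup_adj, crossG, sameG]
  tauto

lemma dg_cross_same (W : SimpleGraph V) (σ : V → Bool) (v : V) :
    dg (crossG W σ) v + dg (sameG W σ) v = dg W v := by
  rw [← dg_sup (H := crossG W σ) (H' := sameG W σ) fun u v h1 h2 => h1.2 h2.2, cross_sup_same]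

/-- `σ` halves all neighbourhoods of `W` up to `η`. -/
def Halves (W : SimpleGraph V) (σ : V → Bool) (η : ℕ) : Prop :=
  ∀ u b, 2 * ((nb W u).filter fun v => σ v = b).card ≤ dg W u + η ∧
    dg W u ≤ 2 * ((nb W u).filter fun v => σ v = b).card + η

lemma Halves.same {W : SimpleGraph V} {σ : V → Bool} {η : ℕ} (h : Halves W σ η) (u : V) :
    2 * dg (sameG W σ) u ≤ dg W u + η ∧ dg W u ≤ 2 * dg (sameG W σ) u + η := by
  have := h u (σ u)
  rwa [← nb_same] at this

lemma Halves.cross {W : SimpleGraph V} {σ : V → Bool} {η : ℕ} (h : Halves W σ η) (u : V) :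
    2 * dg (crossG W σ) u ≤ dg W u + η ∧ dg W u ≤ 2 * dg (crossG W σ) u + η := by
  have := h u (!σ u)
  rwa [← nb_cross] at this

lemma Btw.cross {F : SimpleGraph V} {P Q : Finset V} (h : Btw F P Q) {σ : V → Bool}
    (hP : ∀ v ∈ P, σ v = true) (hQ : ∀ v ∈ Q, σ v = false) : Cross F σ := fun u v huv => by
  rcases h u v huv with h | h
  · rw [hP u h.1, hQ v h.2]; simp
  · rw [hQ u h.1, hP v h.2]; simp

lemma Cross.sup {F F' : SimpleGraph V} {σ : V → Bool} (h : Cross F σ) (h' : Cross F' σ) :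
    Cross (F ⊔ F') σ := fun u v huv => huv.elim (h u v) (h' u v)

/-- An abstract notion of colourability of subgraphs with groups of colour classes. -/
structure Sys (G : SimpleGraph V) {q : ℕ} (p : Fin q → ℕ)
    (Col : SimpleGraph V → Finset (Fin q) → Prop) : Prop where
  bip : ∀ H ≤ G, ∀ I σ, Cross H σ → (∀ v, dg H v = ∑ i ∈ I, p i) → Col H I
  sup : ∀ H H' I I', Disjoint I I' → Col H I → Col H' I' → Col (H ⊔ H') (I ∪ I')

lemma exists_lo [Nonempty V] (e : V → ℕ) (s : ℕ) (h : ∀ u v, e u ≤ e v + s) :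
    ∃ w, ∀ v, e w ≤ e v ∧ e v ≤ e w + s := by
  obtain ⟨w, -, hw⟩ := exists_min_image univ e univ_nonempty
  exact ⟨w, fun v => ⟨hw v (mem_univ v), h v w⟩⟩

variable {G : SimpleGraph V} {q : ℕ} {p : Fin q → ℕ} {Col : SimpleGraph V → Finset (Fin q) → Prop}

lemma levels [Nonempty V] (hS : Sys G p Col) {B : SimpleGraph V} (hB : B ≤ G) {s η L ρ N m : ℕ}
    (hp : ∀ i, p i ≤ s) (hN : 0 < N) (hL : N * L + m ≤ N * m)
    (step : ∀ (W : SimpleGraph V) (bl : V → List Bool), ∃ σ : V → Bool,
      (side σ true).card = m ∧ (side σ false).card = m ∧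
      (∀ c b, 2 * ((univ.filter fun v => bl v = c).filter fun v => σ v = b).card ≤
        (univ.filter fun v => bl v = c).card + 1) ∧
      Halves W σ η ∧ Hole B (side σ true) (side σ false) L ρ)
    (t : ℕ) (W : SimpleGraph V) (bl : V → List Bool) (U : SimpleGraph V) (J : Finset (Fin q))
    (hW : W ≤ G) (hWB : ∀ u v, W.Adj u v → ¬ B.Adj u v) (hbl : ∀ u v, W.Adj u v → bl u = bl v)
    (hc : ∀ c, (univ.filter fun v => bl v = c).card ≤ 2 ^ t)
    (hsp : ∀ u v, dg W u ≤ dg W v + 2 * η) (hU : ∀ v, dg U v + t * (N * (2 * η) + s) ≤ ρ)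
    (hJ : ∀ v, dg W v + t * (N * (2 * η) + s) ≤ ∑ i ∈ J, p i) :
    ∃ F ≤ B \ U, ∃ I ⊆ J, Col (W ⊔ F) I ∧ (∀ v, dg W v + dg F v = ∑ i ∈ I, p i) ∧
      ∀ v, dg F v ≤ t * (N * (2 * η) + s) := by
  induction t generalizing W bl U J with
  | zero =>
    have : W = ⊥ := by
      ext u v
      refine ⟨fun h => h.ne ?_, fun h => h.elim⟩
      exact card_le_one.1 (hc (bl u)) u (by simp) v (by simp [hbl u v h])
    subst this
    refine ⟨⊥, bot_le, ∅, empty_subset _, ?_, fun v => by simp [dg_bot], fun v => by simp [dg_bot]⟩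
    exact hS.bip _ (by simp) _ (fun _ => true) (fun u v h => by simp at h) fun v => by
      simp [dg_bot]
  | succ t ih =>
    set T₀ := N * (2 * η) + s with hT₀
    have hT : (t + 1) * T₀ = t * T₀ + T₀ := by ring
    obtain ⟨σ, s1, s2, s3, s4, s5⟩ := step W bl
    obtain ⟨w, hw⟩ := exists_lo (dg (crossG W σ)) (2 * η) fun u v => by
      have := s4.cross u; have := s4.cross v; have := hsp u v; omega
    have hdg := dg_cross_same W σ
    obtain ⟨I₁, i1, i2, i3⟩ := exists_group p s hp J (dg (crossG W σ) w + N * (2 * η)) (by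
      have := hJ w; have := hdg w; omega)
    obtain ⟨F₁, f1, f2, f3⟩ := topup B _ _ (side_disj σ) (s1.trans s2.symm) L ρ N s5 hN
      (by rw [s1]; exact hL) U T₀ (fun v => by have := hU v; omega) (dg (crossG W σ)) _ _ _ hw i2
      (by omega) (sum_dg_eq _ _ _ (Cross.tf fun u v h => h.2) (Cross.ft fun u v h => h.2))
    have hs₀ : 2 * η ≤ N * (2 * η) := Nat.le_mul_of_pos_left _ hN
    have f4 : ∀ v, dg (crossG W σ) v + dg F₁ v = ∑ i ∈ I₁, p i ∧ dg F₁ v ≤ T₀ := fun v => by
      have h1 := f2 v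
      rw [if_pos (by cases h : σ v <;> simp [h])] at h1
      have := hw v
      omega
    have hsum : ∑ i ∈ J \ I₁, p i + ∑ i ∈ I₁, p i = ∑ i ∈ J, p i := sum_sdiff i1
    obtain ⟨F₂, g1, I₂, j1, g2, g3, g4⟩ := ih (sameG W σ) (fun v => σ v :: bl v) (U ⊔ F₁) (J \ I₁)
      (fun u v h => hW h.1) (fun u v h => hWB u v h.1)
      (fun u v h => by simp only [h.2, hbl u v h.1]) (fun c => by
        cases c with
        | nil => simp
        | cons b c =>
          have h1 := s3 c b
          have h2 := hc c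
          have e : (univ.filter fun v => σ v :: bl v = b :: c) =
              (univ.filter fun v => bl v = c).filter fun v => σ v = b := by
            ext v; simp [and_comm]
          rw [e]
          rw [pow_succ] at h2
          omega)
      (fun u v => by have := s4.same u; have := s4.same v; have := hsp u v; omega)
      (fun v => by have := dg_sup_le U F₁ v; have := hU v; have := f4 v; omega)
      (fun v => by have := hJ v; have := hdg v; have := f4 v; omega)
    have hd : Disjoint I₁ I₂ := disjoint_left.2 fun i h1 h2 => (mem_sdiff.1 (j1 h2)).2 h1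
    have hF : ∀ v, dg (F₁ ⊔ F₂) v = dg F₁ v + dg F₂ v :=
      dg_sup fun u v h1 h2 => (g1 h2).2 (Or.inr h1)
    refine ⟨F₁ ⊔ F₂, sup_le f1 (g1.trans (sdiff_le_sdiff_left le_sup_left)), I₁ ∪ I₂,
      union_subset i1 (j1.trans sdiff_subset), ?_, fun v => ?_, fun v => ?_⟩
    · have c1 : Col (crossG W σ ⊔ F₁) I₁ := by
        refine hS.bip _ (sup_le (a := crossG W σ) (fun u v h => hW h.1)
          (f1.trans (sdiff_le.trans hB))) _ σ
          (Cross.sup (fun u v h => h.2) (f3.cross (by simp) (by simp))) fun v => ?_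
        rw [dg_sup (H := crossG W σ) fun u v h1 h2 => hWB u v h1.1 (f1 h2).1]
        exact (f4 v).1
      have := hS.sup _ _ _ _ hd c1 g2
      rwa [sup_sup_sup_comm, cross_sup_same] at this
    · rw [hF, sum_union hd]
      have := hdg v; have := f4 v; have := g3 v
      omega
    · rw [hF]
      have := f4 v; have := g4 v
      omega

end Pool.Agent.MP_d20a68_co

end

section

/-! The decomposition theorem with explicit parameters. -/

set_option autoImplicit false
set_option linter.unusedSectionVars false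
set_option linter.unusedVariables false
open Finset
open scoped Classical

namespace Pool.Agent.MP_d20a68_co

variable {V : Type} [Fintype V]
variable {G : SimpleGraph V} {q : ℕ} {p : Fin q → ℕ} {Col : SimpleGraph V → Finset (Fin q) → Prop}

lemma side_card (σ : V → Bool) : (side σ true).card + (side σ false).card = Fintype.card V := by
  rw [← card_union_of_disjoint (side_disj σ), ← card_univ]
  congr 1; ext v
  cases h : σ v <;> simp [h]

lemma filter_tf (S : Finset V) (σ : V → Bool) :
    (S.filter fun v => σ v = true).card + (S.filter fun v => σ v = false).card = S.card := by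
  rw [← card_filter_add_card_filter_not (s := S) fun v => σ v = true]
  simp

lemma sum_tf (S : Finset V) (σ : V → Bool) (f : V → ℕ) :
    ∑ v ∈ S.filter (fun v => σ v = true), f v + ∑ v ∈ S.filter (fun v => σ v = false), f v =
      ∑ v ∈ S, f v := by
  rw [← sum_filter_add_sum_filter_not S fun v => σ v = true]
  simp

/-- The last two levels. -/
lemma last_two [Nonempty V] (hS : Sys G p Col) {s s₁ N L ρ : ℕ} (hp : ∀ i, p i ≤ s) (hN : 0 < N)
    (σ₀ σ₁ : V → Bool) (h0 : (side σ₀ true).card = (side σ₀ false).card)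
    (h1 : (side σ₁ true).card = (side σ₁ false).card) (B U : SimpleGraph V) (hB : B ≤ G)
    (hcl : ∀ u v, B.Adj u v → σ₀ u = σ₀ v → σ₁ u ≠ σ₁ v) (J : Finset (Fin q))
    (hreg : ∀ v, dg (B \ U) v = ∑ i ∈ J, p i)
    (hsp : ∀ u v, dg (sameG (B \ U) σ₀) u ≤ dg (sameG (B \ U) σ₀) v + s₁)
    (hR : ∀ v, N * s₁ ≤ dg (crossG (B \ U) σ₀) v) (hU : ∀ v, dg U v + (N * s₁ + s) ≤ ρ)
    (hH : ∀ b, Hole (crossG B σ₀) ((side σ₀ true).filter fun v => σ₁ v = b)
      ((side σ₀ false).filter fun v => σ₁ v = !b) L ρ)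
    (hL : ∀ b, N * L + ((side σ₀ true).filter fun v => σ₁ v = b).card ≤
      N * ((side σ₀ true).filter fun v => σ₁ v = b).card) :
    Col (B \ U) J := by
  set E := sameG (B \ U) σ₀ with hE
  set C : Bool → Bool → Finset V := fun a b => (side σ₀ a).filter fun v => σ₁ v = b with hC
  have hmem : ∀ a b v, v ∈ C a b ↔ σ₀ v = a ∧ σ₁ v = b := fun a b v => by simp [hC]
  have hdg : ∀ v, dg (crossG (B \ U) σ₀) v + dg E v = dg (B \ U) v := dg_cross_same (B \ U) σ₀
  -- cardinalities of the four classes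
  have c1 := filter_tf (side σ₀ true) σ₁
  have c2 := filter_tf (side σ₀ false) σ₁
  have c3 := filter_tf (side σ₁ true) σ₀
  have c4 := filter_tf (side σ₁ false) σ₀
  have ce : ∀ a b, (side σ₁ b).filter (fun v => σ₀ v = a) = C a b := fun a b => by
    ext v; simp [hC, and_comm]
  rw [ce, ce] at c3 c4
  change (C true true).card + (C true false).card = _ at c1
  change (C false true).card + (C false false).card = _ at c2
  have hcard : ∀ b, (C true b).card = (C false (!b)).card := fun b => by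
    cases b <;> simp only [Bool.not_true, Bool.not_false] <;> omega
  -- degree sums
  have d1 : ∀ a, ∑ v ∈ C a true, dg E v = ∑ v ∈ C a false, dg E v := fun a =>
    sum_dg_eq E _ _ (fun x hx y h => by
      have := hcl x y h.1.1 h.2
      have := h.2
      rw [hmem] at hx ⊢
      simp_all) (fun x hx y h => by
      have := hcl x y h.1.1 h.2
      have := h.2
      rw [hmem] at hx ⊢
      simp_all)
  have d2 : ∑ v ∈ side σ₀ true, dg (crossG (B \ U) σ₀) v =
      ∑ v ∈ side σ₀ false, dg (crossG (B \ U) σ₀) v :=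
    sum_dg_eq _ _ _ (Cross.tf fun u v h => h.2) (Cross.ft fun u v h => h.2)
  have d3 : ∀ a, ∑ v ∈ side σ₀ a, dg (crossG (B \ U) σ₀) v + ∑ v ∈ side σ₀ a, dg E v =
      (side σ₀ a).card * ∑ i ∈ J, p i := fun a => by
    rw [← sum_add_distrib, ← smul_eq_mul, ← sum_const]
    exact sum_congr rfl fun v _ => (hdg v).trans (hreg v)
  have d4 : ∀ a, ∑ v ∈ C a true, dg E v + ∑ v ∈ C a false, dg E v = ∑ v ∈ side σ₀ a, dg E v :=
    fun a => sum_tf _ σ₁ _
  have hsum : ∀ b, ∑ v ∈ C true b, dg E v = ∑ v ∈ C false (!b), dg E v := fun b => by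
    have := d1 true; have := d1 false; have := d4 true; have := d4 false
    have e1 := d3 true
    have e2 := d3 false
    rw [h0] at e1
    cases b <;> simp only [Bool.not_true, Bool.not_false] <;> omega
  obtain ⟨w, hw⟩ := exists_lo (dg E) s₁ hsp
  obtain ⟨I, i1, i2, i3⟩ := exists_group p s hp J (dg E w + N * s₁) (by
    have := hreg w; have := hdg w; have := hR w; omega)
  have hF : ∀ b, ∃ F ≤ crossG B σ₀ \ U,
      (∀ v, dg F v = if v ∈ C true b ∪ C false (!b) then ∑ i ∈ I, p i - dg E v else 0) ∧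
        Btw F (C true b) (C false (!b)) := fun b =>
    topup _ _ _ (disjoint_left.2 fun v h1 h2 => by rw [hmem] at h1 h2; simp_all) (hcard b) L ρ N
      (hH b) hN (hL b) U _ hU (dg E) _ _ _ hw i2 (by omega) (hsum b)
  obtain ⟨F₁, f1, f2, f3⟩ := hF true
  obtain ⟨F₂, g1, g2, g3⟩ := hF false
  have hs₀ : s₁ ≤ N * s₁ := Nat.le_mul_of_pos_left _ hN
  have le1 : F₁ ≤ B \ U := fun u v h => ⟨(f1 h).1.1, (f1 h).2⟩
  have le2 : F₂ ≤ B \ U := fun u v h => ⟨(g1 h).1.1, (g1 h).2⟩
  have hle : E ⊔ (F₁ ⊔ F₂) ≤ B \ U := sup_le (fun u v h => h.1) (sup_le le1 le2)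
  have hdeg : ∀ v, dg (E ⊔ (F₁ ⊔ F₂)) v = ∑ i ∈ I, p i := fun v => by
    rw [dg_sup (H := E) fun u v h1 h2 => by
      rcases h2 with h2 | h2
      · exact (f1 h2).1.2 h1.2
      · exact (g1 h2).1.2 h1.2, dg_sup fun u v h1 h2 => by
      have a1 := f3 u v h1
      have a2 := g3 u v h2
      simp only [hmem] at a1 a2
      rcases a1 with a1 | a1 <;> rcases a2 with a2 | a2 <;> simp_all, f2, g2]
    have := hw v
    simp only [mem_union, hmem]
    cases σ₀ v <;> cases σ₁ v <;> simp <;> omega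
  have col1 : Col (E ⊔ (F₁ ⊔ F₂)) I := by
    refine hS.bip _ (hle.trans (sdiff_le.trans hB)) _ σ₁ (Cross.sup
      (fun u v h => hcl u v h.1.1 h.2) (Cross.sup (fun u v h => ?_) fun u v h => ?_)) hdeg
    · have a1 := f3 u v h
      simp only [hmem] at a1
      rcases a1 with a1 | a1 <;> simp_all
    · have a1 := g3 u v h
      simp only [hmem] at a1
      rcases a1 with a1 | a1 <;> simp_all
  have col0 : Col ((B \ U) \ (E ⊔ (F₁ ⊔ F₂))) (J \ I) := by
    refine hS.bip _ (sdiff_le.trans (sdiff_le.trans hB)) _ σ₀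
      (fun u v h e => h.2 (Or.inl ⟨h.1, e⟩)) fun v => ?_
    have e1 := dg_sdiff hle v
    have e2 : ∑ i ∈ J \ I, p i + ∑ i ∈ I, p i = ∑ i ∈ J, p i := sum_sdiff i1
    have := hdeg v; have := hreg v
    omega
  have := hS.sup _ _ _ _ sdiff_disjoint col0 col1
  rwa [sdiff_sup_cancel hle, sdiff_union_of_subset i1] at this

theorem decomp (hS : Sys G p Col) {k s η N y t : ℕ} (hreg : ∀ v, dg G v = k)
    (hsum : ∑ i, p i = k) (hp : ∀ i, p i ≤ s) (hn : Even (Fintype.card V)) (hη1 : 1 ≤ η)
    (hN : 0 < N) (h1 : Fintype.card V + 4 * y ≤ 2 * k) (h2 : 12 * y ≤ Fintype.card V)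
    (h3 : Fintype.card V ≤ N * y) (h4 : Fintype.card V ≤ 2 ^ t)
    (h5 : 16 * η + 8 * (t * (N * (2 * η) + s) + (N * (2 * η + t * (N * (2 * η) + s)) + s)) ≤ y)
    (hη : 2 * (9 * Fintype.card V : ℝ) ≤ Real.exp ((η : ℝ) ^ 2 / Fintype.card V)) :
    Col G univ := by
  set ρ₁ := t * (N * (2 * η) + s) with hρ₁
  set T₁ := N * (2 * η + ρ₁) + s with hT₁
  have hpos : 0 < Fintype.card V := by omega
  have : Nonempty V := Fintype.card_pos_iff.1 hpos
  obtain ⟨m, hm⟩ := id hn
  have split : ∀ {ι β : Type} [Fintype ι] (A : ι → Finset V) (bl : V → β),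
      Fintype.card ι ≤ 9 * Fintype.card V → ∃ σ : V → Bool,
      (side σ true).card = m ∧ (side σ false).card = m ∧
      (∀ c b, 2 * ((univ.filter fun v => bl v = c).filter fun v => σ v = b).card ≤
        (univ.filter fun v => bl v = c).card + 1) ∧
      ∀ i b, 2 * ((A i).filter fun v => σ v = b).card ≤ (A i).card + η ∧
        (A i).card ≤ 2 * ((A i).filter fun v => σ v = b).card + η := by
    intro ι β _ A bl hι
    obtain ⟨σ, a1, a2, a3⟩ := exists_split A bl η hn (le_trans (by
      have : (Fintype.card ι : ℝ) ≤ 9 * Fintype.card V := by exact_mod_cast hι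
      linarith) hη)
    have := side_card σ
    exact ⟨σ, by omega, by omega, a2, a3⟩
  obtain ⟨σ₀, a1, a2, -, a3⟩ := split (nb G) (fun _ => ()) (by omega)
  obtain ⟨σ₁, b1, b2, b3, b4⟩ := split
    (fun i : V × Bool => (nb G i.1).filter fun v => σ₀ v = i.2) σ₀ (by simp; omega)
  have a3' : ∀ u b, 2 * ((nb G u).filter fun v => σ₀ v = b).card ≤ k + η ∧
      k ≤ 2 * ((nb G u).filter fun v => σ₀ v = b).card + η := fun u b => by
    rw [← hreg u]; exact a3 u b
  have hcls : ∀ u a b, 4 * (((nb G u).filter fun v => σ₀ v = a).filter fun v => σ₁ v = b).card ≤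
      k + 3 * η ∧ k ≤ 4 * (((nb G u).filter fun v => σ₀ v = a).filter fun v => σ₁ v = b).card +
        3 * η := fun u a b => by
    have := a3' u a
    have := b4 (u, a) b
    simp only at this
    omega
  have hsd : ∀ a, (side σ₀ a).card = m := fun a => by cases a <;> assumption
  have hC : ∀ a b, 2 * ((side σ₀ a).filter fun v => σ₁ v = b).card ≤ m + 1 ∧
      m ≤ 2 * ((side σ₀ a).filter fun v => σ₁ v = b).card + 1 := fun a b => by
    have e1 : 2 * ((side σ₀ a).filter fun v => σ₁ v = true).card ≤ (side σ₀ a).card + 1 := by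
      convert b3 a true <;> (ext v; simp)
    have e2 : 2 * ((side σ₀ a).filter fun v => σ₁ v = false).card ≤ (side σ₀ a).card + 1 := by
      convert b3 a false <;> (ext v; simp)
    have e3 := filter_tf (side σ₀ a) σ₁
    have := hsd a
    cases b <;> omega
  set G₀ := sameG G σ₀ with hG₀
  set W := sameG G₀ σ₁ with hW
  have hWG : W ≤ G := fun u v h => h.1.1
  have hWdeg : ∀ u, 4 * dg W u ≤ k + 3 * η ∧ k ≤ 4 * dg W u + 3 * η := fun u => by
    have := hcls u (σ₀ u) (σ₁ u)
    rwa [← nb_same, ← nb_same] at this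
  have hEdeg : ∀ u, 4 * dg (crossG G₀ σ₁) u ≤ k + 3 * η ∧
      k ≤ 4 * dg (crossG G₀ σ₁) u + 3 * η := fun u => by
    have := hcls u (σ₀ u) (!σ₁ u)
    rwa [← nb_same, ← nb_cross] at this
  have hRdeg : ∀ u, k ≤ 2 * dg (crossG G σ₀) u + η := fun u => by
    have := (a3' u (!σ₀ u)).2
    rwa [← nb_cross] at this
  let cl : V → Bool × Bool := fun v => (σ₀ v, σ₁ v)
  obtain ⟨F, f1, I, -, f2, f3, f4⟩ := levels hS (B := G \ W) sdiff_le (η := η) (L := m - y)
    (ρ := ρ₁) (m := m) hp hN (by
      obtain ⟨r, hr⟩ : ∃ r, m = y + r := ⟨m - y, by omega⟩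
      rw [hr, add_tsub_cancel_left, mul_add]
      omega) (fun W' bl => by
      obtain ⟨σ, s1, s2, s3, s4⟩ := split (ι := V ⊕ (V × (Bool × Bool)) ⊕ (Bool × Bool))
        (Sum.elim (nb W') (Sum.elim (fun i =>
          ((nb G i.1).filter fun v => σ₀ v = i.2.1).filter fun v => σ₁ v = i.2.2)
          fun c => (side σ₀ c.1).filter fun v => σ₁ v = c.2)) bl (by simp; omega)
      have hg : ∀ b y c, c ≠ cl y → (k - 7 * η + 7) / 8 ≤
          (((side σ b).filter fun v => cl v = c).filter ((G \ W).Adj y)).card := by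
        intro b y c hc
        have e1 := (s4 (Sum.inr (Sum.inl (y, c))) b).2
        have e2 := (hcls y c.1 c.2).2
        simp only [Sum.elim_inr, Sum.elim_inl] at e1
        have e3 : ((((nb G y).filter fun v => σ₀ v = c.1).filter fun v => σ₁ v = c.2).filter
            fun v => σ v = b).card ≤
            (((side σ b).filter fun v => cl v = c).filter ((G \ W).Adj y)).card := by
          refine card_le_card fun v hv => ?_
          simp only [mem_filter, mem_nb, mem_side] at hv ⊢
          refine ⟨⟨hv.2, Prod.ext hv.1.1.2 hv.1.2⟩, hv.1.1.1, fun h => hc ?_⟩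
          exact Prod.ext (hv.1.1.2.symm.trans h.1.2.symm) (hv.1.2.symm.trans h.2.symm)
        omega
      have hh : ∀ b c, ((side σ b).filter fun v => cl v = c).card ≤ (m + 1 + 2 * η) / 4 := by
        intro b c
        have e1 := (s4 (Sum.inr (Sum.inr c)) b).1
        have e2 := (hC c.1 c.2).1
        simp only [Sum.elim_inr] at e1
        have e3 : ((side σ b).filter fun v => cl v = c).card ≤
            (((side σ₀ c.1).filter fun v => σ₁ v = c.2).filter fun v => σ v = b).card := by
          refine card_le_card fun v hv => ?_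
          simp only [mem_filter, mem_side] at hv ⊢
          exact ⟨⟨congrArg Prod.fst hv.2, congrArg Prod.snd hv.2⟩, hv.1⟩
        omega
      refine ⟨σ, s1, s2, fun c b => by convert s3 c b, fun u b => s4 (Sum.inl u) b, ?_⟩
      exact hole_four (z := (m + 1 + 2 * η) / 4 + ρ₁ - (k - 7 * η + 7) / 8)
        (g := (k - 7 * η + 7) / 8) (h := (m + 1 + 2 * η) / 4) cl
        (fun y c hc => by convert hg true y c hc) (fun c => by convert hh true c)
        (fun y c hc => by convert hg false y c hc) (fun c => by convert hh false c)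
        (by omega) (by omega) (by omega))
    t W (fun _ => []) ⊥ univ hWG (fun u v h h' => h'.2 h) (fun _ _ _ => rfl)
    (fun c => (card_le_univ _).trans h4)
    (fun u v => by have := hWdeg u; have := hWdeg v; omega)
    (fun v => by rw [dg_bot]; omega) (fun v => by have := hWdeg v; omega)
  have hFB : F ≤ G \ W := f1.trans sdiff_le
  have hsub : ∀ (H H' : SimpleGraph V) (v : V), H ≤ H' ⊔ F → dg H v ≤ dg H' v + ρ₁ :=
    fun H H' v h => by
      have := dg_mono h v; have := dg_sup_le H' F v; have := f4 v; omega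
  have last := last_two hS (s₁ := 2 * η + ρ₁) (L := (m - 1 - y) / 2) (ρ := ρ₁ + T₁) hp hN σ₀ σ₁
    (a1.trans a2.symm) (b1.trans b2.symm) (G \ W) F sdiff_le
    (fun u v h e e' => h.2 ⟨⟨h.1, e⟩, e'⟩) (univ \ I) (fun v => by
      have e1 := dg_sdiff hFB v
      have e2 := dg_sdiff hWG v
      have e3 : ∑ i ∈ univ \ I, p i + ∑ i ∈ I, p i = ∑ i, p i := sum_sdiff (subset_univ I)
      have := f3 v; have := hreg v
      omega) (fun u v => by
      have e1 : dg (sameG ((G \ W) \ F) σ₀) u ≤ dg (crossG G₀ σ₁) u :=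
        dg_mono (H := sameG ((G \ W) \ F) σ₀) (H' := crossG G₀ σ₁)
          (fun a b h => ⟨⟨h.1.1.1, h.2⟩, fun e => h.1.1.2 ⟨⟨h.1.1.1, h.2⟩, e⟩⟩) u
      have e2 := hsub (crossG G₀ σ₁) (sameG ((G \ W) \ F) σ₀) v fun a b h => by
        by_cases hF : F.Adj a b
        · exact Or.inr hF
        · exact Or.inl ⟨⟨⟨h.1.1, fun h' => h.2 h'.2⟩, hF⟩, h.1.2⟩
      have := hEdeg u; have := hEdeg v
      omega) (fun v => by
      have e2 := hsub (crossG G σ₀) (crossG ((G \ W) \ F) σ₀) v fun a b h => by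
        by_cases hF : F.Adj a b
        · exact Or.inr hF
        · exact Or.inl ⟨⟨⟨h.1, fun h' => h.2 h'.1.2⟩, hF⟩, h.2⟩
      have := hRdeg v
      omega) (fun v => by have := f4 v; omega) (fun b => by
      have key : ∀ a b y, σ₀ y = !a → (k - 3 * η + 3) / 4 ≤
          (((side σ₀ a).filter fun v => σ₁ v = b).filter ((crossG (G \ W) σ₀).Adj y)).card := by
        intro a b y hy
        have e2 := (hcls y a b).2
        have e3 : (((nb G y).filter fun v => σ₀ v = a).filter fun v => σ₁ v = b).card ≤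
            (((side σ₀ a).filter fun v => σ₁ v = b).filter
              ((crossG (G \ W) σ₀).Adj y)).card := by
          refine card_le_card fun v hv => ?_
          simp only [mem_filter, mem_nb, mem_side] at hv ⊢
          have hne : σ₀ y ≠ σ₀ v := by rw [hy, hv.1.2]; simp
          exact ⟨⟨hv.1.2, hv.2⟩, ⟨hv.1.1, fun h => hne h.1.2⟩, hne⟩
        omega
      refine hole_two (g := (k - 3 * η + 3) / 4)
        (fun y hy => key true b y (by simpa using (mem_side.1 (mem_filter.1 hy).1)))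
        (fun y hy => key false (!b) y (by simpa using (mem_side.1 (mem_filter.1 hy).1))) ?_
      have := hC true b; have := hC false (!b)
      omega) (fun b => by
      have e1 := hC true b
      set c := ((side σ₀ true).filter fun v => σ₁ v = b).card
      obtain ⟨r, hr⟩ : ∃ r, c = (m - 1 - y) / 2 + r := ⟨c - (m - 1 - y) / 2, by omega⟩
      have e2 : N * y ≤ N * (2 * r) := Nat.mul_le_mul_left _ (by omega)
      have e3 : N * c = N * ((m - 1 - y) / 2) + N * r := by rw [← mul_add, ← hr]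
      have e4 : N * (2 * r) = 2 * (N * r) := by ring
      omega)
  have := hS.sup _ _ _ _ sdiff_disjoint last f2
  rw [sdiff_union_of_subset (subset_univ I)] at this
  have e : (G \ W) \ F ⊔ (W ⊔ F) = G := by
    rw [sup_comm W F, ← sup_assoc, sdiff_sup_cancel hFB, sdiff_sup_cancel hWG]
  rwa [e] at this

end Pool.Agent.MP_d20a68_co

end
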