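import Pool.Agent.Mg.Fd20a68.Gf90942

section

/-! Definitions and interface for regular graphs with a two-sided spectral gap. -/

set_option autoImplicit false
set_option linter.unusedSectionVars false
set_option linter.unusedVariables false
open Finset
open scoped Classical

namespace Pool.Agent.MP_d20a68_co.Poly

variable {V : Type} [Fintype V]

/-- The lifts with at least `τ` neighbours in a set. -/
noncomputable def thr (G : SimpleGraph V) (τ : ℕ) (φ : Finset (V × Bool)) : Finset (V × Bool) :=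
  univ.filter fun z => τ ≤ (φ.filter fun w => AdjT G z w).card

/-- The selected lifts. -/
def Sel (A : Finset V) (σ : V → Bool) (z : V × Bool) : Prop := z.1 ∈ A ∧ σ z.1 = z.2

/-- The edges of `B` inside `A` between the sides of `σ`. -/
def resG (B : SimpleGraph V) (A : Finset V) (σ : V → Bool) : SimpleGraph V where
  Adj u v := B.Adj u v ∧ u ∈ A ∧ v ∈ A ∧ σ u ≠ σ v
  symm := ⟨fun _ _ h => ⟨h.1.symm, h.2.2.1, h.2.1, h.2.2.2.symm⟩⟩
  loopless := ⟨fun _ h => h.1.ne rfl⟩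

/-- One side inside `A`. -/
noncomputable def cls (A : Finset V) (σ : V → Bool) (s : Bool) : Finset V :=
  A.filter fun v => σ v = s

/-- The edges inside the four classes. -/
def inG (G : SimpleGraph V) (σ₀ σ₁ : V → Bool) : SimpleGraph V where
  Adj u v := G.Adj u v ∧ σ₀ u = σ₀ v ∧ σ₁ u = σ₁ v
  symm := ⟨fun _ _ h => ⟨h.1.symm, h.2.1.symm, h.2.2.symm⟩⟩
  loopless := ⟨fun _ h => h.1.ne rfl⟩

/-- A pair of opposite classes. -/
noncomputable def opp (σ₀ σ₁ : V → Bool) (b : Bool) : Finset V :=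
  univ.filter fun v => σ₁ v = if σ₀ v then b else !b

/-- Expansion of the bipartite graph between the sides inside `A`. -/
def Exp (B : SimpleGraph V) (A : Finset V) (σ : V → Bool) (N Γ' : ℕ) : Prop :=
  ∀ (s : Bool) (X Y : Finset V), X ⊆ cls A σ s → Y ⊆ cls A σ (!s) →
    N * Y.card ≤ (N + 1) * X.card →
    (2 * X.card ≤ (cls A σ true).card ∨ 2 * Y.card ≤ (cls A σ true).card) →
    Γ' * X.card ≤ eout (resG B A σ) X Y

/-- Edge expansion of the double cover. -/
def Expands (G : SimpleGraph V) (Γ : ℝ) : Prop :=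
  ∀ T : Finset (V × Bool), Γ * T.card * (2 * Fintype.card V - T.card) ≤
    2 * Fintype.card V * (bd G T).card

/-- A fixed point free involution. -/
def FPF (π : V → V) : Prop := (∀ v, π (π v) = v) ∧ ∀ v, π v ≠ v

/-- `σ` halves the set `N` up to a square root error. -/
def Hlv (L : ℕ) (N : Finset V) (σ : V → Bool) : Prop :=
  ∀ c, (2 * ((N.filter fun u => σ u = c).card : ℝ) - N.card) ^ 2 ≤ 400 * L * N.card

/-- The output of the random choices. -/
structure XData (G : SimpleGraph V) (D L η N Γ' : ℕ) (σ₀ σ₁ : V → Bool) : Prop where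
  bal0 : (side σ₀ true).card = (side σ₀ false).card
  bal1 : (side σ₁ true).card = (side σ₁ false).card
  deg : ∀ v a b, 4 * ((nb G v).filter fun u => σ₀ u = a ∧ σ₁ u = b).card ≤ D + 3 * η ∧
    D ≤ 4 * ((nb G v).filter fun u => σ₀ u = a ∧ σ₁ u = b).card + 3 * η
  step : ∀ W ≤ G, ∀ π : V → V, FPF π → ∃ τ : V → Bool, (∀ v, τ (π v) = !τ v) ∧
    (∀ v, Hlv L (nb W v) τ) ∧ Exp (G \ inG G σ₀ σ₁) univ τ N Γ'
  last : ∀ b, Exp G (opp σ₀ σ₁ b) σ₀ N Γ'

/-- The total degree used for filling the levels. -/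
def Rb (L η N s : ℕ) : ℕ := 804 * L * ((N + 1) * (2 * η) + s)

/-- The numerical conditions of the deterministic part. -/
structure XNum (D L η N Γ' s : ℕ) : Prop where
  one : 1 ≤ L
  pow : D ≤ 2 ^ L
  eta : 400 * L * D ≤ η ^ 2
  eta1 : 1 ≤ η
  pos : 0 < N
  fill : Rb L η N s + (N + 1) * (2 * η + Rb L η N s) + s ≤ Γ'
  room : 4 * Γ' + 6 * η ≤ D

/-! ### Interface -/

/-- Filling prescribed degrees from an expanding bipartite graph. -/
def FillStmt : Prop :=
  ∀ (V : Type) [Fintype V] (B U : SimpleGraph V) (A : Finset V) (σ : V → Bool)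
    (N Γ' ρ lo hi : ℕ) (f : V → ℕ), Exp B A σ N Γ' → (cls A σ true).card = (cls A σ false).card →
    0 < N → (∀ v, dg U v ≤ ρ) → (∀ v ∈ A, lo ≤ f v ∧ f v ≤ hi) → N * hi ≤ (N + 1) * lo →
    hi + ρ ≤ Γ' → ∑ v ∈ cls A σ true, f v = ∑ v ∈ cls A σ false, f v →
    ∃ F ≤ resG B A σ \ U, ∀ v, dg F v = if v ∈ A then f v else 0

/-- The three probability estimates. -/
def EstStmt : Prop :=
  ∀ (V : Type) [Fintype V] (G : SimpleGraph V) (D L j : ℕ), 0 < D → 1 ≤ L → 1 ≤ j →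
    (∀ v, dg G v = D) → ∀ π : V → V, FPF π →
    (∀ N : Finset V, pr (fun ε : V → Bool => ¬ Hlv L N (sig π ε)) ≤
      2 * Real.exp (-(50 * (L : ℝ)))) ∧
    (∀ (T : Finset (V × Bool)) (E : Finset ((V × Bool) × (V × Bool))) (tg : V × Bool → Bool),
      T.card ≤ D * j → E ⊆ bd G T →
      pr (fun ε : V → Bool => ((E.filter fun e => sig π ε e.1.1 = tg e.1 ∧
        sig π ε e.2.1 = tg e.2).card : ℝ) + 2000 * L * D * j < E.card / 8) ≤
        Real.exp (-(50 * (L : ℝ) * j))) ∧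
    ∀ (T : Finset (V × Bool)) (tg : V × Bool → Bool),
      pr (fun ε : V → Bool => ((T.filter fun z => sig π ε z.1 = tg z).card : ℝ) + 2000 * L * j <
        9 / 20 * T.card) ≤ Real.exp (-(50 * (L : ℝ) * j))

/-- One random bipartition. -/
def SplitStmt : Prop :=
  ∀ (V : Type) [Fintype V] (G : SimpleGraph V) (D L τ : ℕ), Par D L → 1 ≤ τ →
    (∀ v, dg G v = D) → ∀ π : V → V, FPF π →
    ∀ (Nb : Fin 3 → V → Finset V) (E : Bool → Finset (V × Bool) → Finset ((V × Bool) × (V × Bool)))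
      (T : Bool → Finset (V × Bool) → Finset (V × Bool)) (tg : Bool → V × Bool → Bool),
      (∀ i v, Nb i v ⊆ nb G v) → (∀ b φ, E b φ ⊆ bd G (thr G τ φ)) →
      (∀ b φ, T b φ ⊆ thr G τ φ) →
      ∃ σ : V → Bool, (∀ v, σ (π v) = !σ v) ∧ (∀ i v, Hlv L (Nb i v) σ) ∧
        ∀ b φ, Conn (Rel G) φ →
          ((E b φ).card : ℝ) / 8 ≤ ((E b φ).filter fun e => σ e.1.1 = tg b e.1 ∧
            σ e.2.1 = tg b e.2).card + 2000 * L * D * φ.card ∧
          9 / 20 * ((T b φ).card : ℝ) ≤ ((T b φ).filter fun z => σ z.1 = tg b z).card +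
            2000 * L * φ.card

/-- Threshold fingerprints. -/
def ThrStmt : Prop :=
  ∀ (V : Type) [Fintype V] (G : SimpleGraph V) (D L : ℕ), Par D L → (∀ v, dg G v = D) →
    ∀ S : Finset (V × Bool), ∃ φ ⊆ S, (φ.card : ℝ) ≤ 1400 * L * S.card / D ∧
      ∃ m : Finset (V × Bool), (m.card : ℝ) ≤ 4 * S.card / D ∧
        (∀ z ∈ S, z ∉ m → 3 * D ≤ 14 * (S.filter fun w => AdjT G z w).card →
          z ∈ thr G (125 * L) φ) ∧
        ∀ z, z ∉ m → 7 * (S.filter fun w => AdjT G z w).card ≤ D → z ∉ thr G (125 * L) φ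

/-- Inheritance of expansion. -/
def InhStmt : Prop :=
  ∀ (V : Type) [Fintype V] (G B : SimpleGraph V) (A : Finset V) (σ : V → Bool) (D L N Γ' : ℕ)
    (Γ μ η α : ℝ), Par D L → (∀ v, dg G v = D) → B ≤ G → Expands G Γ → Γ ≤ D →
    3 * 10 ^ 9 * (L : ℝ) ^ 2 ≤ Γ → 4 * 10 ^ 5 * (D : ℝ) ≤ Γ * N → 12 * 10 ^ 5 * η ≤ Γ →
    4 * 10 ^ 5 * (Γ' : ℝ) ≤ Γ → (D : ℝ) / 4 ≤ μ → μ ≤ D → 1 / 5 ≤ α →
    (∀ v ∈ A, |(dg (resG B A σ) v : ℝ) - μ| ≤ η) →
    (∀ v ∈ A, (dg (resG G A σ) v : ℝ) ≤ dg (resG B A σ) v + D / 8 + η) →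
    11 * ((cls A σ true).card : ℝ) ≤ 14 * α * Fintype.card V →
    (∀ φ, Conn (Rel G) φ →
      ((bd G (thr G (125 * L) φ)).card : ℝ) / 64 ≤ ((bd G (thr G (125 * L) φ)).filter fun e =>
        B.Adj e.1.1 e.2.1 ∧ Sel A σ e.1 ∧ Sel A σ e.2).card + 4000 * L * D * φ.card ∧
      α * (thr G (125 * L) φ).card ≤ ((thr G (125 * L) φ).filter fun z => Sel A σ z).card +
        4000 * L * φ.card) →
    Exp B A σ N Γ'

/-- All random choices. -/
def OracleStmt : Prop :=
  ∀ (V : Type) [Fintype V] (G : SimpleGraph V) (D L η N Γ' : ℕ) (Γ : ℝ), Par D L →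
    (∀ v, dg G v = D) → (∃ π : V → V, FPF π) → Expands G Γ → Γ ≤ D →
    3 * 10 ^ 9 * (L : ℝ) ^ 2 ≤ Γ → 4 * 10 ^ 5 * (D : ℝ) ≤ Γ * N → 12 * 10 ^ 5 * (η : ℝ) ≤ Γ →
    4 * 10 ^ 5 * (Γ' : ℝ) ≤ Γ → 400 * L * D ≤ η ^ 2 → ∃ σ₀ σ₁, XData G D L η N Γ' σ₀ σ₁

/-- A matching extends to a fixed point free involution. -/
def ExtStmt : Prop :=
  ∀ (V : Type) [Fintype V] (M : SimpleGraph V), Even (Fintype.card V) → (∀ v, dg M v ≤ 1) →
    ∃ π : V → V, FPF π ∧ ∀ u v, M.Adj u v → π u = v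

/-- The levels covering the edges inside the four classes. -/
def PhaseStmt : Prop :=
  ∀ (V : Type) [Fintype V] [Nonempty V] (G : SimpleGraph V) (q : ℕ) (p : Fin q → ℕ)
    (Col : SimpleGraph V → Finset (Fin q) → Prop) (D L η N Γ' s : ℕ) (σ₀ σ₁ : V → Bool),
    Sys G p Col → (∀ i, p i ≤ s) → ∑ i, p i = D → (∀ v, dg G v = D) → Even (Fintype.card V) →
    XNum D L η N Γ' s → XData G D L η N Γ' σ₀ σ₁ →
    ∃ F ≤ G \ inG G σ₀ σ₁, ∃ I, Col (inG G σ₀ σ₁ ⊔ F) I ∧
      (∀ v, dg (inG G σ₀ σ₁) v + dg F v = ∑ i ∈ I, p i) ∧ ∀ v, dg F v ≤ Rb L η N s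

/-- The last two levels. -/
def LastStmt : Prop :=
  ∀ (V : Type) [Fintype V] [Nonempty V] (G : SimpleGraph V) (q : ℕ) (p : Fin q → ℕ)
    (Col : SimpleGraph V → Finset (Fin q) → Prop) (D L η N Γ' s : ℕ) (σ₀ σ₁ : V → Bool),
    Sys G p Col → (∀ i, p i ≤ s) → ∑ i, p i = D → (∀ v, dg G v = D) →
    XNum D L η N Γ' s → XData G D L η N Γ' σ₀ σ₁ →
    ∀ F ≤ G \ inG G σ₀ σ₁, ∀ I, Col (inG G σ₀ σ₁ ⊔ F) I →
      (∀ v, dg (inG G σ₀ σ₁) v + dg F v = ∑ i ∈ I, p i) → (∀ v, dg F v ≤ Rb L η N s) →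
      Col G univ

/-- From the quadratic form to edge expansion. -/
def SpecStmt : Prop :=
  ∀ (V : Type) [Fintype V] (G : SimpleGraph V) (D : ℕ) (lam : ℝ), (∀ v, dg G v = D) → 0 ≤ lam →
    lam ≤ D → (∀ x : V → ℝ, ∑ v, x v = 0 →
      |∑ u, ∑ v, if G.Adj u v then x u * x v else 0| ≤ lam * ∑ v, x v ^ 2) →
    Expands G (D - lam)

/-- The final statement. -/
def XStmt : Prop :=
  ∃ C : ℕ, ∀ (V : Type) [Fintype V] [Nonempty V] (G : SimpleGraph V) (k s : ℕ) (Γ : ℝ), 0 < k →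
    (∀ v, dg G v = k) → Even (Fintype.card V) → Expands G Γ → 0 ≤ Γ → Γ ≤ k →
    C * (k : ℝ) ^ 5 * (Nat.log 2 k + 1) ^ 4 ≤ Γ ^ 6 → C * (k : ℝ) * (Nat.log 2 k + 1) * s ≤ Γ ^ 2 →
    ∀ (q : ℕ) (p : Fin q → ℕ), (∀ i, p i ≤ s) → ∑ i, p i = k →
      ∀ Col : SimpleGraph V → Finset (Fin q) → Prop, Sys G p Col → Col G univ

@[simp] lemma mem_thr {G : SimpleGraph V} {τ : ℕ} {φ : Finset (V × Bool)} {z : V × Bool} :
    z ∈ thr G τ φ ↔ τ ≤ (φ.filter fun w => AdjT G z w).card := by simp [thr]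

lemma thr_subset_hat {G : SimpleGraph V} {τ : ℕ} (h : 1 ≤ τ) (φ : Finset (V × Bool)) :
    thr G τ φ ⊆ hat G φ := fun z hz => by
  obtain ⟨w, hw⟩ := card_pos.1 (lt_of_lt_of_le h (mem_thr.1 hz))
  exact mem_hat.2 ⟨w, (mem_filter.1 hw).1, (mem_filter.1 hw).2⟩

@[simp] lemma mem_cls {A : Finset V} {σ : V → Bool} {s : Bool} {v : V} :
    v ∈ cls A σ s ↔ v ∈ A ∧ σ v = s := by simp [cls]

@[simp] lemma mem_opp {σ₀ σ₁ : V → Bool} {b : Bool} {v : V} :
    v ∈ opp σ₀ σ₁ b ↔ σ₁ v = if σ₀ v then b else !b := by simp [opp]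

lemma cls_univ (σ : V → Bool) (s : Bool) : cls univ σ s = side σ s := rfl

/-- A bipartition flipped by an involution is balanced. -/
lemma bal_of_flip {π : V → V} (hπ : ∀ v, π (π v) = v) {σ : V → Bool} (h : ∀ v, σ (π v) = !σ v) :
    (side σ true).card = (side σ false).card :=
  card_nbij' π π (fun v hv => by
      have := mem_side.1 (mem_coe.1 hv)
      exact mem_coe.2 (mem_side.2 (by rw [h, this]; rfl)))
    (fun v hv => by
      have := mem_side.1 (mem_coe.1 hv)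
      exact mem_coe.2 (mem_side.2 (by rw [h, this]; rfl))) (fun v _ => hπ v) fun v _ => hπ v

/-- The halving error is at most `η`. -/
lemma Hlv.le {L η D : ℕ} {N : Finset V} {σ : V → Bool} (h : Hlv L N σ) (hN : N.card ≤ D)
    (hη : 400 * L * D ≤ η ^ 2) (c : Bool) :
    2 * (N.filter fun u => σ u = c).card ≤ N.card + η ∧
      N.card ≤ 2 * (N.filter fun u => σ u = c).card + η := by
  have h1 : (400 : ℝ) * L * N.card ≤ (η : ℝ) ^ 2 := by
    exact_mod_cast (Nat.mul_le_mul_left _ hN).trans hη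
  have h2 := abs_le.1 (abs_le_of_sq_le_sq ((h c).trans h1) (Nat.cast_nonneg η))
  constructor
  · have : (2 : ℝ) * (N.filter fun u => σ u = c).card ≤ N.card + η := by linarith [h2.2]
    exact_mod_cast this
  · have : (N.card : ℝ) ≤ 2 * (N.filter fun u => σ u = c).card + η := by linarith [h2.1]
    exact_mod_cast this

/-- The halving reduces the size by a constant factor. -/
lemma Hlv.shrink {L : ℕ} {N : Finset V} {σ : V → Bool} (h : Hlv L N σ) (c : Bool) :
    4 * (N.filter fun u => σ u = c).card ≤ 3 * N.card + 400 * L := by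
  have h1 : (400 : ℝ) * L * N.card ≤ (N.card / 2 + 200 * L) ^ 2 := by
    nlinarith [sq_nonneg ((N.card : ℝ) / 2 - 200 * L)]
  have h2 := abs_le.1 (abs_le_of_sq_le_sq ((h c).trans h1) (by positivity))
  have : (4 : ℝ) * (N.filter fun u => σ u = c).card ≤ 3 * N.card + 400 * L := by linarith [h2.2]
  exact_mod_cast this

lemma sixteen_exp_le {L j : ℕ} (hL : 1 ≤ L) (hj : 1 ≤ j) :
    16 * Real.exp (-(50 * (L : ℝ) * j)) ≤ (1 / ((2 ^ (3 * L + 4) : ℕ) : ℝ) ^ 6) ^ j := by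
  refine le_trans ?_ (four_exp_le hL hj)
  have h1 : (1 : ℝ) ≤ L * j := by exact_mod_cast Nat.mul_le_mul hL hj
  have h2 : Real.exp (-(44 * (L : ℝ) * j)) =
      Real.exp (6 * (L * j)) * Real.exp (-(50 * (L : ℝ) * j)) := by
    rw [← Real.exp_add]; congr 1; ring
  have h3 : (4 : ℝ) ≤ Real.exp (6 * (L * j)) := by linarith [Real.add_one_le_exp (6 * ((L : ℝ) * j))]
  rw [h2]
  nlinarith [Real.exp_pos (-(50 * (L : ℝ) * j))]

end Pool.Agent.MP_d20a68_co.Poly

end

section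

/-! Filling prescribed degrees from an expanding bipartite graph. -/

set_option autoImplicit false
set_option linter.unusedSectionVars false
set_option linter.unusedVariables false
open Finset
open scoped Classical

namespace Pool.Agent.MP_d20a68_co.Poly

variable {V : Type} [Fintype V]

/-- Subgraphs with prescribed degrees of a bipartite graph. -/
lemma factorX1 (B : SimpleGraph V) (σ : V → Bool) (f : V → ℕ) (hσ : Cross B σ)
    (hall : ∀ (s : Bool) (X Y : Finset V), (∀ x ∈ X, σ x = s) → (∀ y ∈ Y, σ y ≠ s) →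
      ∑ x ∈ X, f x ≤ ∑ y ∈ Y, f y + eout B X Y) : ∃ F ≤ B, ∀ v, dg F v = f v := by
  obtain ⟨F, ⟨hFB, hFd⟩, hmin⟩ := (measure fun F : SimpleGraph V => ∑ v, (f v - dg F v)).wf.has_min
    {F | F ≤ B ∧ ∀ v, dg F v ≤ f v} ⟨⊥, bot_le, fun v => by rw [dg_bot]; exact Nat.zero_le _⟩
  refine ⟨F, hFB, fun x => le_antisymm (hFd x) (not_lt.1 fun hx => ?_)⟩
  have key : ∀ F' ≤ B, (∀ v, dg F' v ≤ f v) → (∀ v, f v - dg F' v ≤ f v - dg F v) →
      dg F x < dg F' x → False := fun F' a1 a2 a3 a4 =>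
    hmin F' ⟨a1, a2⟩ (sum_lt_sum (fun v _ => a3 v) ⟨x, mem_univ _, by omega⟩)
  obtain ⟨⟨X, Y⟩, hp, hmax⟩ := exists_max_image
    (univ.filter fun p : Finset V × Finset V => GoodP4 B F σ x p.1 p.2)
    (fun p => p.1.card + p.2.card) ⟨({x}, ∅), mem_filter.2 ⟨mem_univ _, mem_singleton_self _,
      fun u hu => by rw [mem_singleton.1 hu], fun y hy => absurd hy (notMem_empty _),
      fun u hu => ⟨F, hFB, fun _ _ _ => Iff.rfl, fun v => by rw [mem_singleton.1 hu]⟩,
      fun y hy => absurd hy (notMem_empty _)⟩⟩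
  have h : GoodP4 B F σ x X Y := (mem_filter.1 hp).2
  have c1 : ∀ u ∈ X, ∀ y, y ∉ Y → B.Adj u y → F.Adj u y := fun u hu y hy hB => by
    by_contra hF
    have := hmax (X, insert y Y) (mem_filter.2 ⟨mem_univ _, h.addY hσ hu hy hB hF⟩)
    simp only [card_insert_of_notMem hy] at this
    omega
  have c2 : ∀ y ∈ Y, ∀ u, F.Adj y u → u ∈ X := fun y hy u hF => by
    by_contra hu
    have := hmax (insert u X, Y) (mem_filter.2 ⟨mem_univ _, h.addX hσ hFB hu hy hF⟩)
    simp only [card_insert_of_notMem hu] at this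
    omega
  have c3 : ∀ y ∈ Y, f y ≤ dg F y := fun y hy => not_lt.1 fun hlt => by
    obtain ⟨F', a1, -, a3⟩ := h.fY y hy
    have hne : x ≠ y := fun e => h.sY y hy (by rw [e])
    refine key F' a1 (fun v => ?_) (fun v => ?_) ?_
    · have := hFd v
      rw [a3]
      split_ifs with e1 e2 e2
      · exact absurd (e1.symm.trans e2) hne
      · subst e1; omega
      · subst e2; omega
      · omega
    · rw [a3]; omega
    · rw [a3, if_pos rfl]; omega
  have c5 : ∑ u ∈ X, dg F u < ∑ u ∈ X, f u :=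
    sum_lt_sum (fun u _ => hFd u) ⟨x, h.mem, hx⟩
  have c6 : ∑ y ∈ Y, f y ≤ ∑ u ∈ X, (Y.filter (F.Adj u)).card := by
    rw [sum_card_comm]
    refine sum_le_sum fun y hy => (c3 y hy).trans (card_le_card fun u hu => ?_)
    exact mem_filter.2 ⟨c2 y hy u (mem_nb.1 hu), mem_nb.1 hu⟩
  have c7 : ∑ u ∈ X, (Y.filter (F.Adj u)).card + eout B X Y ≤ ∑ u ∈ X, dg F u := by
    unfold eout
    rw [← sum_add_distrib]
    refine sum_le_sum fun u hu => ?_
    rw [← card_union_of_disjoint (disjoint_left.2 fun y h1 h2 =>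
      (mem_filter.1 h2).2.2 (mem_filter.1 h1).1)]
    refine card_le_card fun y hy => mem_nb.2 ?_
    rcases mem_union.1 hy with e | e
    · exact (mem_filter.1 e).2
    · exact c1 u hu y (mem_filter.1 e).2.2 (mem_filter.1 e).2.1
  have := hall (σ x) X Y h.sX h.sY
  omega

lemma eout_sdiffX1 (H H' U : SimpleGraph V) (h : ∀ u v, H.Adj u v → ¬ U.Adj u v → H'.Adj u v)
    (ρ : ℕ) (hU : ∀ v, dg U v ≤ ρ) (X Y : Finset V) :
    eout H X Y ≤ eout H' X Y + ρ * X.card := by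
  unfold eout
  rw [mul_comm, ← smul_eq_mul, ← sum_const, ← sum_add_distrib]
  refine sum_le_sum fun u _ => le_trans ?_ (Nat.add_le_add_left (hU u) _)
  refine le_trans (card_le_card fun y hy => ?_) (card_union_le _ (nb U u))
  by_cases e : U.Adj u y
  · exact mem_union_right _ (mem_nb.2 e)
  · exact mem_union_left _ (mem_filter.2 ⟨mem_univ _,
      h _ _ (mem_filter.1 hy).2.1 e, (mem_filter.1 hy).2.2⟩)

lemma eout_swapX1 (H : SimpleGraph V) (X Y X' Y' : Finset V)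
    (h1 : ∀ x ∈ X', ∀ y, H.Adj x y → y ∉ Y' → y ∈ X) (h2 : ∀ x ∈ X', x ∉ Y) :
    eout H X' Y' ≤ eout H X Y := by
  unfold eout
  refine le_trans (sum_le_sum (g := fun x => (X.filter (H.Adj x)).card)
    fun x hx => card_le_card fun y hy => ?_) ?_
  · obtain ⟨-, e1, e2⟩ := mem_filter.1 hy
    exact mem_filter.2 ⟨h1 x hx y e1 e2, e1⟩
  · rw [sum_card_comm]
    exact sum_le_sum fun y _ => card_le_card fun x hx =>
      mem_filter.2 ⟨mem_univ _, (mem_filter.1 hx).2, h2 x (mem_filter.1 hx).1⟩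

lemma eout_monoX1 (H : SimpleGraph V) (X Y X' Y' : Finset V) (hX : X' ⊆ X)
    (h : ∀ x y, H.Adj x y → y ∉ Y' → y ∉ Y) : eout H X' Y' ≤ eout H X Y := by
  unfold eout
  refine le_trans (sum_le_sum fun x _ => card_le_card fun y hy => ?_) (sum_le_sum_of_subset hX)
  obtain ⟨-, e1, e2⟩ := mem_filter.1 hy
  exact mem_filter.2 ⟨mem_univ _, e1, h x y e1 e2⟩

lemma smallX1 {B U : SimpleGraph V} {A : Finset V} {σ : V → Bool} {N Γ' ρ lo hi : ℕ} {f : V → ℕ}
    (hE : Exp B A σ N Γ') (hN : 0 < N) (hU : ∀ v, dg U v ≤ ρ)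
    (hf : ∀ v ∈ A, lo ≤ f v ∧ f v ≤ hi) (h1 : N * hi ≤ (N + 1) * lo) (h2 : hi + ρ ≤ Γ')
    (s : Bool) (X Y : Finset V) (hX : X ⊆ cls A σ s) (hY : Y ⊆ cls A σ (!s))
    (hs : 2 * X.card ≤ (cls A σ true).card ∨ 2 * Y.card ≤ (cls A σ true).card) :
    ∑ x ∈ X, f x ≤ ∑ y ∈ Y, f y + eout (resG B A σ \ U) X Y := by
  have a1 : ∑ x ∈ X, f x ≤ hi * X.card := by
    rw [mul_comm, ← smul_eq_mul, ← sum_const]
    exact sum_le_sum fun x hx => (hf x (mem_cls.1 (hX hx)).1).2
  have a2 : lo * Y.card ≤ ∑ y ∈ Y, f y := by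
    rw [mul_comm, ← smul_eq_mul, ← sum_const]
    exact sum_le_sum fun y hy => (hf y (mem_cls.1 (hY hy)).1).1
  rcases le_total ((N + 1) * X.card) (N * Y.card) with c | c
  · refine le_trans (Nat.le_of_mul_le_mul_left ?_ hN) (Nat.le_add_right _ _)
    calc N * ∑ x ∈ X, f x ≤ N * (hi * X.card) := Nat.mul_le_mul_left _ a1
      _ = N * hi * X.card := by ring
      _ ≤ (N + 1) * lo * X.card := Nat.mul_le_mul_right _ h1
      _ = lo * ((N + 1) * X.card) := by ring
      _ ≤ lo * (N * Y.card) := Nat.mul_le_mul_left _ c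
      _ = N * (lo * Y.card) := by ring
      _ ≤ N * ∑ y ∈ Y, f y := Nat.mul_le_mul_left _ a2
  · have a3 := hE s X Y hX hY c hs
    have a4 := eout_sdiffX1 (resG B A σ) (resG B A σ \ U) U (fun u v e1 e2 => ⟨e1, e2⟩) ρ hU X Y
    have a5 : (hi + ρ) * X.card ≤ Γ' * X.card := Nat.mul_le_mul_right _ h2
    rw [add_mul] at a5
    omega

lemma hallX1 {B U : SimpleGraph V} {A : Finset V} {σ : V → Bool} {N Γ' ρ lo hi : ℕ} {f : V → ℕ}
    (hE : Exp B A σ N Γ') (hc : (cls A σ true).card = (cls A σ false).card) (hN : 0 < N)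
    (hU : ∀ v, dg U v ≤ ρ) (hf : ∀ v ∈ A, lo ≤ f v ∧ f v ≤ hi) (h1 : N * hi ≤ (N + 1) * lo)
    (h2 : hi + ρ ≤ Γ') (ht : ∑ v ∈ cls A σ true, f v = ∑ v ∈ cls A σ false, f v)
    (s : Bool) (X Y : Finset V) (hX : X ⊆ cls A σ s) (hY : Y ⊆ cls A σ (!s)) :
    ∑ x ∈ X, f x ≤ ∑ y ∈ Y, f y + eout (resG B A σ \ U) X Y := by
  by_cases hs : 2 * X.card ≤ (cls A σ true).card
  · exact smallX1 hE hN hU hf h1 h2 s X Y hX hY (Or.inl hs)
  have b1 : (cls A σ s).card = (cls A σ true).card := by cases s; exacts [hc.symm, rfl]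
  have b2 : ∑ v ∈ cls A σ s, f v = ∑ v ∈ cls A σ (!s), f v := by cases s; exacts [ht.symm, ht]
  have b3 := card_sdiff_add_card_eq_card hX
  have b4 := smallX1 hE hN hU hf h1 h2 (!s) (cls A σ (!s) \ Y) (cls A σ s \ X) sdiff_subset
    (by rw [Bool.not_not]; exact sdiff_subset) (Or.inr (by omega))
  have b5 := sum_sdiff (f := f) hX
  have b6 := sum_sdiff (f := f) hY
  have b7 : eout (resG B A σ \ U) (cls A σ (!s) \ Y) (cls A σ s \ X) ≤
      eout (resG B A σ \ U) X Y := by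
    refine eout_swapX1 _ _ _ _ _ (fun x hx y e1 e2 => by_contra fun e3 =>
      e2 (mem_sdiff.2 ⟨mem_cls.2 ⟨e1.1.2.2.1, ?_⟩, e3⟩)) fun x hx => (mem_sdiff.1 hx).2
    have e4 := e1.1.2.2.2
    have e5 := (mem_cls.1 (mem_sdiff.1 hx).1).2
    revert e4 e5
    cases σ x <;> cases σ y <;> cases s <;> simp
  omega

theorem fill : FillStmt := by
  intro V _ B U A σ N Γ' ρ lo hi f hE hc hN hU hf h1 h2 ht
  refine factorX1 _ σ _ (fun u v e => e.1.2.2.2) fun s X Y hX hY => ?_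
  have a := hallX1 hE hc hN hU hf h1 h2 ht s (X.filter (· ∈ A)) (Y.filter (· ∈ A))
    (fun x hx => mem_cls.2 ⟨(mem_filter.1 hx).2, hX x (mem_filter.1 hx).1⟩)
    (fun y hy => mem_cls.2 ⟨(mem_filter.1 hy).2, by
      have := hY y (mem_filter.1 hy).1
      revert this
      cases σ y <;> cases s <;> simp⟩)
  rw [sum_filter, sum_filter] at a
  exact a.trans (Nat.add_le_add_left (eout_monoX1 (resG B A σ \ U) _ _ _ _ (filter_subset _ _)
    fun x y e1 e2 e3 => e2 (mem_filter.2 ⟨e3, e1.1.2.2.1⟩)) _)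

end Pool.Agent.MP_d20a68_co.Poly

end

section

/-! The three probability estimates. -/

set_option autoImplicit false
set_option linter.unusedSectionVars false
set_option linter.unusedVariables false
open Finset
open scoped Classical

namespace Pool.Agent.MP_d20a68_co.Poly

variable {V : Type} [Fintype V] {π : V → V}

lemma flip_invol_x2 (r : V) (ε : V → Bool) :
    Function.update (Function.update ε r (!ε r)) r (!(Function.update ε r (!ε r)) r) = ε := by
  funext i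
  by_cases h : i = r
  · subst h; simp
  · simp [h]

lemma mean_sg_x2 (π : V → V) (u : V) : mean (fun ε : V → Bool => sg (sig π ε u)) = 0 := by
  refine mean_eq_zero_of_anti (fun ε => Function.update ε (rep π u) (!ε (rep π u)))
    (flip_invol_x2 _) _ fun ε => ?_
  rw [sig_flip (ε := ε) (by simp), sg_not]

lemma mean_sg_sg_x2 {u v : V} (h : rep π u ≠ rep π v) :
    mean (fun ε : V → Bool => sg (sig π ε u) * sg (sig π ε v)) = 0 := by
  refine mean_eq_zero_of_anti (fun ε => Function.update ε (rep π u) (!ε (rep π u)))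
    (flip_invol_x2 _) _ fun ε => ?_
  rw [sig_flip (ε := ε) (v := u) (by simp), sg_not,
    sig_congr (ε' := ε) (v := v) (Function.update_of_ne h.symm _ _), neg_mul]

lemma mean_one_x2 (π : V → V) (u : V) (s : Bool) :
    mean (fun ε : V → Bool => if sig π ε u = s then (1 : ℝ) else 0) = 1 / 2 := by
  have h1 : (fun ε : V → Bool => if sig π ε u = s then (1 : ℝ) else 0) =
      fun ε => 1 / 2 + (sg s / 2) * sg (sig π ε u) := by
    funext ε
    cases sig π ε u <;> cases s <;> norm_num [sg]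
  rw [h1, mean_add, mean_mul, mean_sg_x2, mean_const]
  ring

lemma mean_two_x2 {u v : V} (h : rep π u ≠ rep π v) (s t : Bool) :
    mean (fun ε : V → Bool => if sig π ε u = s ∧ sig π ε v = t then (1 : ℝ) else 0) = 1 / 4 := by
  have h1 : (fun ε : V → Bool => if sig π ε u = s ∧ sig π ε v = t then (1 : ℝ) else 0) =
      fun ε => (1 / 4 + (sg s / 4) * sg (sig π ε u)) + ((sg t / 4) * sg (sig π ε v) +
        (sg s * sg t / 4) * (sg (sig π ε u) * sg (sig π ε v))) := by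
    funext ε
    cases sig π ε u <;> cases sig π ε v <;> cases s <;> cases t <;> norm_num [sg]
  rw [h1, mean_add, mean_add, mean_add, mean_mul, mean_mul, mean_mul, mean_sg_x2, mean_sg_x2,
    mean_sg_sg_x2 h, mean_const]
  ring

lemma mean_card_x2 {α : Type} (S : Finset α) (P : α → (V → Bool) → Prop)
    [∀ ε, DecidablePred fun a => P a ε] :
    mean (fun ε => ((S.filter fun a => P a ε).card : ℝ)) =
      ∑ a ∈ S, mean fun ε => if P a ε then (1 : ℝ) else 0 := by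
  rw [← mean_sum]
  congr 1
  funext ε
  rw [sum_boole]

/-- The lower tail of a count of events depending on two coordinates each. -/
lemma tail_x2 (h : McDStmt) {α : Type} (S : Finset α) (p q : α → V)
    (P : α → (V → Bool) → Prop) [∀ ε, DecidablePred fun a => P a ε]
    (hP : ∀ a ε ε', ε (p a) = ε' (p a) → ε (q a) = ε' (q a) → P a ε → P a ε') (K : ℕ)
    (hK : ∀ i, (S.filter fun a => p a = i ∨ q a = i).card ≤ K) {Q t m x : ℝ} (hQ : 0 < Q)
    (ht : 0 ≤ t) (hKQ : 2 * K * S.card ≤ Q) (hx : x * Q ≤ 2 * t ^ 2)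
    (hm : m ≤ mean fun ε => ((S.filter fun a => P a ε).card : ℝ)) :
    pr (fun ε => ((S.filter fun a => P a ε).card : ℝ) + t ≤ m) ≤ Real.exp (-x) := by
  have key : ∀ i (ε ε' : V → Bool), (∀ j, j ≠ i → ε j = ε' j) →
      ((S.filter fun a => P a ε).card : ℝ) ≤ (S.filter fun a => P a ε').card +
        (S.filter fun a => p a = i ∨ q a = i).card := by
    intro i ε ε' hε
    have : (S.filter fun a => P a ε).card ≤ (S.filter fun a => P a ε').card +
        (S.filter fun a => p a = i ∨ q a = i).card := by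
      refine le_trans (card_le_card fun a ha => ?_) (card_union_le _ _)
      rw [mem_filter] at ha
      rw [mem_union, mem_filter, mem_filter]
      by_cases hi : p a = i ∨ q a = i
      · exact Or.inr ⟨ha.1, hi⟩
      · rw [not_or] at hi
        exact Or.inl ⟨ha.1, hP a ε ε' (hε _ hi.1) (hε _ hi.2) ha.2⟩
    exact_mod_cast this
  have hsum : ∑ i, (S.filter fun a => p a = i ∨ q a = i).card ≤ 2 * S.card := by
    calc ∑ i, (S.filter fun a => p a = i ∨ q a = i).card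
        ≤ ∑ i, ((S.filter fun a => p a = i).card + (S.filter fun a => q a = i).card) :=
          sum_le_sum fun i _ => by rw [filter_or]; exact card_union_le _ _
      _ = 2 * S.card := by
          rw [sum_add_distrib, ← card_eq_sum_card_fiberwise (fun a _ => mem_coe.2 (mem_univ (p a))),
            ← card_eq_sum_card_fiberwise (fun a _ => mem_coe.2 (mem_univ (q a))), two_mul]
  have h1 := h V (fun ε => -((S.filter fun a => P a ε).card : ℝ))
    (fun i => ((S.filter fun a => p a = i ∨ q a = i).card : ℝ)) Q t hQ ht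
    (fun i ε ε' hε => by
      have a1 := key i ε ε' hε
      have a2 := key i ε' ε fun j hj => (hε j hj).symm
      rw [abs_le]
      constructor <;> linarith)
    (by
      calc ∑ i, ((S.filter fun a => p a = i ∨ q a = i).card : ℝ) ^ 2
          ≤ ∑ i, (K : ℝ) * (S.filter fun a => p a = i ∨ q a = i).card :=
            sum_le_sum fun i _ => by
              rw [sq]
              exact mul_le_mul_of_nonneg_right (by exact_mod_cast hK i) (Nat.cast_nonneg _)
        _ ≤ K * (2 * S.card) := by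
            rw [← mul_sum]
            exact mul_le_mul_of_nonneg_left (by exact_mod_cast hsum) (Nat.cast_nonneg _)
        _ ≤ Q := by linarith)
  rw [mean_neg] at h1
  refine (pr_mono fun ε hε => ?_).trans (h1.trans (Real.exp_le_exp.2 (neg_le_neg ?_)))
  · linarith
  · rwa [le_div_iff₀ hQ]

lemma card_rep_x2 (hπ : ∀ u, π (π u) = u) (i : V) :
    (univ.filter fun u => rep π u = i).card ≤ 2 := by
  refine le_trans (card_le_card fun u hu => ?_) (card_le_two (a := i) (b := π i))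
  have hu := (mem_filter.1 hu).2
  rw [mem_insert, mem_singleton]
  rcases rep_eq π u with a | a
  · exact Or.inl (a.symm.trans hu)
  · exact Or.inr (by rw [← hu, a, hπ])

lemma card_rep_lift_x2 (hπ : ∀ u, π (π u) = u) (i : V) :
    (univ.filter fun z : V × Bool => rep π z.1 = i).card ≤ 4 :=
  (card_lift (fun u => rep π u = i) _ fun z hz => hz).trans
    (Nat.mul_le_mul_left 2 (card_rep_x2 hπ i))

lemma est1_x2 (h : McDStmt) {L : ℕ} (hL : 1 ≤ L) (hπ : ∀ u, π (π u) = u) (N : Finset V) :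
    pr (fun ε : V → Bool => ¬ Hlv L N (sig π ε)) ≤ 2 * Real.exp (-(50 * (L : ℝ))) := by
  rcases N.eq_empty_or_nonempty with rfl | hN
  · rw [pr_false fun ε hε => hε fun c => by simp]
    positivity
  have hN' : (0 : ℝ) < N.card := by exact_mod_cast hN.card_pos
  have hL' : (1 : ℝ) ≤ L := by exact_mod_cast hL
  have h0 : (0 : ℝ) ≤ 100 * L * N.card := by positivity
  have hs := Real.sq_sqrt h0
  have hs0 := Real.sqrt_nonneg (100 * L * N.card : ℝ)
  have key : ∀ c : Bool, pr (fun ε : V → Bool => ((N.filter fun u => sig π ε u = c).card : ℝ) +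
      √(100 * L * N.card) ≤ N.card / 2) ≤ Real.exp (-(50 * (L : ℝ))) := by
    intro c
    refine tail_x2 h N (rep π) (rep π) (fun u ε => sig π ε u = c)
      (fun u ε ε' e _ hu => (sig_congr e).symm.trans hu) 2 (fun i => ?_) (Q := 4 * N.card)
      (by positivity) hs0 (by push_cast; linarith) (by rw [hs]; linarith) ?_
    · exact le_trans (card_le_card fun u hu => mem_filter.2
        ⟨mem_univ _, (mem_filter.1 hu).2.elim id id⟩) (card_rep_x2 hπ i)
    · rw [mean_card_x2 N fun u ε => sig π ε u = c]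
      simp only [mean_one_x2, sum_const, nsmul_eq_mul]
      linarith
  refine le_trans (pr_mono fun ε hε => ?_) ((pr_or_le _ _).trans
    ((add_le_add (key true) (key false)).trans_eq (two_mul _).symm))
  by_contra hn
  rw [not_or, not_le, not_le] at hn
  have h1 : ((N.filter fun u => sig π ε u = true).card : ℝ) +
      (N.filter fun u => sig π ε u = false).card = N.card := by
    have := card_filter_add_card_filter_not (s := N) fun u => sig π ε u = true
    simp only [Bool.not_eq_true] at this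
    exact_mod_cast this
  refine hε fun c => ?_
  have h2 : (400 : ℝ) * L * N.card = (2 * √(100 * L * N.card)) ^ 2 := by
    rw [mul_pow, hs]; ring
  rw [h2]
  refine sq_le_sq' ?_ ?_ <;> cases c <;> linarith [hn.1, hn.2]

lemma est3_x2 (h : McDStmt) {L j : ℕ} (hL : 1 ≤ L) (hj : 1 ≤ j) (hπ : ∀ u, π (π u) = u)
    (T : Finset (V × Bool)) (tg : V × Bool → Bool) :
    pr (fun ε : V → Bool => ((T.filter fun z => sig π ε z.1 = tg z).card : ℝ) + 2000 * L * j <
      9 / 20 * T.card) ≤ Real.exp (-(50 * (L : ℝ) * j)) := by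
  have hL' : (1 : ℝ) ≤ L := by exact_mod_cast hL
  have hj' : (1 : ℝ) ≤ j := by exact_mod_cast hj
  have hT : (0 : ℝ) ≤ T.card := Nat.cast_nonneg _
  refine le_trans (pr_mono fun ε hε => ?_) (tail_x2 h T (fun z => rep π z.1) (fun z => rep π z.1)
    (fun z ε => sig π ε z.1 = tg z) (fun z ε ε' e _ hu => (sig_congr e).symm.trans hu) 4
    (fun i => ?_) (Q := 8 * T.card + j) (t := T.card / 20 + 2000 * L * j) (m := T.card / 2)
    (by positivity) (by positivity) (by push_cast; linarith) ?_ ?_)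
  · linarith
  · exact le_trans (card_le_card fun u hu => mem_filter.2
      ⟨mem_univ _, (mem_filter.1 hu).2.elim id id⟩) (card_rep_lift_x2 hπ i)
  · have h1 : 0 ≤ (L : ℝ) * j := by positivity
    have h2 : (L : ℝ) * j * j ≤ L * j * (L * j) :=
      mul_le_mul_of_nonneg_left (by nlinarith) h1
    nlinarith [mul_nonneg h1 hT, mul_nonneg h1 h1, sq_nonneg (T.card : ℝ)]
  · rw [mean_card_x2 T fun z ε => sig π ε z.1 = tg z]
    simp only [mean_one_x2, sum_const, nsmul_eq_mul]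
    linarith

lemma card_end_x2 {G : SimpleGraph V} {D : ℕ} (hD : ∀ v, dg G v = D) (hπ : ∀ u, π (π u) = u)
    (i : V) (E : Finset ((V × Bool) × (V × Bool))) (hE : ∀ e ∈ E, AdjT G e.1 e.2) :
    (E.filter fun e => rep π e.1.1 = i).card ≤ 4 * D := by
  calc _ ≤ ((univ.filter fun z : V × Bool => rep π z.1 = i).biUnion fun z =>
        (univ.filter fun w => AdjT G z w).image fun w => (z, w)).card :=
        card_le_card fun e he => mem_biUnion.2 ⟨e.1, mem_filter.2 ⟨mem_univ _, (mem_filter.1 he).2⟩,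
          mem_image.2 ⟨e.2, mem_filter.2 ⟨mem_univ _, hE e (mem_filter.1 he).1⟩, rfl⟩⟩
    _ ≤ _ := card_biUnion_le_card_mul _ _ D fun z _ =>
        card_image_le.trans ((card_adjT z).trans (hD _)).le
    _ ≤ _ := Nat.mul_le_mul_right _ (card_rep_lift_x2 hπ i)

lemma est2_x2 (h : McDStmt) {G : SimpleGraph V} {D L j : ℕ} (hD0 : 0 < D) (hL : 1 ≤ L)
    (hj : 1 ≤ j) (hD : ∀ v, dg G v = D) (hπ : ∀ u, π (π u) = u) (T : Finset (V × Bool))
    (E : Finset ((V × Bool) × (V × Bool))) (tg : V × Bool → Bool) (hT : T.card ≤ D * j)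
    (hE : E ⊆ bd G T) :
    pr (fun ε : V → Bool => ((E.filter fun e => sig π ε e.1.1 = tg e.1 ∧
      sig π ε e.2.1 = tg e.2).card : ℝ) + 2000 * L * D * j < E.card / 8) ≤
      Real.exp (-(50 * (L : ℝ) * j)) := by
  have hL' : (1 : ℝ) ≤ L := by exact_mod_cast hL
  have hj' : (1 : ℝ) ≤ j := by exact_mod_cast hj
  have hD' : (1 : ℝ) ≤ D := by exact_mod_cast hD0
  have hE0 : (0 : ℝ) ≤ E.card := Nat.cast_nonneg _
  have hadj : ∀ e ∈ E, AdjT G e.1 e.2 := fun e he => (mem_bd.1 (hE he)).2.2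
  have hDj : 0 ≤ (D : ℝ) * j := by positivity
  refine le_trans (pr_mono fun ε hε => ?_) (tail_x2 h E (fun e => rep π e.1.1)
    (fun e => rep π e.2.1) (fun e ε => sig π ε e.1.1 = tg e.1 ∧ sig π ε e.2.1 = tg e.2)
    (fun e ε ε' e1 e2 hu => ⟨(sig_congr e1).symm.trans hu.1, (sig_congr e2).symm.trans hu.2⟩)
    (8 * D) (fun i => ?_) (Q := 16 * D * E.card + D ^ 2 * j)
    (t := E.card / 8 + 1999 * L * D * j) (m := (E.card - D * j) / 4)
    (by positivity) (by positivity) ?_ ?_ ?_)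
  · nlinarith [mul_le_mul_of_nonneg_right hL' hDj]
  · rw [filter_or]
    refine (card_union_le _ _).trans ?_
    have h1 := card_end_x2 hD hπ i E hadj
    have h2 := card_end_x2 hD hπ i (E.image Prod.swap) fun e he => by
      obtain ⟨e', he', rfl⟩ := mem_image.1 he
      exact (hadj e' he').symm
    have h3 : (E.filter fun e => rep π e.2.1 = i).card ≤
        ((E.image Prod.swap).filter fun e => rep π e.1.1 = i).card :=
      card_le_card_of_injOn Prod.swap (fun e he => mem_coe.2 (mem_filter.2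
        ⟨mem_image_of_mem _ (mem_filter.1 (mem_coe.1 he)).1, (mem_filter.1 (mem_coe.1 he)).2⟩))
        Prod.swap_injective.injOn
    omega
  · push_cast
    have : 0 ≤ (D : ℝ) ^ 2 * j := by positivity
    linarith
  · have h1 : 0 ≤ (L : ℝ) * D * j := by positivity
    have h2 : (L : ℝ) * D * j * (D * j) ≤ L * D * j * (L * D * j) :=
      mul_le_mul_of_nonneg_left (by nlinarith) h1
    nlinarith [mul_nonneg h1 hE0, mul_nonneg h1 h1, sq_nonneg (E.card : ℝ)]
  · rw [mean_card_x2 E fun e ε => sig π ε e.1.1 = tg e.1 ∧ sig π ε e.2.1 = tg e.2]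
    have h1 : (E.filter fun e => rep π e.1.1 = rep π e.2.1).card ≤ T.card := by
      refine card_le_card_of_injOn Prod.fst
        (fun e he => mem_coe.2 (mem_bd.1 (hE (mem_filter.1 (mem_coe.1 he)).1)).1) ?_
      have hv : ∀ e ∈ E.filter fun e => rep π e.1.1 = rep π e.2.1, e.2 = (π e.1.1, !e.1.2) := by
        intro e he
        obtain ⟨he1, he2⟩ := mem_filter.1 he
        have ha := hadj e he1
        refine Prod.ext ((eq_of_rep_eq hπ he2.symm).resolve_left ha.1.ne') ?_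
        have := ha.2
        revert this
        cases e.1.2 <;> cases e.2.2 <;> simp
      intro e he e' he' hee
      refine Prod.ext hee ?_
      rw [hv e (mem_coe.1 he), hv e' (mem_coe.1 he'), hee]
    have h2 := card_filter_add_card_filter_not (s := E) fun e => rep π e.1.1 = rep π e.2.1
    have h3 : (E.card : ℝ) ≤ D * j + (E.filter fun e => ¬ rep π e.1.1 = rep π e.2.1).card := by
      have : E.card ≤ D * j + (E.filter fun e => ¬ rep π e.1.1 = rep π e.2.1).card := by omega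
      exact_mod_cast this
    refine le_trans ?_ (sum_le_sum_of_subset_of_nonneg
      (filter_subset (fun e => ¬ rep π e.1.1 = rep π e.2.1) E) fun e _ _ =>
        mean_nonneg fun ε => by split_ifs <;> norm_num)
    rw [sum_congr rfl fun e he => mean_two_x2 (mem_filter.1 he).2 (tg e.1) (tg e.2), sum_const,
      nsmul_eq_mul]
    linarith

theorem est (h : McDStmt) : EstStmt := by
  intro V _ G D L j hD0 hL hj hD π hπ
  exact ⟨fun N => est1_x2 h hL hπ.1 N,
    fun T E tg hT hE => est2_x2 h hD0 hL hj hD hπ.1 T E tg hT hE,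
    fun T tg => est3_x2 h hL hj hπ.1 T tg⟩

end Pool.Agent.MP_d20a68_co.Poly

end

section

/-! One random bipartition. -/

set_option autoImplicit false
set_option linter.unusedSectionVars false
set_option linter.unusedVariables false
open Finset
open scoped Classical

namespace Pool.Agent.MP_d20a68_co.Poly

variable {V : Type} [Fintype V] {G : SimpleGraph V} {D L : ℕ} {π : V → V}

lemma eq_of_rep_x3 (hπ : ∀ u, π (π u) = u) {u i : V} (h : rep π u = i) : u = i ∨ u = π i := by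
  rcases rep_eq π u with a | a
  · exact Or.inl (a.symm.trans h)
  · exact Or.inr (by rw [← h, a, hπ])

/-- The coordinates that are seen from a lift. -/
def NearX3 (G : SimpleGraph V) (π : V → V) (z : V × Bool) (i : V) : Prop :=
  ∃ u, Adj2 G z.1 u ∧ rep π u = i

lemma near_left_x3 (hP : Par D L) (hD : ∀ v, dg G v ≤ D) (z : V × Bool) :
    (univ.filter fun i => NearX3 G π z i).card ≤ 2 ^ (3 * L + 4) := by
  refine le_trans ?_ hP.sq
  calc _ ≤ ((univ.filter fun u => Adj2 G z.1 u).image (rep π)).card :=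
        card_le_card fun i hi => by
          obtain ⟨u, a, b⟩ := (mem_filter.1 hi).2
          exact mem_image.2 ⟨u, mem_filter.2 ⟨mem_univ _, a⟩, b⟩
    _ ≤ (D + 1) ^ 2 := card_image_le.trans (card_adj2 hD z.1)
    _ ≤ _ := by omega

lemma near_right_x3 (hP : Par D L) (hD : ∀ v, dg G v ≤ D) (hπ : ∀ u, π (π u) = u) (i : V) :
    (univ.filter fun z => NearX3 G π z i).card ≤ 2 ^ (3 * L + 4) := by
  refine le_trans ?_ hP.sq
  refine (card_lift (fun v => Adj2 G i v ∨ Adj2 G (π i) v) _ ?_).trans ?_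
  · rintro z ⟨u, a, b⟩
    rcases eq_of_rep_x3 hπ b with c | c
    · exact Or.inl (c ▸ a.symm)
    · exact Or.inr (c ▸ a.symm)
  · have a1 := card_adj2 hD i
    have a2 := card_adj2 hD (π i)
    have a3 : (univ.filter fun v => Adj2 G i v ∨ Adj2 G (π i) v).card ≤
        (univ.filter fun v => Adj2 G i v).card +
          (univ.filter fun v => Adj2 G (π i) v).card := by
      refine le_trans (card_le_card fun v hv => ?_) (card_union_le _ _)
      rw [mem_union, mem_filter, mem_filter]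
      exact (mem_filter.1 hv).2.imp (fun h => ⟨mem_univ _, h⟩) fun h => ⟨mem_univ _, h⟩
    omega

lemma hlv_congr_x3 {N : Finset V} {σ σ' : V → Bool} (h : ∀ u ∈ N, σ u = σ' u) (a : Hlv L N σ) :
    Hlv L N σ' := fun c => by
  rw [← filter_congr (p := fun u => σ u = c) fun u hu => by rw [h u hu]]
  exact a c

/-- The edge inequality fails. -/
def EBadX3 (L D j : ℕ) (E : Finset ((V × Bool) × (V × Bool))) (tg : V × Bool → Bool)
    (σ : V → Bool) : Prop :=
  ((E.filter fun e => σ e.1.1 = tg e.1 ∧ σ e.2.1 = tg e.2).card : ℝ) + 2000 * L * D * j <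
    E.card / 8

/-- The vertex inequality fails. -/
def TBadX3 (L j : ℕ) (T : Finset (V × Bool)) (tg : V × Bool → Bool) (σ : V → Bool) : Prop :=
  ((T.filter fun z => σ z.1 = tg z).card : ℝ) + 2000 * L * j < 9 / 20 * T.card

lemma ebad_congr_x3 {j : ℕ} {E : Finset ((V × Bool) × (V × Bool))} {tg : V × Bool → Bool}
    {σ σ' : V → Bool} (h : ∀ e ∈ E, σ e.1.1 = σ' e.1.1 ∧ σ e.2.1 = σ' e.2.1)
    (a : EBadX3 L D j E tg σ) : EBadX3 L D j E tg σ' := by
  unfold EBadX3 at a ⊢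
  rwa [← filter_congr (p := fun e => σ e.1.1 = tg e.1 ∧ σ e.2.1 = tg e.2) fun e he => by
    rw [(h e he).1, (h e he).2]]

lemma tbad_congr_x3 {j : ℕ} {T : Finset (V × Bool)} {tg : V × Bool → Bool}
    {σ σ' : V → Bool} (h : ∀ z ∈ T, σ z.1 = σ' z.1)
    (a : TBadX3 L j T tg σ) : TBadX3 L j T tg σ' := by
  unfold TBadX3 at a ⊢
  rwa [← filter_congr (p := fun z => σ z.1 = tg z) fun z hz => by rw [h z hz]]

theorem split (h1 : ClusterStmt) (h2 : EstStmt) : SplitStmt := by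
  intro V _ G D L τ hP hτ hD π hπ Nb E T tg hN hE hT
  have hD' : ∀ v, dg G v ≤ D := fun v => (hD v).le
  have hsing : ∀ (φ : Finset (V × Bool)) (i : Fin 3),
      pr (fun ε : V → Bool => ∃ z, φ = {z} ∧ ¬ Hlv L (Nb i z.1) (sig π ε)) ≤
        2 * Real.exp (-(50 * (L : ℝ) * φ.card)) := by
    intro φ i
    by_cases h : ∃ z, φ = {z}
    · obtain ⟨z, rfl⟩ := h
      rw [card_singleton, Nat.cast_one, mul_one]
      refine (pr_mono ?_).trans ((h2 V G D L 1 hP.pos hP.one le_rfl hD π hπ).1 (Nb i z.1))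
      rintro ε ⟨w, hw, h⟩
      rwa [singleton_injective hw]
    · rw [pr_false fun ε ⟨z, hz, _⟩ => h ⟨z, hz⟩]
      positivity
  obtain ⟨ε, hε⟩ := h1 (V × Bool) V Bool (Rel G) (NearX3 G π)
    (fun φ ε =>
      ((∃ z, φ = {z} ∧ ¬ Hlv L (Nb 0 z.1) (sig π ε)) ∨
        ((∃ z, φ = {z} ∧ ¬ Hlv L (Nb 1 z.1) (sig π ε)) ∨
          (∃ z, φ = {z} ∧ ¬ Hlv L (Nb 2 z.1) (sig π ε)))) ∨
      ((EBadX3 L D φ.card (E true φ) (tg true) (sig π ε) ∨
        EBadX3 L D φ.card (E false φ) (tg false) (sig π ε)) ∨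
      (TBadX3 L φ.card (T true φ) (tg true) (sig π ε) ∨
        TBadX3 L φ.card (T false φ) (tg false) (sig π ε))))
    (2 ^ (3 * L + 4)) (two_le_M L) (fun z w h => h.symm)
    (fun z => (card_rel hD' z).trans hP.cube)
    (near_left_x3 hP hD') (near_right_x3 hP hD' hπ.1)
    (fun φ _ ε ε' h hb => by
      have h' : ∀ w ∈ φ, ∀ u, Adj2 G w.1 u → sig π ε u = sig π ε' u :=
        fun w hw u hu => sig_congr (h _ ⟨w, hw, u, hu, rfl⟩)
      have a1 : ∀ i, (∃ z, φ = {z} ∧ ¬ Hlv L (Nb i z.1) (sig π ε)) →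
          ∃ z, φ = {z} ∧ ¬ Hlv L (Nb i z.1) (sig π ε') := fun i ⟨z, hz, a⟩ =>
        ⟨z, hz, fun b => a (hlv_congr_x3 (fun u hu => (h' z (hz ▸ mem_singleton_self z) u
          (Adj0.adj2 (Or.inr (mem_nb.1 (hN i _ hu))))).symm) b)⟩
      have a2 : ∀ b, EBadX3 L D φ.card (E b φ) (tg b) (sig π ε) →
          EBadX3 L D φ.card (E b φ) (tg b) (sig π ε') := fun b => ebad_congr_x3 fun e he => by
        obtain ⟨c1, -, c2⟩ := mem_bd.1 (hE b φ he)
        obtain ⟨w, hw, a⟩ := mem_hat.1 (thr_subset_hat hτ φ c1)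
        exact ⟨h' w hw e.1.1 (Adj0.adj2 (Or.inr a.1.symm)),
          h' w hw e.2.1 ⟨e.1.1, Or.inr a.1.symm, Or.inr c2.1⟩⟩
      have a3 : ∀ b, TBadX3 L φ.card (T b φ) (tg b) (sig π ε) →
          TBadX3 L φ.card (T b φ) (tg b) (sig π ε') := fun b => tbad_congr_x3 fun z hz => by
        obtain ⟨w, hw, a⟩ := mem_hat.1 (thr_subset_hat hτ φ (hT b φ hz))
        exact h' w hw z.1 (Adj0.adj2 (Or.inr a.1.symm))
      exact hb.imp (Or.imp (a1 0) (Or.imp (a1 1) (a1 2)))
        (Or.imp (Or.imp (a2 true) (a2 false)) (Or.imp (a3 true) (a3 false))))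
    (fun φ hφ => by
      refine le_trans ?_ (sixteen_exp_le hP.one hφ.1.card_pos)
      refine (pr_or_le _ _).trans ((add_le_add ((pr_or_le _ _).trans
        (add_le_add le_rfl (pr_or_le _ _))) ((pr_or_le _ _).trans
        (add_le_add (pr_or_le _ _) (pr_or_le _ _)))).trans ?_)
      obtain ⟨-, e2, e3⟩ := h2 V G D L φ.card hP.pos hP.one hφ.1.card_pos hD π hπ
      have hc : (thr G τ φ).card ≤ D * φ.card :=
        (card_le_card (thr_subset_hat hτ φ)).trans (card_hat hD' φ)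
      have a1 : ∀ b, pr (fun ε : V → Bool => EBadX3 L D φ.card (E b φ) (tg b) (sig π ε)) ≤
          Real.exp (-(50 * (L : ℝ) * φ.card)) := fun b => e2 _ _ (tg b) hc (hE b φ)
      have a2 : ∀ b, pr (fun ε : V → Bool => TBadX3 L φ.card (T b φ) (tg b) (sig π ε)) ≤
          Real.exp (-(50 * (L : ℝ) * φ.card)) := fun b => e3 _ (tg b)
      linarith [hsing φ 0, hsing φ 1, hsing φ 2, a1 true, a1 false, a2 true, a2 false,
        Real.exp_pos (-(50 * (L : ℝ) * φ.card))])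
  refine ⟨sig π ε, fun v => sig_pi hπ.1 ε (hπ.2 v), fun i v => ?_, fun b φ hφ => ?_⟩
  · have h := hε {(v, true)} (conn_singleton _ _)
    by_contra a
    apply h
    left
    fin_cases i
    · exact Or.inl ⟨(v, true), rfl, a⟩
    · exact Or.inr (Or.inl ⟨(v, true), rfl, a⟩)
    · exact Or.inr (Or.inr ⟨(v, true), rfl, a⟩)
  · have h := hε φ hφ
    simp only [not_or] at h
    cases b
    · exact ⟨not_lt.1 h.2.1.2, not_lt.1 h.2.2.2⟩
    · exact ⟨not_lt.1 h.2.1.1, not_lt.1 h.2.2.1⟩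

end Pool.Agent.MP_d20a68_co.Poly

end

section

/-! Threshold fingerprints by the method of conditional expectations. -/

set_option autoImplicit false
set_option linter.unusedSectionVars false
set_option linter.unusedVariables false
open Finset
open scoped Classical

namespace Pool.Agent.MP_d20a68_co.Poly

/-- Method of conditional expectations. -/
theorem exists_subset_le_x4 {U J : Type} (T : Finset J) (p : ℝ) (hp0 : 0 ≤ p) (hp1 : p ≤ 1)
    (a : ℝ) (b : J → U → ℝ) (R : Finset U) : ∀ c : J → ℝ, ∃ S, S ⊆ R ∧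
      a * S.card + ∑ j ∈ T, c j * ∏ y ∈ S, b j y ≤
        p * (a * R.card) + ∑ j ∈ T, c j * ∏ y ∈ R, (1 - p + p * b j y) := by
  induction R using Finset.induction_on with
  | empty => intro c; exact ⟨∅, subset_refl _, by simp⟩
  | insert z R hz ih =>
    intro c
    obtain ⟨S₀, hS₀, h₀⟩ := ih c
    obtain ⟨S₁, hS₁, h₁⟩ := ih (fun j => c j * b j z)
    have hz1 : z ∉ S₁ := fun h => hz (hS₁ h)
    set E₀ := p * (a * R.card) + ∑ j ∈ T, c j * ∏ y ∈ R, (1 - p + p * b j y) with hE₀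
    set E₁ := a + (p * (a * R.card) + ∑ j ∈ T, c j * b j z * ∏ y ∈ R, (1 - p + p * b j y))
      with hE₁
    have hE : p * (a * (insert z R).card) + ∑ j ∈ T, c j * ∏ y ∈ insert z R, (1 - p + p * b j y)
        = (1 - p) * E₀ + p * E₁ := by
      rw [Finset.card_insert_of_notMem hz, hE₀, hE₁]
      have : ∑ j ∈ T, c j * ∏ y ∈ insert z R, (1 - p + p * b j y) =
          (1 - p) * ∑ j ∈ T, c j * ∏ y ∈ R, (1 - p + p * b j y) +
            p * ∑ j ∈ T, c j * b j z * ∏ y ∈ R, (1 - p + p * b j y) := by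
        rw [Finset.mul_sum, Finset.mul_sum, ← Finset.sum_add_distrib]
        refine Finset.sum_congr rfl (fun j _ => ?_)
        rw [Finset.prod_insert hz]
        ring
      rw [this]
      push_cast
      ring
    rw [hE]
    by_cases hc : E₀ ≤ E₁
    · refine ⟨S₀, hS₀.trans (Finset.subset_insert _ _), h₀.trans ?_⟩
      nlinarith
    · push Not at hc
      refine ⟨insert z S₁, Finset.insert_subset_insert _ hS₁, ?_⟩
      have e : a * (insert z S₁).card + ∑ j ∈ T, c j * ∏ y ∈ insert z S₁, b j y =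
          a + (a * S₁.card + ∑ j ∈ T, c j * b j z * ∏ y ∈ S₁, b j y) := by
        rw [Finset.card_insert_of_notMem hz1]
        have : ∑ j ∈ T, c j * ∏ y ∈ insert z S₁, b j y =
            ∑ j ∈ T, c j * b j z * ∏ y ∈ S₁, b j y := by
          refine Finset.sum_congr rfl (fun j _ => ?_)
          rw [Finset.prod_insert hz1]
          ring
        rw [this]
        push_cast
        ring
      rw [e]
      have : a + (a * S₁.card + ∑ j ∈ T, c j * b j z * ∏ y ∈ S₁, b j y) ≤ E₁ := by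
        rw [hE₁]
        linarith
      nlinarith

lemma prod_ite_x4 {U : Type} (A : U → Prop) (S : Finset U) (t : ℝ) :
    ∏ y ∈ S, (if A y then t else 1) = t ^ (S.filter A).card := by
  rw [Finset.prod_ite, Finset.prod_const, Finset.prod_const_one, mul_one]

lemma prod_expect_x4 {U : Type} (A : U → Prop) (R : Finset U) (p t : ℝ) (hp0 : 0 ≤ p)
    (hp1 : p ≤ 1) (ht : 0 ≤ t) :
    ∏ y ∈ R, (1 - p + p * (if A y then t else 1)) ≤
      Real.exp (p * (t - 1) * (R.filter A).card) := by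
  rw [mul_comm, Real.exp_nat_mul, ← prod_ite_x4]
  refine Finset.prod_le_prod (fun y _ => ?_) (fun y _ => ?_)
  · split_ifs
    · nlinarith
    · linarith
  · split_ifs
    · have := Real.add_one_le_exp (p * (t - 1))
      linarith
    · linarith

lemma lo_x4 (L : ℕ) : (6 / 5 : ℝ) ^ (125 * L) * Real.exp (-(25 * (L : ℝ))) ≤ (1 / 4) ^ L := by
  have h1 : (27 / 10 : ℝ) ^ 25 ≤ Real.exp 25 := by
    have : Real.exp 25 = Real.exp 1 ^ 25 := by rw [← Real.exp_nat_mul]; norm_num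
    rw [this]
    exact pow_le_pow_left₀ (by norm_num) (by linarith [Real.exp_one_gt_d9]) _
  have h2 : (6 / 5 : ℝ) ^ 125 * Real.exp (-25) ≤ 1 / 4 := by
    rw [Real.exp_neg, ← div_eq_mul_inv, div_le_iff₀ (Real.exp_pos _)]
    refine le_trans ?_ (mul_le_mul_of_nonneg_left h1 (by norm_num))
    norm_num
  have h3 : Real.exp (-(25 * (L : ℝ))) = Real.exp (-25) ^ L := by
    rw [← Real.exp_nat_mul]; congr 1; ring
  rw [h3, pow_mul, ← mul_pow]
  exact pow_le_pow_left₀ (by positivity) h2 _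

lemma hi_x4 (L : ℕ) : (4 / 5 : ℝ) ^ (125 * L) * Real.exp (25 * (L : ℝ)) ≤ (1 / 4) ^ L := by
  have h1 : Real.exp 25 ≤ (28 / 10 : ℝ) ^ 25 := by
    have : Real.exp 25 = Real.exp 1 ^ 25 := by rw [← Real.exp_nat_mul]; norm_num
    rw [this]
    exact pow_le_pow_left₀ (Real.exp_pos _).le (by linarith [Real.exp_one_lt_d9]) _
  have h2 : (4 / 5 : ℝ) ^ 125 * Real.exp 25 ≤ 1 / 4 := by
    refine le_trans (mul_le_mul_of_nonneg_left h1 (by positivity)) ?_
    norm_num
  have h3 : Real.exp (25 * (L : ℝ)) = Real.exp 25 ^ L := by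
    rw [← Real.exp_nat_mul]; congr 1; ring
  rw [h3, pow_mul, ← mul_pow]
  exact pow_le_pow_left₀ (by positivity) h2 _

theorem thrS : ThrStmt := by
  intro V _ G D L hP hD S
  have hD0 : (0 : ℝ) < D := by exact_mod_cast hP.pos
  have hD1 : (1 : ℝ) ≤ D := by exact_mod_cast hP.pos
  have hL0 : (0 : ℝ) < L := by exact_mod_cast hP.one
  have hLD : (700 : ℝ) * L ≤ D := by
    have h1 := hP.big
    have h2 : L ≤ L ^ 4 := Nat.le_self_pow (by norm_num) L
    have : 700 * L ≤ D := by omega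
    exact_mod_cast this
  have hq : (D : ℝ) ^ 2 * (1 / 4) ^ L ≤ 1 := by
    have h1 : (D : ℝ) ≤ 2 ^ L := by exact_mod_cast hP.pow
    have h2 : (D : ℝ) ^ 2 ≤ 4 ^ L := by
      calc (D : ℝ) ^ 2 ≤ (2 ^ L) ^ 2 := pow_le_pow_left₀ hD0.le h1 2
        _ = 4 ^ L := by rw [← pow_mul, mul_comm, pow_mul]; norm_num
    rw [one_div, inv_pow, ← div_eq_mul_inv, div_le_one (by positivity)]
    exact h2
  set p : ℝ := 700 * L / D with hp
  have hp0 : 0 ≤ p := by positivity
  have hp1 : p ≤ 1 := (div_le_one hD0).2 hLD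
  set Lo := S.filter fun z => 3 * D ≤ 14 * (S.filter fun w => AdjT G z w).card with hLo
  set Hi := (hat G S).filter fun z => 7 * (S.filter fun w => AdjT G z w).card ≤ D with hHi
  obtain ⟨φ, hφ, h⟩ := exists_subset_le_x4 (Lo.disjSum Hi) p hp0 hp1 (D / (700 * L))
    (Sum.elim (fun z y => if AdjT G z y then (5 / 6 : ℝ) else 1)
      (fun z y => if AdjT G z y then (5 / 4 : ℝ) else 1)) S
    (Sum.elim (fun _ => D / 2 * (6 / 5 : ℝ) ^ (125 * L)) (fun _ => D / 2 * (4 / 5 : ℝ) ^ (125 * L)))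
  simp only [Finset.sum_disjSum, Sum.elim_inl, Sum.elim_inr, prod_ite_x4] at h
  have b0 : p * (D / (700 * L) * S.card) = S.card := by rw [hp]; field_simp
  have b1 : ∑ z ∈ Lo, D / 2 * (6 / 5 : ℝ) ^ (125 * L) *
      ∏ y ∈ S, (1 - p + p * if AdjT G z y then (5 / 6 : ℝ) else 1) ≤
      S.card * (D / 2 * (1 / 4 : ℝ) ^ L) := by
    refine (Finset.sum_le_card_nsmul _ _ (D / 2 * (1 / 4 : ℝ) ^ L) fun z hz => ?_).trans ?_
    · rw [mul_assoc]
      refine mul_le_mul_of_nonneg_left (le_trans (mul_le_mul_of_nonneg_left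
        ((prod_expect_x4 _ S p _ hp0 hp1 (by norm_num)).trans (Real.exp_le_exp.2 ?_))
        (by positivity)) (lo_x4 L)) (by positivity)
      have e1 : (3 : ℝ) * D ≤ 14 * (S.filter fun w => AdjT G z w).card := by
        exact_mod_cast (mem_filter.1 hz).2
      have e2 : p * (3 * D) ≤ p * (14 * (S.filter fun w => AdjT G z w).card) :=
        mul_le_mul_of_nonneg_left e1 hp0
      have e3 : p * (3 * D) = 2100 * L := by rw [hp]; field_simp; norm_num
      linarith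
    · rw [nsmul_eq_mul]
      exact mul_le_mul_of_nonneg_right (by exact_mod_cast card_filter_le _ _) (by positivity)
  have b2 : ∑ z ∈ Hi, D / 2 * (4 / 5 : ℝ) ^ (125 * L) *
      ∏ y ∈ S, (1 - p + p * if AdjT G z y then (5 / 4 : ℝ) else 1) ≤
      D * S.card * (D / 2 * (1 / 4 : ℝ) ^ L) := by
    refine (Finset.sum_le_card_nsmul _ _ (D / 2 * (1 / 4 : ℝ) ^ L) fun z hz => ?_).trans ?_
    · rw [mul_assoc]
      refine mul_le_mul_of_nonneg_left (le_trans (mul_le_mul_of_nonneg_left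
        ((prod_expect_x4 _ S p _ hp0 hp1 (by norm_num)).trans (Real.exp_le_exp.2 ?_))
        (by positivity)) (hi_x4 L)) (by positivity)
      have e1 : (7 : ℝ) * (S.filter fun w => AdjT G z w).card ≤ D := by
        exact_mod_cast (mem_filter.1 hz).2
      have e2 : p * (7 * (S.filter fun w => AdjT G z w).card) ≤ p * D :=
        mul_le_mul_of_nonneg_left e1 hp0
      have e3 : p * D = 700 * L := by rw [hp]; field_simp
      linarith
    · rw [nsmul_eq_mul]
      refine mul_le_mul_of_nonneg_right ?_ (by positivity)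
      exact_mod_cast (card_filter_le _ _).trans (card_hat (fun v => (hD v).le) S)
  have hS0 : (0 : ℝ) ≤ S.card := Nat.cast_nonneg _
  have b3 : S.card * (D / 2 * (1 / 4 : ℝ) ^ L) ≤ S.card / 2 := by
    have e0 : (0 : ℝ) ≤ (1 / 4 : ℝ) ^ L := by positivity
    have e1 : (D : ℝ) * (1 / 4) ^ L ≤ D ^ 2 * (1 / 4) ^ L :=
      mul_le_mul_of_nonneg_right (by nlinarith) e0
    have e2 := mul_le_mul_of_nonneg_left (e1.trans hq) hS0
    linarith
  have b4 : D * S.card * (D / 2 * (1 / 4 : ℝ) ^ L) ≤ S.card / 2 := by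
    have e2 := mul_le_mul_of_nonneg_left hq hS0
    linarith
  set m₁ := Lo.filter fun z => z ∉ thr G (125 * L) φ with hm₁
  set m₂ := Hi.filter fun z => z ∈ thr G (125 * L) φ with hm₂
  have c1 : m₁.card * ((D : ℝ) / 2) ≤ ∑ z ∈ Lo, D / 2 * (6 / 5 : ℝ) ^ (125 * L) *
      (5 / 6) ^ (φ.filter fun w => AdjT G z w).card := by
    rw [← nsmul_eq_mul]
    refine (Finset.card_nsmul_le_sum _ _ _ fun z hz => ?_).trans
      (Finset.sum_le_sum_of_subset_of_nonneg (filter_subset _ _) fun z _ _ => by positivity)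
    have e1 : (φ.filter fun w => AdjT G z w).card ≤ 125 * L :=
      (not_le.1 fun h => (mem_filter.1 hz).2 (mem_thr.2 h)).le
    have e2 : (5 / 6 : ℝ) ^ (125 * L) ≤ (5 / 6) ^ (φ.filter fun w => AdjT G z w).card :=
      pow_le_pow_of_le_one (by norm_num) (by norm_num) e1
    calc (D : ℝ) / 2 = D / 2 * (6 / 5 : ℝ) ^ (125 * L) * (5 / 6) ^ (125 * L) := by
          rw [mul_assoc, ← mul_pow]; norm_num
      _ ≤ _ := mul_le_mul_of_nonneg_left e2 (by positivity)
  have c2 : m₂.card * ((D : ℝ) / 2) ≤ ∑ z ∈ Hi, D / 2 * (4 / 5 : ℝ) ^ (125 * L) *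
      (5 / 4) ^ (φ.filter fun w => AdjT G z w).card := by
    rw [← nsmul_eq_mul]
    refine (Finset.card_nsmul_le_sum _ _ _ fun z hz => ?_).trans
      (Finset.sum_le_sum_of_subset_of_nonneg (filter_subset _ _) fun z _ _ => by positivity)
    have e1 : 125 * L ≤ (φ.filter fun w => AdjT G z w).card := mem_thr.1 (mem_filter.1 hz).2
    have e2 : (5 / 4 : ℝ) ^ (125 * L) ≤ (5 / 4) ^ (φ.filter fun w => AdjT G z w).card :=
      pow_le_pow_right₀ (by norm_num) e1
    calc (D : ℝ) / 2 = D / 2 * (4 / 5 : ℝ) ^ (125 * L) * (5 / 4) ^ (125 * L) := by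
          rw [mul_assoc, ← mul_pow]; norm_num
      _ ≤ _ := mul_le_mul_of_nonneg_left e2 (by positivity)
  have d0 : 0 ≤ (D : ℝ) / (700 * L) * φ.card := by positivity
  have d1 : 0 ≤ m₁.card * ((D : ℝ) / 2) := by positivity
  have d2 : 0 ≤ m₂.card * ((D : ℝ) / 2) := by positivity
  refine ⟨φ, hφ, ?_, m₁ ∪ m₂, ?_, fun z hz hm h3 => ?_, fun z hm h7 ht => ?_⟩
  · have e1 : (D : ℝ) / (700 * L) * φ.card ≤ 2 * S.card := by linarith
    rw [div_mul_eq_mul_div, div_le_iff₀ (by positivity)] at e1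
    rw [le_div_iff₀ hD0]
    linarith
  · have e1 : ((m₁ ∪ m₂).card : ℝ) ≤ m₁.card + m₂.card := by exact_mod_cast card_union_le _ _
    have e2 := mul_le_mul_of_nonneg_right e1 hD0.le
    rw [le_div_iff₀ hD0]
    linarith
  · by_contra hc
    exact hm (mem_union_left _ (mem_filter.2 ⟨mem_filter.2 ⟨hz, h3⟩, hc⟩))
  · have hh : z ∈ hat G φ := thr_subset_hat (by have := hP.one; omega) φ ht
    obtain ⟨w, hw, hzw⟩ := mem_hat.1 hh
    exact hm (mem_union_right _ (mem_filter.2 ⟨mem_filter.2 ⟨mem_hat.2 ⟨w, hφ hw, hzw⟩, h7⟩, ht⟩))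

end Pool.Agent.MP_d20a68_co.Poly

end

section

/-! Inheritance of expansion. -/

set_option autoImplicit false
set_option linter.unusedSectionVars false
set_option linter.unusedVariables false
open Finset
open scoped Classical

namespace Pool.Agent.MP_d20a68_co.Poly

variable {V : Type} [Fintype V] {G : SimpleGraph V} {D L : ℕ}

lemma bd_union_inh {T₁ T₂ : Finset (V × Bool)} (far : ∀ z ∈ T₁, ∀ w ∈ T₂, ¬ Adj0 G z.1 w.1) :
    bd G (T₁ ∪ T₂) = bd G T₁ ∪ bd G T₂ := by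
  ext e
  simp only [mem_bd, mem_union, not_or]
  constructor
  · rintro ⟨a | a, b, c⟩
    · exact Or.inl ⟨a, b.1, c⟩
    · exact Or.inr ⟨a, b.2, c⟩
  · rintro (⟨a, b, c⟩ | ⟨a, b, c⟩)
    · exact ⟨Or.inl a, ⟨b, fun h => far _ a _ h (Or.inr c.1)⟩, c⟩
    · exact ⟨Or.inr a, ⟨fun h => far _ h _ a (Or.inr c.1.symm), b⟩, c⟩

lemma all_inh {τ : ℕ} (hτ : 1 ≤ τ) (P : (V × Bool) × (V × Bool) → Prop) (Q : V × Bool → Prop)
    [DecidablePred P] [DecidablePred Q] (K K' α : ℝ)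
    (h : ∀ φ, Conn (Rel G) φ →
      ((bd G (thr G τ φ)).card : ℝ) / 64 ≤ ((bd G (thr G τ φ)).filter P).card + K * φ.card ∧
      α * (thr G τ φ).card ≤ ((thr G τ φ).filter Q).card + K' * φ.card)
    (φ : Finset (V × Bool)) :
    ((bd G (thr G τ φ)).card : ℝ) / 64 ≤ ((bd G (thr G τ φ)).filter P).card + K * φ.card ∧
      α * (thr G τ φ).card ≤ ((thr G τ φ).filter Q).card + K' * φ.card := by
  refine conn_induction (Rel G) (fun φ =>
    ((bd G (thr G τ φ)).card : ℝ) / 64 ≤ ((bd G (thr G τ φ)).filter P).card + K * φ.card ∧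
      α * (thr G τ φ).card ≤ ((thr G τ φ).filter Q).card + K' * φ.card) ?_ h ?_ φ
  · have e1 : thr G τ ∅ = ∅ := subset_empty.1 ((thr_subset_hat hτ ∅).trans fun z hz => by
      simp at hz)
    have e2 : bd G ∅ = ∅ := by ext e; simp
    simp [e1, e2]
  intro φ ψ χ h1 h2 _ _ h3 h4 h5
  have far0 : ∀ z ∈ hat G φ, ∀ w ∈ hat G ψ, ¬ Adj0 G z.1 w.1 := fun z hz w hw hzw => by
    obtain ⟨x, x1, x2⟩ := mem_hat.1 hz
    obtain ⟨y, y1, y2⟩ := mem_hat.1 hw
    exact h3 x x1 y y1 ⟨w.1, ⟨z.1, Or.inr x2.1.symm, hzw⟩, Or.inr y2.1⟩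
  have far : ∀ z ∈ thr G τ φ, ∀ w ∈ thr G τ ψ, ¬ Adj0 G z.1 w.1 := fun z hz w hw =>
    far0 z (thr_subset_hat hτ _ hz) w (thr_subset_hat hτ _ hw)
  have hd : Disjoint (thr G τ φ) (thr G τ ψ) :=
    disjoint_left.2 fun z a b => far z a z b (Adj0.refl _)
  have hχ : χ = φ ∪ ψ := by ext z; rw [h1, mem_union]
  have hu : thr G τ χ = thr G τ φ ∪ thr G τ ψ := by
    ext z
    simp only [mem_thr, mem_union]
    rw [hχ, filter_union, card_union_of_disjoint (disjoint_filter_filter h2)]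
    by_cases hz : z ∈ hat G φ
    · have : (ψ.filter fun w => AdjT G z w).card = 0 := by
        rw [card_eq_zero, filter_eq_empty_iff]
        exact fun w hw hzw => far0 z hz z (mem_hat.2 ⟨w, hw, hzw⟩) (Adj0.refl _)
      omega
    · have : (φ.filter fun w => AdjT G z w).card = 0 := by
        rw [card_eq_zero, filter_eq_empty_iff]
        exact fun w hw hzw => hz (mem_hat.2 ⟨w, hw, hzw⟩)
      omega
  have hb : Disjoint (bd G (thr G τ φ)) (bd G (thr G τ ψ)) :=
    disjoint_left.2 fun e a b => disjoint_left.1 hd (mem_bd.1 a).1 (mem_bd.1 b).1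
  have e3 : χ.card = φ.card + ψ.card := by rw [hχ, card_union_of_disjoint h2]
  rw [hu, bd_union_inh far, filter_union, filter_union, card_union_of_disjoint hb,
    card_union_of_disjoint hd, card_union_of_disjoint (disjoint_filter_filter hb),
    card_union_of_disjoint (disjoint_filter_filter hd), e3]
  push_cast
  constructor <;> linarith [h4.1, h4.2, h5.1, h5.2]

lemma sum_dg_inh (H : SimpleGraph V) (X Y : Finset V) :
    ∑ x ∈ X, dg H x = ∑ x ∈ X, (Y.filter (H.Adj x)).card + eout H X Y := by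
  unfold eout
  rw [← sum_add_distrib]
  refine sum_congr rfl fun x _ => ?_
  rw [dg, ← card_filter_add_card_filter_not (s := nb H x) fun y => y ∈ Y]
  congr 2
  · ext y; simp [and_comm]
  · ext y; simp

lemma bs_close_inh {B : SimpleGraph V} (hD : ∀ v, dg B v ≤ D) (A : Finset V) (σ : V → Bool)
    (hA : ∀ u v, B.Adj u v → u ∈ A) (S T : Finset (V × Bool)) :
    (bs B σ T).card ≤ (bs B σ S).card +
      D * ((S \ T).card + ((T.filter fun z => Sel A σ z) \ S).card) := by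
  set T' := T.filter fun z => Sel A σ z with hT'
  have e1 : bs B σ T ⊆ bs B σ S ∪
      (((S \ T).biUnion fun w => (univ.filter fun z => AdjT B w z).image fun z => (z, w)) ∪
        ((T' \ S).biUnion fun z => (univ.filter fun w => AdjT B z w).image fun w => (z, w))) := by
    intro e he
    obtain ⟨⟨a, b, c⟩, d⟩ := mem_bs.1 he
    by_cases h1 : e.1 ∈ S
    · by_cases h2 : e.2 ∈ S
      · exact mem_union_right _ (mem_union_left _ (mem_biUnion.2 ⟨e.2, mem_sdiff.2 ⟨h2, b⟩,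
          mem_image.2 ⟨e.1, mem_filter.2 ⟨mem_univ _, c.symm⟩, rfl⟩⟩))
      · exact mem_union_left _ (mem_bs.2 ⟨⟨h1, h2, c⟩, d⟩)
    · exact mem_union_right _ (mem_union_right _ (mem_biUnion.2 ⟨e.1,
        mem_sdiff.2 ⟨mem_filter.2 ⟨a, hA _ _ c.1, d.1⟩, h1⟩,
        mem_image.2 ⟨e.2, mem_filter.2 ⟨mem_univ _, c⟩, rfl⟩⟩))
  refine (card_le_card e1).trans ((card_union_le _ _).trans (Nat.add_le_add_left
    ((card_union_le _ _).trans ?_) _))
  rw [mul_add, mul_comm D, mul_comm D]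
  exact Nat.add_le_add
    (card_biUnion_le_card_mul _ _ D fun w _ => card_image_le.trans ((card_adjT w).trans_le (hD _)))
    (card_biUnion_le_card_mul _ _ D fun w _ => card_image_le.trans ((card_adjT w).trans_le (hD _)))

lemma few_inh {β γ : Type} [DecidableEq γ] (E : Finset β) (f : β → γ) (Y : Finset γ) (c : ℝ)
    (h : ∀ z ∈ Y, c ≤ 100 * ((E.filter fun e => f e = z).card : ℝ)) :
    c * Y.card ≤ 100 * E.card := by
  have h1 : ∑ z ∈ Y, (E.filter fun e => f e = z).card ≤ E.card := by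
    rw [← card_biUnion fun x _ y _ hxy => disjoint_left.2 fun e a b =>
      hxy ((mem_filter.1 a).2.symm.trans (mem_filter.1 b).2)]
    exact card_le_card (biUnion_subset.2 fun z _ => filter_subset _ _)
  have h2 : ∑ z ∈ Y, ((E.filter fun e => f e = z).card : ℝ) ≤ E.card := by exact_mod_cast h1
  calc c * Y.card = ∑ z ∈ Y, c := by rw [sum_const, nsmul_eq_mul, mul_comm]
    _ ≤ ∑ z ∈ Y, 100 * ((E.filter fun e => f e = z).card : ℝ) := sum_le_sum h
    _ ≤ _ := by rw [← mul_sum]; linarith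

/-- The boundary of a selected set of moderate size is large. -/
lemma core_inh (h : ThrStmt) {B : SimpleGraph V} {A : Finset V} {σ : V → Bool} {Γ μ η α : ℝ}
    (hP : Par D L) (hD : ∀ v, dg G v = D) (hB : B ≤ G) (hE : Expands G Γ) (h1 : Γ ≤ D)
    (h2 : 3 * 10 ^ 9 * (L : ℝ) ^ 2 ≤ Γ) (h3 : 12 * 10 ^ 5 * η ≤ Γ) (h4 : (D : ℝ) / 4 ≤ μ)
    (h5 : 1 / 5 ≤ α) (h6 : ∀ v ∈ A, |(dg (resG B A σ) v : ℝ) - μ| ≤ η)
    (h7 : ∀ v ∈ A, (dg (resG G A σ) v : ℝ) ≤ dg (resG B A σ) v + D / 8 + η)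
    (h8 : ∀ φ, ((bd G (thr G (125 * L) φ)).card : ℝ) / 64 ≤
        (bs (resG B A σ) σ (thr G (125 * L) φ)).card + 4000 * L * D * φ.card ∧
      α * (thr G (125 * L) φ).card ≤ ((thr G (125 * L) φ).filter fun z => Sel A σ z).card +
        4000 * L * φ.card)
    (S : Finset (V × Bool)) (hS : ∀ z ∈ S, Sel A σ z)
    (hc : (S.card : ℝ) ≤ 135 / 100 * α * Fintype.card V) :
    Γ * S.card ≤ 10 ^ 5 * (bs (resG B A σ) σ S).card := by
  have hD0 : (0 : ℝ) < D := by exact_mod_cast hP.pos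
  have hL1 : (1 : ℝ) ≤ L := by exact_mod_cast hP.one
  have hL2 : (1 : ℝ) ≤ (L : ℝ) ^ 2 := one_le_pow₀ hL1
  set B' := resG B A σ with hB'
  set b : ℝ := ((bs B' σ S).card : ℝ) with hb
  have hb0 : 0 ≤ b := Nat.cast_nonneg _
  have hS0 : (0 : ℝ) ≤ S.card := Nat.cast_nonneg _
  by_cases hbig : (D : ℝ) * S.card ≤ 10 ^ 5 * b
  · exact (mul_le_mul_of_nonneg_right h1 hS0).trans hbig
  rw [not_le] at hbig
  obtain ⟨φ, a1, a2, m, a3, a4, a5⟩ := h V G D L hP hD S
  obtain ⟨c1, c2⟩ := h8 φ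
  set T := thr G (125 * L) φ with hT
  set T' := T.filter fun z => Sel A σ z with hT'
  -- vertices of `S` that are missed
  have d1 : (D : ℝ) * ((S \ T) \ m).card ≤ 100 * b := by
    refine few_inh (bs B' σ S) Prod.fst _ _ fun z hz => ?_
    obtain ⟨z1, z2⟩ := mem_sdiff.1 hz
    obtain ⟨z3, z4⟩ := mem_sdiff.1 z1
    have z5 : 14 * (S.filter fun w => AdjT G z w).card < 3 * D :=
      not_le.1 fun h => z4 (a4 z z3 z2 h)
    have z6 : dg B' z.1 ≤ (S.filter fun w => AdjT G z w).card +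
        ((bs B' σ S).filter fun e => e.1 = z).card := by
      refine le_trans (card_le_card fun u hu => ?_) ((card_union_le
        ((S.filter fun w => AdjT G z w).image Prod.fst)
        (((bs B' σ S).filter fun e => e.1 = z).image fun e => e.2.1)).trans
        (Nat.add_le_add card_image_le card_image_le))
      have hu' : B'.Adj z.1 u := mem_nb.1 hu
      have hne : z.2 ≠ σ u := (hS z z3).2 ▸ hu'.2.2.2
      by_cases hin : (u, σ u) ∈ S
      · exact mem_union_left _ (mem_image.2 ⟨(u, σ u), mem_filter.2 ⟨hin, hB hu'.1, hne⟩, rfl⟩)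
      · exact mem_union_right _ (mem_image.2 ⟨(z, (u, σ u)), mem_filter.2
          ⟨mem_bs.2 ⟨⟨z3, hin, hu', hne⟩, (hS z z3).2, rfl⟩, rfl⟩, rfl⟩)
    have z7 : (14 : ℝ) * (S.filter fun w => AdjT G z w).card ≤ 3 * D := by exact_mod_cast z5.le
    have z8 : (dg B' z.1 : ℝ) ≤ (S.filter fun w => AdjT G z w).card +
        ((bs B' σ S).filter fun e => e.1 = z).card := by exact_mod_cast z6
    have z9 := (abs_le.1 (h6 z.1 (hS z z3).1)).1
    linarith
  -- vertices outside `S` that are included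
  have d2 : (D : ℝ) * ((T' \ S) \ m).card ≤ 100 * b := by
    refine few_inh (bs B' σ S) Prod.snd _ _ fun z hz => ?_
    obtain ⟨z1, z2⟩ := mem_sdiff.1 hz
    obtain ⟨z3, z4⟩ := mem_sdiff.1 z1
    obtain ⟨z10, z11⟩ := mem_filter.1 z3
    have z5 : D < 7 * (S.filter fun w => AdjT G z w).card :=
      not_le.1 fun h => a5 z z2 h z10
    have hle : B' ≤ resG G A σ := fun u v huv => ⟨hB huv.1, huv.2⟩
    have z6 : (S.filter fun w => AdjT G z w).card ≤ dg (resG G A σ \ B') z.1 +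
        ((bs B' σ S).filter fun e => e.2 = z).card := by
      refine le_trans (card_le_card fun w hw => ?_) ((card_union_le
        ((nb (resG G A σ \ B') z.1).image fun u => (u, σ u))
        (((bs B' σ S).filter fun e => e.2 = z).image Prod.fst)).trans
        (Nat.add_le_add card_image_le card_image_le))
      obtain ⟨w1, w2⟩ := mem_filter.1 hw
      have w3 := hS w w1
      have hne : σ z.1 ≠ σ w.1 := by rw [z11.2, w3.2]; exact w2.2
      by_cases hin : B'.Adj z.1 w.1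
      · exact mem_union_right _ (mem_image.2 ⟨(w, z), mem_filter.2
          ⟨mem_bs.2 ⟨⟨w1, z4, hin.symm, w2.2.symm⟩, w3.2, z11.2⟩, rfl⟩, rfl⟩)
      · exact mem_union_left _ (mem_image.2 ⟨w.1, mem_nb.2 ⟨⟨w2.1, z11.1, w3.1, hne⟩, hin⟩,
          by rw [w3.2]⟩)
    have z7 : (D : ℝ) ≤ 7 * (S.filter fun w => AdjT G z w).card := by exact_mod_cast z5.le
    have z8 : ((S.filter fun w => AdjT G z w).card : ℝ) ≤ dg (resG G A σ \ B') z.1 +
        ((bs B' σ S).filter fun e => e.2 = z).card := by exact_mod_cast z6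
    have z9 : (dg (resG G A σ \ B') z.1 : ℝ) + dg B' z.1 = dg (resG G A σ) z.1 := by
      exact_mod_cast dg_sdiff hle z.1
    have z12 := h7 z.1 z11.1
    linarith
  have d3 : ((S \ T).card : ℝ) + (T' \ S).card ≤
      ((S \ T) \ m).card + ((T' \ S) \ m).card + m.card := by
    have e1 := card_sdiff_add_card_inter (S \ T) m
    have e2 := card_sdiff_add_card_inter (T' \ S) m
    have e3 : ((S \ T) ∩ m).card + ((T' \ S) ∩ m).card ≤ m.card := by
      rw [← card_union_of_disjoint (disjoint_left.2 fun z a b =>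
        (mem_sdiff.1 (mem_inter.1 b).1).2 (mem_sdiff.1 (mem_inter.1 a).1).1)]
      exact card_le_card (union_subset inter_subset_right inter_subset_right)
    have : (S \ T).card + (T' \ S).card ≤
        ((S \ T) \ m).card + ((T' \ S) \ m).card + m.card := by omega
    exact_mod_cast this
  set x : ℝ := ((S \ T).card : ℝ) with hx
  set y : ℝ := ((T' \ S).card : ℝ) with hy
  have hx0 : 0 ≤ x := Nat.cast_nonneg _
  have hy0 : 0 ≤ y := Nat.cast_nonneg _
  have a3' : (D : ℝ) * m.card ≤ 4 * S.card := by rwa [le_div_iff₀ hD0, mul_comm] at a3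
  have a2' : (D : ℝ) * φ.card ≤ 1400 * L * S.card := by rwa [le_div_iff₀ hD0, mul_comm] at a2
  have d4 : (D : ℝ) * (x + y) ≤ 200 * b + 4 * S.card := by
    have := mul_le_mul_of_nonneg_left d3 hD0.le
    linarith
  have hDb : (3 : ℝ) * 10 ^ 9 ≤ D := by linarith
  have d5 : x + y ≤ S.card / 100 := by
    refine le_of_mul_le_mul_left ?_ hD0
    have := mul_le_mul_of_nonneg_right hDb hS0
    linarith
  have d6 : (S.card : ℝ) ≤ T.card + x := by
    have := card_le_card_sdiff_add_card (s := S) (t := T)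
    have e : (S.card : ℝ) ≤ (S \ T).card + T.card := by exact_mod_cast this
    linarith
  have d7 : (T'.card : ℝ) ≤ S.card + y := by
    have := card_le_card_sdiff_add_card (s := T') (t := S)
    have e : (T'.card : ℝ) ≤ (T' \ S).card + S.card := by exact_mod_cast this
    linarith
  have d8 : 4000 * (L : ℝ) * D * φ.card ≤ 56 * 10 ^ 5 * (L ^ 2 * S.card) := by
    have := mul_le_mul_of_nonneg_left a2' (show (0 : ℝ) ≤ 4000 * L by positivity)
    linarith
  have d9 : 3 * 10 ^ 9 * ((L : ℝ) ^ 2 * S.card) ≤ Γ * S.card := by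
    have := mul_le_mul_of_nonneg_right h2 hS0
    linarith
  have d10 : Γ * S.card ≤ D * S.card := mul_le_mul_of_nonneg_right h1 hS0
  have d11 : 4000 * (L : ℝ) * φ.card ≤ S.card / 100 := by
    refine le_of_mul_le_mul_left ?_ hD0
    linarith
  have hα : 0 < α := by linarith
  have hn0 : (0 : ℝ) ≤ Fintype.card V := Nat.cast_nonneg _
  have d12 : (T.card : ℝ) ≤ 14 / 10 * Fintype.card V := by
    refine le_of_mul_le_mul_left ?_ hα
    have := mul_nonneg hα.le hn0
    linarith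
  have hΓ : 0 < Γ := by linarith
  have hT0 : (0 : ℝ) ≤ T.card := Nat.cast_nonneg _
  have d13 : 3 / 10 * (Γ * T.card) ≤ (bd G T).card := by
    rcases hn0.eq_or_lt with hn | hn
    · have : (T.card : ℝ) = 0 := le_antisymm (by linarith) hT0
      rw [this]
      simp
    · refine le_of_mul_le_mul_left (le_trans ?_ (hE T)) (show 0 < 2 * (Fintype.card V : ℝ) by linarith)
      have := mul_le_mul_of_nonneg_left
        (show 6 / 10 * (Fintype.card V : ℝ) ≤ 2 * Fintype.card V - T.card by linarith)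
        (mul_nonneg hΓ.le hT0)
      linarith
  have d14 : Γ * (99 / 100 * S.card) ≤ Γ * T.card :=
    mul_le_mul_of_nonneg_left (by linarith) hΓ.le
  have d15 : ((bs B' σ T).card : ℝ) ≤ b + D * (x + y) := by
    have := bs_close_inh (B := B') (D := D) (fun v => (dg_mono (H := B') (H' := G)
      (fun u v huv => hB huv.1) v).trans (hD v).le) A σ (fun u v huv => huv.2.1) S T
    rw [hb, hx, hy]
    exact_mod_cast this
  have d16 : (S.card : ℝ) ≤ L ^ 2 * S.card := le_mul_of_one_le_left hS0 hL2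
  linarith

theorem inh (h : ThrStmt) : InhStmt := by
  intro V _ G B A σ D L N Γ' Γ μ η α hP hD hB hE h1 h2 hN h3 hΓ' h4 h4' h5 h6 h7 hA h8
    s X Y hX hY hXY hhalf
  have hD0 : (0 : ℝ) < D := by exact_mod_cast hP.pos
  have hL1 : (1 : ℝ) ≤ L := by exact_mod_cast hP.one
  have hL2 : (1 : ℝ) ≤ (L : ℝ) ^ 2 := one_le_pow₀ hL1
  have hΓ : 0 < Γ := by linarith
  set B' := resG B A σ with hB'
  rcases X.eq_empty_or_nonempty with rfl | ⟨x₀, hx₀⟩
  · simp
  have hη : 0 ≤ η := (abs_nonneg _).trans (h6 x₀ (mem_cls.1 (hX hx₀)).1)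
  have hX' : ∀ x ∈ X, σ x = s := fun x hx => (mem_cls.1 (hX hx)).2
  have hY' : ∀ y ∈ Y, σ y = !s := fun y hy => (mem_cls.1 (hY hy)).2
  have e1 : (μ - η) * X.card ≤ (∑ x ∈ X, dg B' x : ℕ) := by
    rw [mul_comm, ← nsmul_eq_mul]
    push_cast
    exact card_nsmul_le_sum _ _ _ fun x hx => by
      linarith [(abs_le.1 (h6 x (mem_cls.1 (hX hx)).1)).1]
  have e2 : ((∑ y ∈ Y, dg B' y : ℕ) : ℝ) ≤ (μ + η) * Y.card := by
    rw [mul_comm, ← nsmul_eq_mul]
    push_cast
    exact sum_le_card_nsmul _ _ _ fun y hy => by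
      linarith [(abs_le.1 (h6 y (mem_cls.1 (hY hy)).1)).2]
  have e3 : (μ - η) * X.card + eout B' Y X ≤ (μ + η) * Y.card + eout B' X Y := by
    rw [sum_dg_inh B' X Y] at e1
    rw [sum_dg_inh B' Y X, ← sum_card_comm B' X Y] at e2
    push_cast at e1 e2
    linarith
  have hX0 : (0 : ℝ) ≤ X.card := Nat.cast_nonneg _
  have hY0 : (0 : ℝ) ≤ Y.card := Nat.cast_nonneg _
  have he2 : (0 : ℝ) ≤ eout B' Y X := Nat.cast_nonneg _
  have f1 : 12 * 10 ^ 5 * (η * X.card) ≤ Γ * X.card := by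
    have := mul_le_mul_of_nonneg_right h3 hX0
    linarith
  have f2 : 4 * 10 ^ 5 * ((Γ' : ℝ) * X.card) ≤ Γ * X.card := by
    have := mul_le_mul_of_nonneg_right hΓ' hX0
    linarith
  have f3 : Γ * X.card ≤ D * X.card := mul_le_mul_of_nonneg_right h1 hX0
  have f4 : 0 ≤ Γ * X.card := mul_nonneg hΓ.le hX0
  suffices hs : (Γ' : ℝ) * X.card ≤ eout B' X Y by exact_mod_cast hs
  by_cases hsm : (Y.card : ℝ) ≤ 9 / 10 * X.card
  · have g1 := mul_le_mul_of_nonneg_left hsm (show 0 ≤ μ + η by linarith)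
    have g2 := mul_le_mul_of_nonneg_right h4 hX0
    linarith
  rw [not_le] at hsm
  have hN0 : (4 : ℝ) * 10 ^ 5 ≤ N := by
    refine le_of_mul_le_mul_left ?_ hD0
    have := mul_le_mul_of_nonneg_right h1 (Nat.cast_nonneg (α := ℝ) N)
    linarith
  have hXY' : (N : ℝ) * Y.card ≤ (N + 1) * X.card := by exact_mod_cast hXY
  have g1 : (Y.card : ℝ) ≤ 101 / 100 * X.card := by
    refine le_of_mul_le_mul_left ?_ (show (0 : ℝ) < N by linarith)
    have := mul_le_mul_of_nonneg_right hN0 hX0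
    linarith
  -- `μ (|Y| - |X|) ≤ Γ |X| / (4 10^5)`
  have g2 : 4 * 10 ^ 5 * (μ * (Y.card - X.card)) ≤ Γ * X.card := by
    refine le_of_mul_le_mul_left ?_ (show (0 : ℝ) < N by linarith)
    have k1 : μ * (N * (Y.card - X.card)) ≤ μ * X.card :=
      mul_le_mul_of_nonneg_left (by linarith) (by linarith)
    have k2 := mul_le_mul_of_nonneg_right h4' hX0
    have k3 := mul_le_mul_of_nonneg_right hN hX0
    linarith
  have g3 : η * Y.card ≤ η * (101 / 100 * X.card) := mul_le_mul_of_nonneg_left g1 hη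
  have hd : Disjoint X Y := disjoint_left.2 fun v a b => by
    have := (hX' v a).symm.trans (hY' v b)
    simp at this
  set S := lift σ (X ∪ Y) with hS
  have hSc : (S.card : ℝ) = X.card + Y.card := by
    have := sum_lift σ (X ∪ Y) fun _ => 1
    simp only [sum_const, nsmul_eq_mul, mul_one] at this
    rw [hS, this, card_union_of_disjoint hd]
    push_cast
    rfl
  have hcr : crossG B' σ = B' := by
    ext u v
    exact ⟨fun h => h.1, fun h => ⟨h, h.2.2.2⟩⟩
  have k1 := card_bs_side B' σ s X Y hX' fun y hy => by rw [hY' y hy]; simp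
  have k2 := card_bs_side B' σ (!s) Y X hY' fun x hx => by rw [hX' x hx]; simp
  rw [union_comm Y X, ← hS, hcr] at k2
  rw [← hS, hcr] at k1
  have k3 : ((bs B' σ S).card : ℝ) = eout B' X Y + eout B' Y X := by
    rw [← k1, ← k2, ← card_filter_add_card_filter_not (s := bs B' σ S) fun e => e.1.2 = s]
    push_cast
    congr 3
    ext e
    cases e.1.2 <;> cases s <;> simp
  have k4 : (S.card : ℝ) ≤ 106 / 100 * (cls A σ true).card := by
    rw [hSc]
    rcases hhalf with hh | hh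
    · have : (2 : ℝ) * X.card ≤ (cls A σ true).card := by exact_mod_cast hh
      linarith
    · have : (2 : ℝ) * Y.card ≤ (cls A σ true).card := by exact_mod_cast hh
      linarith
  have hτ : 1 ≤ 125 * L := by have := hP.one; omega
  have k5 := core_inh h hP hD hB hE h1 h2 h3 h4 h5 h6 h7 (fun φ => by
    have k6 := all_inh hτ _ _ _ _ α h8 φ
    refine ⟨k6.1.trans (add_le_add_left (Nat.cast_le.2 (card_le_card fun e he => ?_)) _), k6.2⟩
    obtain ⟨l1, l2, l3, l4⟩ := mem_filter.1 he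
    obtain ⟨l5, l6, l7⟩ := mem_bd.1 l1
    exact mem_bs.2 ⟨⟨l5, l6, ⟨l2, l3.1, l4.1, by rw [l3.2, l4.2]; exact l7.2⟩, l7.2⟩, l3.2, l4.2⟩)
    S (fun z hz => by
      obtain ⟨l1, l2⟩ := mem_lift.1 hz
      exact ⟨(mem_union.1 l1).elim (fun l => (mem_cls.1 (hX l)).1) fun l => (mem_cls.1 (hY l)).1,
        l2⟩) (by
      have := mul_nonneg (show 0 ≤ α by linarith) (Nat.cast_nonneg (α := ℝ) (Fintype.card V))
      linarith)
  rw [← hB', k3, hSc] at k5
  have k7 : 0 ≤ Γ * Y.card := mul_nonneg hΓ.le hY0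
  linarith

end Pool.Agent.MP_d20a68_co.Poly

end

section

/-! All random choices. -/

set_option autoImplicit false
set_option linter.unusedSectionVars false
set_option linter.unusedVariables false
open Finset
open scoped Classical

namespace Pool.Agent.MP_d20a68_co.Poly

variable {V : Type} [Fintype V] {G : SimpleGraph V} {D L η N Γ' : ℕ} {Γ : ℝ} {σ₀ σ₁ : V → Bool}

/-- The class degrees. -/
def DegX6 (G : SimpleGraph V) (D η : ℕ) (σ₀ σ₁ : V → Bool) : Prop :=
  ∀ v a b, 4 * ((nb G v).filter fun u => σ₀ u = a ∧ σ₁ u = b).card ≤ D + 3 * η ∧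
    D ≤ 4 * ((nb G v).filter fun u => σ₀ u = a ∧ σ₁ u = b).card + 3 * η

lemma deg_x6 (hD : ∀ v, dg G v = D) (hη : 400 * L * D ≤ η ^ 2) (h0 : ∀ v, Hlv L (nb G v) σ₀)
    (h1 : ∀ a v, Hlv L ((nb G v).filter fun u => σ₀ u = a) σ₁) : DegX6 G D η σ₀ σ₁ := by
  intro v a b
  have hc : (nb G v).card = D := hD v
  have a1 := (h0 v).le hc.le hη a
  have a2 := (h1 a v).le ((card_filter_le _ _).trans hc.le) hη b
  rw [filter_filter] at a2
  rw [hc] at a1
  omega

lemma cls_x6 (hD : ∀ v, dg G v = D) (h : DegX6 G D η σ₀ σ₁) (b : Bool) :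
    4 * (D * (cls (opp σ₀ σ₁ b) σ₀ true).card) ≤ Fintype.card V * (D + 3 * η) := by
  have h1 := sum_card_comm G univ (cls (opp σ₀ σ₁ b) σ₀ true)
  have h2 : ∑ y ∈ cls (opp σ₀ σ₁ b) σ₀ true, (univ.filter (G.Adj y)).card =
      D * (cls (opp σ₀ σ₁ b) σ₀ true).card := by
    refine (sum_congr rfl fun y _ => hD y).trans ?_
    rw [sum_const, smul_eq_mul, mul_comm]
  rw [← h2, ← h1, mul_sum, ← card_univ, ← smul_eq_mul, ← sum_const]
  refine sum_le_sum fun x _ => le_trans (Nat.mul_le_mul_left _ (card_le_card fun u hu => ?_))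
    (h x true b).1
  obtain ⟨a1, a2⟩ := mem_filter.1 hu
  obtain ⟨a3, a4⟩ := mem_cls.1 a1
  rw [mem_opp, a4] at a3
  exact mem_filter.2 ⟨mem_nb.2 a2, a4, a3⟩

lemma nb_opp_x6 {b : Bool} {v : V} (hv : v ∈ opp σ₀ σ₁ b) :
    nb (resG G (opp σ₀ σ₁ b) σ₀) v =
      (nb G v).filter fun u => σ₀ u = (!σ₀ v) ∧ σ₁ u = if (!σ₀ v) then b else !b := by
  ext u
  simp only [mem_nb, resG, mem_filter, hv, true_and]
  rw [mem_opp]
  cases σ₀ u <;> cases σ₀ v <;> simp

lemma nb_res_x6 (B : SimpleGraph V) (τ : V → Bool) (v : V) :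
    nb (resG B univ τ) v = (nb B v).filter fun u => τ u = !τ v := by
  ext u
  simp only [mem_nb, resG, mem_filter, mem_univ, true_and]
  cases τ u <;> cases τ v <;> simp

lemma nb_in_x6 (v : V) :
    nb (inG G σ₀ σ₁) v = (nb G v).filter fun u => σ₀ u = σ₀ v ∧ σ₁ u = σ₁ v := by
  ext u
  simp only [mem_nb, inG, mem_filter, eq_comm]

lemma last_x6 (h2 : InhStmt) (hP : Par D L) (hD : ∀ v, dg G v = D) (hE : Expands G Γ)
    (g1 : Γ ≤ D) (g2 : 3 * 10 ^ 9 * (L : ℝ) ^ 2 ≤ Γ) (g3 : 4 * 10 ^ 5 * (D : ℝ) ≤ Γ * N)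
    (g4 : 12 * 10 ^ 5 * (η : ℝ) ≤ Γ) (g5 : 4 * 10 ^ 5 * (Γ' : ℝ) ≤ Γ) (hdeg : DegX6 G D η σ₀ σ₁)
    (b : Bool)
    (c0 : ∀ φ, Conn (Rel G) φ →
      ((bd G (thr G (125 * L) φ)).card : ℝ) / 8 ≤
        (bs G σ₀ (thr G (125 * L) φ)).card + 2000 * L * D * φ.card ∧
      9 / 20 * ((thr G (125 * L) φ).card : ℝ) ≤
        ((thr G (125 * L) φ).filter fun z => σ₀ z.1 = z.2).card + 2000 * L * φ.card)
    (c1 : ∀ φ, Conn (Rel G) φ →
      ((bs G σ₀ (thr G (125 * L) φ)).card : ℝ) / 8 ≤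
        ((bs G σ₀ (thr G (125 * L) φ)).filter fun e => σ₁ e.1.1 = (if e.1.2 then b else !b) ∧
          σ₁ e.2.1 = if e.2.2 then b else !b).card + 2000 * L * D * φ.card ∧
      9 / 20 * (((thr G (125 * L) φ).filter fun z => σ₀ z.1 = z.2).card : ℝ) ≤
        (((thr G (125 * L) φ).filter fun z => σ₀ z.1 = z.2).filter
          fun z => σ₁ z.1 = if z.2 then b else !b).card + 2000 * L * φ.card) :
    Exp G (opp σ₀ σ₁ b) σ₀ N Γ' := by
  have hD0 : (0 : ℝ) < D := by exact_mod_cast hP.pos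
  have hη0 : (0 : ℝ) ≤ η := Nat.cast_nonneg _
  refine h2 V G G (opp σ₀ σ₁ b) σ₀ D L N Γ' Γ (D / 4) η (1 / 5) hP hD le_rfl hE g1 g2 g3 g4 g5
    le_rfl (by linarith) le_rfl (fun v hv => ?_) (fun v _ => by linarith) ?_ fun φ hφ => ⟨?_, ?_⟩
  · obtain ⟨a1, a2⟩ := hdeg v (!σ₀ v) (if (!σ₀ v) then b else !b)
    rw [← nb_opp_x6 hv] at a1 a2
    have a3 : (4 : ℝ) * dg (resG G (opp σ₀ σ₁ b) σ₀) v ≤ D + 3 * η := by exact_mod_cast a1
    have a4 : (D : ℝ) ≤ 4 * dg (resG G (opp σ₀ σ₁ b) σ₀) v + 3 * η := by exact_mod_cast a2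
    rw [abs_le]
    constructor <;> linarith
  · have a1 : (4 : ℝ) * (D * (cls (opp σ₀ σ₁ b) σ₀ true).card) ≤ Fintype.card V * (D + 3 * η) := by
      exact_mod_cast cls_x6 hD hdeg b
    have a2 : (Fintype.card V : ℝ) * η ≤ Fintype.card V * (D / 1000) :=
      mul_le_mul_of_nonneg_left (by linarith) (Nat.cast_nonneg _)
    have a3 : (0 : ℝ) ≤ Fintype.card V * D := by positivity
    refine le_of_mul_le_mul_left ?_ hD0
    nlinarith
  · have a1 := (c0 φ hφ).1
    have a2 := (c1 φ hφ).1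
    have a3 : (((bs G σ₀ (thr G (125 * L) φ)).filter fun e =>
        σ₁ e.1.1 = (if e.1.2 then b else !b) ∧ σ₁ e.2.1 = if e.2.2 then b else !b).card : ℝ) ≤
        ((bd G (thr G (125 * L) φ)).filter fun e => G.Adj e.1.1 e.2.1 ∧
          Sel (opp σ₀ σ₁ b) σ₀ e.1 ∧ Sel (opp σ₀ σ₁ b) σ₀ e.2).card := by
      refine Nat.cast_le.2 (card_le_card fun e he => ?_)
      obtain ⟨b1, b2, b3⟩ := mem_filter.1 he
      obtain ⟨b4, b5, b6⟩ := mem_bs.1 b1
      exact mem_filter.2 ⟨mem_bd.2 b4, b4.2.2.1, ⟨mem_opp.2 (by rw [b5]; exact b2), b5⟩,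
        mem_opp.2 (by rw [b6]; exact b3), b6⟩
    have a4 : (0 : ℝ) ≤ L * D * φ.card := by positivity
    linarith
  · have a1 := (c0 φ hφ).2
    have a2 := (c1 φ hφ).2
    have a3 : ((((thr G (125 * L) φ).filter fun z => σ₀ z.1 = z.2).filter
        fun z => σ₁ z.1 = if z.2 then b else !b).card : ℝ) ≤
        ((thr G (125 * L) φ).filter fun z => Sel (opp σ₀ σ₁ b) σ₀ z).card := by
      refine Nat.cast_le.2 (card_le_card fun z hz => ?_)
      obtain ⟨b1, b2⟩ := mem_filter.1 hz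
      obtain ⟨b3, b4⟩ := mem_filter.1 b1
      exact mem_filter.2 ⟨b3, mem_opp.2 (by rw [b4]; exact b2), b4⟩
    have a4 : (0 : ℝ) ≤ L * φ.card := by positivity
    have a5 : (0 : ℝ) ≤ (thr G (125 * L) φ).card := Nat.cast_nonneg _
    linarith

lemma edge_x6 (B : SimpleGraph V) (τ : V → Bool) (T : Finset (V × Bool))
    (hB : ∀ u v, G.Adj u v → σ₀ u ≠ σ₀ v → B.Adj u v) :
    (((bs G σ₀ T).filter fun e => τ e.1.1 = e.1.2 ∧ τ e.2.1 = e.2.2).card : ℝ) ≤
      ((bd G T).filter fun e => B.Adj e.1.1 e.2.1 ∧ Sel univ τ e.1 ∧ Sel univ τ e.2).card := by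
  refine Nat.cast_le.2 (card_le_card fun e he => ?_)
  obtain ⟨b1, b2, b3⟩ := mem_filter.1 he
  obtain ⟨b4, b5, b6⟩ := mem_bs.1 b1
  refine mem_filter.2 ⟨mem_bd.2 b4, hB _ _ b4.2.2.1 ?_, ⟨mem_univ _, b2⟩, mem_univ _, b3⟩
  rw [b5, b6]; exact b4.2.2.2

lemma step_x6 (h1 : SplitStmt) (h2 : InhStmt) (hP : Par D L) (hD : ∀ v, dg G v = D)
    (hE : Expands G Γ) (g1 : Γ ≤ D) (g2 : 3 * 10 ^ 9 * (L : ℝ) ^ 2 ≤ Γ)
    (g3 : 4 * 10 ^ 5 * (D : ℝ) ≤ Γ * N) (g4 : 12 * 10 ^ 5 * (η : ℝ) ≤ Γ)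
    (g5 : 4 * 10 ^ 5 * (Γ' : ℝ) ≤ Γ) (hη : 400 * L * D ≤ η ^ 2) (hdeg : DegX6 G D η σ₀ σ₁)
    (c0 : ∀ φ, Conn (Rel G) φ → ((bd G (thr G (125 * L) φ)).card : ℝ) / 8 ≤
        (bs G σ₀ (thr G (125 * L) φ)).card + 2000 * L * D * φ.card)
    (W : SimpleGraph V) (hW : W ≤ G) (π : V → V) (hπ : FPF π) :
    ∃ τ : V → Bool, (∀ v, τ (π v) = !τ v) ∧ (∀ v, Hlv L (nb W v) τ) ∧
      Exp (G \ inG G σ₀ σ₁) univ τ N Γ' := by
  have hL := hP.one
  have hin : inG G σ₀ σ₁ ≤ G := fun u v h => h.1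
  have hB : G \ inG G σ₀ σ₁ ≤ G := sdiff_le
  have hsub : ∀ H ≤ G, ∀ v, nb H v ⊆ nb G v := fun H hH v u hu => mem_nb.2 (hH (mem_nb.1 hu))
  obtain ⟨τ, t1, t2, t3⟩ := h1 V G D L (125 * L) hP (by omega) hD π hπ
    ![nb W, nb (G \ inG G σ₀ σ₁), nb (inG G σ₀ σ₁)] (fun _ φ => bs G σ₀ (thr G (125 * L) φ))
    (fun _ φ => thr G (125 * L) φ) (fun _ z => z.2)
    (fun i v => by
      fin_cases i
      · exact hsub _ hW v
      · exact hsub _ hB v
      · exact hsub _ hin v)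
    (fun _ φ => filter_subset _ _) (fun _ φ => Subset.rfl)
  refine ⟨τ, t1, t2 0, ?_⟩
  have hD0 : (0 : ℝ) < D := by exact_mod_cast hP.pos
  have hη0 : (0 : ℝ) ≤ η := Nat.cast_nonneg _
  have k1 : ∀ v, 4 * dg (inG G σ₀ σ₁) v ≤ D + 3 * η ∧ D ≤ 4 * dg (inG G σ₀ σ₁) v + 3 * η :=
    fun v => by
      have := hdeg v (σ₀ v) (σ₁ v)
      rwa [← nb_in_x6] at this
  have k2 : ∀ v, dg (G \ inG G σ₀ σ₁) v + dg (inG G σ₀ σ₁) v = D := fun v => by
    rw [dg_sdiff hin, hD]
  have k3 : ∀ v, 2 * dg (resG (G \ inG G σ₀ σ₁) univ τ) v ≤ dg (G \ inG G σ₀ σ₁) v + η ∧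
      dg (G \ inG G σ₀ σ₁) v ≤ 2 * dg (resG (G \ inG G σ₀ σ₁) univ τ) v + η := fun v => by
    have := Hlv.le (N := nb (G \ inG G σ₀ σ₁) v) (t2 1 v) ((dg_mono hB v).trans (hD v).le) hη (!τ v)
    rwa [← nb_res_x6] at this
  have k4 : ∀ v, 2 * dg (resG (inG G σ₀ σ₁) univ τ) v ≤ dg (inG G σ₀ σ₁) v + η := fun v => by
    have := (Hlv.le (N := nb (inG G σ₀ σ₁) v) (t2 2 v) ((dg_mono hin v).trans (hD v).le) hη
      (!τ v)).1
    rwa [← nb_res_x6] at this
  have k5 : ∀ v, dg (resG G univ τ) v ≤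
      dg (resG (G \ inG G σ₀ σ₁) univ τ) v + dg (resG (inG G σ₀ σ₁) univ τ) v := fun v => by
    refine le_trans (dg_mono (fun x y h => ?_) v) (dg_sup_le _ _ v)
    by_cases hxy : (inG G σ₀ σ₁).Adj x y
    · exact Or.inr ⟨hxy, h.2⟩
    · exact Or.inl ⟨⟨h.1, hxy⟩, h.2⟩
  refine h2 V G _ univ τ D L N Γ' Γ (3 * D / 8) η (9 / 20) hP hD hB hE g1 g2 g3 g4 g5
    (by linarith) (by linarith) (by norm_num) (fun v _ => ?_) (fun v _ => ?_) ?_
    fun φ hφ => ⟨?_, ?_⟩
  · have a1 : 8 * dg (resG (G \ inG G σ₀ σ₁) univ τ) v ≤ 3 * D + 8 * η ∧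
        3 * D ≤ 8 * dg (resG (G \ inG G σ₀ σ₁) univ τ) v + 8 * η := by
      have := k1 v
      have := k2 v
      have := k3 v
      omega
    have a2 : (8 : ℝ) * dg (resG (G \ inG G σ₀ σ₁) univ τ) v ≤ 3 * D + 8 * η := by
      exact_mod_cast a1.1
    have a3 : (3 : ℝ) * D ≤ 8 * dg (resG (G \ inG G σ₀ σ₁) univ τ) v + 8 * η := by
      exact_mod_cast a1.2
    rw [abs_le]
    constructor <;> linarith
  · have a1 : 8 * dg (resG G univ τ) v ≤
        8 * dg (resG (G \ inG G σ₀ σ₁) univ τ) v + D + 8 * η := by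
      have := k1 v
      have := k4 v
      have := k5 v
      omega
    have a2 : (8 : ℝ) * dg (resG G univ τ) v ≤
        8 * dg (resG (G \ inG G σ₀ σ₁) univ τ) v + D + 8 * η := by exact_mod_cast a1
    linarith
  · have a1 : 2 * (cls univ τ true).card = Fintype.card V := by
      have := side_card τ
      have := bal_of_flip hπ.1 t1
      rw [cls_univ]; omega
    have a2 : (2 : ℝ) * (cls univ τ true).card = Fintype.card V := by exact_mod_cast a1
    have a3 : (0 : ℝ) ≤ Fintype.card V := Nat.cast_nonneg _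
    linarith
  · have a1 := c0 φ hφ
    have a2 := (t3 true φ hφ).1
    have a3 := edge_x6 (G := G) (σ₀ := σ₀) (G \ inG G σ₀ σ₁) τ (thr G (125 * L) φ)
      fun u v h h' => ⟨h, fun h'' => h' h''.2.1⟩
    have a4 : (0 : ℝ) ≤ L * D * φ.card := by positivity
    linarith
  · have a2 := (t3 true φ hφ).2
    have a3 : (((thr G (125 * L) φ).filter fun z => τ z.1 = z.2).card : ℝ) ≤
        ((thr G (125 * L) φ).filter fun z => Sel univ τ z).card :=
      Nat.cast_le.2 (card_le_card fun z hz =>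
        mem_filter.2 ⟨(mem_filter.1 hz).1, mem_univ _, (mem_filter.1 hz).2⟩)
    have a4 : (0 : ℝ) ≤ L * φ.card := by positivity
    linarith

theorem oracle (h1 : SplitStmt) (h2 : InhStmt) : OracleStmt := by
  rintro V _ G D L η N Γ' Γ hP hD ⟨π, hπ⟩ hE g1 g2 g3 g4 g5 hη
  have hL := hP.one
  obtain ⟨σ₀, s1, s2, s3⟩ := h1 V G D L (125 * L) hP (by omega) hD π hπ (fun _ => nb G)
    (fun _ φ => bd G (thr G (125 * L) φ)) (fun _ φ => thr G (125 * L) φ) (fun _ z => z.2)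
    (fun _ _ => Subset.rfl) (fun _ _ => Subset.rfl) (fun _ _ => Subset.rfl)
  obtain ⟨σ₁, r1, r2, r3⟩ := h1 V G D L (125 * L) hP (by omega) hD π hπ
    (fun i v => (nb G v).filter fun u => σ₀ u = ![true, false, false] i)
    (fun _ φ => bs G σ₀ (thr G (125 * L) φ))
    (fun _ φ => (thr G (125 * L) φ).filter fun z => σ₀ z.1 = z.2)
    (fun b z => if z.2 then b else !b)
    (fun _ _ => filter_subset _ _) (fun _ _ => filter_subset _ _) (fun _ _ => filter_subset _ _)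
  have hdeg : DegX6 G D η σ₀ σ₁ := deg_x6 hD hη (s2 0) fun a v => by
    cases a
    · exact r2 1 v
    · exact r2 0 v
  exact ⟨σ₀, σ₁, bal_of_flip hπ.1 s1, bal_of_flip hπ.1 r1, hdeg,
    step_x6 h1 h2 hP hD hE g1 g2 g3 g4 g5 hη hdeg fun φ hφ => (s3 true φ hφ).1,
    fun b => last_x6 h2 hP hD hE g1 g2 g3 g4 g5 hdeg b (s3 true) (r3 b)⟩

end Pool.Agent.MP_d20a68_co.Poly

end

section

/-! The last two levels. -/

set_option autoImplicit false
set_option linter.unusedSectionVars false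
set_option linter.unusedVariables false
open Finset
open scoped Classical

namespace Pool.Agent.MP_d20a68_co.Poly

variable {V : Type} [Fintype V]
variable {G : SimpleGraph V} {q : ℕ} {p : Fin q → ℕ} {Col : SimpleGraph V → Finset (Fin q) → Prop}

lemma last_twoX8 [Nonempty V] (hS : Sys G p Col) {s s₁ N : ℕ} (hp : ∀ i, p i ≤ s) (hN : 0 < N)
    (σ₀ σ₁ : V → Bool) (h0 : (side σ₀ true).card = (side σ₀ false).card)
    (h1 : (side σ₁ true).card = (side σ₁ false).card) (B U : SimpleGraph V) (hB : B ≤ G)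
    (hcl : ∀ u v, B.Adj u v → σ₀ u = σ₀ v → σ₁ u ≠ σ₁ v) (J : Finset (Fin q))
    (hreg : ∀ v, dg (B \ U) v = ∑ i ∈ J, p i)
    (hsp : ∀ u v, dg (sameG (B \ U) σ₀) u ≤ dg (sameG (B \ U) σ₀) v + s₁)
    (hR : ∀ v, N * s₁ ≤ dg (crossG (B \ U) σ₀) v)
    (top : ∀ (b : Bool) (e : V → ℕ) (lo K : ℕ), (∀ v, lo ≤ e v ∧ e v ≤ lo + s₁) →
      lo + N * s₁ ≤ K → K ≤ lo + N * s₁ + s →
      ((side σ₀ true).filter fun v => σ₁ v = b).card =
        ((side σ₀ false).filter fun v => σ₁ v = !b).card →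
      ∑ v ∈ (side σ₀ true).filter fun v => σ₁ v = b, e v =
        ∑ v ∈ (side σ₀ false).filter fun v => σ₁ v = !b, e v →
      ∃ F ≤ crossG B σ₀ \ U, (∀ v, dg F v = if v ∈ ((side σ₀ true).filter fun v => σ₁ v = b) ∪
        ((side σ₀ false).filter fun v => σ₁ v = !b) then K - e v else 0) ∧
        Btw F ((side σ₀ true).filter fun v => σ₁ v = b)
          ((side σ₀ false).filter fun v => σ₁ v = !b)) :
    Col (B \ U) J := by
  set E := sameG (B \ U) σ₀ with hE
  set C : Bool → Bool → Finset V := fun a b => (side σ₀ a).filter fun v => σ₁ v = b with hC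
  have hmem : ∀ a b v, v ∈ C a b ↔ σ₀ v = a ∧ σ₁ v = b := fun a b v => by simp [hC]
  have hdg : ∀ v, dg (crossG (B \ U) σ₀) v + dg E v = dg (B \ U) v := dg_cross_same (B \ U) σ₀
  -- cardinalities of the four classes
  have c1 := filter_tf (side σ₀ true) σ₁
  have c2 := filter_tf (side σ₀ false) σ₁
  have c3 := filter_tf (side σ₁ true) σ₀
  have c4 := filter_tf (side σ₁ false) σ₀
  have ce : ∀ a b, (side σ₁ b).filter (fun v => σ₀ v = a) = C a b := fun a b => by
    ext v; simp [hC, and_comm]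
  rw [ce, ce] at c3 c4
  change (C true true).card + (C true false).card = _ at c1
  change (C false true).card + (C false false).card = _ at c2
  have hcard : ∀ b, (C true b).card = (C false (!b)).card := fun b => by
    cases b <;> simp only [Bool.not_true, Bool.not_false] <;> omega
  -- degree sums
  have d1 : ∀ a, ∑ v ∈ C a true, dg E v = ∑ v ∈ C a false, dg E v := fun a =>
    sum_dg_eq E _ _ (fun x hx y h => by
      have := hcl x y h.1.1 h.2
      have := h.2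
      rw [hmem] at hx ⊢
      simp_all) (fun x hx y h => by
      have := hcl x y h.1.1 h.2
      have := h.2
      rw [hmem] at hx ⊢
      simp_all)
  have d2 : ∑ v ∈ side σ₀ true, dg (crossG (B \ U) σ₀) v =
      ∑ v ∈ side σ₀ false, dg (crossG (B \ U) σ₀) v :=
    sum_dg_eq _ _ _ (Cross.tf fun u v h => h.2) (Cross.ft fun u v h => h.2)
  have d3 : ∀ a, ∑ v ∈ side σ₀ a, dg (crossG (B \ U) σ₀) v + ∑ v ∈ side σ₀ a, dg E v =
      (side σ₀ a).card * ∑ i ∈ J, p i := fun a => by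
    rw [← sum_add_distrib, ← smul_eq_mul, ← sum_const]
    exact sum_congr rfl fun v _ => (hdg v).trans (hreg v)
  have d4 : ∀ a, ∑ v ∈ C a true, dg E v + ∑ v ∈ C a false, dg E v = ∑ v ∈ side σ₀ a, dg E v :=
    fun a => sum_tf _ σ₁ _
  have hsum : ∀ b, ∑ v ∈ C true b, dg E v = ∑ v ∈ C false (!b), dg E v := fun b => by
    have := d1 true; have := d1 false; have := d4 true; have := d4 false
    have e1 := d3 true
    have e2 := d3 false
    rw [h0] at e1
    cases b <;> simp only [Bool.not_true, Bool.not_false] <;> omega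
  obtain ⟨w, hw⟩ := exists_lo (dg E) s₁ hsp
  obtain ⟨I, i1, i2, i3⟩ := exists_group p s hp J (dg E w + N * s₁) (by
    have := hreg w; have := hdg w; have := hR w; omega)
  have hF : ∀ b, ∃ F ≤ crossG B σ₀ \ U,
      (∀ v, dg F v = if v ∈ C true b ∪ C false (!b) then ∑ i ∈ I, p i - dg E v else 0) ∧
        Btw F (C true b) (C false (!b)) := fun b =>
    top b (dg E) _ _ hw i2 i3 (hcard b) (hsum b)
  obtain ⟨F₁, f1, f2, f3⟩ := hF true
  obtain ⟨F₂, g1, g2, g3⟩ := hF false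
  clear hF top
  have hs₀ : s₁ ≤ N * s₁ := Nat.le_mul_of_pos_left _ hN
  have le1 : F₁ ≤ B \ U := fun u v h => ⟨(f1 h).1.1, (f1 h).2⟩
  have le2 : F₂ ≤ B \ U := fun u v h => ⟨(g1 h).1.1, (g1 h).2⟩
  have hle : E ⊔ (F₁ ⊔ F₂) ≤ B \ U := sup_le (fun u v h => h.1) (sup_le le1 le2)
  have hdeg : ∀ v, dg (E ⊔ (F₁ ⊔ F₂)) v = ∑ i ∈ I, p i := fun v => by
    rw [dg_sup (H := E) fun u v h1 h2 => by
      rcases h2 with h2 | h2
      · exact (f1 h2).1.2 h1.2
      · exact (g1 h2).1.2 h1.2, dg_sup fun u v h1 h2 => by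
      have a1 := f3 u v h1
      have a2 := g3 u v h2
      simp only [hmem] at a1 a2
      rcases a1 with a1 | a1 <;> rcases a2 with a2 | a2 <;> simp_all, f2, g2]
    have := hw v
    simp only [mem_union, hmem]
    cases σ₀ v <;> cases σ₁ v <;> simp <;> omega
  have col1 : Col (E ⊔ (F₁ ⊔ F₂)) I := by
    refine hS.bip _ (hle.trans (sdiff_le.trans hB)) _ σ₁ (Cross.sup
      (fun u v h => hcl u v h.1.1 h.2) (Cross.sup (fun u v h => ?_) fun u v h => ?_)) hdeg
    · have a1 := f3 u v h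
      simp only [hmem] at a1
      rcases a1 with a1 | a1 <;> simp_all
    · have a1 := g3 u v h
      simp only [hmem] at a1
      rcases a1 with a1 | a1 <;> simp_all
  have col0 : Col ((B \ U) \ (E ⊔ (F₁ ⊔ F₂))) (J \ I) := by
    refine hS.bip _ (sdiff_le.trans (sdiff_le.trans hB)) _ σ₀
      (fun u v h e => h.2 (Or.inl ⟨h.1, e⟩)) fun v => ?_
    have e1 := dg_sdiff hle v
    have e2 : ∑ i ∈ J \ I, p i + ∑ i ∈ I, p i = ∑ i ∈ J, p i := sum_sdiff i1
    have := hdeg v; have := hreg v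
    omega
  have := hS.sup _ _ _ _ sdiff_disjoint col0 col1
  rwa [sdiff_sup_cancel hle, sdiff_union_of_subset i1] at this

lemma cls_oppX8 (σ₀ σ₁ : V → Bool) (b : Bool) :
    cls (opp σ₀ σ₁ b) σ₀ true = ((side σ₀ true).filter fun v => σ₁ v = b) ∧
      cls (opp σ₀ σ₁ b) σ₀ false = (side σ₀ false).filter fun v => σ₁ v = !b := by
  constructor <;> ext v <;> simp only [mem_cls, mem_opp, mem_filter, mem_side] <;>
    cases σ₀ v <;> simp

lemma sum_subX8 (P : Finset V) (e : V → ℕ) (K : ℕ) (h : ∀ v, e v ≤ K) :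
    ∑ v ∈ P, (K - e v) + ∑ v ∈ P, e v = P.card * K := by
  rw [← sum_add_distrib, ← smul_eq_mul, ← sum_const]
  exact sum_congr rfl fun v _ => Nat.sub_add_cancel (h v)

theorem last (h : FillStmt) : LastStmt := by
  intro V _ _ G q p Col D L η N Γ' s σ₀ σ₁ hS hp hsum hreg hX hD F hFB I f2 f3 f4
  set ρ := Rb L η N s with hρ
  set W := inG G σ₀ σ₁ with hW
  have hfill := hX.fill
  have hroom := hX.room
  rw [← hρ] at hfill
  have hWG : W ≤ G := fun u v h => h.1
  have hcls : ∀ u a b, 4 * (((nb G u).filter fun v => σ₀ v = a).filter fun v => σ₁ v = b).card ≤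
      D + 3 * η ∧ D ≤ 4 * (((nb G u).filter fun v => σ₀ v = a).filter fun v => σ₁ v = b).card +
        3 * η := fun u a b => by
    rw [filter_filter]
    exact hD.deg u a b
  have hEdeg : ∀ u, 4 * dg (crossG (sameG G σ₀) σ₁) u ≤ D + 3 * η ∧
      D ≤ 4 * dg (crossG (sameG G σ₀) σ₁) u + 3 * η := fun u => by
    have := hcls u (σ₀ u) (!σ₁ u)
    rwa [← nb_same, ← nb_cross] at this
  have hRdeg : ∀ u, D ≤ 2 * dg (crossG G σ₀) u + 3 * η := fun u => by
    have e1 := (hcls u (!σ₀ u) true).2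
    have e2 := (hcls u (!σ₀ u) false).2
    have e3 := filter_tf ((nb G u).filter fun v => σ₀ v = !σ₀ u) σ₁
    rw [← nb_cross] at e1 e2 e3
    unfold dg
    omega
  have hsub : ∀ (H H' : SimpleGraph V) (v : V), H ≤ H' ⊔ F → dg H v ≤ dg H' v + ρ :=
    fun H H' v h => by
      have := dg_mono h v; have := dg_sup_le H' F v; have := f4 v; omega
  have lst := last_twoX8 hS (s₁ := 2 * η + ρ) (N := N + 1) hp N.succ_pos σ₀ σ₁ hD.bal0 hD.bal1
    (G \ W) F sdiff_le (fun u v h e e' => h.2 ⟨h.1, e, e'⟩) (univ \ I) (fun v => by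
      have e1 := dg_sdiff hFB v
      have e2 := dg_sdiff hWG v
      have e3 : ∑ i ∈ univ \ I, p i + ∑ i ∈ I, p i = ∑ i, p i := sum_sdiff (subset_univ I)
      have := f3 v; have := hreg v
      omega) (fun u v => by
      have e1 : dg (sameG ((G \ W) \ F) σ₀) u ≤ dg (crossG (sameG G σ₀) σ₁) u :=
        dg_mono (H := sameG ((G \ W) \ F) σ₀) (H' := crossG (sameG G σ₀) σ₁)
          (fun a b h => ⟨⟨h.1.1.1, h.2⟩, fun e => h.1.1.2 ⟨h.1.1.1, h.2, e⟩⟩) u
      have e2 := hsub (crossG (sameG G σ₀) σ₁) (sameG ((G \ W) \ F) σ₀) v fun a b h => by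
        by_cases hF : F.Adj a b
        · exact Or.inr hF
        · exact Or.inl ⟨⟨⟨h.1.1, fun h' => h.2 h'.2.2⟩, hF⟩, h.1.2⟩
      have := hEdeg u; have := hEdeg v
      omega) (fun v => by
      have e2 := hsub (crossG G σ₀) (crossG ((G \ W) \ F) σ₀) v fun a b h => by
        by_cases hF : F.Adj a b
        · exact Or.inr hF
        · exact Or.inl ⟨⟨⟨h.1, fun h' => h.2 h'.2.1⟩, hF⟩, h.2⟩
      have := hRdeg v
      omega) (fun b e lo K he h1 h2 hc hs => by
      obtain ⟨c1, c2⟩ := cls_oppX8 σ₀ σ₁ b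
      have h3 : (N + 1) * (2 * η + ρ) = N * (2 * η + ρ) + (2 * η + ρ) := by ring
      obtain ⟨r, hr⟩ : ∃ r, K = lo + (2 * η + ρ) + r := ⟨K - (lo + (2 * η + ρ)), by omega⟩
      obtain ⟨F', g1, g2⟩ := h V G F (opp σ₀ σ₁ b) σ₀ N Γ' ρ r (r + (2 * η + ρ))
        (fun v => K - e v) (hD.last b) (by rw [c1, c2, hc]) hX.pos f4
        (fun v _ => by have := he v; omega) (by rw [mul_add, add_mul, one_mul]; omega) (by omega)
        (by
          have hK : ∀ v, e v ≤ K := fun v => by have := he v; omega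
          have s1 := sum_subX8 ((side σ₀ true).filter fun v => σ₁ v = b) e K hK
          have s2 := sum_subX8 ((side σ₀ false).filter fun v => σ₁ v = !b) e K hK
          rw [hc] at s1
          rw [c1, c2]
          omega)
      refine ⟨F', fun u v huv => ⟨⟨⟨(g1 huv).1.1, fun h' => (g1 huv).1.2.2.2 h'.2.1⟩,
        (g1 huv).1.2.2.2⟩, (g1 huv).2⟩, fun v => ?_, fun u v huv => ?_⟩
      · rw [g2, ← c1, ← c2]
        refine if_congr ?_ rfl rfl
        rw [mem_union, mem_cls, mem_cls]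
        cases σ₀ v <;> simp
      · obtain ⟨-, a1, a2, a3⟩ := (g1 huv).1
        rw [← c1, ← c2]
        simp only [mem_cls, a1, a2, true_and]
        revert a3
        cases σ₀ u <;> cases σ₀ v <;> simp)
  have := hS.sup _ _ _ _ sdiff_disjoint lst f2
  rw [sdiff_union_of_subset (subset_univ I)] at this
  have e : (G \ W) \ F ⊔ (W ⊔ F) = G := by
    rw [sup_comm W F, ← sup_assoc, sdiff_sup_cancel hFB, sdiff_sup_cancel hWG]
  rwa [e] at this

end Pool.Agent.MP_d20a68_co.Poly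

end

section

/-! The spectral gap and the choice of the parameters. -/

set_option autoImplicit false
set_option linter.unusedSectionVars false
set_option linter.unusedVariables false
open Finset
open scoped Classical

namespace Pool.Agent.MP_d20a68_co.Poly

variable {V : Type} [Fintype V]

/-- The adjacency matrix. -/
noncomputable def adjX9 (G : SimpleGraph V) (u v : V) : ℝ := if G.Adj u v then 1 else 0

/-- The indicator of one side of a set of lifts. -/
noncomputable def indX9 (T : Finset (V × Bool)) (c : Bool) (v : V) : ℝ :=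
  if (v, c) ∈ T then 1 else 0

lemma row_X9 {G : SimpleGraph V} {D : ℕ} (h : ∀ v, dg G v = D) (x : V → ℝ) :
    ∑ u, ∑ v, adjX9 G u v * x u = D * ∑ u, x u := by
  rw [mul_sum]
  refine sum_congr rfl fun u _ => ?_
  rw [← sum_mul, ← h u]
  simp [adjX9, dg, nb]

lemma col_X9 {G : SimpleGraph V} {D : ℕ} (h : ∀ v, dg G v = D) (x : V → ℝ) :
    ∑ u, ∑ v, adjX9 G u v * x v = D * ∑ u, x u := by
  rw [sum_comm, ← row_X9 h x]
  refine sum_congr rfl fun u _ => sum_congr rfl fun v _ => ?_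
  simp only [adjX9, G.adj_comm]

lemma ind_sq_X9 (T : Finset (V × Bool)) (c : Bool) (v : V) : indX9 T c v ^ 2 = indX9 T c v := by
  unfold indX9
  split_ifs <;> norm_num

lemma card_X9 (T : Finset (V × Bool)) :
    (T.card : ℝ) = ∑ v, indX9 T true v + ∑ v, indX9 T false v := by
  have h : (T.card : ℝ) = ∑ z : V × Bool, if z ∈ T then (1 : ℝ) else 0 := by simp
  rw [h, Fintype.sum_prod_type, ← sum_add_distrib]
  exact sum_congr rfl fun v _ => by rw [Fintype.sum_bool]; rfl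

lemma bd_X9 (G : SimpleGraph V) (T : Finset (V × Bool)) :
    ((bd G T).card : ℝ) = ∑ u, ∑ v, adjX9 G u v * (indX9 T true u * (1 - indX9 T false v) +
      indX9 T false u * (1 - indX9 T true v)) := by
  rw [bd, card_filter]
  push_cast
  simp only [Fintype.sum_prod_type, Fintype.sum_bool]
  refine sum_congr rfl fun u _ => ?_
  rw [← sum_add_distrib]
  refine sum_congr rfl fun v _ => ?_
  unfold adjX9 indX9 AdjT
  by_cases h0 : G.Adj u v <;> by_cases h1 : (u, true) ∈ T <;> by_cases h2 : (u, false) ∈ T <;>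
    by_cases h3 : (v, true) ∈ T <;> by_cases h4 : (v, false) ∈ T <;> simp [h0, h1, h2, h3, h4]

lemma polar_X9 {G : SimpleGraph V} {lam : ℝ} (H : ∀ x : V → ℝ, ∑ v, x v = 0 →
      |∑ u, ∑ v, if G.Adj u v then x u * x v else 0| ≤ lam * ∑ v, x v ^ 2) {x y : V → ℝ}
    (hx : ∑ v, x v = 0) (hy : ∑ v, y v = 0) :
    ∑ u, ∑ v, adjX9 G u v * (x u * y v + y u * x v) ≤ lam * (∑ v, x v ^ 2 + ∑ v, y v ^ 2) := by
  have h1 := (abs_le.1 (H (fun v => x v + y v) (by rw [sum_add_distrib, hx, hy, add_zero]))).2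
  have h2 := (abs_le.1 (H (fun v => x v - y v) (by rw [sum_sub_distrib, hx, hy, sub_zero]))).1
  have h3 : (∑ u, ∑ v, if G.Adj u v then (x u + y u) * (x v + y v) else 0) -
      (∑ u, ∑ v, if G.Adj u v then (x u - y u) * (x v - y v) else 0) =
      2 * ∑ u, ∑ v, adjX9 G u v * (x u * y v + y u * x v) := by
    rw [mul_sum, ← sum_sub_distrib]
    refine sum_congr rfl fun u _ => ?_
    rw [mul_sum, ← sum_sub_distrib]
    refine sum_congr rfl fun v _ => ?_
    unfold adjX9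
    split_ifs <;> ring
  have h4 : ∑ v, (x v + y v) ^ 2 + ∑ v, (x v - y v) ^ 2 = 2 * (∑ v, x v ^ 2 + ∑ v, y v ^ 2) := by
    rw [← sum_add_distrib, ← sum_add_distrib, mul_sum]
    exact sum_congr rfl fun v _ => by ring
  have h5 : lam * ∑ v, (x v + y v) ^ 2 + lam * ∑ v, (x v - y v) ^ 2 =
      2 * (lam * (∑ v, x v ^ 2 + ∑ v, y v ^ 2)) := by rw [← mul_add, h4]; ring
  linarith

theorem spec : SpecStmt := by
  intro V _ G D lam hD h0 hl H T
  rcases isEmpty_or_nonempty V with hV | hV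
  · have hT : T = ∅ := eq_empty_of_isEmpty T
    simp [hT]
  set n : ℝ := (Fintype.card V : ℝ) with hn
  have hn0 : 0 < n := by
    rw [hn]
    exact_mod_cast Fintype.card_pos
  set f := indX9 T true with hf
  set g := indX9 T false with hg
  set a := ∑ v, f v with ha
  set b := ∑ v, g v with hb
  set E := ∑ u, ∑ v, adjX9 G u v * (f u * g v + g u * f v) with hE
  have e1 : ((bd G T).card : ℝ) = D * (a + b) - E := by
    rw [bd_X9, mul_add, ha, hb, ← row_X9 hD f, ← row_X9 hD g, hE, ← sum_add_distrib,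
      ← sum_sub_distrib]
    refine sum_congr rfl fun u _ => ?_
    rw [← sum_add_distrib, ← sum_sub_distrib]
    exact sum_congr rfl fun v _ => by ring
  have z : ∀ (h : V → ℝ) (c : ℝ), c = ∑ v, h v → ∑ v, (n * h v - c) = 0 := fun h c hc => by
    rw [sum_sub_distrib, ← mul_sum, ← hc, sum_const, card_univ, nsmul_eq_mul, sub_self]
  have sq : ∀ (h : V → ℝ) (c : ℝ), c = ∑ v, h v → (∀ v, h v ^ 2 = h v) →
      ∑ v, (n * h v - c) ^ 2 = n ^ 2 * c - n * c ^ 2 := fun h c hc h2 => by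
    have : ∀ v, (n * h v - c) ^ 2 = (n ^ 2 - 2 * n * c) * h v + c ^ 2 := fun v => by
      linear_combination n ^ 2 * h2 v
    simp only [this]
    rw [sum_add_distrib, ← mul_sum, ← hc, sum_const, card_univ, nsmul_eq_mul]
    ring
  have e2 := polar_X9 H (z f a ha) (z g b hb)
  rw [sq f a ha (ind_sq_X9 T true), sq g b hb (ind_sq_X9 T false)] at e2
  have e3 : ∑ u, ∑ v, adjX9 G u v * ((n * f u - a) * (n * g v - b) + (n * g u - b) * (n * f v - a))
      = n ^ 2 * E - 2 * n * D * a * b := by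
    have r1 := row_X9 hD fun u => -(n * b) * f u - n * a * g u + 2 * a * b
    have r2 := col_X9 hD fun u => -(n * b) * f u - n * a * g u
    have s2 : ∑ u, (-(n * b) * f u - n * a * g u) = -(2 * n * a * b) := by
      rw [sum_sub_distrib, ← mul_sum, ← mul_sum, ← ha, ← hb]
      ring
    rw [sum_add_distrib, s2, sum_const, card_univ, nsmul_eq_mul, ← hn] at r1
    rw [s2] at r2
    have r3 : ∑ u, ∑ v, adjX9 G u v *
        ((n * f u - a) * (n * g v - b) + (n * g u - b) * (n * f v - a)) =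
        n ^ 2 * E + (∑ u, ∑ v, adjX9 G u v * (-(n * b) * f u - n * a * g u + 2 * a * b)) +
          ∑ u, ∑ v, adjX9 G u v * (-(n * b) * f v - n * a * g v) := by
      rw [hE, mul_sum, ← sum_add_distrib, ← sum_add_distrib]
      refine sum_congr rfl fun u _ => ?_
      rw [mul_sum, ← sum_add_distrib, ← sum_add_distrib]
      exact sum_congr rfl fun v _ => by ring
    rw [r3, r1, r2]
    ring
  rw [e3] at e2
  have e4 : n * E - 2 * D * a * b ≤ lam * (n * (a + b) - (a ^ 2 + b ^ 2)) :=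
    le_of_mul_le_mul_left (by linarith) hn0
  have e5 : 0 ≤ (D + lam) * (a - b) ^ 2 := by positivity
  rw [card_X9, e1, ← hf, ← hg, ← ha, ← hb]
  linarith

lemma fill_X9 {k L η M s Γ : ℝ} (hk : 0 < k) (hL : 1 ≤ L) (hη : 0 ≤ η) (hM : 1 ≤ M) (hs : 0 ≤ s)
    (hΓ : 2 * 10 ^ 6 ≤ Γ) (h1 : M * Γ ≤ 5 * 10 ^ 5 * k) (h2 : 10 ^ 21 * k ^ 2 * L * η ≤ Γ ^ 3)
    (h3 : 10 ^ 50 * k * L * s ≤ Γ ^ 2) :
    804 * L * (M * (2 * η) + s) + M * (2 * η + 804 * L * (M * (2 * η) + s)) + s ≤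
      Γ / (4 * 10 ^ 5) - 1 := by
  have hΓ0 : 0 < Γ := by linarith
  have hW : 0 ≤ M * (2 * η) + s := by positivity
  have a1 : L * (M * (2 * η) + s) ≤ M * L * (M * (2 * η) + s) := by
    rw [mul_assoc]
    exact le_mul_of_one_le_left (by positivity) hM
  have a2 : M * (2 * η) + s ≤ L * (M * (2 * η) + s) := le_mul_of_one_le_left hW hL
  have b1 : M ^ 2 * L * η * (3218 * 10 ^ 6) ≤ Γ := by
    refine le_of_mul_le_mul_right ?_ (by positivity : 0 < Γ ^ 2)
    have c1 : (M * Γ) ^ 2 ≤ (5 * 10 ^ 5 * k) ^ 2 := pow_le_pow_left₀ (by positivity) h1 2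
    have c2 : (M * Γ) ^ 2 * (L * η) ≤ (5 * 10 ^ 5 * k) ^ 2 * (L * η) :=
      mul_le_mul_of_nonneg_right c1 (by positivity)
    have c3 : 0 ≤ k ^ 2 * L * η := by positivity
    linarith
  have b2 : M * L * s * (1609 * 10 ^ 6) ≤ Γ := by
    refine le_of_mul_le_mul_right ?_ hΓ0
    have c2 : M * Γ * (L * s) ≤ 5 * 10 ^ 5 * k * (L * s) :=
      mul_le_mul_of_nonneg_right h1 (by positivity)
    have c3 : 0 ≤ k * L * s := by positivity
    linarith
  linarith

theorem xOf (h1 : OracleStmt) (h2 : PhaseStmt) (h3 : LastStmt) (h4 : ExtStmt) : XStmt := by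
  refine ⟨10 ^ 50, fun V _ _ G k s Γ hk hdeg hev hexp hΓ0 hΓk hA hB q p hp hsum Col hsys => ?_⟩
  obtain ⟨L, hL⟩ : ∃ L : ℕ, L = Nat.log 2 k + 1 := ⟨_, rfl⟩
  have hLr : ((Nat.log 2 k : ℕ) : ℝ) + 1 = L := by rw [hL]; push_cast; rfl
  rw [hLr] at hA hB
  push_cast at hA hB
  have hL1 : 1 ≤ L := by omega
  have hL1r : (1 : ℝ) ≤ L := by exact_mod_cast hL1
  have hpow : k ≤ 2 ^ L := hL ▸ (Nat.lt_pow_succ_log_self (by norm_num) k).le
  have hkr : (1 : ℝ) ≤ k := by exact_mod_cast hk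
  have hΓp : 0 < Γ := by
    refine hΓ0.lt_of_ne fun h => ?_
    rw [← h] at hA
    have : (0 : ℝ) < 10 ^ 50 * (k : ℝ) ^ 5 * (L : ℝ) ^ 4 := by positivity
    norm_num at hA this
    linarith
  have g1 : 10 ^ 50 * (L : ℝ) ^ 4 ≤ Γ := by
    refine le_of_mul_le_mul_right ?_ (by positivity : 0 < Γ ^ 5)
    have c1 : Γ ^ 5 ≤ (k : ℝ) ^ 5 := pow_le_pow_left₀ hΓ0 hΓk 5
    have c2 : Γ ^ 5 * (L : ℝ) ^ 4 ≤ (k : ℝ) ^ 5 * (L : ℝ) ^ 4 :=
      mul_le_mul_of_nonneg_right c1 (by positivity)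
    linarith
  have l24 : (L : ℝ) ^ 2 ≤ (L : ℝ) ^ 4 := pow_le_pow_right₀ hL1r (by norm_num)
  have l12 : (1 : ℝ) ≤ (L : ℝ) ^ 2 := one_le_pow₀ hL1r
  have hpar : Par k L := ⟨hL1, hpow, by
    have : (10 : ℝ) ^ 8 * (L : ℝ) ^ 4 ≤ k := by linarith
    exact_mod_cast this⟩
  obtain ⟨η, hη⟩ : ∃ η : ℕ, η = Nat.sqrt (400 * L * k) + 1 := ⟨_, rfl⟩
  have e1 : 400 * L * k ≤ η ^ 2 := hη ▸ (Nat.lt_succ_sqrt' _).le
  have e2 : (η : ℝ) ^ 2 ≤ 802 * (L * k) := by
    have c1 : ((Nat.sqrt (400 * L * k) : ℕ) : ℝ) ^ 2 ≤ 400 * L * k := by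
      exact_mod_cast Nat.sqrt_le' (400 * L * k)
    have c2 : (1 : ℝ) ≤ L * k := one_le_mul_of_one_le_of_one_le hL1r hkr
    rw [hη]
    push_cast
    nlinarith [sq_nonneg (((Nat.sqrt (400 * L * k) : ℕ) : ℝ) - 1)]
  have l34 : (k : ℝ) ^ 5 * (L : ℝ) ^ 3 ≤ (k : ℝ) ^ 5 * (L : ℝ) ^ 4 :=
    mul_le_mul_of_nonneg_left (pow_le_pow_right₀ hL1r (by norm_num)) (by positivity)
  have l35 : (k : ℝ) ^ 3 * (L : ℝ) ^ 3 ≤ (k : ℝ) ^ 5 * (L : ℝ) ^ 3 :=
    mul_le_mul_of_nonneg_right (pow_le_pow_right₀ hkr (by norm_num)) (by positivity)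
  have l0 : (0 : ℝ) ≤ (k : ℝ) ^ 3 * (L : ℝ) ^ 3 := by positivity
  have g2 : 10 ^ 16 * (L * k : ℝ) ≤ Γ ^ 2 := by
    refine (pow_le_pow_iff_left₀ (by positivity) (by positivity) three_ne_zero).1 ?_
    linarith
  have g3 : 12 * 10 ^ 5 * (η : ℝ) ≤ Γ := by
    refine (pow_le_pow_iff_left₀ (by positivity) hΓ0 two_ne_zero).1 ?_
    have : (0 : ℝ) ≤ L * k := by positivity
    linarith
  have g4 : 10 ^ 21 * (k : ℝ) ^ 2 * L * η ≤ Γ ^ 3 := by
    refine (pow_le_pow_iff_left₀ (by positivity) (by positivity) two_ne_zero).1 ?_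
    have c1 : (k : ℝ) ^ 4 * (L : ℝ) ^ 2 * (η : ℝ) ^ 2 ≤ (k : ℝ) ^ 4 * (L : ℝ) ^ 2 * (802 * (L * k)) :=
      mul_le_mul_of_nonneg_left e2 (by positivity)
    linarith
  obtain ⟨N, hN⟩ : ∃ N : ℕ, N = ⌈4 * 10 ^ 5 * (k : ℝ) / Γ⌉₊ := ⟨_, rfl⟩
  have n1 : 4 * 10 ^ 5 * (k : ℝ) ≤ Γ * N := by
    rw [mul_comm Γ, ← div_le_iff₀ hΓp, hN]
    exact Nat.le_ceil _
  have n2 : ((N : ℝ) + 1) * Γ ≤ 5 * 10 ^ 5 * k := by
    have c1 : (N : ℝ) < 4 * 10 ^ 5 * (k : ℝ) / Γ + 1 := hN ▸ Nat.ceil_lt_add_one (by positivity)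
    have c2 : ((N : ℝ) - 1) * Γ < 4 * 10 ^ 5 * (k : ℝ) := (lt_div_iff₀ hΓp).1 (by linarith)
    linarith
  have n3 : 0 < N := hN ▸ Nat.ceil_pos.2 (by positivity)
  obtain ⟨Γ', hΓ'⟩ : ∃ Γ' : ℕ, Γ' = ⌊Γ / (4 * 10 ^ 5)⌋₊ := ⟨_, rfl⟩
  have m1 : 4 * 10 ^ 5 * (Γ' : ℝ) ≤ Γ := by
    have : (Γ' : ℝ) ≤ Γ / (4 * 10 ^ 5) := hΓ' ▸ Nat.floor_le (by positivity)
    linarith
  have m2 : Γ / (4 * 10 ^ 5) - 1 ≤ Γ' := by
    have : Γ / (4 * 10 ^ 5) < (Γ' : ℝ) + 1 := hΓ' ▸ Nat.lt_floor_add_one _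
    linarith
  have hnum : XNum k L η N Γ' s := by
    refine ⟨hL1, hpow, e1, by omega, n3, ?_, ?_⟩
    · have c1 := (fill_X9 (M := (N : ℝ) + 1) (by linarith) hL1r (Nat.cast_nonneg η)
        (le_add_of_nonneg_left (Nat.cast_nonneg N)) (Nat.cast_nonneg s) (by linarith) n2 g4
        (by linarith)).trans m2
      unfold Rb
      exact_mod_cast c1
    · have : 4 * (Γ' : ℝ) + 6 * η ≤ k := by linarith
      exact_mod_cast this
  obtain ⟨π, hπ, -⟩ := h4 V ⊥ hev fun v => by simp [dg, nb]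
  obtain ⟨σ₀, σ₁, hX⟩ := h1 V G k L η N Γ' Γ hpar hdeg ⟨π, hπ⟩ hexp hΓk (by linarith) n1 g3 m1 e1
  obtain ⟨F, hF, I, c1, c2, c3⟩ := h2 V G q p Col k L η N Γ' s σ₀ σ₁ hsys hp hsum hdeg hev hnum hX
  exact h3 V G q p Col k L η N Γ' s σ₀ σ₁ hsys hp hsum hdeg hnum hX F hF I c1 c2 c3

end Pool.Agent.MP_d20a68_co.Poly

end
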