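import Pool.Agent.Mg.Fd20a68.G8b26fe

/-! From decompositions to list colourings, and the choice of parameters. -/

set_option autoImplicit false
set_option linter.unusedSectionVars false
set_option linter.unusedVariables false
open Finset
open scoped Classical

namespace Pool.Agent.MP_d20a68_co

variable {V : Type} [Fintype V]

/-- The lists, as a function of two vertices. -/
noncomputable def lst (G : SimpleGraph V) (L : G.edgeSet → Finset ℕ) (u v : V) : Finset ℕ :=
  if h : G.Adj u v then L ⟨s(u, v), h⟩ else ∅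

lemma lst_symm (G : SimpleGraph V) (L : G.edgeSet → Finset ℕ) (u v : V) :
    lst G L u v = lst G L v u := by
  unfold lst
  by_cases h : G.Adj u v
  · rw [dif_pos h, dif_pos h.symm]
    congr 2
    exact Sym2.eq_swap
  · rw [dif_neg h, dif_neg fun h' => h h'.symm]

/-- Colourability of a subgraph from the lists using colours of the classes in `I`. -/
def ColL (G : SimpleGraph V) {q : ℕ} (c : ℕ → Fin q) (L : G.edgeSet → Finset ℕ)
    (H : SimpleGraph V) (I : Finset (Fin q)) : Prop :=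
  ∃ f, PC H f ∧ ∀ u v, H.Adj u v → f u v ∈ lst G L u v ∧ c (f u v) ∈ I

lemma sys_colL (G : SimpleGraph V) {q : ℕ} (p : Fin q → ℕ) (c : ℕ → Fin q)
    (L : G.edgeSet → Finset ℕ) (hL : ∀ e i, p i ≤ ((L e).filter (fun x => c x = i)).card) :
    Sys G p (ColL G c L) := by
  constructor
  · intro H hH I σ hσ hD
    obtain ⟨f, f1, f2⟩ := galvin _ H σ hσ hD (fun u v => (lst G L u v).filter fun x => c x ∈ I)
      (fun u v _ => by rw [lst_symm]) (fun u v huv => by
        have h := hH huv
        rw [card_eq_sum_card_fiberwise (f := c) (s := (lst G L u v).filter fun x => c x ∈ I)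
          (t := I) fun x hx => (mem_filter.1 hx).2]
        refine sum_le_sum fun i hi => (hL ⟨s(u, v), h⟩ i).trans (card_le_card fun x hx => ?_)
        rw [mem_filter] at hx
        simp only [mem_filter, lst, dif_pos h]
        exact ⟨⟨hx.1, hx.2 ▸ hi⟩, hx.2⟩)
    exact ⟨f, f1, fun u v huv => mem_filter.1 (f2 u v huv)⟩
  · rintro H H' I I' hd ⟨f, f1, f2⟩ ⟨f', g1, g2⟩
    have key : ∀ u v u' v', H.Adj u v → H'.Adj u' v' → f u v ≠ f' u' v' := fun u v u' v' h h' e =>
      disjoint_left.1 hd (f2 u v h).2 (e ▸ (g2 u' v' h').2)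
    refine ⟨fun u v => if H.Adj u v then f u v else f' u v, ⟨fun u v h => ?_,
      fun u v w h h' hne => ?_⟩, fun u v h => ?_⟩
    · by_cases h1 : H.Adj u v
      · simp only [if_pos h1, if_pos h1.symm]; exact f1.symm u v h1
      · have h2 : ¬ H.Adj v u := fun h => h1 h.symm
        simp only [if_neg h1, if_neg h2]; exact g1.symm u v (h.resolve_left h1)
    · by_cases h1 : H.Adj u v <;> by_cases h2 : H.Adj u w
      · simp only [if_pos h1, if_pos h2]; exact f1.ne u v w h1 h2 hne
      · simp only [if_pos h1, if_neg h2]; exact key _ _ _ _ h1 (h'.resolve_left h2)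
      · simp only [if_neg h1, if_pos h2]; exact (key _ _ _ _ h2 (h.resolve_left h1)).symm
      · simp only [if_neg h1, if_neg h2]
        exact g1.ne u v w (h.resolve_left h1) (h'.resolve_left h2) hne
    · by_cases h1 : H.Adj u v
      · simp only [if_pos h1]; exact ⟨(f2 u v h1).1, mem_union_left _ (f2 u v h1).2⟩
      · simp only [if_neg h1]
        exact ⟨(g2 u v (h.resolve_left h1)).1, mem_union_right _ (g2 u v (h.resolve_left h1)).2⟩

lemma of_colL (G : SimpleGraph V) {q : ℕ} (c : ℕ → Fin q) (L : G.edgeSet → Finset ℕ)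
    (I : Finset (Fin q)) (h : ColL G c L G I) :
    ∃ f : G.edgeSet → ℕ, (∀ e, f e ∈ L e) ∧
      ∀ e₁ e₂ : G.edgeSet, e₁ ≠ e₂ → (∃ v : V, v ∈ e₁.1 ∧ v ∈ e₂.1) → f e₁ ≠ f e₂ := by
  obtain ⟨f, f1, f2⟩ := h
  let g : Sym2 V → ℕ := Sym2.lift ⟨fun u v => min (f u v) (f v u), fun u v => min_comm _ _⟩
  have hg : ∀ u v, G.Adj u v → g s(u, v) = f u v := fun u v h => by
    simp only [g, Sym2.lift_mk]
    rw [← f1.symm u v h, min_self]
  refine ⟨fun e => g e.1, ?_, ?_⟩
  · rintro ⟨e, he⟩
    induction e using Sym2.ind with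
    | h u v =>
      have h : G.Adj u v := he
      have := (f2 u v h).1
      rw [lst, dif_pos h] at this
      simp only [hg u v h]
      exact this
  · rintro ⟨e₁, h1⟩ ⟨e₂, h2⟩ hne ⟨v, v1, v2⟩
    obtain ⟨x, rfl⟩ := Sym2.mem_iff_exists.1 v1
    obtain ⟨y, rfl⟩ := Sym2.mem_iff_exists.1 v2
    have h1' : G.Adj v x := h1
    have h2' : G.Adj v y := h2
    simp only [hg v x h1', hg v y h2']
    exact f1.ne v x y h1' h2' fun h => hne (by subst h; rfl)

lemma eventually_pow (C : ℕ) : ∃ T, ∀ t ≥ T, C * t ^ 3 ≤ 2 ^ t := by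
  have h := tendsto_pow_const_div_const_pow_of_one_lt 3 (r := 2) (by norm_num)
  have h2 := h.eventually (gt_mem_nhds (show (0 : ℝ) < 1 / (C + 1) by positivity))
  obtain ⟨T, hT⟩ := Filter.eventually_atTop.1 h2
  refine ⟨T, fun t ht => ?_⟩
  have h3 := hT t ht
  rw [div_lt_div_iff₀ (by positivity) (by positivity)] at h3
  have h4 : (C : ℝ) * t ^ 3 ≤ 2 ^ t := by
    have : (0 : ℝ) ≤ t ^ 3 := by positivity
    nlinarith
  exact_mod_cast h4

lemma log_bound {k t : ℕ} (hk : 3 ≤ k) (h : 2 ^ t ≤ 4 * k) : (t : ℝ) ≤ 4 * Real.log k := by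
  have h3 : (3 : ℝ) ≤ k := by exact_mod_cast hk
  have h1 : 1 ≤ Real.log k := by
    rw [Real.le_log_iff_exp_le (by positivity)]
    have := Real.exp_one_lt_d9
    linarith
  have h2 : (2 : ℝ) ^ t ≤ 2 ^ 2 * k := by norm_num; exact_mod_cast h
  have h4 := Real.log_le_log (by positivity) h2
  rw [Real.log_mul (by positivity) (by positivity), Real.log_pow, Real.log_pow] at h4
  have h5 := Real.log_two_gt_d9
  have h6 := Real.log_two_lt_d9
  have h7 : (0 : ℝ) ≤ t := by positivity
  push_cast at h4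
  nlinarith

theorem dense_regular (ε : ℝ) (hε : 0 < ε) : ∃ c : ℝ, 0 < c ∧ ∃ K : ℕ, ∀ k : ℕ, K ≤ k →
    ∀ (V : Type) [Fintype V] (G : SimpleGraph V), (∀ v, dg G v = k) → Even (Fintype.card V) →
      (Fintype.card V : ℝ) ≤ (2 - ε) * k → ∀ (q : ℕ) (p : Fin q → ℕ),
      (∀ i, (p i : ℝ) ≤ c * k / Real.log k) → ∑ i, p i = k →
      ∀ Col : SimpleGraph V → Finset (Fin q) → Prop, Nonempty V → Sys G p Col → Col G univ := by
  obtain ⟨M, hM⟩ := exists_nat_ge (max 12 (8 / ε))
  have hM1 : 12 ≤ M := by exact_mod_cast (le_max_left _ _).trans hM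
  have hM2 : 8 ≤ ε * M := by
    have := (le_max_right _ _).trans hM
    rwa [div_le_iff₀ hε, mul_comm] at this
  set N := 2 * M with hN
  set A := 16 * N * (N + 3) with hA
  set B := 2 * N * A with hB
  have hNp : 0 < N := by omega
  have hAp : 0 < A := by positivity
  have hBp : 0 < B := by positivity
  obtain ⟨T, hT⟩ := eventually_pow (48 * B ^ 2)
  refine ⟨1 / (4 * A), by positivity, 2 ^ T + M + 3, fun k hk V _ G hreg hev hn q p hp hsum Col
    hne hS => ?_⟩
  have hTp : 0 < 2 ^ T := by positivity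
  set n := Fintype.card V with hnd
  have hkn : k < n := by
    obtain ⟨v⟩ := hne
    rw [← hreg v, hnd, ← card_univ]
    exact card_lt_card ⟨subset_univ _, fun h => by simpa using h (mem_univ v)⟩
  have hk0 : (0 : ℝ) ≤ k := by positivity
  have hn2 : n ≤ 2 * k := by
    have : (n : ℝ) ≤ 2 * k := by nlinarith
    exact_mod_cast this
  set t := Nat.log 2 n + 1 with ht
  have ht1 : n < 2 ^ t := Nat.lt_pow_succ_log_self (by norm_num) n
  have ht2 : 2 ^ t ≤ 2 * n := by
    rw [ht, pow_succ, mul_comm]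
    exact Nat.mul_le_mul_left _ (Nat.pow_log_le_self 2 (by omega))
  have htT : T ≤ t := by
    have : 2 ^ T < 2 ^ t := by omega
    exact ((Nat.pow_lt_pow_iff_right (by norm_num)).1 this).le
  have ht0 : 1 ≤ t := by omega
  have hT' := hT t htT
  have hlog := log_bound (k := k) (t := t) (by omega) (by omega)
  have hlp : 0 < Real.log k := by
    have : (1 : ℝ) ≤ t := by exact_mod_cast ht0
    linarith
  set s := ⌊1 / (4 * (A : ℝ)) * k / Real.log k⌋₊ with hs
  have hs1 : A * t * s ≤ n := by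
    have h1 : (s : ℝ) ≤ 1 / (4 * (A : ℝ)) * k / Real.log k := Nat.floor_le (by positivity)
    rw [le_div_iff₀ hlp, div_mul_eq_mul_div, le_div_iff₀ (by positivity)] at h1
    have h2 : (A : ℝ) * t * s ≤ k := by
      have h3 : (0 : ℝ) ≤ A * s := by positivity
      nlinarith
    have : A * t * s ≤ k := by exact_mod_cast h2
    omega
  set η := n / (B * t) with hη
  have hη1 : B * t * η ≤ n := Nat.mul_div_le n (B * t)
  have hη2 : n < B * t * (η + 1) := Nat.lt_mul_div_succ n (by positivity)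
  have hbig : 24 * B ^ 2 * t ^ 3 ≤ n := by nlinarith
  have hBt : B * t ≤ n := by
    calc B * t ≤ B ^ 2 * t ^ 3 := Nat.mul_le_mul (Nat.le_self_pow (by norm_num) _)
          (Nat.le_self_pow (by norm_num) _)
      _ ≤ n := by nlinarith
  have hη3 : 1 ≤ η := Nat.div_pos hBt (by positivity)
  have hη4 : n ≤ 2 * (B * t * η) := by nlinarith
  set y := n / M with hy
  have hy1 : M * y ≤ n := Nat.mul_div_le n M
  have hy2 : n < M * (y + 1) := Nat.lt_mul_div_succ n (by omega)
  have hy3 : 1 ≤ y := Nat.div_pos (by omega) (by omega)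
  have hy4 : n ≤ N * y := by rw [hN]; nlinarith
  refine decomp hS (s := s) (η := η) (N := N) (y := y) (t := t) hreg hsum
    (fun i => Nat.le_floor (hp i)) hev hη3 hNp ?_ (by nlinarith) hy4 ht1.le ?_ ?_
  · have h1 : (M : ℝ) * y ≤ 2 * k := by exact_mod_cast hy1.trans hn2
    have h2 : (0 : ℝ) ≤ y := by positivity
    have h3 : (4 : ℝ) * y ≤ ε * k := by nlinarith
    have : (n : ℝ) + 4 * y ≤ 2 * k := by linarith
    exact_mod_cast this
  · set X := N * (2 * η) + s with hX
    have h1 : 16 * η + 8 * (t * X + (N * (2 * η + t * X) + s)) ≤ 8 * (N + 3) * (t * X) := by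
      have e1 : N * (2 * η + t * X) + s = X + N * (t * X) := by rw [hX]; ring
      have e2 : 2 * η ≤ X := by rw [hX]; nlinarith
      have e3 : X ≤ t * X := Nat.le_mul_of_pos_left _ ht0
      rw [e1]; nlinarith
    have h2 : 2 * (N * (8 * (N + 3) * (t * X))) = B * t * η + A * t * s := by
      rw [hX, hB, hA]; ring
    have h3 : N * (8 * (N + 3) * (t * X)) ≤ N * y := by omega
    exact h1.trans (Nat.le_of_mul_le_mul_left h3 hNp)
  · have hnp : (0 : ℝ) < n := by exact_mod_cast (show 0 < n by omega)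
    have h1 : (t + 5) * n ≤ η ^ 2 := by
      have e1 : n * n ≤ 2 * (B * t * η) * (2 * (B * t * η)) := Nat.mul_le_mul hη4 hη4
      have e2 : 4 * (B * t) ^ 2 * (t + 5) ≤ n := by
        calc 4 * (B * t) ^ 2 * (t + 5) ≤ 4 * (B * t) ^ 2 * (6 * t) :=
              Nat.mul_le_mul_left _ (by omega)
          _ = 24 * B ^ 2 * t ^ 3 := by ring
          _ ≤ n := hbig
      have e3 : 4 * (B * t) ^ 2 * ((t + 5) * n) ≤ 4 * (B * t) ^ 2 * η ^ 2 := by
        calc 4 * (B * t) ^ 2 * ((t + 5) * n) = 4 * (B * t) ^ 2 * (t + 5) * n := by ring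
          _ ≤ n * n := Nat.mul_le_mul_right _ e2
          _ ≤ _ := e1
          _ = _ := by ring
      exact Nat.le_of_mul_le_mul_left e3 (by positivity)
    have h2 : ((t + 5 : ℕ) : ℝ) ≤ (η : ℝ) ^ 2 / n := by
      rw [le_div_iff₀ hnp]; exact_mod_cast h1
    refine le_trans ?_ (Real.exp_le_exp.2 h2)
    have h3 : (2 : ℝ) ^ (t + 5) ≤ Real.exp ((t + 5 : ℕ) : ℝ) := by
      rw [← Real.exp_one_pow]
      exact pow_le_pow_left₀ (by norm_num) (by have := Real.exp_one_gt_d9; linarith) _
    refine le_trans ?_ h3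
    have h4 : (n : ℝ) ≤ 2 ^ t := by exact_mod_cast ht1.le
    rw [pow_add]
    nlinarith

end Pool.Agent.MP_d20a68_co
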